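import Pool.Agent.SGL.Stmts

/-!
# SGL CPL: completeness of the field of a scale
-/

set_option autoImplicit false

namespace Pool.Agent.SGL

open Filter Pool.Agent.SBT

namespace CPL_

variable {σ : Sc}

/-- telescoping estimate -/
lemma tele (f : ℕ → ℝ) (T ε : ℝ) (hT : 1 ≤ T) (K : ℕ)
    (h : ∀ j < K, |f (j + 1) - f j| ≤ Real.exp ((-(j : ℝ) + ε) * T)) :
    ∀ d k : ℕ, k + d = K → |f K - f k| ≤ 2 * Real.exp ((-(k : ℝ) + ε) * T) := by
  intro d
  induction d with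
  | zero =>
    intro k hk
    have : k = K := by omega
    subst this
    rw [sub_self, abs_zero]
    positivity
  | succ d ih =>
    intro k hk
    have h1 := ih (k + 1) (by omega)
    have h2 := h k (by omega)
    have h3 : |f K - f k| ≤ |f K - f (k + 1)| + |f (k + 1) - f k| := by
      have := abs_add_le (f K - f (k + 1)) (f (k + 1) - f k)
      rwa [sub_add_sub_cancel] at this
    have h4 : Real.exp ((-((k + 1 : ℕ) : ℝ) + ε) * T) =
        Real.exp ((-(k : ℝ) + ε) * T) * Real.exp (-T) := by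
      rw [← Real.exp_add]
      congr 1
      push_cast
      ring
    have h5 : Real.exp (-T) ≤ 1 / 2 := by
      have h6 : Real.exp (-T) ≤ Real.exp (-1) := Real.exp_le_exp.2 (by linarith)
      have h7 : Real.exp (-1) ≤ 1 / 2 := by
        have h17 := Real.add_one_le_exp (1 : ℝ)
        rw [Real.exp_neg, one_div]
        exact inv_anti₀ (by norm_num) (by linarith)
      linarith
    have h8 := Real.exp_pos ((-(k : ℝ) + ε) * T)
    rw [h4] at h1
    nlinarith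

/-- the sets of good indices -/
def A (σ : Sc) (f : ℕ → ℕ → ℝ) (k n : ℕ) : Prop :=
  (k : ℝ) ≤ σ.T n ∧ 1 ≤ σ.T n ∧
    ∀ j < k, |f (j + 1) n - f j n| ≤ Real.exp ((-(j : ℝ) + 1 / ((k : ℝ) + 1)) * σ.T n)

lemma A_ev (f : ℕ → ℕ → ℝ) (hf : ∀ k, f k ∈ OO σ)
    (h : ∀ k, V (cl σ (f (k + 1)) - cl σ (f k)) (-(k : ℝ))) (k : ℕ) :
    ∀ᶠ n in (σ.U : Filter ℕ), A σ f k n := by
  have h1 : ∀ j < k, ∀ᶠ n in (σ.U : Filter ℕ),
      |f (j + 1) n - f j n| ≤ Real.exp ((-(j : ℝ) + 1 / ((k : ℝ) + 1)) * σ.T n) := by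
    intro j _
    have h2 := h j
    rw [← cl_sub (hf (j + 1)) (hf j)] at h2
    have hm : (fun n => f (j + 1) n - f j n) ∈ OO σ := (OO σ).sub_mem (hf (j + 1)) (hf j)
    apply (V_cl hm).1 h2
    have : (0 : ℝ) < 1 / ((k : ℝ) + 1) := by positivity
    linarith
  have h3 : ∀ᶠ n in (σ.U : Filter ℕ), ∀ j < k,
      |f (j + 1) n - f j n| ≤ Real.exp ((-(j : ℝ) + 1 / ((k : ℝ) + 1)) * σ.T n) :=
    (Filter.eventually_all_finite (Set.finite_lt_nat k)).2 h1
  filter_upwards [σ.large k, σ.large 1, h3] with n a b c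
  exact ⟨a, b, c⟩

open Classical in
/-- the diagonal index -/
noncomputable def ka (σ : Sc) (f : ℕ → ℕ → ℝ) (n : ℕ) : ℕ :=
  Nat.findGreatest (fun k => ∀ i ≤ k, A σ f i n) ⌊σ.T n⌋₊

lemma ka_spec (f : ℕ → ℕ → ℝ) (n K : ℕ) (h : ∀ i ≤ K, A σ f i n) :
    K ≤ ka σ f n ∧ ∀ i ≤ ka σ f n, A σ f i n := by
  classical
  have h1 : K ≤ ⌊σ.T n⌋₊ := Nat.le_floor (h K le_rfl).1
  constructor
  · unfold ka
    exact Nat.le_findGreatest h1 h
  · unfold ka
    exact Nat.findGreatest_spec (P := fun k => ∀ i ≤ k, A σ f i n) h1 h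

lemma main_est (f : ℕ → ℕ → ℝ) (n K k : ℕ) (hk : k ≤ K) (h : ∀ i ≤ K, A σ f i n) :
    |f (ka σ f n) n - f k n| ≤ 2 * Real.exp ((-(k : ℝ) + 1 / ((K : ℝ) + 1)) * σ.T n) := by
  obtain ⟨h1, h2⟩ := ka_spec f n K h
  have h3 := h2 _ le_rfl
  have h4 := tele (fun j => f j n) (σ.T n) (1 / ((K : ℝ) + 1)) h3.2.1 (ka σ f n) (by
    intro j hj
    refine (h3.2.2 j hj).trans (Real.exp_le_exp.2 ?_)
    apply mul_le_mul_of_nonneg_right _ (by linarith [h3.2.1])
    have h5 : (1 : ℝ) / ((ka σ f n : ℝ) + 1) ≤ 1 / ((K : ℝ) + 1) := by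
      apply one_div_le_one_div_of_le (by positivity)
      have : (K : ℝ) ≤ (ka σ f n : ℝ) := by exact_mod_cast h1
      linarith
    linarith) (ka σ f n - k) k (by omega)
  exact h4

end CPL_

open CPL_ in
theorem cpl_proof : Stmt_CPL := by
  intro σ x hx
  choose f hf hfx using fun k => cl_surj (x k)
  have h : ∀ k, V (cl σ (f (k + 1)) - cl σ (f k)) (-(k : ℝ)) := by
    intro k
    rw [hfx, hfx]
    exact hx k
  have hev : ∀ K : ℕ, ∀ᶠ n in (σ.U : Filter ℕ), ∀ i ≤ K, A σ f i n := by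
    intro K
    exact (Filter.eventually_all_finite (Set.finite_le_nat K)).2 (fun i _ => A_ev f hf h i)
  have hy0 : (fun n => f (ka σ f n) n - f 0 n) ∈ OO σ := by
    refine ⟨2, ?_⟩
    filter_upwards [hev 0] with n hn
    have h1 := main_est f n 0 0 le_rfl hn
    have h2 : (2 : ℝ) ≤ Real.exp (σ.T n) := by
      have := Real.add_one_le_exp (σ.T n)
      have := (hn 0 le_rfl).2.1
      linarith
    refine h1.trans ?_
    have h3 : Real.exp (2 * σ.T n) = Real.exp (σ.T n) * Real.exp (σ.T n) := by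
      rw [← Real.exp_add]
      congr 1
      ring
    rw [h3]
    have h4 : ((-((0 : ℕ) : ℝ) + 1 / (((0 : ℕ) : ℝ) + 1)) * σ.T n) = σ.T n := by
      norm_num
    rw [h4]
    exact mul_le_mul_of_nonneg_right h2 (Real.exp_pos _).le
  have hy : (fun n => f (ka σ f n) n) ∈ OO σ := by
    have h1 := (OO σ).add_mem hy0 (hf 0)
    have h2 : ((fun n => f (ka σ f n) n - f 0 n) + f 0) = fun n => f (ka σ f n) n := by
      funext n
      simp
    rwa [h2] at h1
  refine ⟨cl σ (fun n => f (ka σ f n) n), ?_⟩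
  intro k
  have hm : (fun n => f (ka σ f n) n - f k n) ∈ OO σ := (OO σ).sub_mem hy (hf k)
  rw [← hfx k, ← cl_sub hy (hf k)]
  refine (V_cl hm).2 ?_
  intro c' hc'
  obtain ⟨ε, hε, hε2⟩ : ∃ ε : ℝ, 0 < ε ∧ -(k : ℝ) + 2 * ε = c' :=
    ⟨(c' + k) / 2, by linarith, by ring⟩
  obtain ⟨K0, hK0⟩ := exists_nat_one_div_lt hε
  filter_upwards [hev (max K0 k), σ.large (1 / ε)] with n h1 h2
  have h3 := main_est f n (max K0 k) k (le_max_right _ _) h1
  have h4 : 1 ≤ ε * σ.T n := by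
    rw [div_le_iff₀ hε] at h2
    linarith
  have hT : 1 ≤ σ.T n := (h1 0 (Nat.zero_le _)).2.1
  have h5 : (2 : ℝ) ≤ Real.exp (ε * σ.T n) := by
    have := Real.add_one_le_exp (ε * σ.T n)
    linarith
  have h6 : (1 : ℝ) / (((max K0 k : ℕ) : ℝ) + 1) ≤ ε := by
    refine le_trans ?_ hK0.le
    apply one_div_le_one_div_of_le (by positivity)
    have : (K0 : ℝ) ≤ ((max K0 k : ℕ) : ℝ) := by exact_mod_cast le_max_left _ _
    linarith
  have h7 : Real.exp ((-(k : ℝ) + 1 / (((max K0 k : ℕ) : ℝ) + 1)) * σ.T n) ≤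
      Real.exp ((-(k : ℝ) + ε) * σ.T n) :=
    Real.exp_le_exp.2 (mul_le_mul_of_nonneg_right (by linarith) (by linarith))
  have h8 : Real.exp (c' * σ.T n) =
      Real.exp (ε * σ.T n) * Real.exp ((-(k : ℝ) + ε) * σ.T n) := by
    rw [← Real.exp_add, ← hε2]
    congr 1
    ring
  rw [h8]
  calc |f (ka σ f n) n - f k n|
      ≤ 2 * Real.exp ((-(k : ℝ) + 1 / (((max K0 k : ℕ) : ℝ) + 1)) * σ.T n) := h3
    _ ≤ Real.exp (ε * σ.T n) * Real.exp ((-(k : ℝ) + ε) * σ.T n) :=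
        mul_le_mul h5 h7 (Real.exp_pos _).le (Real.exp_pos _).le

end Pool.Agent.SGL
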