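import Pool.Agent.SGL.Stmts2

/-!
# Squad SGL, module CST: elements which are killed by all derivations of `M`
-/

set_option autoImplicit false

namespace Pool.Agent.SGL

open TensorProduct

namespace CST_

/-- algebraic elements over an algebraically closed field -/
theorem mem_range {K M : Type} [Field K] [IsAlgClosed K] [Field M] [Algebra K M] {x : M}
    (hx : IsAlgebraic K x) : x ∈ Set.range (algebraMap K M) := by
  have h1 : IsIntegral K x := hx.isIntegral
  exact minpoly.mem_range_of_degree_eq_one K x
    (IsAlgClosed.degree_eq_one_of_irreducible K (minpoly.irreducible h1))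

/-- coordinates of the derivative -/
theorem coord {K L M ι : Type} [Field K] [Field L] [Field M] [Algebra K L] [Algebra K M]
    [DecidableEq ι] (e : Module.Basis ι K L) (D : Derivation K M M)
    (D' : Derivation K (L ⊗[K] M) (L ⊗[K] M)) (h : ∀ l m, D' (l ⊗ₜ[K] m) = l ⊗ₜ[K] D m)
    (z : L ⊗[K] M) (i : ι) :
    TensorProduct.equivFinsuppOfBasisLeft e (D' z) i =
      D (TensorProduct.equivFinsuppOfBasisLeft e z i) := by
  induction z using TensorProduct.induction_on with
  | zero => simp
  | tmul l m =>
    rw [h, equivFinsuppOfBasisLeft_apply_tmul_apply, equivFinsuppOfBasisLeft_apply_tmul_apply,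
      Derivation.map_smul]
  | add x y hx hy =>
    rw [map_add, map_add, map_add, Finsupp.add_apply, Finsupp.add_apply, map_add, hx, hy]

end CST_

open CST_

theorem cst_proof (hDEV : Stmt_DEV) (hDRT : Stmt_DRT) : Stmt_CST := by
  classical
  intro K L M _ _ _ _ _ _ _ z hz
  obtain ⟨e⟩ : Nonempty (Module.Basis (Module.Basis.ofVectorSpaceIndex K L) K L) :=
    ⟨Module.Basis.ofVectorSpace K L⟩
  have h1 : ∀ i, ∃ c : K, algebraMap K M c = TensorProduct.equivFinsuppOfBasisLeft e z i := by
    intro i
    by_contra hne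
    obtain ⟨D, hD⟩ := hDEV K M (fun x hx => mem_range hx)
      (TensorProduct.equivFinsuppOfBasisLeft e z i) (fun ⟨c, hc⟩ => hne ⟨c, hc⟩)
    obtain ⟨D', hD'⟩ := hDRT K L M D
    apply hD
    rw [← coord e D D' hD' z i, hz D D' hD', map_zero]
    rfl
  choose c hc using h1
  refine ⟨(TensorProduct.equivFinsuppOfBasisLeft e z).sum fun i _ => c i • e i, ?_⟩
  have h2 : z = (TensorProduct.equivFinsuppOfBasisLeft e).symm
      (TensorProduct.equivFinsuppOfBasisLeft e z) := by simp
  rw [Finsupp.sum, sum_tmul]
  conv_lhs => rw [h2]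
  rw [equivFinsuppOfBasisLeft_symm_apply, Finsupp.sum]
  apply Finset.sum_congr rfl
  intro i _
  rw [← hc i, Algebra.algebraMap_eq_smul_one, tmul_smul, smul_tmul']

end Pool.Agent.SGL
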