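import Pool.Agent.SGL.Stmts2

set_option autoImplicit false

namespace Pool.Agent.SGL

namespace DEV_

open scoped IntermediateField.algebraAdjoinAdjoin TensorProduct

theorem main (K M : Type) [Field K] [Field M] [Algebra K M] [CharZero K] (m : M)
    (hm : Transcendental K m) : ∃ D : Derivation K M M, D m ≠ 0 := by
  have h1 : AlgebraicIndepOn K id ({m} : Set M) := by
    have : AlgebraicIndependent K (fun i : ({m} : Set M) => (id (i : M))) := by
      rw [algebraicIndependent_unique_type_iff]
      exact hm
    exact this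
  obtain ⟨t, hmt, ht⟩ := exists_isTranscendenceBasis_superset h1
  have hmt' : m ∈ t := hmt rfl
  let S := Algebra.adjoin K (Set.range (Subtype.val : t → M))
  let E := IntermediateField.adjoin K (Set.range (Subtype.val : t → M))
  have hE : Algebra.IsAlgebraic E M := ht.isAlgebraic_field
  have hc : CharZero E := charZero_of_injective_algebraMap (algebraMap K E).injective
  have f1 : Algebra.FormallyEtale S E := .of_isLocalization (nonZeroDivisors S)
  have f2 : Algebra.FormallyEtale E M := Algebra.FormallyEtale.of_isSeparable E M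
  have f3 : Algebra.FormallyEtale S M := .comp S E M
  let e : MvPolynomial t K ≃ₐ[K] S := ht.1.aevalEquiv
  have he : ∀ s : S, MvPolynomial.aeval (Subtype.val : t → M) (e.symm s) = (s : M) := by
    intro s
    have h2 : ((e (e.symm s) : S) : M) = MvPolynomial.aeval (Subtype.val : t → M) (e.symm s) :=
      ht.1.algebraMap_aevalEquiv (e.symm s)
    rw [← h2, e.apply_symm_apply]
  let m0 : t := ⟨m, hmt'⟩
  let L : S →ₗ[K] M := (MvPolynomial.aeval (Subtype.val : t → M)).toLinearMap ∘ₗ
    ((MvPolynomial.pderiv (R := K) m0).toLinearMap ∘ₗ e.symm.toLinearMap)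
  have hL : ∀ s, L s = MvPolynomial.aeval (Subtype.val : t → M)
      (MvPolynomial.pderiv (R := K) m0 (e.symm s)) := fun s => rfl
  let d0 : Derivation K S M := Derivation.mk' L (by
    intro a b
    rw [hL, hL, hL, map_mul, Derivation.leibniz, map_add, smul_eq_mul, smul_eq_mul, map_mul,
      map_mul, he, he]
    rfl)
  have hd0 : ∀ s, d0 s = L s := fun s => rfl
  let ψ : M ⊗[S] Ω[S⁄K] →ₗ[M] M := LinearMap.liftBaseChange M d0.liftKaehlerDifferential
  let D : Derivation K M M :=
    (ψ ∘ₗ (KaehlerDifferential.tensorKaehlerEquivOfFormallyEtale K S M).symm.toLinearMap).compDer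
      (KaehlerDifferential.D K M)
  refine ⟨D, ?_⟩
  let ms : S := ⟨m, Algebra.subset_adjoin ⟨m0, rfl⟩⟩
  have h3 : D m = d0 ms := by
    have h4 : D m = ψ ((KaehlerDifferential.tensorKaehlerEquivOfFormallyEtale K S M).symm
      (KaehlerDifferential.D K M (algebraMap S M ms))) := rfl
    rw [h4, KaehlerDifferential.tensorKaehlerEquivOfFormallyEtale_symm_D_algebraMap,
      LinearMap.liftBaseChange_tmul, one_smul, Derivation.liftKaehlerDifferential_comp_D]
  have h5 : e.symm ms = MvPolynomial.X m0 := by
    rw [AlgEquiv.symm_apply_eq]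
    apply Subtype.ext
    have h6 : ((e (MvPolynomial.X m0) : S) : M) =
        MvPolynomial.aeval (Subtype.val : t → M) (MvPolynomial.X m0) :=
      ht.1.algebraMap_aevalEquiv (MvPolynomial.X m0)
    rw [h6, MvPolynomial.aeval_X]
  rw [h3, hd0, hL, h5, MvPolynomial.pderiv_X_self, map_one]
  exact one_ne_zero

end DEV_

theorem dev_proof : Stmt_DEV := by
  intro K M _ _ _ _ halg m hm
  exact DEV_.main K M m fun h => hm (halg m h)

end Pool.Agent.SGL
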