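import Pool.Agent.SGL.Stmts2

set_option autoImplicit false

namespace Pool.Agent.SGL

open TensorProduct

namespace DMT_

/-- a homomorphism to `K` from a finitely generated subalgebra -/
theorem exists_hom {K A : Type} [Field K] [IsAlgClosed K] [Field A] [Algebra K A]
    (S : Finset A) : Nonempty (Algebra.adjoin K (S : Set A) →ₐ[K] K) := by
  have hft : Algebra.FiniteType K (Algebra.adjoin K (S : Set A)) :=
    (Subalgebra.fg_iff_finiteType _).1 (Subalgebra.fg_adjoin_finset S)
  obtain ⟨m, hm⟩ := Ideal.exists_maximal (Algebra.adjoin K (S : Set A))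
  let _ : Field (Algebra.adjoin K (S : Set A) ⧸ m) := Ideal.Quotient.field m
  have hfin : Module.Finite K (Algebra.adjoin K (S : Set A) ⧸ m) :=
    finite_of_finite_type_of_isJacobsonRing K (Algebra.adjoin K (S : Set A) ⧸ m)
  have hbij : Function.Bijective (algebraMap K (Algebra.adjoin K (S : Set A) ⧸ m)) :=
    IsAlgClosed.algebraMap_bijective_of_isIntegral
  have e := AlgEquiv.ofBijective (Algebra.ofId K (Algebra.adjoin K (S : Set A) ⧸ m)) hbij
  exact ⟨e.symm.toAlgHom.comp (Ideal.Quotient.mkₐ K m)⟩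

theorem nzd {K A M : Type} [Field K] [IsAlgClosed K] [Field A] [Field M] [Algebra K A]
    [Algebra K M] (x y : A ⊗[K] M) (hxy : x * y = 0) (hx : x ≠ 0) (hy : y ≠ 0) : False := by
  classical
  let b := Module.Basis.ofVectorSpace K M
  obtain ⟨c, hc⟩ := TensorProduct.eq_repr_basis_right b x
  obtain ⟨d, hd⟩ := TensorProduct.eq_repr_basis_right b y
  have hc0 : c ≠ 0 := by
    rintro rfl
    apply hx
    rw [← hc]; simp
  have hd0 : d ≠ 0 := by
    rintro rfl
    apply hy
    rw [← hd]; simp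
  obtain ⟨i₀, hi₀⟩ := Finsupp.ne_iff.1 hc0
  obtain ⟨j₀, hj₀⟩ := Finsupp.ne_iff.1 hd0
  rw [Finsupp.zero_apply] at hi₀ hj₀
  let S : Finset A := c.support.image c ∪ d.support.image d ∪ {(c i₀)⁻¹, (d j₀)⁻¹}
  obtain ⟨φ⟩ := exists_hom (K := K) S
  have hS : ∀ a ∈ S, a ∈ Algebra.adjoin K (S : Set A) := fun a ha =>
    Algebra.subset_adjoin ha
  have hcm : ∀ i, c i ∈ Algebra.adjoin K (S : Set A) := by
    intro i
    by_cases h : c i = 0
    · rw [h]; exact Subalgebra.zero_mem _
    · apply hS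
      apply Finset.mem_union_left
      apply Finset.mem_union_left
      exact Finset.mem_image_of_mem _ (Finsupp.mem_support_iff.2 h)
  have hdm : ∀ i, d i ∈ Algebra.adjoin K (S : Set A) := by
    intro i
    by_cases h : d i = 0
    · rw [h]; exact Subalgebra.zero_mem _
    · apply hS
      apply Finset.mem_union_left
      apply Finset.mem_union_right
      exact Finset.mem_image_of_mem _ (Finsupp.mem_support_iff.2 h)
  have hci : (c i₀)⁻¹ ∈ Algebra.adjoin K (S : Set A) := by
    apply hS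
    apply Finset.mem_union_right
    simp
  have hdj : (d j₀)⁻¹ ∈ Algebra.adjoin K (S : Set A) := by
    apply hS
    apply Finset.mem_union_right
    simp
  have hφc : φ ⟨c i₀, hcm i₀⟩ ≠ 0 := by
    intro h
    have h1 : φ (⟨c i₀, hcm i₀⟩ * ⟨(c i₀)⁻¹, hci⟩) = 1 := by
      rw [← map_one φ]
      congr 1
      apply Subtype.ext
      exact mul_inv_cancel₀ hi₀
    rw [map_mul, h, zero_mul] at h1
    exact zero_ne_one h1
  have hφd : φ ⟨d j₀, hdm j₀⟩ ≠ 0 := by
    intro h
    have h1 : φ (⟨d j₀, hdm j₀⟩ * ⟨(d j₀)⁻¹, hdj⟩) = 1 := by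
      rw [← map_one φ]
      congr 1
      apply Subtype.ext
      exact mul_inv_cancel₀ hj₀
    rw [map_mul, h, zero_mul] at h1
    exact zero_ne_one h1
  -- lift to the subalgebra
  let A₀ := Algebra.adjoin K (S : Set A)
  let x₀ : A₀ ⊗[K] M := c.support.sum fun i => (⟨c i, hcm i⟩ : A₀) ⊗ₜ[K] b i
  let y₀ : A₀ ⊗[K] M := d.support.sum fun i => (⟨d i, hdm i⟩ : A₀) ⊗ₜ[K] b i
  let ι : A₀ ⊗[K] M →ₐ[K] A ⊗[K] M := Algebra.TensorProduct.map A₀.val (AlgHom.id K M)
  have hι : Function.Injective ι := by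
    have h := Module.Flat.rTensor_preserves_injective_linearMap (M := M) A₀.val.toLinearMap
      Subtype.val_injective
    intro u v huv
    apply h
    exact huv
  have hx₀ : ι x₀ = x := by
    rw [← hc]
    simp only [x₀, map_sum, Finsupp.sum]
    refine Finset.sum_congr rfl fun i _ => ?_
    simp [ι]
  have hy₀ : ι y₀ = y := by
    rw [← hd]
    simp only [y₀, map_sum, Finsupp.sum]
    refine Finset.sum_congr rfl fun i _ => ?_
    simp [ι]
  have h0 : x₀ * y₀ = 0 := by
    apply hι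
    rw [map_mul, hx₀, hy₀, hxy, map_zero]
  let ψ : A₀ ⊗[K] M →ₐ[K] M :=
    Algebra.TensorProduct.lift ((Algebra.ofId K M).comp φ) (AlgHom.id K M)
      (fun _ _ => mul_comm _ _)
  have hψt : ∀ (u : A₀) (v : M), ψ (u ⊗ₜ[K] v) = algebraMap K M (φ u) * v := fun u v => rfl
  have hψ : ψ x₀ * ψ y₀ = 0 := by rw [← map_mul, h0, map_zero]
  have hψx : ψ x₀ = c.support.sum fun i => φ ⟨c i, hcm i⟩ • b i := by
    simp only [x₀, map_sum]
    refine Finset.sum_congr rfl fun i _ => ?_
    rw [hψt, Algebra.smul_def]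
  have hψy : ψ y₀ = d.support.sum fun i => φ ⟨d i, hdm i⟩ • b i := by
    simp only [y₀, map_sum]
    refine Finset.sum_congr rfl fun i _ => ?_
    rw [hψt, Algebra.smul_def]
  have hli := b.linearIndependent
  rcases mul_eq_zero.1 hψ with h | h
  · rw [hψx] at h
    exact hφc (linearIndependent_iff'.1 hli _ _ h i₀ (Finsupp.mem_support_iff.2 hi₀))
  · rw [hψy] at h
    exact hφd (linearIndependent_iff'.1 hli _ _ h j₀ (Finsupp.mem_support_iff.2 hj₀))

end DMT_

theorem dmt_proof : Stmt_DMT := by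
  intro K A M _ _ _ _ _ _
  have hn : NoZeroDivisors (A ⊗[K] M) := by
    constructor
    intro x y hxy
    by_contra h
    push Not at h
    exact DMT_.nzd x y hxy h.1 h.2
  exact NoZeroDivisors.to_isDomain _

end Pool.Agent.SGL
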