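import Pool.Agent.SGL.Stmts2

/-!
# DRT: derivations of tensor products
-/

set_option autoImplicit false

namespace Pool.Agent.SGL

open Filter Pool.Agent.SBT TensorProduct

theorem drt_proof : Stmt_DRT := by
  intro K L M _ _ _ _ _ D
  let f : (L ⊗[K] M) →ₗ[K] (L ⊗[K] M) := LinearMap.lTensor L (D : M →ₗ[K] M)
  have hf : ∀ l m, f (l ⊗ₜ[K] m) = l ⊗ₜ[K] D m := fun l m => LinearMap.lTensor_tmul _ _ _ _
  refine ⟨Derivation.mk' f ?_, fun l m => hf l m⟩
  intro a b
  induction a using TensorProduct.induction_on with
  | zero => simp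
  | add x y hx hy =>
    rw [add_mul, map_add, hx, hy, map_add]
    simp only [smul_eq_mul]
    ring
  | tmul l m =>
    induction b using TensorProduct.induction_on with
    | zero => simp
    | add x y hx hy =>
      rw [mul_add, map_add, hx, hy, map_add]
      simp only [smul_eq_mul]
      ring
    | tmul l' m' =>
      simp only [smul_eq_mul]
      rw [Algebra.TensorProduct.tmul_mul_tmul, hf, hf, hf, Algebra.TensorProduct.tmul_mul_tmul,
        Algebra.TensorProduct.tmul_mul_tmul, D.leibniz, mul_comm l' l]
      simp only [smul_eq_mul]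
      rw [TensorProduct.tmul_add]

end Pool.Agent.SGL
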