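import Pool.Agent.SGL.Stmts

set_option autoImplicit false

namespace Pool.Agent.SGL

theorem dsj_proof (hLDS : Stmt_LDS) (hTWR : Stmt_TWR) : Stmt_DSJ := by
  intro F _ K L M C D hKL hKC hKD hCM hDM hLM hCD
  have hKM : K ≤ M := hKC.trans hCM
  have h1 : LDj K M L := hLDS F K L M hKL hKM hLM
  have h2 : LDj D M (D ⊔ L) := hTWR F K D M L hKD hDM hKL h1
  have h3 : LDj K C (D ⊔ L) := by
    intro d a b ha hb hind hsum
    refine h2 d a b (fun i => hCM (ha i)) hb ?_ hsum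
    intro κ hκ hs
    refine hCD d a κ ha hκ hind ?_
    rw [← hs]
    exact Finset.sum_congr rfl fun i _ => mul_comm _ _
  have h4 : LDj K (D ⊔ L) C := hLDS F K C (D ⊔ L) hKC (hKD.trans le_sup_left) h3
  have h5 : LDj L (D ⊔ L) (L ⊔ C) := hTWR F K L (D ⊔ L) C hKL le_sup_right hKC h4
  have h6 : LDj L (L ⊔ C) (D ⊔ L) := hLDS F L (D ⊔ L) (L ⊔ C) le_sup_right le_sup_left h5
  rw [sup_comm L D]
  exact h6

end Pool.Agent.SGL
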