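import Pool.Agent.SGL.Stmts

set_option autoImplicit false

namespace Pool.Agent.SGL

open Filter Pool.Agent.SBT

namespace EXC_

theorem alg_iff (F : Type) [Field F] [Algebra ℚ F] (a u : F) :
    IsAlgebraic (IntermediateField.adjoin ℚ {a}) u ↔ IsAlgebraic (Algebra.adjoin ℚ {a}) u := by
  open IntermediateField.algebraAdjoinAdjoin in
  exact (IsFractionRing.isAlgebraic_iff (Algebra.adjoin ℚ {a}) (IntermediateField.adjoin ℚ {a}) F).symm

end EXC_

open EXC_ in
theorem exc_proof : Stmt_EXC := by
  intro F _ _ a u h1 h2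
  rw [alg_iff] at h1 ⊢
  have e : ∀ (s : Set F) (x : F), x ∈ (AlgebraicIndependent.matroid ℚ F).closure s ↔
      IsAlgebraic (Algebra.adjoin ℚ s) x := by
    intro s x
    rw [AlgebraicIndependent.matroid_closure_eq, SetLike.mem_coe, Subalgebra.mem_algebraicClosure]
  have h3 : u ∉ (AlgebraicIndependent.matroid ℚ F).closure ∅ := by
    rw [e, Algebra.adjoin_empty]
    intro h
    apply h2
    exact Subalgebra.isAlgebraic_of_isAlgebraic_bot h
  have h4 : u ∈ (AlgebraicIndependent.matroid ℚ F).closure (insert a ∅) := by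
    rw [e, insert_empty_eq]
    exact h1
  have h5 := Matroid.mem_closure_insert h3 h4
  rw [e, insert_empty_eq] at h5
  exact h5

end Pool.Agent.SGL
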