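import Pool.Agent.SGL.Stmts

/-!
# Squad SGL, module FRE: elements which are algebraic over two linearly disjoint fields
-/

set_option autoImplicit false

namespace Pool.Agent.SGL

open Filter Pool.Agent.SBT

namespace FRE_

variable {F : Type} [Field F]

theorem isalg_trans {R R' : Type} [CommRing R] [CommRing R'] [Algebra R F] [Algebra R' F]
    (hinj : Function.Injective (algebraMap R F)) (hinj' : Function.Injective (algebraMap R' F))
    (h : ∀ r : R, ∃ r' : R', algebraMap R' F r' = algebraMap R F r) {x : F}
    (hx : IsAlgebraic R x) : IsAlgebraic R' x := by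
  choose f hf using h
  let i : R →+* R' :=
    { toFun := f
      map_one' := hinj' (by rw [hf, map_one, map_one])
      map_zero' := hinj' (by rw [hf, map_zero, map_zero])
      map_add' := fun a b => hinj' (by rw [hf, map_add, map_add, hf, hf])
      map_mul' := fun a b => hinj' (by rw [hf, map_mul, map_mul, hf, hf]) }
  have hi : ∀ r, algebraMap R' F (i r) = algebraMap R F r := hf
  have hii : Function.Injective i := by
    intro a b hab
    apply hinj
    rw [← hi, ← hi, hab]
  obtain ⟨p, hp, hpx⟩ := hx
  refine ⟨p.map i, (Polynomial.map_ne_zero_iff hii).2 hp, ?_⟩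
  rw [Polynomial.aeval_def, Polynomial.eval₂_map]
  have : (algebraMap R' F).comp i = algebraMap R F := RingHom.ext hi
  rw [this, ← Polynomial.aeval_def]
  exact hpx

theorem mem_cl (K : Subfield F) (s : Set F) (x : F) :
    x ∈ (AlgebraicIndependent.matroid K F).closure s ↔ IsAlgebraic (Algebra.adjoin K s) x := by
  rw [AlgebraicIndependent.matroid_closure_eq]
  exact Iff.rfl

theorem cl_mono {K K' : Subfield F} (h : K ≤ K') {s : Set F} {x : F}
    (hx : x ∈ (AlgebraicIndependent.matroid K F).closure s) :
    x ∈ (AlgebraicIndependent.matroid K' F).closure s := by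
  rw [mem_cl] at hx ⊢
  refine isalg_trans Subtype.val_injective Subtype.val_injective ?_ hx
  rintro ⟨r, hr⟩
  refine ⟨⟨r, ?_⟩, rfl⟩
  induction hr using Algebra.adjoin_induction with
  | mem x hx => exact Algebra.subset_adjoin hx
  | algebraMap k => exact (Algebra.adjoin K' s).algebraMap_mem ⟨k.1, h k.2⟩
  | add a b _ _ ha hb => exact add_mem ha hb
  | mul a b _ _ ha hb => exact mul_mem ha hb

theorem indep_trans {L A B : Subfield F} (hd : LDj L A B) (I : Set F) (hIA : I ⊆ A)
    (hI : AlgebraicIndepOn L id I) : AlgebraicIndepOn B id I := by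
  classical
  have hI' : AlgebraicIndependent L (fun i : I => (i : F)) := hI
  show AlgebraicIndependent B (fun i : I => (i : F))
  rw [algebraicIndependent_iff] at hI' ⊢
  intro p hp
  obtain ⟨e⟩ : Nonempty (Fin p.support.card ≃ p.support) := ⟨p.support.equivFin.symm⟩
  have h1 := hd p.support.card
    (fun i => (e i).1.prod fun s k => (s : F) ^ k) (fun i => ((p.coeff (e i).1 : B) : F))
    (by
      intro i
      exact prod_mem fun s _ => pow_mem (hIA s.2) _)
    (fun i => (p.coeff (e i).1).2)
    (by
      intro κ hκ hsum
      have h2 := hI' (∑ i, MvPolynomial.monomial (e i).1 (⟨κ i, hκ i⟩ : L)) (by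
        rw [map_sum]
        rw [← hsum]
        apply Finset.sum_congr rfl
        intro i _
        rw [MvPolynomial.aeval_monomial]
        rfl)
      funext i
      have h3 := congrArg (MvPolynomial.coeff (e i).1) h2
      rw [MvPolynomial.coeff_sum, Finset.sum_eq_single i, MvPolynomial.coeff_monomial,
        if_pos rfl, MvPolynomial.coeff_zero] at h3
      · exact congrArg Subtype.val h3
      · intro j _ hj
        rw [MvPolynomial.coeff_monomial, if_neg]
        intro hcon
        exact hj (e.injective (Subtype.ext hcon))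
      · intro hcon
        exact absurd (Finset.mem_univ i) hcon)
    (by
      rw [MvPolynomial.aeval_def, MvPolynomial.eval₂_eq] at hp
      rw [← hp, ← Finset.sum_coe_sort p.support, ← e.sum_comp]
      apply Finset.sum_congr rfl
      intro i _
      rw [mul_comm]
      rfl)
  ext m
  rw [MvPolynomial.coeff_zero]
  by_cases hm : m ∈ p.support
  · have h2 := congrFun h1 (e.symm ⟨m, hm⟩)
    simp only [Equiv.apply_symm_apply, Pi.zero_apply] at h2
    exact congrArg _ (Subtype.ext h2)
  · exact congrArg _ (MvPolynomial.notMem_support_iff.1 hm)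

end FRE_

open FRE_ in
theorem fre_proof : Stmt_FRE := by
  intro F _ L A B hLA hLB hd x hxA hxB
  by_contra hx
  have hx0 : x ∉ (AlgebraicIndependent.matroid L F).closure ∅ := by
    rw [mem_cl]
    intro hcon
    apply hx
    refine isalg_trans Subtype.val_injective Subtype.val_injective ?_ hcon
    rintro ⟨r, hr⟩
    rw [Algebra.adjoin_empty, Algebra.mem_bot] at hr
    obtain ⟨k, hk⟩ := hr
    exact ⟨k, hk⟩
  have hxB0 : x ∈ (AlgebraicIndependent.matroid B F).closure ∅ := by
    rw [mem_cl]
    refine isalg_trans Subtype.val_injective Subtype.val_injective ?_ hxB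
    intro r
    exact ⟨⟨r, (Algebra.adjoin B (∅ : Set F)).algebraMap_mem r⟩, rfl⟩
  have hxB1 : ∀ s : Set F, x ∈ (AlgebraicIndependent.matroid B F).closure s := fun s =>
    Matroid.closure_subset_closure _ (Set.empty_subset s) hxB0
  have hxA0 : x ∈ (AlgebraicIndependent.matroid L F).closure (A : Set F) := by
    rw [mem_cl]
    refine isalg_trans Subtype.val_injective Subtype.val_injective ?_ hxA
    intro r
    exact ⟨⟨r, Algebra.subset_adjoin r.2⟩, rfl⟩
  obtain ⟨I, hI⟩ := (AlgebraicIndependent.matroid L F).exists_isBasis (A : Set F)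
    (by rw [AlgebraicIndependent.matroid_e]; exact Set.subset_univ _)
  have hIB : (AlgebraicIndependent.matroid B F).Indep I :=
    indep_trans hd I hI.subset hI.indep
  have hxI : x ∈ (AlgebraicIndependent.matroid L F).closure I := by
    rw [hI.closure_eq_closure]
    exact hxA0
  by_cases hxin : x ∈ I
  · exact hIB.notMem_closure_sdiff_of_mem hxin (hxB1 _)
  · obtain ⟨C, hCI, hC, hxC⟩ := Matroid.exists_isCircuit_of_mem_closure hxI hxin
    obtain ⟨s, hsC, hsx⟩ : ∃ s ∈ C, s ≠ x := by
      by_contra hcon
      push Not at hcon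
      apply hx0
      have h1 := hC.mem_closure_sdiff_singleton_of_mem hxC
      have h2 : C \ {x} = ∅ := by
        ext y
        simp only [Set.mem_sdiff, Set.mem_singleton_iff, Set.mem_empty_iff_false, iff_false,
          not_and, not_not]
        exact hcon y
      rwa [h2] at h1
    have hsI : s ∈ I := by
      rcases hCI hsC with h | h
      · exact absurd h hsx
      · exact h
    have h1 := hC.mem_closure_sdiff_singleton_of_mem hsC
    have h2 : C \ {s} ⊆ insert x (I \ {s}) := by
      rintro y ⟨hy, hys⟩
      rcases hCI hy with h | h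
      · exact Or.inl h
      · exact Or.inr ⟨h, hys⟩
    have h3 := cl_mono hLB (Matroid.closure_subset_closure _ h2 h1)
    rw [Matroid.closure_insert_eq_of_mem_closure (hxB1 _)] at h3
    exact hIB.notMem_closure_sdiff_of_mem hsI h3

end Pool.Agent.SGL
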