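import Pool.Agent.SGL.Stmts

/-!
# GAU: the value of a polynomial in independent units
-/

set_option autoImplicit false

namespace Pool.Agent.SGL

open Filter Pool.Agent.SBT

theorem gau_proof (hS2T : SBT.Stmt_S2T) (hUNI : SBT.Stmt_UNI) : Stmt_GAU := by
  intro U S T r g hG P δ hδ e he
  have hI : Indp U g (fun (_ : Fin 1) (_ : ℕ) => (1 : ℤ)) := by
    intro H hH
    funext i
    have hi : i = 0 := Subsingleton.elim _ _
    rw [hi]
    apply hUNI U S r g hG.prime hG.unit hG.ind (H 0)
    filter_upwards [hH] with n hn
    simpa using hn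
  have h1 := hS2T U S T r 1 g (fun _ _ => 1) 0 δ (fun _ => P) hG le_rfl hδ
    (by
      filter_upwards with n i
      simp) hI 0 e he
  filter_upwards [h1] with n hn
  simpa using hn

end Pool.Agent.SGL
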