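import Pool.Agent.SGL.Stmts2

/-!
# Squad SGL, module GSV: the Gauss valuation
-/

set_option autoImplicit false

namespace Pool.Agent.SGL

open TensorProduct

namespace GSV_

variable {K L M : Type} [Field K] [Field L] [Field M] [Algebra K L] [Algebra K M]

section coords

variable {A B : Type} [CommRing A] [CommRing B] [Algebra K A] [Algebra K B] {ι : Type}
  (b : Module.Basis ι K M)

theorem repr_tmul (a : A) (m : M) (i : ι) :
    (Algebra.TensorProduct.basis A b).repr (a ⊗ₜ[K] m) i = a * algebraMap K A (b.repr m i) := by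
  rw [Algebra.TensorProduct.basis_repr_tmul]
  simp

theorem repr_map (f : A →ₐ[K] B) (y : A ⊗[K] M) (i : ι) :
    (Algebra.TensorProduct.basis B b).repr (Algebra.TensorProduct.map f (AlgHom.id K M) y) i =
      f ((Algebra.TensorProduct.basis A b).repr y i) := by
  induction y using TensorProduct.induction_on with
  | zero => simp
  | tmul a m =>
    rw [Algebra.TensorProduct.map_tmul, repr_tmul, repr_tmul, map_mul, AlgHom.commutes]
    rfl
  | add x y hx hy => simp only [map_add, Finsupp.add_apply, hx, hy]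

theorem sum_coord (z : A ⊗[K] M) :
    z = ∑ i ∈ ((Algebra.TensorProduct.basis A b).repr z).support,
      ((Algebra.TensorProduct.basis A b).repr z i) ⊗ₜ[K] b i := by
  have h := (Algebra.TensorProduct.basis A b).linearCombination_repr z
  rw [Finsupp.linearCombination_apply, Finsupp.sum] at h
  conv_lhs => rw [← h]
  refine Finset.sum_congr rfl fun i _ => ?_
  rw [Algebra.TensorProduct.basis_apply, TensorProduct.smul_tmul', smul_eq_mul, mul_one]

end coords

variable {ι : Type} (V : ValuationSubring L) (b : Module.Basis ι K M)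

/-- the Gauss valuation -/
noncomputable def g (z : L ⊗[K] M) : V.ValueGroup :=
  ((Algebra.TensorProduct.basis L b).repr z).support.sup fun i =>
    V.valuation ((Algebra.TensorProduct.basis L b).repr z i)

theorem le_g (z : L ⊗[K] M) (i : ι) :
    V.valuation ((Algebra.TensorProduct.basis L b).repr z i) ≤ g V b z := by
  by_cases h : i ∈ ((Algebra.TensorProduct.basis L b).repr z).support
  · exact Finset.le_sup (f := fun i => V.valuation ((Algebra.TensorProduct.basis L b).repr z i)) h
  · rw [Finsupp.notMem_support_iff.1 h, map_zero]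
    exact zero_le'

theorem g_le {z : L ⊗[K] M} {c : V.ValueGroup}
    (h : ∀ i, V.valuation ((Algebra.TensorProduct.basis L b).repr z i) ≤ c) : g V b z ≤ c :=
  Finset.sup_le fun i _ => h i

theorem g_zero : g V b (0 : L ⊗[K] M) = 0 := by
  refine le_antisymm (g_le V b fun i => ?_) zero_le'
  simp

theorem g_sum {κ : Type} (s : Finset κ) (f : κ → L ⊗[K] M) {c : V.ValueGroup}
    (h : ∀ k ∈ s, g V b (f k) ≤ c) : g V b (∑ k ∈ s, f k) ≤ c := by
  refine g_le V b fun i => ?_
  rw [map_sum, Finsupp.finset_sum_apply]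
  exact Valuation.map_sum_le _ fun k hk => (le_g V b (f k) i).trans (h k hk)

theorem g_add (z z' : L ⊗[K] M) : g V b (z + z') ≤ max (g V b z) (g V b z') := by
  refine g_le V b fun i => ?_
  rw [map_add, Finsupp.add_apply]
  exact (Valuation.map_add _ _ _).trans (max_le_max (le_g V b z i) (le_g V b z' i))

theorem v_const (hV : ∀ c : K, algebraMap K L c ∈ V) (c : K) :
    V.valuation (algebraMap K L c) ≤ 1 := (V.valuation_le_one_iff _).2 (hV c)

theorem v_const_one (hV : ∀ c : K, algebraMap K L c ∈ V) {c : K} (hc : c ≠ 0) :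
    V.valuation (algebraMap K L c) = 1 := by
  refine le_antisymm (v_const V hV c) ?_
  have h1 := v_const V hV c⁻¹
  have h2 : V.valuation (algebraMap K L c) * V.valuation (algebraMap K L c⁻¹) = 1 := by
    rw [← map_mul, ← map_mul, mul_inv_cancel₀ hc, map_one, map_one]
  calc (1 : V.ValueGroup) = V.valuation (algebraMap K L c) * V.valuation (algebraMap K L c⁻¹) :=
        h2.symm
    _ ≤ V.valuation (algebraMap K L c) * 1 := mul_le_mul_right h1 _
    _ = V.valuation (algebraMap K L c) := mul_one _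

theorem g_tmul (hV : ∀ c : K, algebraMap K L c ∈ V) (l : L) (m : M) :
    g V b (l ⊗ₜ[K] m) ≤ V.valuation l := by
  refine g_le V b fun i => ?_
  rw [repr_tmul, map_mul]
  calc V.valuation l * V.valuation (algebraMap K L (b.repr m i)) ≤ V.valuation l * 1 :=
        mul_le_mul_right (v_const V hV _) _
    _ = V.valuation l := mul_one _

/-- a linear functional of `M`, extended to the tensor product -/
noncomputable def Phi (φ : M →ₗ[K] K) : L ⊗[K] M →ₗ[L] L :=
  (TensorProduct.AlgebraTensorModule.rid K L L).toLinearMap ∘ₗ φ.baseChange L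

theorem Phi_tmul (φ : M →ₗ[K] K) (l : L) (m : M) :
    Phi φ (l ⊗ₜ[K] m) = l * algebraMap K L (φ m) := by
  unfold Phi
  rw [LinearMap.comp_apply, LinearMap.baseChange_tmul, LinearEquiv.coe_coe,
    TensorProduct.AlgebraTensorModule.rid_tmul, Algebra.smul_def, mul_comm]

theorem Phi_le (hV : ∀ c : K, algebraMap K L c ∈ V) (φ : M →ₗ[K] K) (z : L ⊗[K] M) :
    V.valuation (Phi φ z) ≤ g V b z := by
  conv_lhs => rw [sum_coord b z]
  rw [map_sum]
  refine Valuation.map_sum_le _ fun i _ => ?_
  rw [Phi_tmul, map_mul]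
  calc V.valuation ((Algebra.TensorProduct.basis L b).repr z i) *
        V.valuation (algebraMap K L (φ (b i)))
      ≤ V.valuation ((Algebra.TensorProduct.basis L b).repr z i) * 1 :=
        mul_le_mul_right (v_const V hV _) _
    _ = V.valuation ((Algebra.TensorProduct.basis L b).repr z i) := mul_one _
    _ ≤ g V b z := le_g V b z i

theorem exists_dual {d : ℕ} (m : Fin d → M) (hm : LinearIndependent K m) (i : Fin d) :
    ∃ φ : M →ₗ[K] K, ∀ j, φ (m j) = if j = i then 1 else 0 := by
  obtain ⟨φ, hφ⟩ := LinearMap.exists_extend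
    ((Finsupp.lapply i : (Fin d →₀ K) →ₗ[K] K) ∘ₗ hm.repr)
  refine ⟨φ, fun j => ?_⟩
  have h1 : φ (m j) = (φ ∘ₗ (Submodule.span K (Set.range m)).subtype)
      ⟨m j, Submodule.subset_span ⟨j, rfl⟩⟩ := rfl
  rw [h1, hφ, LinearMap.comp_apply, hm.repr_eq_single j _ rfl,
    Finsupp.lapply_apply, Finsupp.single_apply]

theorem le_g_sum (hV : ∀ c : K, algebraMap K L c ∈ V) {d : ℕ} (l : Fin d → L) (m : Fin d → M)
    (hm : LinearIndependent K m) (i : Fin d) :
    V.valuation (l i) ≤ g V b (∑ i, l i ⊗ₜ[K] m i) := by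
  obtain ⟨φ, hφ⟩ := exists_dual m hm i
  have h := Phi_le V b hV φ (∑ i, l i ⊗ₜ[K] m i)
  have e : Phi φ (∑ i, l i ⊗ₜ[K] m i) = l i := by
    rw [map_sum]
    have : ∀ j, Phi φ (l j ⊗ₜ[K] m j) = if j = i then l j else 0 := by
      intro j
      rw [Phi_tmul, hφ]
      split <;> simp
    rw [Finset.sum_congr rfl fun j _ => this j]
    simp
  rw [e] at h
  exact h

theorem g_one_tmul (hV : ∀ c : K, algebraMap K L c ∈ V) (l : L) {m : M} (hm : m ≠ 0) :
    g V b (l ⊗ₜ[K] m) = V.valuation l := by
  refine le_antisymm (g_tmul V b hV l m) ?_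
  have h := le_g_sum V b hV (fun _ : Fin 1 => l) (fun _ => m)
    (by rw [linearIndependent_unique_iff]; exact hm) 0
  simpa using h

theorem g_smul (c : L) (z : L ⊗[K] M) : g V b (c • z) = V.valuation c * g V b z := by
  have h1 : ∀ (c : L) (z : L ⊗[K] M), g V b (c • z) ≤ V.valuation c * g V b z := by
    intro c z
    refine g_le V b fun i => ?_
    rw [map_smul, Finsupp.smul_apply, smul_eq_mul, map_mul]
    exact mul_le_mul_right (le_g V b z i) _
  refine le_antisymm (h1 c z) ?_
  rcases eq_or_ne c 0 with hc | hc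
  · rw [hc, map_zero, zero_mul]
    exact zero_le'
  · have h2 := h1 c⁻¹ (c • z)
    rw [smul_smul, inv_mul_cancel₀ hc, one_smul] at h2
    calc V.valuation c * g V b z ≤ V.valuation c * (V.valuation c⁻¹ * g V b (c • z)) :=
          mul_le_mul_right h2 _
      _ = g V b (c • z) := by
          rw [← mul_assoc, ← map_mul, mul_inv_cancel₀ hc, map_one, one_mul]

theorem g_mul_le (hV : ∀ c : K, algebraMap K L c ∈ V) (z z' : L ⊗[K] M) :
    g V b (z * z') ≤ g V b z * g V b z' := by
  conv_lhs => rw [sum_coord b z, sum_coord b z', Finset.sum_mul_sum]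
  refine g_sum V b _ _ fun i _ => g_sum V b _ _ fun j _ => ?_
  rw [Algebra.TensorProduct.tmul_mul_tmul]
  refine (g_tmul V b hV _ _).trans ?_
  rw [map_mul]
  exact mul_le_mul' (le_g V b z i) (le_g V b z' j)

theorem exists_coord {z : L ⊗[K] M} (hz : z ≠ 0) :
    ∃ i, V.valuation ((Algebra.TensorProduct.basis L b).repr z i) = g V b z ∧
      (Algebra.TensorProduct.basis L b).repr z i ≠ 0 := by
  have hne : ((Algebra.TensorProduct.basis L b).repr z).support.Nonempty := by
    rw [Finsupp.support_nonempty_iff]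
    intro h
    exact hz ((Algebra.TensorProduct.basis L b).repr.map_eq_zero_iff.1 h)
  obtain ⟨i, hi, h⟩ := Finset.exists_mem_eq_sup _ hne
    fun i => V.valuation ((Algebra.TensorProduct.basis L b).repr z i)
  exact ⟨i, h.symm, Finsupp.mem_support_iff.1 hi⟩

theorem g_eq_zero {z : L ⊗[K] M} (h : g V b z = 0) : z = 0 := by
  by_contra hz
  obtain ⟨i, h1, h2⟩ := exists_coord V b hz
  rw [h] at h1
  exact h2 ((map_eq_zero _).1 h1)

theorem g_lt_one {z : L ⊗[K] M}
    (h : ∀ i, V.valuation ((Algebra.TensorProduct.basis L b).repr z i) < 1) : g V b z < 1 := by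
  rcases eq_or_ne z 0 with hz | hz
  · rw [hz, g_zero]
    exact zero_lt_one
  · obtain ⟨i, h1, -⟩ := exists_coord V b hz
    rw [← h1]
    exact h i

section gauss

variable [Algebra K V]

/-- the inclusion as a map of algebras -/
def iV (h : ∀ c : K, ((algebraMap K V c : V) : L) = algebraMap K L c) : V →ₐ[K] L :=
  { V.subtype with commutes' := h }

theorem iV_apply (h : ∀ c : K, ((algebraMap K V c : V) : L) = algebraMap K L c) (a : V) :
    iV V h a = (a : L) := rfl

theorem lift_le_one (h : ∀ c : K, ((algebraMap K V c : V) : L) = algebraMap K L c)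
    (z : L ⊗[K] M) (hz : g V b z ≤ 1) :
    ∃ y : V ⊗[K] M, Algebra.TensorProduct.map (iV V h) (AlgHom.id K M) y = z := by
  have h1 : ∀ i, (Algebra.TensorProduct.basis L b).repr z i ∈ V := fun i =>
    (V.valuation_le_one_iff _).1 ((le_g V b z i).trans hz)
  refine ⟨∑ i ∈ ((Algebra.TensorProduct.basis L b).repr z).support,
    (⟨(Algebra.TensorProduct.basis L b).repr z i, h1 i⟩ : V) ⊗ₜ[K] b i, ?_⟩
  rw [map_sum]
  conv_rhs => rw [sum_coord b z]
  refine Finset.sum_congr rfl fun i _ => ?_
  rw [Algebra.TensorProduct.map_tmul, iV_apply]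
  rfl

theorem gauss (hDMT : IsDomain (IsLocalRing.ResidueField V ⊗[K] M))
    (h : ∀ c : K, ((algebraMap K V c : V) : L) = algebraMap K L c) (z z' : L ⊗[K] M)
    (hz : g V b z = 1) (hz' : g V b z' = 1) : 1 ≤ g V b (z * z') := by
  by_contra hcon
  have hlt : g V b (z * z') < 1 := not_le.1 hcon
  obtain ⟨y, hy⟩ := lift_le_one V b h z hz.le
  obtain ⟨y', hy'⟩ := lift_le_one V b h z' hz'.le
  -- reduction
  let res : V →ₐ[K] IsLocalRing.ResidueField V := IsScalarTower.toAlgHom K V _
  have hres : ∀ a : V, res a = 0 ↔ V.valuation (a : L) < 1 := by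
    intro a
    have h1 : res a = IsLocalRing.residue V a := rfl
    rw [h1, IsLocalRing.residue_eq_zero_iff, ValuationSubring.valuation_lt_one_iff]
  have hR : ∀ y : V ⊗[K] M, Algebra.TensorProduct.map res (AlgHom.id K M) y = 0 ↔
      g V b (Algebra.TensorProduct.map (iV V h) (AlgHom.id K M) y) < 1 := by
    intro y
    constructor
    · intro h1
      refine g_lt_one V b fun i => ?_
      rw [repr_map, iV_apply, ← hres, ← repr_map b res y i, h1]
      simp
    · intro h1
      refine (Algebra.TensorProduct.basis (IsLocalRing.ResidueField V) b).repr.map_eq_zero_iff.1 ?_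
      ext i
      rw [repr_map, Finsupp.zero_apply, hres]
      refine lt_of_le_of_lt ?_ h1
      have h2 := le_g V b (Algebra.TensorProduct.map (iV V h) (AlgHom.id K M) y) i
      rw [repr_map, iV_apply] at h2
      exact h2
  have h1 : Algebra.TensorProduct.map res (AlgHom.id K M) (y * y') = 0 := by
    rw [hR, map_mul, hy, hy']
    exact hlt
  rw [map_mul, mul_eq_zero] at h1
  rcases h1 with h1 | h1
  · rw [hR, hy, hz] at h1
    exact lt_irrefl _ h1
  · rw [hR, hy', hz'] at h1
    exact lt_irrefl _ h1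

end gauss

theorem g_mul (hDMT : Stmt_DMT) [IsAlgClosed K] (hV : ∀ c : K, algebraMap K L c ∈ V)
    (z z' : L ⊗[K] M) : g V b (z * z') = g V b z * g V b z' := by
  refine le_antisymm (g_mul_le V b hV z z') ?_
  rcases eq_or_ne z 0 with hz | hz
  · rw [hz, zero_mul, g_zero, zero_mul]
  rcases eq_or_ne z' 0 with hz' | hz'
  · rw [hz', mul_zero, g_zero, mul_zero]
  letI : Algebra K V := ((algebraMap K L).codRestrict V.toSubring hV).toAlgebra
  have hc : ∀ c : K, ((algebraMap K V c : V) : L) = algebraMap K L c := fun c => rfl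
  obtain ⟨i, h1, h2⟩ := exists_coord V b hz
  obtain ⟨j, h1', h2'⟩ := exists_coord V b hz'
  obtain ⟨c, hcd⟩ : ∃ c : L, c = (Algebra.TensorProduct.basis L b).repr z i := ⟨_, rfl⟩
  obtain ⟨c', hcd'⟩ : ∃ c' : L, c' = (Algebra.TensorProduct.basis L b).repr z' j := ⟨_, rfl⟩
  rw [← hcd] at h1 h2
  rw [← hcd'] at h1' h2'
  have e1 : g V b (c⁻¹ • z) = 1 := by
    rw [g_smul, ← h1, ← map_mul, inv_mul_cancel₀ h2, map_one]
  have e2 : g V b (c'⁻¹ • z') = 1 := by
    rw [g_smul, ← h1', ← map_mul, inv_mul_cancel₀ h2', map_one]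
  have h3 := gauss V b (hDMT K (IsLocalRing.ResidueField V) M) hc _ _ e1 e2
  have e3 : (c⁻¹ • z) * (c'⁻¹ • z') = (c⁻¹ * c'⁻¹) • (z * z') := by
    rw [smul_mul_smul_comm]
  rw [e3, g_smul] at h3
  rw [← h1, ← h1']
  calc V.valuation c * V.valuation c' = V.valuation c * V.valuation c' * 1 := (mul_one _).symm
    _ ≤ V.valuation c * V.valuation c' * (V.valuation (c⁻¹ * c'⁻¹) * g V b (z * z')) :=
        mul_le_mul_right h3 _
    _ = g V b (z * z') := by
        rw [← mul_assoc, ← map_mul, ← map_mul]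
        have : c * c' * (c⁻¹ * c'⁻¹) = 1 := by
          field_simp
        rw [this, map_one, one_mul]

/-- the Gauss valuation as a valuation -/
noncomputable def gv (hDMT : Stmt_DMT) [IsAlgClosed K] (hV : ∀ c : K, algebraMap K L c ∈ V) :
    Valuation (L ⊗[K] M) V.ValueGroup where
  toFun := g V b
  map_zero' := g_zero V b
  map_one' := by
    rw [Algebra.TensorProduct.one_def, g_one_tmul V b hV _ one_ne_zero, map_one]
  map_mul' := g_mul V b hDMT hV
  map_add_le_max' := g_add V b

end GSV_

open GSV_ in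
theorem gsv_proof (hDMT : Stmt_DMT) : Stmt_GSV := by
  intro K L M F _ _ _ _ _ _ _ _ _ V hV
  haveI : IsDomain (L ⊗[K] M) := hDMT K L M
  let b := Module.Basis.ofVectorSpace K M
  let v := gv V b hDMT hV
  have hv : ∀ z, v z = g V b z := fun z => rfl
  have hS : nonZeroDivisors (L ⊗[K] M) ≤ v.supp.primeCompl := by
    intro s hs h0
    have h1 : v s = 0 := h0
    exact nonZeroDivisors.ne_zero hs (g_eq_zero V b h1)
  let w := v.extendToLocalization hS F
  have hw : ∀ z, w (algebraMap (L ⊗[K] M) F z) = g V b z := fun z =>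
    v.extendToLocalization_apply_map_apply hS F z
  have hE := Valuation.isEquiv_valuation_valuationSubring w
  refine ⟨w.valuationSubring, ?_, ?_, ?_⟩
  · intro m hm
    rw [← hE.eq_one_iff_eq_one, hw, g_one_tmul V b hV _ hm, map_one]
  · intro d l m hm hz i
    rw [Valuation.mem_valuationSubring_iff, hw] at hz
    exact (V.valuation_le_one_iff _).1 ((le_g_sum V b hV l m hm i).trans hz)
  · intro D D' hD z
    rw [← hE, hw, hw]
    conv_lhs => rw [sum_coord b z]
    rw [map_sum]
    refine g_sum V b _ _ fun i _ => ?_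
    rw [hD]
    exact (g_tmul V b hV _ _).trans (le_g V b z i)

end Pool.Agent.SGL
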