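import Pool.Agent.SGL.Stmts

/-!
# HP1: partial fractions
-/

set_option autoImplicit false

namespace Pool.Agent.SGL

open Polynomial

namespace HP1_

/-- the truncated inverse -/
theorem trunc_inv (B : Polynomial ℚ) (hB : B.coeff 0 ≠ 0) (n : ℕ) :
    (X : Polynomial ℚ) ^ n ∣ PowerSeries.trunc n ((B : PowerSeries ℚ)⁻¹) * B - 1 := by
  rw [X_pow_dvd_iff]
  intro d hd
  have h0 : PowerSeries.constantCoeff (B : PowerSeries ℚ) ≠ 0 := by
    rw [← PowerSeries.coeff_zero_eq_constantCoeff_apply, Polynomial.coeff_coe]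
    exact hB
  have h1 := PowerSeries.inv_mul_cancel (B : PowerSeries ℚ) h0
  have h2 := congrArg (PowerSeries.coeff d) h1
  rw [PowerSeries.coeff_mul] at h2
  rw [Polynomial.coeff_sub, Polynomial.coeff_mul]
  have h3 : ∑ x ∈ Finset.HasAntidiagonal.antidiagonal d,
      (PowerSeries.trunc n ((B : PowerSeries ℚ)⁻¹)).coeff x.1 * B.coeff x.2 =
      ∑ x ∈ Finset.HasAntidiagonal.antidiagonal d, PowerSeries.coeff x.1 ((B : PowerSeries ℚ)⁻¹) *
        PowerSeries.coeff x.2 (B : PowerSeries ℚ) := by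
    refine Finset.sum_congr rfl fun x hx => ?_
    rw [PowerSeries.coeff_trunc, if_pos, Polynomial.coeff_coe]
    have := Finset.HasAntidiagonal.mem_antidiagonal.1 hx
    omega
  rw [h3, h2, PowerSeries.coeff_one, Polynomial.coeff_one]
  simp

/-- the sum is the truncation -/
theorem trunc_eq (φ : PowerSeries ℚ) (n : ℕ) :
    PowerSeries.trunc n φ =
      ∑ i ∈ Finset.range n, C (PowerSeries.coeff (n - 1 - i) φ) * X ^ (n - 1 - i) := by
  rw [Finset.sum_range_reflect (fun j => C (PowerSeries.coeff j φ) * (X : Polynomial ℚ) ^ j) n]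
  ext d
  rw [PowerSeries.coeff_trunc, Polynomial.finsetSum_coeff]
  simp only [Polynomial.coeff_C_mul, Polynomial.coeff_X_pow, mul_ite, mul_one, mul_zero]
  rw [Finset.sum_ite_eq]
  simp only [Finset.mem_range]

/-- the key divisibility -/
theorem key (m : ℕ) (ν : ℕ → ℕ) (h : ℕ) :
    (X - C (h : ℚ)) ^ ν h ∣
      (∑ i ∈ Finset.range (ν h), C (cc m ν h i) * (X - C (h : ℚ)) ^ (ν h - 1 - i)) *
        ∏ g ∈ (Finset.range (m + 1)).erase h, (X - C (g : ℚ)) ^ ν g - 1 := by
  classical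
  set B : Polynomial ℚ := ∏ g ∈ (Finset.range (m + 1)).erase h, (X + C ((h : ℚ) - g)) ^ ν g
    with hBdef
  have hB : B.coeff 0 ≠ 0 := by
    rw [Polynomial.coeff_zero_eq_eval_zero, hBdef, Polynomial.eval_prod]
    refine Finset.prod_ne_zero_iff.2 fun g hg => ?_
    rw [eval_pow, eval_add, eval_X, eval_C, zero_add]
    refine pow_ne_zero _ ?_
    rw [sub_ne_zero]
    intro h1
    exact (Finset.mem_erase.1 hg).1 (by exact_mod_cast h1.symm)
  have hBc : (B : PowerSeries ℚ) = ∏ g ∈ (Finset.range (m + 1)).erase h,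
      ((PowerSeries.X : PowerSeries ℚ) + PowerSeries.C ((h : ℚ) - g)) ^ ν g := by
    rw [hBdef]
    have := map_prod (Polynomial.coeToPowerSeries.ringHom (R := ℚ))
      (fun g : ℕ => (X + C ((h : ℚ) - (g : ℚ))) ^ ν g) ((Finset.range (m + 1)).erase h)
    rw [Polynomial.coeToPowerSeries.ringHom_apply] at this
    rw [this]
    refine Finset.prod_congr rfl fun g _ => ?_
    rw [Polynomial.coeToPowerSeries.ringHom_apply]
    push_cast
    rfl
  have h1 := trunc_inv B hB (ν h)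
  have h2 : ((B : PowerSeries ℚ)⁻¹) = Bh m ν h := by
    rw [hBc]
    rfl
  rw [h2, trunc_eq] at h1
  have h3 := (Polynomial.compRingHom (X - C (h : ℚ))).toMonoidHom
  have h4 := map_dvd (Polynomial.compRingHom (X - C (h : ℚ))) h1
  simp only [map_pow, map_sub, map_mul, map_sum, map_one, Polynomial.coe_compRingHom_apply,
    X_comp, C_comp] at h4
  have h5 : B.comp (X - C (h : ℚ)) =
      ∏ g ∈ (Finset.range (m + 1)).erase h, (X - C (g : ℚ)) ^ ν g := by
    rw [hBdef, Polynomial.prod_comp]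
    refine Finset.prod_congr rfl fun g _ => ?_
    rw [pow_comp, add_comp, X_comp, C_comp, map_sub]
    congr 1
    ring
  rw [h5] at h4
  exact h4

theorem coprime (a b : ℕ) (hab : a ≠ b) (k l : ℕ) :
    IsCoprime ((X - C (a : ℚ)) ^ k) ((X - C (b : ℚ)) ^ l) := by
  refine IsCoprime.pow ?_
  refine Polynomial.isCoprime_X_sub_C_of_isUnit_sub ?_
  rw [isUnit_iff_ne_zero, sub_ne_zero]
  exact_mod_cast hab

theorem deg (h k : ℕ) : ((X - C (h : ℚ)) ^ k).natDegree = k := by
  rw [natDegree_pow, natDegree_X_sub_C, mul_one]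

end HP1_

open HP1_

theorem hp1_proof : Stmt_HP1 := by
  classical
  intro m ν hν
  have hne : ∀ h k : ℕ, (X - C (h : ℚ)) ^ k ≠ 0 := fun h k => pow_ne_zero _ (X_sub_C_ne_zero _)
  set E : Polynomial ℚ := 1 - ∑ h ∈ Finset.range (m + 1), ∑ i ∈ Finset.range (ν h),
      C (cc m ν h i) * (X - C (h : ℚ)) ^ (ν h - 1 - i) *
        ∏ g ∈ (Finset.range (m + 1)).erase h, (X - C (g : ℚ)) ^ ν g with hE
  suffices hE0 : E = 0 by
    rw [hE] at hE0
    exact sub_eq_zero.1 hE0
  have hdvd : ∀ h ∈ Finset.range (m + 1), (X - C (h : ℚ)) ^ ν h ∣ E := by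
    intro h hh
    have h1 := key m ν h
    rw [hE, ← Finset.add_sum_erase _ _ hh, ← Finset.sum_mul]
    have h2 : (X - C (h : ℚ)) ^ ν h ∣ ∑ h' ∈ (Finset.range (m + 1)).erase h,
        ∑ i ∈ Finset.range (ν h'), C (cc m ν h' i) * (X - C (h' : ℚ)) ^ (ν h' - 1 - i) *
        ∏ g ∈ (Finset.range (m + 1)).erase h', (X - C (g : ℚ)) ^ ν g := by
      refine Finset.dvd_sum fun h' hh' => Finset.dvd_sum fun i _ => ?_
      refine Dvd.dvd.mul_left ?_ _
      refine Finset.dvd_prod_of_mem (fun g : ℕ => (X - C (g : ℚ)) ^ ν g) ?_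
      exact Finset.mem_erase.2 ⟨fun e => (Finset.mem_erase.1 hh').1 e.symm, hh⟩
    have h3 := (dvd_add h1 h2).neg_right
    refine h3.trans (dvd_of_eq ?_)
    ring
  have hprod : ∏ h ∈ Finset.range (m + 1), (X - C (h : ℚ)) ^ ν h ∣ E := by
    refine Finset.prod_dvd_of_coprime ?_ hdvd
    intro a _ b _ hab
    exact coprime a b hab _ _
  refine Polynomial.eq_zero_of_dvd_of_natDegree_lt hprod ?_
  rw [natDegree_prod _ _ (fun h _ => hne h _)]
  simp only [deg]
  have h0 : ν 0 ≤ ∑ h ∈ Finset.range (m + 1), ν h :=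
    Finset.single_le_sum (fun _ _ => Nat.zero_le _) (Finset.mem_range.2 (Nat.succ_pos m))
  have h0' := hν 0
  suffices hle : E.natDegree ≤ ∑ h ∈ Finset.range (m + 1), ν h - 1 by omega
  rw [hE]
  refine (natDegree_sub_le _ _).trans (max_le (natDegree_one.le.trans (Nat.zero_le _)) ?_)
  refine natDegree_sum_le_of_forall_le _ _ fun h hh => ?_
  refine natDegree_sum_le_of_forall_le _ _ fun i hi => ?_
  have hi' := Finset.mem_range.1 hi
  have hs := Finset.add_sum_erase (Finset.range (m + 1)) ν hh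
  calc (C (cc m ν h i) * (X - C (h : ℚ)) ^ (ν h - 1 - i) *
        ∏ g ∈ (Finset.range (m + 1)).erase h, (X - C (g : ℚ)) ^ ν g).natDegree
      ≤ (C (cc m ν h i) * (X - C (h : ℚ)) ^ (ν h - 1 - i)).natDegree +
        (∏ g ∈ (Finset.range (m + 1)).erase h, (X - C (g : ℚ)) ^ ν g).natDegree :=
        natDegree_mul_le
    _ ≤ (ν h - 1 - i) + ∑ g ∈ (Finset.range (m + 1)).erase h, ν g := by
        refine add_le_add ?_ ?_
        · exact (natDegree_C_mul_le _ _).trans (deg _ _).le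
        · rw [natDegree_prod _ _ (fun h _ => hne h _)]
          simp only [deg]
          exact le_rfl
    _ ≤ ∑ h ∈ Finset.range (m + 1), ν h - 1 := by omega

end Pool.Agent.SGL
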