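import Pool.Agent.SGL.Stmts

set_option autoImplicit false

namespace Pool.Agent.SGL

open Filter Pool.Agent.SBT

namespace HP2_

/-- the reversed identity, in polynomials -/
theorem reversed (hHP1 : Stmt_HP1) (m : ℕ) (ν : ℕ → ℕ) (hν : ∀ h, 1 ≤ ν h) :
    (Polynomial.X : Polynomial ℚ) ^ (∑ h ∈ Finset.range (m + 1), ν h - 1) =
      ∑ h ∈ Finset.range (m + 1), ∑ i ∈ Finset.range (ν h),
        Polynomial.C (cc m ν h i) * ((1 - Polynomial.C (h : ℚ) * Polynomial.X) ^ (ν h - 1 - i) *
          Polynomial.X ^ i *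
          ∏ g ∈ (Finset.range (m + 1)).erase h,
            (1 - Polynomial.C (g : ℚ) * Polynomial.X) ^ ν g) := by
  have h0 := hHP1 m ν hν
  apply Polynomial.eq_of_infinite_eval_eq
  have hsub : {x : ℚ | x ≠ 0} ⊆ {x : ℚ | Polynomial.eval x ((Polynomial.X : Polynomial ℚ) ^
      (∑ h ∈ Finset.range (m + 1), ν h - 1)) =
      Polynomial.eval x (∑ h ∈ Finset.range (m + 1), ∑ i ∈ Finset.range (ν h),
        Polynomial.C (cc m ν h i) * ((1 - Polynomial.C (h : ℚ) * Polynomial.X) ^ (ν h - 1 - i) *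
          Polynomial.X ^ i *
          ∏ g ∈ (Finset.range (m + 1)).erase h,
            (1 - Polynomial.C (g : ℚ) * Polynomial.X) ^ ν g))} := by
    intro w hw
    have hw0 : w ≠ 0 := hw
    have h1 := congrArg (Polynomial.eval w⁻¹) h0
    rw [Polynomial.eval_one, Polynomial.eval_finsetSum] at h1
    simp only [Polynomial.eval_finsetSum, Polynomial.eval_mul, Polynomial.eval_C,
      Polynomial.eval_pow, Polynomial.eval_sub, Polynomial.eval_X, Polynomial.eval_prod] at h1
    show Polynomial.eval w _ = Polynomial.eval w _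
    rw [Polynomial.eval_pow, Polynomial.eval_X, Polynomial.eval_finsetSum]
    simp only [Polynomial.eval_finsetSum, Polynomial.eval_mul, Polynomial.eval_C,
      Polynomial.eval_pow, Polynomial.eval_sub, Polynomial.eval_X, Polynomial.eval_prod,
      Polynomial.eval_one]
    have h2 : w ^ (∑ h ∈ Finset.range (m + 1), ν h - 1) =
        w ^ (∑ h ∈ Finset.range (m + 1), ν h - 1) *
          ∑ h ∈ Finset.range (m + 1), ∑ i ∈ Finset.range (ν h),
            cc m ν h i * (w⁻¹ - (h : ℚ)) ^ (ν h - 1 - i) *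
              ∏ g ∈ (Finset.range (m + 1)).erase h, (w⁻¹ - (g : ℚ)) ^ ν g := by
      rw [← h1, mul_one]
    rw [h2, Finset.mul_sum]
    refine Finset.sum_congr rfl fun h hh => ?_
    rw [Finset.mul_sum]
    refine Finset.sum_congr rfl fun i hi => ?_
    rw [Finset.mem_range] at hi
    have hN : ∑ h ∈ Finset.range (m + 1), ν h - 1 =
        (ν h - 1 - i) + i + ∑ g ∈ (Finset.range (m + 1)).erase h, ν g := by
      rw [← Finset.add_sum_erase _ _ hh]
      have := hν h
      omega
    have h3 : ∀ (c : ℚ) (k : ℕ), (1 - c * w) ^ k = w ^ k * (w⁻¹ - c) ^ k := by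
      intro c k
      rw [← mul_pow, mul_sub, mul_inv_cancel₀ hw0, mul_comm w c]
    have h4 : ∏ g ∈ (Finset.range (m + 1)).erase h, (1 - (g : ℚ) * w) ^ ν g =
        w ^ (∑ g ∈ (Finset.range (m + 1)).erase h, ν g) *
          ∏ g ∈ (Finset.range (m + 1)).erase h, (w⁻¹ - (g : ℚ)) ^ ν g := by
      rw [← Finset.prod_pow_eq_pow_sum, ← Finset.prod_mul_distrib]
      exact Finset.prod_congr rfl fun g _ => h3 g (ν g)
    rw [h3, h4, hN, pow_add, pow_add]
    ring
  exact (Set.infinite_of_finite_compl (by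
    have : {x : ℚ | x ≠ 0}ᶜ = {0} := by
      ext x
      simp
    rw [this]
    exact Set.finite_singleton 0)).mono hsub

/-- geometric series -/
noncomputable def gs (h : ℚ) : PowerSeries ℚ := PowerSeries.mk fun n => h ^ n

theorem gs_mul (h : ℚ) : (1 - PowerSeries.C h * PowerSeries.X) * gs h = 1 := by
  ext n
  rw [sub_mul, one_mul, map_sub, mul_assoc]
  rcases n with _ | n
  · rw [PowerSeries.coeff_C_mul, PowerSeries.coeff_zero_X_mul]
    simp [gs]
  · rw [PowerSeries.coeff_C_mul, PowerSeries.coeff_succ_X_mul]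
    simp only [gs, PowerSeries.coeff_mk]
    rw [PowerSeries.coeff_one, if_neg (Nat.succ_ne_zero n)]
    ring

theorem gs_eq (h : ℚ) : gs h = PowerSeries.rescale h (PowerSeries.mk (1 : ℕ → ℚ)) := by
  ext n
  rw [PowerSeries.coeff_rescale]
  simp [gs]

theorem coeff_gs_pow (h : ℚ) (i k : ℕ) :
    PowerSeries.coeff k (gs h ^ (i + 1)) = h ^ k * ((i + k).choose i : ℚ) := by
  rw [gs_eq, ← map_pow, PowerSeries.coeff_rescale, PowerSeries.mk_one_pow_eq_mk_choose_add,
    PowerSeries.coeff_mk]

theorem coeff_term (h : ℚ) (i j : ℕ) :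
    PowerSeries.coeff j ((PowerSeries.X : PowerSeries ℚ) ^ i * gs h ^ (i + 1)) =
      (j.choose i : ℚ) * h ^ (j - i) := by
  rw [PowerSeries.coeff_X_pow_mul']
  split_ifs with hij
  · rw [coeff_gs_pow, Nat.add_sub_cancel' hij]
    ring
  · rw [Nat.choose_eq_zero_of_lt (by omega)]
    simp

/-- comparison of series with nonnegative coefficients -/
def le' (p q : PowerSeries ℚ) : Prop :=
  ∀ n, 0 ≤ PowerSeries.coeff n p ∧ PowerSeries.coeff n p ≤ PowerSeries.coeff n q

theorem le_mul (p q p' q' : PowerSeries ℚ) (h : le' p q) (h' : le' p' q') :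
    le' (p * p') (q * q') := by
  intro n
  rw [PowerSeries.coeff_mul, PowerSeries.coeff_mul]
  constructor
  · exact Finset.sum_nonneg fun x _ => mul_nonneg (h _).1 (h' _).1
  · exact Finset.sum_le_sum fun x _ =>
      mul_le_mul (h _).2 (h' _).2 (h' _).1 ((h _).1.trans (h _).2)

theorem le_one : le' 1 1 := by
  intro n
  refine ⟨?_, le_rfl⟩
  rw [PowerSeries.coeff_one]
  split_ifs
  · exact zero_le_one
  · exact le_rfl

theorem le_pow (p q : PowerSeries ℚ) (h : le' p q) (k : ℕ) : le' (p ^ k) (q ^ k) := by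
  induction k with
  | zero =>
    rw [pow_zero, pow_zero]
    exact le_one
  | succ k ih =>
    rw [pow_succ, pow_succ]
    exact le_mul _ _ _ _ ih h

theorem le_prod (s : Finset ℕ) (p q : ℕ → PowerSeries ℚ) (h : ∀ i ∈ s, le' (p i) (q i)) :
    le' (∏ i ∈ s, p i) (∏ i ∈ s, q i) := by
  induction s using Finset.induction_on with
  | empty =>
    rw [Finset.prod_empty, Finset.prod_empty]
    exact le_one
  | insert i s hi ih =>
    rw [Finset.prod_insert hi, Finset.prod_insert hi]
    exact le_mul _ _ _ _ (h i (Finset.mem_insert_self i s))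
      (ih fun j hj => h j (Finset.mem_insert_of_mem hj))

end HP2_

theorem hp2_proof (hHP1 : Stmt_HP1) : Stmt_HP2 := by
  intro m ν hν j
  set N := ∑ h ∈ Finset.range (m + 1), ν h with hN
  have hN1 : 1 ≤ N := by
    rw [hN, Finset.sum_range_succ]
    have := hν m
    omega
  set G : PowerSeries ℚ := ∏ h ∈ Finset.range (m + 1), HP2_.gs (h : ℚ) ^ ν h with hG
  have key : ∑ h ∈ Finset.range (m + 1), ∑ i ∈ Finset.range (ν h),
        cc m ν h i * (j.choose i : ℚ) * (h : ℚ) ^ (j - i) =
      PowerSeries.coeff j ((PowerSeries.X : PowerSeries ℚ) ^ (N - 1) * G) := by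
    have h1 := congrArg (fun p : Polynomial ℚ => (p : PowerSeries ℚ)) (HP2_.reversed hHP1 m ν hν)
    simp only [← Polynomial.coeToPowerSeries.ringHom_apply] at h1
    simp only [map_pow, map_sum, map_mul, map_sub, map_one, map_prod] at h1
    simp only [Polynomial.coeToPowerSeries.ringHom_apply, Polynomial.coe_X, Polynomial.coe_C] at h1
    rw [← hN] at h1
    have h2 : (PowerSeries.X : PowerSeries ℚ) ^ (N - 1) * G =
        ∑ h ∈ Finset.range (m + 1), ∑ i ∈ Finset.range (ν h),
          PowerSeries.C (cc m ν h i) *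
            ((PowerSeries.X : PowerSeries ℚ) ^ i * HP2_.gs (h : ℚ) ^ (i + 1)) := by
      rw [h1, Finset.sum_mul]
      refine Finset.sum_congr rfl fun h hh => ?_
      rw [Finset.sum_mul]
      refine Finset.sum_congr rfl fun i hi => ?_
      rw [Finset.mem_range] at hi
      have h3 : G = HP2_.gs (h : ℚ) ^ ν h *
          ∏ g ∈ (Finset.range (m + 1)).erase h, HP2_.gs (g : ℚ) ^ ν g := by
        rw [hG, ← Finset.mul_prod_erase _ _ hh]
      have h4 : (∏ g ∈ (Finset.range (m + 1)).erase h,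
          (1 - PowerSeries.C (g : ℚ) * (PowerSeries.X : PowerSeries ℚ)) ^ ν g) *
          ∏ g ∈ (Finset.range (m + 1)).erase h, HP2_.gs (g : ℚ) ^ ν g = 1 := by
        rw [← Finset.prod_mul_distrib]
        apply Finset.prod_eq_one
        intro g _
        rw [← mul_pow, HP2_.gs_mul, one_pow]
      have h5 : (1 - PowerSeries.C (h : ℚ) * (PowerSeries.X : PowerSeries ℚ)) ^ (ν h - 1 - i) *
          HP2_.gs (h : ℚ) ^ ν h = HP2_.gs (h : ℚ) ^ (i + 1) := by
        have h6 : ν h = (ν h - 1 - i) + (i + 1) := by omega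
        nth_rewrite 2 [h6]
        rw [pow_add, ← mul_assoc, ← mul_pow, HP2_.gs_mul, one_pow, one_mul]
      rw [h3]
      calc PowerSeries.C (cc m ν h i) *
            ((1 - PowerSeries.C (h : ℚ) * (PowerSeries.X : PowerSeries ℚ)) ^ (ν h - 1 - i) *
              PowerSeries.X ^ i *
              ∏ g ∈ (Finset.range (m + 1)).erase h,
                (1 - PowerSeries.C (g : ℚ) * (PowerSeries.X : PowerSeries ℚ)) ^ ν g) *
            (HP2_.gs (h : ℚ) ^ ν h *
              ∏ g ∈ (Finset.range (m + 1)).erase h, HP2_.gs (g : ℚ) ^ ν g)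
          = PowerSeries.C (cc m ν h i) * (PowerSeries.X ^ i *
              ((1 - PowerSeries.C (h : ℚ) * (PowerSeries.X : PowerSeries ℚ)) ^ (ν h - 1 - i) *
                HP2_.gs (h : ℚ) ^ ν h) *
              ((∏ g ∈ (Finset.range (m + 1)).erase h,
                (1 - PowerSeries.C (g : ℚ) * (PowerSeries.X : PowerSeries ℚ)) ^ ν g) *
              ∏ g ∈ (Finset.range (m + 1)).erase h, HP2_.gs (g : ℚ) ^ ν g)) := by ring
        _ = PowerSeries.C (cc m ν h i) *
            ((PowerSeries.X : PowerSeries ℚ) ^ i * HP2_.gs (h : ℚ) ^ (i + 1)) := by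
            rw [h4, h5, mul_one]
    rw [h2, map_sum]
    refine Finset.sum_congr rfl fun h _ => ?_
    rw [map_sum]
    refine Finset.sum_congr rfl fun i _ => ?_
    rw [PowerSeries.coeff_C_mul, HP2_.coeff_term]
    ring
  rw [key]
  rw [PowerSeries.coeff_X_pow_mul']
  have hle : HP2_.le' G (HP2_.gs (m : ℚ) ^ N) := by
    rw [hN, ← Finset.prod_pow_eq_pow_sum, hG]
    apply HP2_.le_prod
    intro h hh
    apply HP2_.le_pow
    intro n
    rw [Finset.mem_range] at hh
    simp only [HP2_.gs, PowerSeries.coeff_mk]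
    refine ⟨by positivity, ?_⟩
    apply pow_le_pow_left₀ (by positivity)
    exact_mod_cast Nat.lt_succ_iff.mp hh
  constructor
  · intro hj
    rw [if_neg (by omega)]
  · split_ifs with hj
    · obtain ⟨h7, h8⟩ := hle (j - (N - 1))
      rw [abs_of_nonneg h7]
      refine h8.trans (le_of_eq ?_)
      have h9 : HP2_.gs (m : ℚ) ^ N = HP2_.gs (m : ℚ) ^ ((N - 1) + 1) := by
        congr 1
        omega
      rw [h9, HP2_.coeff_gs_pow, Nat.add_sub_cancel' hj]
      have h10 : j - (N - 1) = j + 1 - N := by omega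
      rw [h10]
      ring
    · rw [abs_zero]
      positivity

end Pool.Agent.SGL
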