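import Pool.Agent.SGL.Stmts

/-!
# SGL HP3: the remainder of the Hermite approximations
-/

set_option autoImplicit false

namespace Pool.Agent.SGL

namespace HP3_

lemma hsc {K : Type*} [RCLike K] {f g : ℕ → K} {a : K} (h : ∀ n, f n = g n)
    (hg : HasSum g a) : HasSum f a := by
  have : f = g := funext h
  rw [this]
  exact hg

lemma hs {K : Type*} [RCLike K] (i : ℕ) (h u : K) :
    HasSum (fun j : ℕ => (j.choose i : K) * h ^ (j - i) * (u ^ j / (j.factorial : K)))
      (u ^ i / (i.factorial : K) * NormedSpace.exp (h * u)) := by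
  rw [← hasSum_nat_add_iff' i]
  have h0 : ∑ j ∈ Finset.range i,
      ((j.choose i : K) * h ^ (j - i) * (u ^ j / (j.factorial : K))) = 0 := by
    apply Finset.sum_eq_zero
    intro j hj
    rw [Nat.choose_eq_zero_of_lt (Finset.mem_range.1 hj)]
    simp
  rw [h0, sub_zero]
  have h1 := (NormedSpace.expSeries_div_hasSum_exp (h * u)).mul_left (u ^ i / (i.factorial : K))
  refine hsc (fun n => ?_) h1
  rw [Nat.add_sub_cancel]
  have h2 : (((n + i).choose i : ℕ) : K) * (i.factorial : K) * (n.factorial : K)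
      = ((n + i).factorial : K) := by
    have := Nat.choose_mul_factorial_mul_factorial (Nat.le_add_left i n)
    rw [Nat.add_sub_cancel] at this
    exact_mod_cast this
  have e1 : ((n + i).factorial : K) ≠ 0 := by
    exact_mod_cast (Nat.factorial_ne_zero _)
  have e2 : (i.factorial : K) ≠ 0 := by
    exact_mod_cast (Nat.factorial_ne_zero _)
  have e3 : (n.factorial : K) ≠ 0 := by
    exact_mod_cast (Nat.factorial_ne_zero _)
  have e4 : (((n + i).choose i : ℕ) : K) ≠ 0 := by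
    exact_mod_cast (Nat.choose_pos (Nat.le_add_left i n)).ne'
  rw [← h2]
  rw [mul_pow, pow_add]
  field_simp

end HP3_

open HP3_ in
theorem hp3_proof (hHP2 : Stmt_HP2) : Stmt_HP3 := by
  intro m ν hν u
  set N := ∑ h ∈ Finset.range (m + 1), ν h with hN
  have hN1 : 1 ≤ N := by
    rw [hN]
    have h0 : 0 ∈ Finset.range (m + 1) := Finset.mem_range.2 (Nat.succ_pos m)
    calc 1 ≤ ν 0 := hν 0
      _ ≤ ∑ h ∈ Finset.range (m + 1), ν h := Finset.single_le_sum (fun i _ => Nat.zero_le _) h0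
  let H : ℕ → ℚ := fun j => ∑ h ∈ Finset.range (m + 1), ∑ i ∈ Finset.range (ν h),
        cc m ν h i * (j.choose i : ℚ) * (h : ℚ) ^ (j - i)
  -- the series of the left hand side
  have hsum : HasSum (fun j : ℕ => ((H j : ℚ) : ℂ) * (u ^ j / (j.factorial : ℂ)))
      (∑ h ∈ Finset.range (m + 1), Polynomial.aeval u (Ph m ν h) * Complex.exp (h * u)) := by
    have h1 : ∀ h ∈ Finset.range (m + 1), HasSum (fun j : ℕ => ∑ i ∈ Finset.range (ν h),
        ((cc m ν h i : ℚ) : ℂ) * (((j.choose i : ℕ) : ℂ) * ((h : ℕ) : ℂ) ^ (j - i) *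
          (u ^ j / (j.factorial : ℂ))))
        (Polynomial.aeval u (Ph m ν h) * Complex.exp (h * u)) := by
      intro h _
      have h2 : Polynomial.aeval u (Ph m ν h) * Complex.exp (h * u)
          = ∑ i ∈ Finset.range (ν h), ((cc m ν h i : ℚ) : ℂ) *
            (u ^ i / (i.factorial : ℂ) * NormedSpace.exp ((h : ℂ) * u)) := by
        rw [Ph, map_sum, Finset.sum_mul]
        refine Finset.sum_congr rfl fun i _ => ?_
        rw [map_mul, Polynomial.aeval_C, map_pow, Polynomial.aeval_X, ← Complex.exp_eq_exp_ℂ]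
        simp only [eq_ratCast, Rat.cast_div, Rat.cast_natCast]
        ring
      rw [h2]
      exact hasSum_sum fun i _ => (hs i (h : ℂ) u).mul_left _
    have h3 := hasSum_sum h1
    refine hsc (fun j => ?_) h3
    simp only [H]
    push_cast
    rw [Finset.sum_mul]
    refine Finset.sum_congr rfl fun h _ => ?_
    rw [Finset.sum_mul]
    refine Finset.sum_congr rfl fun i _ => ?_
    ring
  -- the majorant
  have hmaj : HasSum (fun j : ℕ => ((j.choose (N - 1) : ℕ) : ℝ) * (m : ℝ) ^ (j - (N - 1)) *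
      (‖u‖ ^ j / (j.factorial : ℝ)))
      (‖u‖ ^ (N - 1) / ((N - 1).factorial : ℝ) * Real.exp (m * ‖u‖)) := by
    rw [Real.exp_eq_exp_ℝ]
    exact hs (N - 1) (m : ℝ) ‖u‖
  have hle : ∀ j : ℕ, ‖((H j : ℚ) : ℂ) * (u ^ j / (j.factorial : ℂ))‖ ≤
      ((j.choose (N - 1) : ℕ) : ℝ) * (m : ℝ) ^ (j - (N - 1)) * (‖u‖ ^ j / (j.factorial : ℝ)) := by
    intro j
    rw [norm_mul, norm_div, norm_pow, Complex.norm_natCast]
    have hb : |H j| ≤ ((j.choose (N - 1) : ℕ) : ℚ) * (m : ℚ) ^ (j + 1 - N) := (hHP2 m ν hν j).2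
    have he : j + 1 - N = j - (N - 1) := by omega
    rw [he] at hb
    have hc : ‖((H j : ℚ) : ℂ)‖ = ((|H j| : ℚ) : ℝ) := by
      rw [← Complex.ofReal_ratCast, Complex.norm_real, Real.norm_eq_abs, Rat.cast_abs]
    rw [hc]
    have hb' : ((|H j| : ℚ) : ℝ) ≤ ((j.choose (N - 1) : ℕ) : ℝ) * (m : ℝ) ^ (j - (N - 1)) := by
      have : ((|H j| : ℚ) : ℝ) ≤ ((((j.choose (N - 1) : ℕ) : ℚ) * (m : ℚ) ^ (j - (N - 1)) : ℚ) : ℝ) :=
        by exact_mod_cast hb
      simpa using this
    exact mul_le_mul_of_nonneg_right hb' (by positivity)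
  rw [← hsum.tsum_eq]
  exact tsum_of_norm_bounded hmaj hle

end Pool.Agent.SGL
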