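import Pool.Agent.SGL.Stmts

/-!
# Squad SGL, module HP4: integrality and size of the coefficients
-/

set_option autoImplicit false

namespace Pool.Agent.SGL

namespace HP4_

open PowerSeries

/-- the product of the differences of the nodes -/
theorem prod_nodes (h j : ℕ) : ∏ g ∈ (Finset.range (h + j + 1)).erase h, ((h : ℚ) - g) =
    (-1) ^ j * ((h.factorial : ℚ) * j.factorial) := by
  induction j with
  | zero =>
    have e1 : (Finset.range (h + 0 + 1)).erase h = Finset.range h := by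
      ext x
      simp only [Finset.mem_erase, Finset.mem_range]
      omega
    rw [e1, pow_zero, one_mul, Nat.factorial_zero, Nat.cast_one, mul_one]
    clear e1
    rw [← Finset.prod_range_reflect, ← Finset.prod_range_add_one_eq_factorial, Nat.cast_prod]
    apply Finset.prod_congr rfl
    intro x hx
    have := Finset.mem_range.1 hx
    have e2 : ((h - 1 - x : ℕ) : ℚ) = (h : ℚ) - 1 - x := by
      rw [Nat.cast_sub (by omega), Nat.cast_sub (by omega), Nat.cast_one]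
    rw [e2]
    push_cast
    ring
  | succ j ih =>
    have e1 : (Finset.range (h + (j + 1) + 1)).erase h =
        insert (h + j + 1) ((Finset.range (h + j + 1)).erase h) := by
      ext x
      simp only [Finset.mem_erase, Finset.mem_range, Finset.mem_insert]
      omega
    rw [e1, Finset.prod_insert (by simp), ih, Nat.factorial_succ, pow_succ]
    push_cast
    ring

/-- the series of `a / (a + X)` -/
noncomputable def H (a : ℚ) : ℚ⟦X⟧ := PowerSeries.mk fun j => (-a⁻¹) ^ j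

theorem H_mul {a : ℚ} (ha : a ≠ 0) : (C a⁻¹ * H a) * ((X : ℚ⟦X⟧) + C a) = 1 := by
  ext j
  rw [mul_add, map_add, mul_assoc, mul_assoc, coeff_C_mul, coeff_C_mul, coeff_mul_C]
  cases j with
  | zero =>
    simp [H, ha]
  | succ j =>
    rw [coeff_succ_mul_X, coeff_one, if_neg (Nat.succ_ne_zero j)]
    simp only [H, coeff_mk]
    have h1 : a⁻¹ * a = 1 := inv_mul_cancel₀ ha
    rw [pow_succ]
    linear_combination (-a⁻¹ ^ 1 * (-a⁻¹) ^ j) * h1

theorem Bh_eq (m : ℕ) (ν : ℕ → ℕ) (h : ℕ) :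
    Bh m ν h = C (∏ g ∈ (Finset.range (m + 1)).erase h, ((h : ℚ) - g) ^ ν g)⁻¹ *
      ∏ g ∈ (Finset.range (m + 1)).erase h, H ((h : ℚ) - g) ^ ν g := by
  unfold Bh
  symm
  have hne : ∀ g ∈ (Finset.range (m + 1)).erase h, (h : ℚ) - g ≠ 0 := by
    intro g hg
    have := (Finset.mem_erase.1 hg).1
    intro h0
    apply this
    have : (h : ℚ) = g := sub_eq_zero.1 h0
    exact_mod_cast this.symm
  rw [PowerSeries.eq_inv_iff_mul_eq_one]
  · rw [← Finset.prod_inv_distrib, map_prod, ← Finset.prod_mul_distrib, ← Finset.prod_mul_distrib]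
    apply Finset.prod_eq_one
    intro g hg
    rw [← inv_pow, map_pow, ← mul_pow, ← mul_pow, H_mul (hne g hg), one_pow]
  · rw [map_prod, Finset.prod_ne_zero_iff]
    intro g hg
    rw [map_pow]
    apply pow_ne_zero
    simpa using hne g hg

/-- integrality after rescaling -/
def IR (d : ℚ) (F : ℚ⟦X⟧) : Prop := ∃ φ : ℤ⟦X⟧, PowerSeries.map (Int.castRingHom ℚ) φ = rescale d F

theorem IR_one (d : ℚ) : IR d 1 := ⟨1, by rw [map_one, map_one]⟩

theorem IR_mul {d : ℚ} {F G : ℚ⟦X⟧} (hF : IR d F) (hG : IR d G) : IR d (F * G) := by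
  obtain ⟨φ, h1⟩ := hF
  obtain ⟨ψ, h2⟩ := hG
  exact ⟨φ * ψ, by rw [map_mul, map_mul, h1, h2]⟩

theorem IR_pow {d : ℚ} {F : ℚ⟦X⟧} (hF : IR d F) (k : ℕ) : IR d (F ^ k) := by
  induction k with
  | zero => rw [pow_zero]; exact IR_one d
  | succ k ih => rw [pow_succ]; exact IR_mul ih hF

theorem IR_prod {d : ℚ} (s : Finset ℕ) (F : ℕ → ℚ⟦X⟧) (h : ∀ g ∈ s, IR d (F g)) :
    IR d (∏ g ∈ s, F g) := by
  classical
  induction s using Finset.induction_on with
  | empty => rw [Finset.prod_empty]; exact IR_one d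
  | insert a s ha ih =>
    rw [Finset.prod_insert ha]
    exact IR_mul (h a (Finset.mem_insert_self _ _))
      (ih fun g hg => h g (Finset.mem_insert_of_mem hg))

theorem IR_H {d a : ℚ} {w : ℤ} (hw : (w : ℚ) = d * a⁻¹) : IR d (H a) := by
  refine ⟨PowerSeries.mk fun j => (-w) ^ j, ?_⟩
  ext j
  rw [coeff_map, coeff_rescale]
  simp only [H, coeff_mk]
  rw [← mul_pow]
  push_cast [eq_intCast]
  rw [hw]
  ring

theorem IR_coeff {d : ℚ} {F : ℚ⟦X⟧} (hF : IR d F) (t : ℕ) :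
    ∃ z : ℤ, (z : ℚ) = d ^ t * coeff t F := by
  obtain ⟨φ, h1⟩ := hF
  refine ⟨coeff t φ, ?_⟩
  have := congrArg (coeff t) h1
  rw [coeff_map, coeff_rescale] at this
  rw [← this]
  rfl

/-- size -/
def Mj (F : ℚ⟦X⟧) (s : ℕ) : Prop := ∀ t, |coeff t F| ≤ (s : ℚ) ^ t

theorem Mj_one : Mj 1 0 := by
  intro t
  rw [coeff_one]
  split_ifs with h
  · rw [h]; simp
  · rw [abs_zero]; positivity

theorem Mj_mul {F G : ℚ⟦X⟧} {s s' : ℕ} (hF : Mj F s) (hG : Mj G s') : Mj (F * G) (s + s') := by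
  intro t
  rw [coeff_mul, Nat.cast_add, (Commute.all (s : ℚ) (s' : ℚ)).add_pow']
  refine (Finset.abs_sum_le_sum_abs _ _).trans (Finset.sum_le_sum fun p hp => ?_)
  rw [abs_mul, nsmul_eq_mul]
  have h1 := hF p.1
  have h2 := hG p.2
  have h3 : |coeff p.1 F| * |coeff p.2 G| ≤ (s : ℚ) ^ p.1 * (s' : ℚ) ^ p.2 :=
    mul_le_mul h1 h2 (abs_nonneg _) (by positivity)
  refine h3.trans ?_
  have h4 : (1 : ℚ) ≤ (t.choose p.1 : ℚ) := by
    have h5 : 0 < t.choose p.1 := by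
      apply Nat.choose_pos
      have := Finset.HasAntidiagonal.mem_antidiagonal.1 hp
      omega
    exact_mod_cast h5
  exact le_mul_of_one_le_left (by positivity) h4

theorem Mj_pow {F : ℚ⟦X⟧} {s : ℕ} (hF : Mj F s) (k : ℕ) : Mj (F ^ k) (k * s) := by
  induction k with
  | zero => rw [pow_zero, zero_mul]; exact Mj_one
  | succ k ih =>
    rw [pow_succ, Nat.succ_mul]
    exact Mj_mul ih hF

theorem Mj_prod (S : Finset ℕ) (F : ℕ → ℚ⟦X⟧) (s : ℕ → ℕ) (h : ∀ g ∈ S, Mj (F g) (s g)) :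
    Mj (∏ g ∈ S, F g) (∑ g ∈ S, s g) := by
  classical
  induction S using Finset.induction_on with
  | empty => rw [Finset.prod_empty, Finset.sum_empty]; exact Mj_one
  | insert a S ha ih =>
    rw [Finset.prod_insert ha, Finset.sum_insert ha]
    exact Mj_mul (h a (Finset.mem_insert_self _ _))
      (ih fun g hg => h g (Finset.mem_insert_of_mem hg))

theorem Mj_H {a : ℚ} (ha : 1 ≤ |a|) : Mj (H a) 1 := by
  intro t
  simp only [H, coeff_mk, Nat.cast_one, one_pow]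
  rw [abs_pow, abs_neg, abs_inv]
  exact pow_le_one₀ (by positivity) (inv_le_one_of_one_le₀ ha)

theorem dvd_dl {m a : ℕ} (h1 : 1 ≤ a) (h2 : a ≤ m) : a ∣ dl m :=
  Finset.dvd_lcm (f := id) (Finset.mem_Icc.2 ⟨h1, h2⟩)

theorem dl_pos (m : ℕ) : 1 ≤ dl m := by
  apply Nat.pos_of_ne_zero
  unfold dl
  rw [Ne, Finset.lcm_eq_zero_iff]
  rintro ⟨x, hx, h0⟩
  have := (Finset.mem_Icc.1 hx).1
  simp only [id] at h0
  omega

/-- `dl m` is divisible by the differences of nodes -/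
theorem dl_div {m g h : ℕ} (hg : g ≤ m) (hh : h ≤ m) (hgh : g ≠ h) :
    ∃ w : ℤ, (w : ℚ) = (dl m : ℚ) * ((h : ℚ) - g)⁻¹ ∧ |(w : ℝ)| ≤ dl m := by
  have key : ∀ a : ℕ, 1 ≤ a → a ≤ m → ∃ w : ℤ, (w : ℚ) = (dl m : ℚ) * (a : ℚ)⁻¹ ∧
      |(w : ℝ)| ≤ dl m := by
    intro a h1 h2
    obtain ⟨c, hc⟩ := dvd_dl h1 h2
    have ha : (a : ℚ) ≠ 0 := by exact_mod_cast (by omega : a ≠ 0)
    refine ⟨c, ?_, ?_⟩
    · rw [hc]
      push_cast
      field_simp
    · have h3 : c ≤ dl m := by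
        rw [hc]
        exact Nat.le_mul_of_pos_left c h1
      have h4 : |((c : ℤ) : ℝ)| = (c : ℝ) := by
        rw [Int.cast_natCast, abs_of_nonneg (Nat.cast_nonneg c)]
      rw [h4]
      exact_mod_cast h3
  rcases lt_or_gt_of_ne hgh with h1 | h1
  · obtain ⟨w, hw, hw2⟩ := key (h - g) (by omega) (by omega)
    refine ⟨w, ?_, hw2⟩
    rw [hw, Nat.cast_sub h1.le]
  · obtain ⟨w, hw, hw2⟩ := key (g - h) (by omega) (by omega)
    refine ⟨-w, ?_, by rw [Int.cast_neg, abs_neg]; exact hw2⟩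
    rw [Int.cast_neg, hw, Nat.cast_sub h1.le]
    rw [← neg_sub (h : ℚ) (g : ℚ), inv_neg]
    ring

end HP4_

open HP4_ PowerSeries

theorem hp4_proof : Stmt_HP4 := by
  classical
  intro n m k hn hk h hh i hi
  obtain ⟨S, hS⟩ : ∃ S, S = (Finset.range (m + 1)).erase h := ⟨_, rfl⟩
  obtain ⟨F, hF⟩ : ∃ F, F = ∏ g ∈ S, H ((h : ℚ) - g) ^ (mult n k g) := ⟨_, rfl⟩
  obtain ⟨A, hA⟩ : ∃ A, A = ∏ g ∈ S, ((h : ℚ) - g) ^ (mult n k g) := ⟨_, rfl⟩
  obtain ⟨t, ht⟩ : ∃ t, t = mult n k h - 1 - i := ⟨_, rfl⟩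
  have hmem : ∀ g ∈ S, g ≤ m ∧ g ≠ h := by
    intro g hg
    rw [hS, Finset.mem_erase, Finset.mem_range] at hg
    exact ⟨by omega, hg.1⟩
  have hcc : cc m (mult n k) h i = A⁻¹ * coeff t F := by
    unfold cc
    rw [Bh_eq, ← hS, ← hF, ← hA, coeff_C_mul, ← ht]
  have hmul : mult n k h ≤ n + 1 := by
    unfold mult
    split_ifs <;> omega
  have htn : t ≤ n := by omega
  have hin : i ≤ n := by omega
  -- the first factor
  have hnodes := prod_nodes h (m - h)
  rw [show h + (m - h) + 1 = m + 1 by omega, ← hS] at hnodes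
  obtain ⟨Q, hQ⟩ : ∃ Q, Q = ∏ g ∈ S, ((h : ℚ) - g) := ⟨_, rfl⟩
  rw [← hQ] at hnodes
  have hfac : (m.factorial : ℚ) = (m.choose h : ℚ) * (h.factorial * (m - h).factorial) := by
    have := Nat.choose_mul_factorial_mul_factorial hh
    rw [← this]
    push_cast
    ring
  have hQ0 : Q ≠ 0 := by
    rw [hnodes]
    have h1 : (h.factorial : ℚ) ≠ 0 := by exact_mod_cast h.factorial_ne_zero
    have h2 : ((m - h).factorial : ℚ) ≠ 0 := by exact_mod_cast (m - h).factorial_ne_zero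
    have h3 : ((-1 : ℚ)) ^ (m - h) ≠ 0 := pow_ne_zero _ (by norm_num)
    exact mul_ne_zero h3 (mul_ne_zero h1 h2)
  have hm : (m.factorial : ℚ) * Q⁻¹ = (-1) ^ (m - h) * (m.choose h : ℚ) := by
    have h4 : (m.factorial : ℚ) = ((-1) ^ (m - h) * (m.choose h : ℚ)) * Q := by
      rw [hnodes, hfac]
      have h5 : ((-1 : ℚ)) ^ (m - h) * (-1) ^ (m - h) = 1 := by
        rw [← mul_pow]
        norm_num
      linear_combination -((m.choose h : ℚ) * (h.factorial * (m - h).factorial)) * h5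
    rw [h4]
    field_simp
  -- the second factor
  have hA2 : A = Q ^ n * ∏ g ∈ S, ((h : ℚ) - g) ^ (if g = k then 1 else 0) := by
    rw [hA, hQ, ← Finset.prod_pow, ← Finset.prod_mul_distrib]
    apply Finset.prod_congr rfl
    intro g _
    unfold mult
    rw [pow_add]
  have hsecond : ∃ w : ℤ, (w : ℚ) =
      (dl m : ℚ) * (∏ g ∈ S, ((h : ℚ) - g) ^ (if g = k then 1 else 0))⁻¹ ∧ |(w : ℝ)| ≤ dl m := by
    by_cases hkS : k ∈ S
    · have e1 : ∏ g ∈ S, ((h : ℚ) - g) ^ (if g = k then 1 else 0) = (h : ℚ) - k := by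
        rw [Finset.prod_eq_single_of_mem k hkS]
        · rw [if_pos rfl, pow_one]
        · intro g _ hgk
          rw [if_neg hgk, pow_zero]
      rw [e1]
      exact dl_div (hmem k hkS).1 hh (hmem k hkS).2
    · have e1 : ∏ g ∈ S, ((h : ℚ) - g) ^ (if g = k then 1 else 0) = 1 := by
        apply Finset.prod_eq_one
        intro g hg
        rw [if_neg (fun hgk : g = k => hkS (hgk ▸ hg)), pow_zero]
      rw [e1]
      refine ⟨dl m, by simp, ?_⟩
      rw [Int.cast_natCast, abs_of_nonneg (Nat.cast_nonneg _)]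
  obtain ⟨w, hw, hw2⟩ := hsecond
  -- the third factor
  have hIR : IR (dl m) F := by
    rw [hF]
    apply IR_prod
    intro g hg
    apply IR_pow
    obtain ⟨v, hv, -⟩ := dl_div (hmem g hg).1 hh (hmem g hg).2
    exact IR_H hv
  obtain ⟨z, hz⟩ := IR_coeff hIR t
  have hMj : Mj F (∑ g ∈ S, mult n k g) := by
    rw [hF]
    apply Mj_prod
    intro g hg
    have h1 : (1 : ℚ) ≤ |(h : ℚ) - g| := by
      have h2 : (1 : ℤ) ≤ |(h : ℤ) - g| := by
        apply Int.one_le_abs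
        have := (hmem g hg).2
        omega
      exact_mod_cast h2
    have := Mj_pow (Mj_H h1) (mult n k g)
    rwa [mul_one] at this
  have hsum : ∑ g ∈ S, mult n k g ≤ m * n + 1 := by
    unfold mult
    rw [Finset.sum_add_distrib, Finset.sum_const, smul_eq_mul]
    have h1 : S.card = m := by
      rw [hS, Finset.card_erase_of_mem (Finset.mem_range.2 (by omega)), Finset.card_range]
      omega
    have h2 : ∑ g ∈ S, (if g = k then 1 else 0) ≤ 1 := by
      rw [Finset.sum_ite_eq' S k]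
      split_ifs <;> omega
    rw [h1]
    omega
  have hcoef : |coeff t F| ≤ (2 * (n + 1) * (m + 1) : ℚ) ^ n := by
    have h1 := hMj t
    have h3 : ((∑ g ∈ S, mult n k g : ℕ) : ℚ) ≤ 2 * (n + 1) * (m + 1) := by
      have h4 : ((∑ g ∈ S, mult n k g : ℕ) : ℚ) ≤ m * n + 1 := by exact_mod_cast hsum
      have h5 : (0 : ℚ) ≤ m := by positivity
      have h6 : (0 : ℚ) ≤ n := by positivity
      nlinarith [mul_nonneg h5 h6]
    have h7 : (1 : ℚ) ≤ 2 * (n + 1) * (m + 1) := by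
      have h5 : (0 : ℚ) ≤ m := by positivity
      have h6 : (0 : ℚ) ≤ n := by positivity
      nlinarith [mul_nonneg h5 h6]
    calc |coeff t F| ≤ ((∑ g ∈ S, mult n k g : ℕ) : ℚ) ^ t := h1
      _ ≤ (2 * (n + 1) * (m + 1)) ^ t := pow_le_pow_left₀ (by positivity) h3 t
      _ ≤ (2 * (n + 1) * (m + 1)) ^ n := pow_le_pow_right₀ h7 htn
  -- assembly
  obtain ⟨q, hq⟩ := Nat.factorial_dvd_factorial hin
  refine ⟨((-1) ^ (m - h) * (m.choose h : ℤ)) ^ n * w * z * (dl m : ℤ) ^ (n - t) * q, ?_, ?_⟩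
  · push_cast
    rw [hw, hz, hcc, hA2, ← hm, mul_pow, hq]
    have hi0 : (i.factorial : ℚ) ≠ 0 := by exact_mod_cast i.factorial_ne_zero
    have e1 : (dl m : ℚ) ^ (n + 1) = dl m ^ t * dl m ^ (n - t) * dl m := by
      rw [← pow_add, ← pow_succ]
      congr 1
      omega
    rw [e1, mul_inv, inv_pow]
    push_cast
    field_simp
  · have hd1 : (1 : ℝ) ≤ dl m := by exact_mod_cast dl_pos m
    have hzR : |(z : ℝ)| ≤ (dl m : ℝ) ^ t * (2 * (n + 1) * (m + 1)) ^ n := by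
      have h1 : |(z : ℚ)| ≤ (dl m : ℚ) ^ t * (2 * (n + 1) * (m + 1)) ^ n := by
        rw [hz, abs_mul, abs_of_nonneg (by positivity : (0 : ℚ) ≤ (dl m : ℚ) ^ t)]
        exact mul_le_mul_of_nonneg_left hcoef (by positivity)
      exact_mod_cast h1
    have hch : (m.choose h : ℝ) ^ n ≤ 2 ^ (m * n) := by
      rw [pow_mul]
      apply pow_le_pow_left₀ (by positivity)
      have h1 : m.choose h ≤ 2 ^ m := by
        rw [← Nat.sum_range_choose]
        exact Finset.single_le_sum (fun _ _ => Nat.zero_le _) (Finset.mem_range.2 (by omega))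
      exact_mod_cast h1
    have hqn : (q : ℝ) ≤ n.factorial := by
      have h1 : q ≤ n.factorial := by
        rw [hq]
        exact Nat.le_mul_of_pos_left q (Nat.factorial_pos i)
      exact_mod_cast h1
    have habs : |(((((-1) ^ (m - h) * (m.choose h : ℤ)) ^ n * w * z * (dl m : ℤ) ^ (n - t) * q :
        ℤ)) : ℝ)| = (m.choose h : ℝ) ^ n * |(w : ℝ)| * |(z : ℝ)| * (dl m : ℝ) ^ (n - t) * q := by
      push_cast
      rw [abs_mul, abs_mul, abs_mul, abs_mul, abs_pow, abs_mul, abs_pow, abs_neg, abs_one, one_pow,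
        one_mul, abs_pow, Nat.abs_cast, Nat.abs_cast, Nat.abs_cast]
    rw [habs]
    unfold Hh
    have e1 : (dl m : ℝ) ^ (n + 1) = dl m ^ t * dl m ^ (n - t) * dl m := by
      rw [← pow_add, ← pow_succ]
      congr 1
      omega
    rw [e1]
    have s1 : (m.choose h : ℝ) ^ n * |(w : ℝ)| ≤ 2 ^ (m * n) * dl m :=
      mul_le_mul hch hw2 (abs_nonneg _) (by positivity)
    have s2 : (m.choose h : ℝ) ^ n * |(w : ℝ)| * |(z : ℝ)| ≤
        2 ^ (m * n) * dl m * ((dl m : ℝ) ^ t * (2 * (n + 1) * (m + 1)) ^ n) :=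
      mul_le_mul s1 hzR (abs_nonneg _) (by positivity)
    have s3 : (m.choose h : ℝ) ^ n * |(w : ℝ)| * |(z : ℝ)| * (dl m : ℝ) ^ (n - t) ≤
        2 ^ (m * n) * dl m * ((dl m : ℝ) ^ t * (2 * (n + 1) * (m + 1)) ^ n) * dl m ^ (n - t) :=
      mul_le_mul_of_nonneg_right s2 (by positivity)
    have s4 : (m.choose h : ℝ) ^ n * |(w : ℝ)| * |(z : ℝ)| * (dl m : ℝ) ^ (n - t) * q ≤
        2 ^ (m * n) * dl m * ((dl m : ℝ) ^ t * (2 * (n + 1) * (m + 1)) ^ n) * dl m ^ (n - t) *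
          n.factorial :=
      mul_le_mul s3 hqn (by positivity) (by positivity)
    calc (m.choose h : ℝ) ^ n * |(w : ℝ)| * |(z : ℝ)| * (dl m : ℝ) ^ (n - t) * q * (m + 1) ≤
        2 ^ (m * n) * dl m * ((dl m : ℝ) ^ t * (2 * (n + 1) * (m + 1)) ^ n) * dl m ^ (n - t) *
          n.factorial * (m + 1) := mul_le_mul_of_nonneg_right s4 (by positivity)
      _ = _ := by ring

end Pool.Agent.SGL
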