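import Pool.Agent.SGL.Stmts

/-!
# Squad SGL, module HP5: the determinant of Hermite's approximations
-/

set_option autoImplicit false

namespace Pool.Agent.SGL

open Filter Pool.Agent.SBT

namespace HP5_

/-- the power series of `exp (h X)` -/
noncomputable def ex (h : ℕ) : PowerSeries ℚ :=
  PowerSeries.mk fun j => (h : ℚ) ^ j / (j.factorial : ℚ)

theorem ex_zero : ex 0 = 1 := by
  ext j
  rw [ex, PowerSeries.coeff_mk, PowerSeries.coeff_one]
  rcases Nat.eq_zero_or_pos j with rfl | hj
  · simp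
  · rw [if_neg hj.ne']
    simp [hj.ne']

/-- coefficients of the product of a polynomial factor with the exponential series -/
theorem coeff_term (c : ℚ) (h i j : ℕ) :
    PowerSeries.coeff j (((Polynomial.C (c / (i.factorial : ℚ)) * Polynomial.X ^ i :
      Polynomial ℚ) : PowerSeries ℚ) * ex h) =
      (c * (j.choose i : ℚ) * (h : ℚ) ^ (j - i)) / (j.factorial : ℚ) := by
  rw [Polynomial.coe_mul, Polynomial.coe_C, Polynomial.coe_pow, Polynomial.coe_X, mul_assoc,
    PowerSeries.coeff_C_mul, PowerSeries.coeff_X_pow_mul']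
  split_ifs with hij
  · rw [ex, PowerSeries.coeff_mk]
    have h1 := Nat.choose_mul_factorial_mul_factorial hij
    have h2 : ((j.choose i : ℚ)) * (i.factorial : ℚ) * ((j - i).factorial : ℚ) =
        (j.factorial : ℚ) := by exact_mod_cast h1
    have h3 : (i.factorial : ℚ) ≠ 0 := by exact_mod_cast i.factorial_ne_zero
    have h4 : ((j - i).factorial : ℚ) ≠ 0 := by exact_mod_cast (j - i).factorial_ne_zero
    have h5 : (j.factorial : ℚ) ≠ 0 := by exact_mod_cast j.factorial_ne_zero
    rw [← h2]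
    have h6 : (j.choose i : ℚ) ≠ 0 := by
      intro h0
      rw [h0] at h2
      simp only [zero_mul] at h2
      exact h5 h2.symm
    field_simp
  · rw [Nat.choose_eq_zero_of_lt (by omega)]
    simp

theorem coeff_Ph (m : ℕ) (ν : ℕ → ℕ) (h j : ℕ) :
    PowerSeries.coeff j (((Ph m ν h : Polynomial ℚ) : PowerSeries ℚ) * ex h) =
      (∑ i ∈ Finset.range (ν h), cc m ν h i * (j.choose i : ℚ) * (h : ℚ) ^ (j - i)) /
        (j.factorial : ℚ) := by
  have h1 : ((Ph m ν h : Polynomial ℚ) : PowerSeries ℚ) = ∑ i ∈ Finset.range (ν h),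
      ((Polynomial.C (cc m ν h i / (i.factorial : ℚ)) * Polynomial.X ^ i : Polynomial ℚ) :
        PowerSeries ℚ) := by
    unfold Ph
    simp only [← Polynomial.coeToPowerSeries.ringHom_apply]
    rw [map_sum]
  rw [h1, Finset.sum_mul, map_sum, Finset.sum_div]
  exact Finset.sum_congr rfl (fun i _ => coeff_term _ _ _ _)

/-- the matrix -/
noncomputable def A (n m : ℕ) : Matrix (Fin (m + 1)) (Fin (m + 1)) (Polynomial ℚ) :=
  Matrix.of fun k h => Ph m (mult n k) h

theorem mult_self (n k : ℕ) : mult n k k = n + 1 := by simp [mult]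

theorem mult_ne {n k h : ℕ} (hk : h ≠ k) : mult n k h = n := by simp [mult, hk]

theorem mult_le (n k h : ℕ) : mult n k h ≤ n + 1 := by
  unfold mult
  split_ifs <;> omega

theorem sum_mult (n m k : ℕ) (hk : k ≤ m) :
    ∑ h ∈ Finset.range (m + 1), mult n k h = (m + 1) * n + 1 := by
  unfold mult
  rw [Finset.sum_add_distrib, Finset.sum_const, Finset.card_range, smul_eq_mul,
    Finset.sum_ite_eq' (Finset.range (m + 1)) k (fun _ => 1), if_pos (Finset.mem_range.mpr (by omega))]

theorem natDegree_Ph (n m k h : ℕ) : (Ph m (mult n k) h).natDegree ≤ n := by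
  unfold Ph
  refine Polynomial.natDegree_sum_le_of_forall_le _ _ (fun i hi => ?_)
  refine (Polynomial.natDegree_C_mul_X_pow_le _ _).trans ?_
  have h1 := Finset.mem_range.mp hi
  have h2 := mult_le n k h
  omega

theorem coeff_Ph_n (n m k h : ℕ) : (Ph m (mult n k) h).coeff n =
    if n < mult n k h then cc m (mult n k) h n / (n.factorial : ℚ) else 0 := by
  unfold Ph
  rw [Polynomial.finsetSum_coeff]
  simp only [Polynomial.coeff_C_mul_X_pow]
  rw [Finset.sum_ite_eq]
  simp only [Finset.mem_range]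

theorem coeff_Ph_off {n m k h : ℕ} (hk : h ≠ k) : (Ph m (mult n k) h).coeff n = 0 := by
  rw [coeff_Ph_n, mult_ne hk, if_neg (lt_irrefl n)]

theorem coeff_Ph_diag (n m k : ℕ) : (Ph m (mult n k) k).coeff n ≠ 0 := by
  rw [coeff_Ph_n, mult_self, if_pos (Nat.lt_succ_self n)]
  refine div_ne_zero ?_ (by exact_mod_cast n.factorial_ne_zero)
  unfold cc Bh
  rw [mult_self, Nat.add_sub_cancel, Nat.sub_self, PowerSeries.coeff_zero_eq_constantCoeff_apply,
    PowerSeries.constantCoeff_inv]
  refine inv_ne_zero ?_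
  rw [map_prod]
  refine Finset.prod_ne_zero_iff.mpr (fun g hg => ?_)
  rw [map_pow, map_add, PowerSeries.constantCoeff_X, PowerSeries.constantCoeff_C, zero_add]
  refine pow_ne_zero _ ?_
  have h1 := (Finset.mem_erase.mp hg).1
  rw [sub_ne_zero]
  exact_mod_cast h1.symm

theorem natDegree_det (n m : ℕ) : (A n m).det.natDegree ≤ (m + 1) * n := by
  rw [Matrix.det_apply]
  refine Polynomial.natDegree_sum_le_of_forall_le _ _ (fun σ _ => ?_)
  refine (Polynomial.natDegree_smul_le _ _).trans ?_
  refine (Polynomial.natDegree_prod_le _ _).trans ?_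
  calc ∑ i, (A n m (σ i) i).natDegree ≤ ∑ _i : Fin (m + 1), n :=
        Finset.sum_le_sum (fun i _ => natDegree_Ph n m _ _)
    _ = (m + 1) * n := by simp

theorem coeff_det (n m : ℕ) : (A n m).det.coeff ((m + 1) * n) ≠ 0 := by
  have h1 : ∀ σ : Equiv.Perm (Fin (m + 1)),
      (∏ i, A n m (σ i) i).coeff ((m + 1) * n) = ∏ i, (A n m (σ i) i).coeff n := by
    intro σ
    have h := Polynomial.coeff_prod_of_natDegree_le (Finset.univ : Finset (Fin (m + 1)))
      (fun i => A n m (σ i) i) n (fun i _ => natDegree_Ph n m _ _)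
    rwa [Finset.card_univ, Fintype.card_fin] at h
  rw [Matrix.det_apply, Polynomial.finsetSum_coeff]
  rw [Finset.sum_eq_single (1 : Equiv.Perm (Fin (m + 1)))]
  · rw [Equiv.Perm.sign_one, one_smul, h1]
    refine Finset.prod_ne_zero_iff.mpr (fun i _ => ?_)
    exact coeff_Ph_diag n m i
  · intro σ _ hσ
    obtain ⟨i, hi⟩ : ∃ i, σ i ≠ i := by
      by_contra hcon
      push Not at hcon
      exact hσ (Equiv.ext hcon)
    have h2 : (∏ i, A n m (σ i) i).coeff ((m + 1) * n) = 0 := by
      rw [h1]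
      refine Finset.prod_eq_zero (Finset.mem_univ i) ?_
      refine coeff_Ph_off ?_
      intro h
      exact hi (Fin.ext h.symm)
    rw [Units.smul_def, Polynomial.coeff_smul, h2, smul_zero]
  · intro h
    exact absurd (Finset.mem_univ _) h

theorem X_pow_dvd_det (hHP2 : Stmt_HP2) {n : ℕ} (hn : 1 ≤ n) (m : ℕ) :
    (PowerSeries.X : PowerSeries ℚ) ^ ((m + 1) * n) ∣ (((A n m).det : Polynomial ℚ) :
      PowerSeries ℚ) := by
  set B : Matrix (Fin (m + 1)) (Fin (m + 1)) (PowerSeries ℚ) :=
    Polynomial.coeToPowerSeries.ringHom.mapMatrix (A n m) with hB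
  have hdet : (((A n m).det : Polynomial ℚ) : PowerSeries ℚ) = B.det := by
    rw [hB, ← RingHom.map_det]
    rfl
  rw [hdet]
  have h1 := Matrix.det_updateCol_sum B 0 (fun h => ex (h : ℕ))
  simp only [Fin.val_zero, ex_zero, one_smul] at h1
  rw [← h1]
  have hR : ∀ k : Fin (m + 1), (PowerSeries.X : PowerSeries ℚ) ^ ((m + 1) * n) ∣
      ∑ i : Fin (m + 1), ex (i : ℕ) • B k i := by
    intro k
    rw [PowerSeries.X_pow_dvd_iff]
    intro j hj
    rw [map_sum]
    have h2 : ∀ i : Fin (m + 1), PowerSeries.coeff j (ex (i : ℕ) • B k i) =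
        (fun h : ℕ => (∑ i' ∈ Finset.range (mult n k h), cc m (mult n k) h i' *
          (j.choose i' : ℚ) * (h : ℚ) ^ (j - i')) / (j.factorial : ℚ)) (i : ℕ) := by
      intro i
      rw [smul_eq_mul, mul_comm]
      exact coeff_Ph m (mult n k) i j
    rw [Finset.sum_congr rfl (fun i _ => h2 i)]
    refine (Fin.sum_univ_eq_sum_range (fun h : ℕ => (∑ i' ∈ Finset.range (mult n k h),
      cc m (mult n k) h i' * (j.choose i' : ℚ) * (h : ℚ) ^ (j - i')) / (j.factorial : ℚ))
      (m + 1)).trans ?_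
    rw [← Finset.sum_div]
    have hk : (k : ℕ) ≤ m := Nat.lt_succ_iff.mp k.2
    have h3 := (hHP2 m (mult n k) (fun h => by unfold mult; omega) j).1
    rw [sum_mult n m k hk] at h3
    rw [h3 (by omega), zero_div]
  choose R' hR' using hR
  have h4 : (fun k : Fin (m + 1) => ∑ i : Fin (m + 1), ex (i : ℕ) • B k i) =
      ((PowerSeries.X : PowerSeries ℚ) ^ ((m + 1) * n)) • R' := by
    funext k
    rw [Pi.smul_apply, smul_eq_mul]
    exact hR' k
  rw [h4, Matrix.det_updateCol_smul]
  exact Dvd.intro _ rfl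

end HP5_

open HP5_ in
theorem hp5_proof (hHP2 : Stmt_HP2) : Stmt_HP5 := by
  intro n m hn u hu
  have hD := X_pow_dvd_det hHP2 hn m
  rw [PowerSeries.X_pow_dvd_iff] at hD
  have hdeg := natDegree_det n m
  have hco := coeff_det n m
  have hmono : (A n m).det = Polynomial.C ((A n m).det.coeff ((m + 1) * n)) *
      Polynomial.X ^ ((m + 1) * n) := by
    ext j
    rw [Polynomial.coeff_C_mul_X_pow]
    split_ifs with hj
    · rw [hj]
    · rcases lt_or_gt_of_ne hj with h | h
      · have := hD j h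
        rwa [Polynomial.coeff_coe] at this
      · exact Polynomial.coeff_eq_zero_of_natDegree_lt (by omega)
  have h1 : (Matrix.of fun k h : Fin (m + 1) => Polynomial.aeval u (Ph m (mult n k) h)).det =
      Polynomial.aeval u (A n m).det := by
    rw [AlgHom.map_det]
    rfl
  rw [h1, hmono, map_mul, Polynomial.aeval_C, map_pow, Polynomial.aeval_X]
  refine mul_ne_zero ?_ (pow_ne_zero _ hu)
  rw [eq_ratCast]
  exact_mod_cast hco

end Pool.Agent.SGL
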