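import Pool.Agent.SGL.Stmts

/-!
# Squad SGL, module HP6: the choice of the parameters
-/

set_option autoImplicit false

namespace Pool.Agent.SGL

namespace HP6_

/-- the constant of Chebyshev's bound -/
noncomputable def c0 : ℝ := Real.log 4 + 4

theorem c0_pos : 0 < c0 := by
  have := Real.log_pos (show (1 : ℝ) < 4 by norm_num)
  unfold c0
  linarith

theorem dl_pos (m : ℕ) : 0 < dl m := Nat.lcmUpto_pos m

theorem dl_le (m : ℕ) : (dl m : ℝ) ≤ Real.exp (c0 * m) := by
  have h1 := Chebyshev.psi_le_const_mul_self (Nat.cast_nonneg (α := ℝ) m)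
  rw [Chebyshev.psi_eq_log_lcmUpto] at h1
  have h2 : (0 : ℝ) < ((Nat.lcmUpto m : ℕ) : ℝ) := by exact_mod_cast dl_pos m
  have h3 := Real.exp_le_exp.2 h1
  rw [Real.exp_log h2] at h3
  exact h3

theorem dl_pow_le (n m : ℕ) (hn : 1 ≤ n) :
    (dl m : ℝ) ^ (n + 1) ≤ Real.exp (2 * c0 * (m * n)) := by
  have h1 := pow_le_pow_left₀ (Nat.cast_nonneg _) (dl_le m) (n + 1)
  refine h1.trans ?_
  rw [← Real.exp_nat_mul]
  apply Real.exp_le_exp.2
  have h2 := c0_pos
  have h3 : (1 : ℝ) ≤ n := by exact_mod_cast hn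
  have h4 : (0 : ℝ) ≤ m := Nat.cast_nonneg _
  push_cast
  have h5 : 0 ≤ c0 * m := mul_nonneg h2.le h4
  nlinarith

/-- the constant -/
noncomputable def KK (n : ℕ) : ℝ := n.factorial * (2 * (n + 1)) ^ n

theorem KK_pos (n : ℕ) : 0 < KK n := by
  unfold KK
  have : (0 : ℝ) < n.factorial := by exact_mod_cast n.factorial_pos
  positivity

theorem Hh_nonneg (n m : ℕ) : 0 ≤ Hh n m := by
  unfold Hh
  positivity

theorem Rr_nonneg (n m : ℕ) : 0 ≤ Rr n m := by
  unfold Rr
  have := Real.pi_pos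
  positivity

theorem Hh_le (n m : ℕ) (hn : 1 ≤ n) :
    Hh n m ≤ KK n * Real.exp ((3 + 2 * c0) * (m * n)) := by
  have h3 : (1 : ℝ) ≤ n := by exact_mod_cast hn
  have h4 : (0 : ℝ) ≤ m := Nat.cast_nonneg _
  have a1 : (m : ℝ) + 1 ≤ Real.exp (m * n) := by
    have := Real.add_one_le_exp (m * n : ℝ)
    nlinarith
  have a2 : (2 : ℝ) ^ (m * n) ≤ Real.exp (m * n) := by
    have h5 : (2 : ℝ) ≤ Real.exp 1 := by
      have := Real.add_one_le_exp (1 : ℝ)
      linarith
    have h6 := pow_le_pow_left₀ (by norm_num) h5 (m * n)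
    rw [← Real.exp_nat_mul, mul_one] at h6
    push_cast at h6
    exact h6
  have a3 := dl_pow_le n m hn
  have a4 : ((m : ℝ) + 1) ^ n ≤ Real.exp (m * n) := by
    have h6 := pow_le_pow_left₀ (by positivity) (Real.add_one_le_exp (m : ℝ)) n
    rw [← Real.exp_nat_mul] at h6
    rw [mul_comm (m : ℝ)]
    exact h6
  have e1 : Real.exp ((3 + 2 * c0) * (m * n)) =
      Real.exp (m * n) * Real.exp (m * n) * Real.exp (2 * c0 * (m * n)) *
        Real.exp (m * n) := by
    rw [← Real.exp_add, ← Real.exp_add, ← Real.exp_add]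
    congr 1
    ring
  have e2 : Hh n m = KK n * (((m : ℝ) + 1) * 2 ^ (m * n) * (dl m : ℝ) ^ (n + 1) *
      ((m : ℝ) + 1) ^ n) := by
    unfold Hh KK
    rw [mul_pow (2 * ((n : ℝ) + 1)) ((m : ℝ) + 1) n]
    ring
  rw [e1, e2]
  apply mul_le_mul_of_nonneg_left _ (KK_pos n).le
  gcongr

theorem Rr_le (n m : ℕ) (hn : 1 ≤ n) (hl : Real.log Real.pi + 1 ≤ Real.log n) :
    Rr n m ≤ KK n * Real.exp ((2 * c0 + Real.pi + Real.log Real.pi + 1 - Real.log n) *
      (m * n)) := by
  have hpi := Real.pi_pos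
  have h3 : (1 : ℝ) ≤ n := by exact_mod_cast hn
  have h4 : (0 : ℝ) ≤ m := Nat.cast_nonneg _
  set N : ℕ := (m + 1) * n with hN
  have hNc : (N : ℝ) = (m + 1) * n := by rw [hN]; push_cast; ring
  have hNpos : (0 : ℝ) < N := by rw [hNc]; positivity
  -- lower bound for the factorial
  have b1 : (N : ℝ) ^ N / N.factorial ≤ Real.exp N :=
    Real.pow_div_factorial_le_exp N hNpos.le N
  have b2 : ((m.factorial : ℝ)) ^ n ≤ ((m : ℝ) + 1) ^ N := by
    have c1 : m.factorial ≤ (m + 1) ^ (m + 1) := by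
      calc m.factorial ≤ (m + 1).factorial := Nat.factorial_le (Nat.le_succ m)
        _ ≤ (m + 1) ^ (m + 1) := Nat.factorial_le_pow (m + 1)
    have c2 : (m.factorial : ℝ) ≤ ((m : ℝ) + 1) ^ (m + 1) := by exact_mod_cast c1
    calc ((m.factorial : ℝ)) ^ n ≤ (((m : ℝ) + 1) ^ (m + 1)) ^ n :=
          pow_le_pow_left₀ (Nat.cast_nonneg _) c2 n
      _ = ((m : ℝ) + 1) ^ N := by rw [← pow_mul]
  have b3 : ((m.factorial : ℝ)) ^ n * Real.exp (N * Real.log n) / N.factorial ≤
      Real.exp N := by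
    refine le_trans ?_ b1
    apply div_le_div_of_nonneg_right _ (Nat.cast_nonneg _)
    have c3 : Real.exp (N * Real.log n) = (n : ℝ) ^ N := by
      rw [Real.exp_nat_mul, Real.exp_log (by linarith)]
    rw [c3, hNc, mul_pow]
    exact mul_le_mul_of_nonneg_right b2 (by positivity)
  have b4 : ((m.factorial : ℝ)) ^ n / N.factorial ≤ Real.exp (N - N * Real.log n) := by
    rw [Real.exp_sub, le_div_iff₀ (Real.exp_pos _)]
    calc ((m.factorial : ℝ)) ^ n / N.factorial * Real.exp (N * Real.log n) =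
        ((m.factorial : ℝ)) ^ n * Real.exp (N * Real.log n) / N.factorial := by ring
      _ ≤ _ := b3
  have b5 : Real.pi ^ N = Real.exp (N * Real.log Real.pi) := by
    rw [Real.exp_nat_mul, Real.exp_log hpi]
  have b6 := dl_pow_le n m hn
  have b7 : (n.factorial : ℝ) ≤ KK n := by
    unfold KK
    apply le_mul_of_one_le_right (Nat.cast_nonneg _)
    apply one_le_pow₀
    linarith
  have e1 : Rr n m = (n.factorial : ℝ) * ((((m.factorial : ℝ)) ^ n / N.factorial) *
      (dl m : ℝ) ^ (n + 1) * Real.pi ^ N * Real.exp (Real.pi * m)) := by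
    unfold Rr
    rw [← hN]
    ring
  rw [e1, b5]
  have b8 : (((m.factorial : ℝ)) ^ n / N.factorial) * (dl m : ℝ) ^ (n + 1) *
      Real.exp (N * Real.log Real.pi) * Real.exp (Real.pi * m) ≤
      Real.exp ((2 * c0 + Real.pi + Real.log Real.pi + 1 - Real.log n) * (m * n)) := by
    calc (((m.factorial : ℝ)) ^ n / N.factorial) * (dl m : ℝ) ^ (n + 1) *
      Real.exp (N * Real.log Real.pi) * Real.exp (Real.pi * m) ≤
        Real.exp (N - N * Real.log n) * Real.exp (2 * c0 * (m * n)) *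
        Real.exp (N * Real.log Real.pi) * Real.exp (Real.pi * m) := by gcongr
      _ = Real.exp (N - N * Real.log n + 2 * c0 * (m * n) + N * Real.log Real.pi +
          Real.pi * m) := by rw [Real.exp_add, Real.exp_add, Real.exp_add]
      _ ≤ _ := by
          apply Real.exp_le_exp.2
          rw [hNc]
          have d1 : 0 ≤ (Real.log n - (Real.log Real.pi + 1)) * n :=
            mul_nonneg (by linarith) (by linarith)
          have d2 : 0 ≤ Real.pi * m * (n - 1) :=
            mul_nonneg (mul_nonneg hpi.le h4) (by linarith)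
          nlinarith
  calc _ ≤ (n.factorial : ℝ) * Real.exp ((2 * c0 + Real.pi + Real.log Real.pi + 1 -
        Real.log n) * (m * n)) := mul_le_mul_of_nonneg_left b8 (Nat.cast_nonneg _)
    _ ≤ _ := mul_le_mul_of_nonneg_right b7 (Real.exp_pos _).le

end HP6_

open HP6_ in
theorem hp6_proof : Stmt_HP6 := by
  intro D
  have hc0 := c0_pos
  have hpi := Real.pi_pos
  have hlp : 0 ≤ Real.log Real.pi := Real.log_nonneg (by linarith [Real.pi_gt_three])
  set B : ℝ := 2 * c0 + Real.pi + Real.log Real.pi + 1 + D * (3 + 2 * c0) + 1 with hB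
  have hD : (0 : ℝ) ≤ D * (3 + 2 * c0) := by positivity
  set n : ℕ := ⌈Real.exp B⌉₊ with hn
  have h1 : Real.exp B ≤ n := Nat.le_ceil _
  have hn1 : 1 ≤ n := Nat.one_le_ceil_iff.2 (Real.exp_pos _)
  have hlog : B ≤ Real.log n := by
    rw [← Real.log_exp B]
    exact Real.log_le_log (Real.exp_pos _) h1
  have hn1' : (1 : ℝ) ≤ n := by exact_mod_cast hn1
  refine ⟨n, hn1, ?_⟩
  intro e C hC
  set K : ℝ := KK n with hK
  have hKp : 0 < K := KK_pos n
  set L : ℝ := Real.log (K * K ^ D / C) with hL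
  set c1 : ℝ := 3 + 2 * c0 with hc1
  have hc1p : 0 < c1 := by positivity
  refine ⟨⌈c1 * n * e⌉₊, K * Real.exp (c1 * n * (|L| + 1)), ?_⟩
  intro H hH
  have hHp : 0 < H := by linarith
  have hlH : 0 ≤ Real.log H := Real.log_nonneg hH
  have ha : 0 ≤ e * Real.log H + |L| := by positivity
  set m : ℕ := ⌈e * Real.log H + |L|⌉₊ with hm
  have hm1 : e * Real.log H + |L| ≤ m := Nat.le_ceil _
  have hm2 : (m : ℝ) < e * Real.log H + |L| + 1 := Nat.ceil_lt_add_one ha
  have hm0 : (0 : ℝ) ≤ m := Nat.cast_nonneg _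
  have hHh := Hh_le n m hn1
  have hRr := Rr_le n m hn1 (by
    refine le_trans ?_ hlog
    rw [hB]
    linarith)
  refine ⟨m, ?_, ?_⟩
  · -- the first inequality
    have s1 : Hh n m ^ D ≤ K ^ D * Real.exp (D * (c1 * (m * n))) := by
      have := pow_le_pow_left₀ (Hh_nonneg n m) hHh D
      rwa [mul_pow, ← Real.exp_nat_mul] at this
    have s2 : Rr n m * Hh n m ^ D ≤ K * K ^ D * Real.exp (-m) := by
      calc Rr n m * Hh n m ^ D ≤
          (K * Real.exp ((2 * c0 + Real.pi + Real.log Real.pi + 1 - Real.log n) * (m * n))) *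
          (K ^ D * Real.exp (D * (c1 * (m * n)))) :=
            mul_le_mul hRr s1 (pow_nonneg (Hh_nonneg n m) D) (by positivity)
        _ = K * K ^ D * (Real.exp ((2 * c0 + Real.pi + Real.log Real.pi + 1 - Real.log n) *
            (m * n)) * Real.exp (D * (c1 * (m * n)))) := by ring
        _ ≤ K * K ^ D * Real.exp (-m) := by
            apply mul_le_mul_of_nonneg_left _ (by positivity)
            rw [← Real.exp_add]
            apply Real.exp_le_exp.2
            have t1 : (2 * c0 + Real.pi + Real.log Real.pi + 1 - Real.log n) + D * c1 ≤ -1 := by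
              rw [hB] at hlog
              linarith
            have t2 : (m : ℝ) ≤ m * n := le_mul_of_one_le_right hm0 hn1'
            have t3 : (0 : ℝ) ≤ m * n := by positivity
            nlinarith
    have s3 : Real.exp (-m) ≤ (H ^ e)⁻¹ * (C / (K * K ^ D)) := by
      have u1 : Real.exp (-m) ≤ Real.exp (-(e * Real.log H) - L) := by
        apply Real.exp_le_exp.2
        have := le_abs_self L
        linarith
      refine u1.trans (le_of_eq ?_)
      rw [Real.exp_sub, Real.exp_neg, Real.exp_nat_mul, Real.exp_log hHp, hL,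
        Real.exp_log (by positivity), div_eq_mul_inv, inv_div]
    calc Rr n m * (H ^ e * Hh n m ^ D) = H ^ e * (Rr n m * Hh n m ^ D) := by ring
      _ ≤ H ^ e * (K * K ^ D * Real.exp (-m)) :=
          mul_le_mul_of_nonneg_left s2 (by positivity)
      _ ≤ H ^ e * (K * K ^ D * ((H ^ e)⁻¹ * (C / (K * K ^ D)))) := by gcongr
      _ = C := by
          field_simp
  · -- the second inequality
    refine hHh.trans ?_
    rw [mul_assoc K]
    apply mul_le_mul_of_nonneg_left _ hKp.le
    have v1 : H ^ ⌈c1 * n * e⌉₊ = Real.exp (⌈c1 * n * e⌉₊ * Real.log H) := by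
      rw [Real.exp_nat_mul, Real.exp_log hHp]
    rw [v1, ← Real.exp_add]
    apply Real.exp_le_exp.2
    have v2 : c1 * n * e ≤ ⌈c1 * n * e⌉₊ := Nat.le_ceil _
    have v3 : c1 * n * e * Real.log H ≤ ⌈c1 * n * e⌉₊ * Real.log H :=
      mul_le_mul_of_nonneg_right v2 hlH
    have v4 : c1 * n * m ≤ c1 * n * (e * Real.log H + |L| + 1) :=
      mul_le_mul_of_nonneg_left hm2.le (by positivity)
    nlinarith

end Pool.Agent.SGL
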