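import Pool.Agent.SGL.Stmts

/-!
# HP7: approximation of `π i` by algebraic numbers
-/

set_option autoImplicit false

namespace Pool.Agent.SGL

open Filter Pool.Agent.SBT

namespace HP7_

theorem pow_sub (a b : ℂ) (R : ℝ) (hR : 1 ≤ R) (ha : ‖a‖ ≤ R) (hb : ‖b‖ ≤ R) (i : ℕ) :
    ‖a ^ i - b ^ i‖ ≤ i * R ^ i * ‖a - b‖ := by
  induction i with
  | zero => simp
  | succ i ih =>
    have e1 : a ^ (i + 1) - b ^ (i + 1) = a * (a ^ i - b ^ i) + (a - b) * b ^ i := by ring
    rw [e1]
    refine (norm_add_le _ _).trans ?_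
    rw [norm_mul, norm_mul, norm_pow]
    have h1 : ‖a‖ * ‖a ^ i - b ^ i‖ ≤ R * (i * R ^ i * ‖a - b‖) :=
      mul_le_mul ha ih (norm_nonneg _) (by linarith)
    have h2 : ‖b‖ ^ i ≤ R ^ i := pow_le_pow_left₀ (norm_nonneg _) hb i
    have h3 : R ^ i ≤ R ^ (i + 1) := pow_le_pow_right₀ hR (by omega)
    have h4 : ‖a - b‖ * ‖b‖ ^ i ≤ ‖a - b‖ * R ^ (i + 1) :=
      mul_le_mul_of_nonneg_left (h2.trans h3) (norm_nonneg _)
    have h5 : R * (i * R ^ i * ‖a - b‖) = i * R ^ (i + 1) * ‖a - b‖ := by ring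
    push_cast
    nlinarith

theorem dl_pos (m : ℕ) : 1 ≤ dl m := by
  unfold dl
  rw [Nat.one_le_iff_ne_zero, Ne, Finset.lcm_eq_zero_iff]
  intro h
  obtain ⟨x, hx, hx0⟩ := h
  have := (Finset.mem_Icc.1 hx).1
  simp only [id_eq] at hx0
  omega

theorem one_le_Hh (n m : ℕ) : 1 ≤ Hh n m := by
  unfold Hh
  have h1 : (1 : ℝ) ≤ (m : ℝ) + 1 := by linarith [Nat.cast_nonneg (α := ℝ) m]
  have h2 : (1 : ℝ) ≤ 2 ^ (m * n) := one_le_pow₀ (by norm_num)
  have h3 : (1 : ℝ) ≤ (dl m : ℝ) ^ (n + 1) := one_le_pow₀ (by exact_mod_cast dl_pos m)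
  have h4 : (1 : ℝ) ≤ (n.factorial : ℝ) := by exact_mod_cast Nat.factorial_pos n
  have h5 : (1 : ℝ) ≤ (2 * ((n : ℝ) + 1) * (m + 1)) ^ n := by
    refine one_le_pow₀ ?_
    have h6 : (0 : ℝ) ≤ n := Nat.cast_nonneg n
    nlinarith
  exact one_le_mul_of_one_le_of_one_le (one_le_mul_of_one_le_of_one_le
    (one_le_mul_of_one_le_of_one_le (one_le_mul_of_one_le_of_one_le h1 h2) h3) h4) h5

theorem sum_mult (n m k : ℕ) (hk : k ≤ m) :
    ∑ h ∈ Finset.range (m + 1), mult n k h = (m + 1) * n + 1 := by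
  unfold mult
  rw [Finset.sum_add_distrib, Finset.sum_const, Finset.card_range, smul_eq_mul,
    Finset.sum_ite_eq', if_pos (Finset.mem_range.2 (by omega))]

/-- a polynomial with integral coefficients which are bounded by `Hh` -/
theorem exists_G (hHP4 : Stmt_HP4) (n m k : ℕ) (hn : 1 ≤ n) (hk : k ≤ m) :
    ∃ G : Polynomial ℤ, G.natDegree ≤ n ∧ (∀ i, |(G.coeff i : ℝ)| ≤ Hh n m) ∧
      ∀ u : ℂ, Polynomial.aeval u G =
        ((m.factorial : ℂ) ^ n * (dl m : ℂ) ^ (n + 1) * n.factorial) *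
          ∑ h ∈ Finset.range (m + 1), (-1) ^ h * Polynomial.aeval u (Ph m (mult n k) h) := by
  have hz : ∀ h i : ℕ, ∃ z : ℤ, (h ≤ m → i < mult n k h →
      (z : ℚ) = (m.factorial : ℚ) ^ n * (dl m : ℚ) ^ (n + 1) * n.factorial *
        (cc m (mult n k) h i / (i.factorial : ℚ))) ∧ |(z : ℝ)| * (m + 1) ≤ Hh n m := by
    intro h i
    by_cases hc : h ≤ m ∧ i < mult n k h
    · obtain ⟨z, hz1, hz2⟩ := hHP4 n m k hn hk h hc.1 i hc.2
      exact ⟨z, fun _ _ => hz1, hz2⟩
    · refine ⟨0, fun a b => absurd ⟨a, b⟩ hc, ?_⟩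
      rw [Int.cast_zero, abs_zero, zero_mul]
      linarith [one_le_Hh n m]
  choose z hz1 hz2 using hz
  have hcoeff : ∀ i, (∑ h ∈ Finset.range (m + 1), ∑ j ∈ Finset.range (mult n k h),
      Polynomial.monomial j ((-1) ^ h * z h j)).coeff i = ∑ h ∈ Finset.range (m + 1),
        if i < mult n k h then (-1) ^ h * z h i else 0 := by
    intro i
    rw [Polynomial.finsetSum_coeff]
    refine Finset.sum_congr rfl fun h _ => ?_
    rw [Polynomial.finsetSum_coeff]
    simp only [Polynomial.coeff_monomial, Finset.sum_ite_eq', Finset.mem_range]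
  refine ⟨∑ h ∈ Finset.range (m + 1), ∑ j ∈ Finset.range (mult n k h),
      Polynomial.monomial j ((-1) ^ h * z h j), ?_, ?_, ?_⟩
  · rw [Polynomial.natDegree_le_iff_coeff_eq_zero]
    intro i hi
    rw [hcoeff]
    refine Finset.sum_eq_zero fun h _ => ?_
    rw [if_neg]
    unfold mult
    split_ifs <;> omega
  · intro i
    rw [hcoeff]
    push_cast
    refine (Finset.abs_sum_le_sum_abs _ _).trans ?_
    have h1 : ∀ h ∈ Finset.range (m + 1),
        |if i < mult n k h then (-1 : ℝ) ^ h * (z h i : ℝ) else 0| ≤ Hh n m / (m + 1) := by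
      intro h _
      split_ifs
      · rw [abs_mul, abs_pow, abs_neg, abs_one, one_pow, one_mul, le_div_iff₀ (by positivity)]
        exact hz2 h i
      · rw [abs_zero]
        exact div_nonneg (by linarith [one_le_Hh n m]) (by positivity)
    refine (Finset.sum_le_sum h1).trans ?_
    rw [Finset.sum_const, Finset.card_range, nsmul_eq_mul]
    push_cast
    rw [mul_div_cancel₀]
    positivity
  · intro u
    rw [map_sum, Finset.mul_sum]
    refine Finset.sum_congr rfl fun h hh => ?_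
    unfold Ph
    rw [map_sum, map_sum, Finset.mul_sum, Finset.mul_sum]
    refine Finset.sum_congr rfl fun j hj => ?_
    have e1 := hz1 h j (by have := Finset.mem_range.1 hh; omega) (Finset.mem_range.1 hj)
    have e2 : (z h j : ℂ) = (m.factorial : ℂ) ^ n * (dl m : ℂ) ^ (n + 1) * n.factorial *
        ((cc m (mult n k) h j / (j.factorial : ℚ) : ℚ) : ℂ) := by
      have e3 := congrArg (fun q : ℚ => (q : ℂ)) e1
      push_cast at e3 ⊢
      exact e3
    have e4 : Polynomial.aeval u (Polynomial.C (cc m (mult n k) h j / (j.factorial : ℚ)) *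
        Polynomial.X ^ j) = ((cc m (mult n k) h j / (j.factorial : ℚ) : ℚ) : ℂ) * u ^ j := by
      rw [map_mul, Polynomial.aeval_C, map_pow, Polynomial.aeval_X, eq_ratCast]
    rw [e4, Polynomial.aeval_monomial, eq_intCast, Int.cast_mul, e2]
    push_cast
    ring

end HP7_

open HP7_ in
theorem hp7_proof (hHP3 : Stmt_HP3) (hHP4 : Stmt_HP4) (hHP5 : Stmt_HP5) (hLIO : Stmt_LIO)
    (hHP6 : Stmt_HP6) : Stmt_HP7 := by
  intro D
  obtain ⟨n, hn, h6⟩ := hHP6 D
  obtain ⟨C₁, e, hC₁, hL⟩ := hLIO D n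
  obtain ⟨μ₀, A, hA⟩ := h6 e (C₁ / 2) (by positivity)
  obtain ⟨K, hK⟩ : ∃ K : ℝ, K = (n + 1) * n * (Real.pi + 1) ^ n := ⟨_, rfl⟩
  have hpi := Real.pi_gt_three
  have hn' : (1 : ℝ) ≤ n := by exact_mod_cast hn
  have hK0 : 0 < K := by rw [hK]; positivity
  obtain ⟨A', hA'⟩ : ∃ A' : ℝ, A' = max A 1 := ⟨_, rfl⟩
  have hA'1 : 1 ≤ A' := by rw [hA']; exact le_max_right _ _
  refine ⟨μ₀ * (D + 1) + e, min 1 (C₁ / 2 / (K * A' ^ (D + 1))), by positivity, ?_⟩
  intro P H θ hP hdeg hPH hH hθ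
  have hH0 : (0 : ℝ) < H := by linarith
  rcases lt_or_ge 1 ‖θ - Real.pi * Complex.I‖ with hfar | hnear
  · refine (min_le_left _ _).trans ?_
    exact one_le_mul_of_one_le_of_one_le hfar.le (one_le_pow₀ hH)
  · refine (min_le_right _ _).trans ?_
    have hnpi : ‖(Real.pi : ℂ) * Complex.I‖ = Real.pi := by
      rw [norm_mul, Complex.norm_I, mul_one, Complex.norm_real, Real.norm_eq_abs,
        abs_of_pos Real.pi_pos]
    have hθ0 : θ ≠ 0 := by
      intro h
      rw [h, zero_sub, norm_neg, hnpi] at hnear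
      linarith
    have hθR : ‖θ‖ ≤ Real.pi + 1 := by
      have h1 : θ = (θ - Real.pi * Complex.I) + Real.pi * Complex.I := by ring
      rw [h1]
      refine (norm_add_le _ _).trans ?_
      rw [hnpi]
      linarith
    obtain ⟨m, hm1, hm2⟩ := hA H hH
    -- the index k
    obtain ⟨k, hk, hkne⟩ : ∃ k ≤ m, ∑ h ∈ Finset.range (m + 1),
        (-1) ^ h * Polynomial.aeval θ (Ph m (mult n k) h) ≠ 0 := by
      by_contra hcon
      push Not at hcon
      have hdet := hHP5 n m hn θ hθ0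
      have hv : (fun h : Fin (m + 1) => (-1 : ℂ) ^ (h : ℕ)) = 0 := by
        refine Matrix.eq_zero_of_mulVec_eq_zero hdet ?_
        ext k
        have h1 := hcon k (by omega)
        rw [← Fin.sum_univ_eq_sum_range
          (fun h => (-1 : ℂ) ^ h * Polynomial.aeval θ (Ph m (mult n k) h))] at h1
        rw [Matrix.mulVec, dotProduct, Pi.zero_apply, ← h1]
        refine Finset.sum_congr rfl fun h _ => ?_
        rw [Matrix.of_apply, mul_comm]
      have h0 := congrFun hv 0
      simp at h0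
    obtain ⟨G, hG1, hG2, hG3⟩ := exists_G hHP4 n m k hn hk
    obtain ⟨Mm, hMm⟩ : ∃ Mm : ℝ, Mm = (m.factorial : ℝ) ^ n * (dl m : ℝ) ^ (n + 1) *
        n.factorial := ⟨_, rfl⟩
    have hMm0 : 0 < Mm := by
      rw [hMm]
      have h1 := dl_pos m
      have h2 : (0 : ℝ) < dl m := by exact_mod_cast h1
      positivity
    have hMc : ((m.factorial : ℂ) ^ n * (dl m : ℂ) ^ (n + 1) * n.factorial) = (Mm : ℂ) := by
      rw [hMm]
      push_cast
      ring
    have hGne : Polynomial.aeval θ G ≠ 0 := by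
      rw [hG3, hMc]
      exact mul_ne_zero (by exact_mod_cast hMm0.ne') hkne
    have hLi := hL P G H (Hh n m) θ hP hdeg hG1 hPH hG2 hH (one_le_Hh n m) hθ hGne
    -- the value at π i
    have hRr : ‖Polynomial.aeval ((Real.pi : ℂ) * Complex.I) G‖ ≤ Rr n m := by
      have h3 := hHP3 m (mult n k) (fun h => by unfold mult; omega) ((Real.pi : ℂ) * Complex.I)
      rw [sum_mult n m k hk, Nat.add_sub_cancel, hnpi] at h3
      have h4 : ∑ h ∈ Finset.range (m + 1),
          (-1) ^ h * Polynomial.aeval ((Real.pi : ℂ) * Complex.I) (Ph m (mult n k) h) =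
          ∑ h ∈ Finset.range (m + 1),
            Polynomial.aeval ((Real.pi : ℂ) * Complex.I) (Ph m (mult n k) h) *
              Complex.exp (h * ((Real.pi : ℂ) * Complex.I)) := by
        refine Finset.sum_congr rfl fun h _ => ?_
        rw [Complex.exp_nat_mul, Complex.exp_pi_mul_I, mul_comm]
      rw [hG3, hMc, h4, norm_mul, Complex.norm_real, Real.norm_eq_abs, abs_of_pos hMm0]
      refine (mul_le_mul_of_nonneg_left h3 hMm0.le).trans (le_of_eq ?_)
      rw [hMm]
      unfold Rr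
      rw [mul_comm (m : ℝ) Real.pi]
      ring
    -- the difference
    have hdiff : ‖Polynomial.aeval θ G - Polynomial.aeval ((Real.pi : ℂ) * Complex.I) G‖ ≤
        K * ‖θ - Real.pi * Complex.I‖ * Hh n m := by
      rw [Polynomial.aeval_eq_sum_range' (n := n + 1) (by omega),
        Polynomial.aeval_eq_sum_range' (n := n + 1) (by omega), ← Finset.sum_sub_distrib]
      have h5 : ∀ i ∈ Finset.range (n + 1),
          ‖G.coeff i • θ ^ i - G.coeff i • ((Real.pi : ℂ) * Complex.I) ^ i‖ ≤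
            n * (Real.pi + 1) ^ n * ‖θ - Real.pi * Complex.I‖ * Hh n m := by
        intro i hi
        have hi' : i ≤ n := by have := Finset.mem_range.1 hi; omega
        rw [← smul_sub, zsmul_eq_mul, norm_mul]
        have h6 := pow_sub θ ((Real.pi : ℂ) * Complex.I) (Real.pi + 1) (by linarith) hθR
          (by rw [hnpi]; linarith) i
        have h7 : ‖((G.coeff i : ℤ) : ℂ)‖ ≤ Hh n m := by
          rw [Complex.norm_intCast]
          exact hG2 i
        have h8 : (i : ℝ) * (Real.pi + 1) ^ i * ‖θ - Real.pi * Complex.I‖ ≤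
            n * (Real.pi + 1) ^ n * ‖θ - Real.pi * Complex.I‖ := by
          have h9 : (Real.pi + 1) ^ i ≤ (Real.pi + 1) ^ n :=
            pow_le_pow_right₀ (by linarith) hi'
          have h10 : (i : ℝ) ≤ n := by exact_mod_cast hi'
          gcongr
        calc ‖((G.coeff i : ℤ) : ℂ)‖ * ‖θ ^ i - ((Real.pi : ℂ) * Complex.I) ^ i‖
            ≤ Hh n m * (n * (Real.pi + 1) ^ n * ‖θ - Real.pi * Complex.I‖) :=
              mul_le_mul h7 (h6.trans h8) (norm_nonneg _) (by linarith [one_le_Hh n m])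
          _ = _ := by ring
      refine (norm_sum_le _ _).trans ((Finset.sum_le_sum h5).trans (le_of_eq ?_))
      rw [Finset.sum_const, Finset.card_range, nsmul_eq_mul, hK]
      push_cast
      ring
    have hGθ : ‖Polynomial.aeval θ G‖ ≤ Rr n m + K * ‖θ - Real.pi * Complex.I‖ * Hh n m := by
      have h1 : Polynomial.aeval θ G = Polynomial.aeval ((Real.pi : ℂ) * Complex.I) G +
          (Polynomial.aeval θ G - Polynomial.aeval ((Real.pi : ℂ) * Complex.I) G) := by ring
      rw [h1]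
      exact (norm_add_le _ _).trans (add_le_add hRr hdiff)
    have hH1 : 1 ≤ Hh n m := one_le_Hh n m
    have hHA : Hh n m ≤ A' * H ^ μ₀ := by
      refine hm2.trans ?_
      exact mul_le_mul_of_nonneg_right (by rw [hA']; exact le_max_left _ _) (by positivity)
    have hfin : C₁ / 2 ≤ K * ‖θ - Real.pi * Complex.I‖ * (H ^ e * Hh n m ^ (D + 1)) := by
      have h1 : C₁ ≤ (Rr n m + K * ‖θ - Real.pi * Complex.I‖ * Hh n m) *
          (H ^ e * Hh n m ^ D) :=
        hLi.trans (mul_le_mul_of_nonneg_right hGθ (by positivity))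
      have h2 : (Rr n m + K * ‖θ - Real.pi * Complex.I‖ * Hh n m) * (H ^ e * Hh n m ^ D) =
          Rr n m * (H ^ e * Hh n m ^ D) +
            K * ‖θ - Real.pi * Complex.I‖ * (H ^ e * Hh n m ^ (D + 1)) := by ring
      rw [h2] at h1
      linarith
    have hpow : Hh n m ^ (D + 1) ≤ (A' * H ^ μ₀) ^ (D + 1) :=
      pow_le_pow_left₀ (by linarith) hHA _
    have hfin2 : C₁ / 2 ≤ K * ‖θ - Real.pi * Complex.I‖ * (H ^ e * (A' * H ^ μ₀) ^ (D + 1)) := by
      refine hfin.trans ?_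
      gcongr
    have hKA : 0 < K * A' ^ (D + 1) := by positivity
    rw [div_le_iff₀ hKA]
    refine hfin2.trans (le_of_eq ?_)
    rw [mul_pow, ← pow_mul, pow_add]
    ring

end Pool.Agent.SGL
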