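import Pool.Agent.SGL.Stmts
import Pool.Agent.SBT.BAG

/-!
# KQT: elements of `Kf` are quotients of polynomials in independent units
-/

set_option autoImplicit false

namespace Pool.Agent.SGL

open Filter Pool.Agent.SBT

namespace KQT_

/-- the class of a rational sequence -/
noncomputable def cq (σ : Sc) (f : ℕ → ℚ) : Om σ := cl σ (fun n => (f n : ℝ))

/-- rational sequences of size `exp (O(T))` -/
def OQ (σ : Sc) : Subalgebra ℚ (ℕ → ℚ) where
  carrier := {f | (fun n => (f n : ℝ)) ∈ OO σ}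
  mul_mem' := by
    intro f g hf hg
    have h := (OO σ).mul_mem hf hg
    have e : (fun n => (((f * g) n : ℚ) : ℝ)) = (fun n => (f n : ℝ)) * (fun n => (g n : ℝ)) := by
      funext n
      simp
    show (fun n => (((f * g) n : ℚ) : ℝ)) ∈ OO σ
    rw [e]
    exact h
  add_mem' := by
    intro f g hf hg
    have h := (OO σ).add_mem hf hg
    have e : (fun n => (((f + g) n : ℚ) : ℝ)) = (fun n => (f n : ℝ)) + (fun n => (g n : ℝ)) := by
      funext n
      simp
    show (fun n => (((f + g) n : ℚ) : ℝ)) ∈ OO σ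
    rw [e]
    exact h
  algebraMap_mem' := by
    intro r
    show (fun n => (((algebraMap ℚ (ℕ → ℚ) r) n : ℚ) : ℝ)) ∈ OO σ
    exact const_mem (r : ℝ)

theorem mem_OQ {σ : Sc} {f : ℕ → ℚ} : f ∈ OQ σ ↔ (fun n => (f n : ℝ)) ∈ OO σ := Iff.rfl

theorem cq_mul {σ : Sc} {f g : ℕ → ℚ} (hf : f ∈ OQ σ) (hg : g ∈ OQ σ) :
    cq σ (f * g) = cq σ f * cq σ g := by
  unfold cq
  rw [← cl_mul hf hg]
  congr 1
  funext n
  simp

theorem cq_add {σ : Sc} {f g : ℕ → ℚ} (hf : f ∈ OQ σ) (hg : g ∈ OQ σ) :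
    cq σ (f + g) = cq σ f + cq σ g := by
  unfold cq
  rw [← cl_add hf hg]
  congr 1
  funext n
  simp

theorem cq_neg {σ : Sc} {f : ℕ → ℚ} (hf : f ∈ OQ σ) : cq σ (-f) = - cq σ f := by
  unfold cq
  rw [← cl_neg hf]
  congr 1
  funext n
  simp

theorem cq_one {σ : Sc} : cq σ 1 = 1 := by
  unfold cq
  rw [← cl_one (σ := σ)]
  congr 1
  funext n
  simp

theorem cq_prod {σ : Sc} {ι : Type} (s : Finset ι) (f : ι → ℕ → ℚ) (hf : ∀ i, f i ∈ OQ σ) :
    cq σ (∏ i ∈ s, f i) = ∏ i ∈ s, cq σ (f i) := by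
  classical
  induction s using Finset.induction_on with
  | empty => rw [Finset.prod_empty, Finset.prod_empty]; exact cq_one
  | insert i s hi ih =>
    rw [Finset.prod_insert hi, Finset.prod_insert hi, cq_mul (hf i), ih]
    exact (OQ σ).prod_mem fun j _ => hf j

theorem cq_congr {σ : Sc} {f g : ℕ → ℚ} (h : ∀ᶠ n in (σ.U : Filter ℕ), f n = g n) :
    cq σ f = cq σ g := by
  unfold cq
  apply cl_congr
  filter_upwards [h] with n hn
  rw [hn]

/-- the generating sequences -/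
def GS (σ : Sc) (B : Finset ℕ) : Set (ℕ → ℚ) :=
  {u | ∃ b ∈ B, ∃ (m : ℕ → ℕ) (C : ℝ), (∀ᶠ n in (σ.U : Filter ℕ), (m n : ℝ) ≤ C * σ.T n) ∧
    ∀ n, u n = (b : ℚ) ^ m n}

theorem wd_gs {σ : Sc} {B : Finset ℕ} {u : ℕ → ℚ} (hu : u ∈ GS σ B) : Wd σ B u := by
  obtain ⟨b, hb, m, C, hm, hu⟩ := hu
  refine ⟨fun b' n => if b' = b then (m n : ℤ) else 0, |C|, ?_, ?_⟩
  · intro n
    rw [hu n, Finset.prod_eq_single b]
    · simp
    · intro b' _ hbb
      simp [hbb]
    · intro h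
      exact absurd hb h
  · intro b' _
    filter_upwards [hm, σ.large 0] with n hn hT
    by_cases h : b' = b
    · simp only [h, if_true, Int.cast_natCast, Nat.abs_cast]
      exact hn.trans (mul_le_mul_of_nonneg_right (le_abs_self C) hT)
    · simp only [h, if_false, Int.cast_zero, abs_zero]
      positivity

theorem wd_prod {σ : Sc} {B : Finset ℕ} (hB : ∀ b ∈ B, 2 ≤ b) {K : ℕ} {u : Fin K → ℕ → ℚ}
    (hu : ∀ k, Wd σ B (u k)) (e : Fin K → ℤ) : Wd σ B (fun n => ∏ k, u k n ^ e k) := by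
  choose z C hz hC using hu
  refine ⟨fun b n => ∑ k, z k b n * e k, ∑ k, |C k| * |(e k : ℝ)|, ?_, ?_⟩
  · intro n
    have h1 : ∀ k, u k n ^ e k = ∏ b ∈ B, (b : ℚ) ^ (z k b n * e k) := by
      intro k
      rw [hz k n, ← Finset.prod_zpow]
      refine Finset.prod_congr rfl fun b _ => ?_
      rw [zpow_mul]
    simp only [h1]
    rw [Finset.prod_comm]
    refine Finset.prod_congr rfl fun b hb => ?_
    have hb0 : (b : ℚ) ≠ 0 := by
      have := hB b hb
      exact_mod_cast (by omega : b ≠ 0)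
    induction (Finset.univ : Finset (Fin K)) using Finset.induction_on with
    | empty => simp
    | insert k s hk ih => rw [Finset.prod_insert hk, Finset.sum_insert hk, zpow_add₀ hb0, ih]
  · intro b hb
    have h1 : ∀ᶠ n in (σ.U : Filter ℕ), ∀ k, |(z k b n : ℝ)| ≤ C k * σ.T n := by
      rw [eventually_all]
      exact fun k => hC k b hb
    filter_upwards [h1, σ.large 0] with n hn hT
    push_cast
    calc |∑ k, (z k b n : ℝ) * (e k : ℝ)| ≤ ∑ k, |(z k b n : ℝ) * (e k : ℝ)| :=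
          Finset.abs_sum_le_sum_abs _ _
      _ ≤ ∑ k, |C k| * |(e k : ℝ)| * σ.T n := by
          refine Finset.sum_le_sum fun k _ => ?_
          rw [abs_mul]
          calc |(z k b n : ℝ)| * |(e k : ℝ)| ≤ (C k * σ.T n) * |(e k : ℝ)| :=
                mul_le_mul_of_nonneg_right (hn k) (abs_nonneg _)
            _ ≤ (|C k| * σ.T n) * |(e k : ℝ)| := by
                gcongr
                exact le_abs_self _
            _ = _ := by ring
      _ = _ := by rw [Finset.sum_mul]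

/-- quotients -/
theorem quot {σ : Sc} {B : Finset ℕ} (hO : GS σ B ⊆ OQ σ) {x : Om σ} (hx : x ∈ Kf σ B) :
    ∃ t : Finset (ℕ → ℚ), (t : Set (ℕ → ℚ)) ⊆ GS σ B ∧ ∃ p ∈ Algebra.adjoin ℚ (t : Set (ℕ → ℚ)),
      ∃ q ∈ Algebra.adjoin ℚ (t : Set (ℕ → ℚ)), cq σ q ≠ 0 ∧ x * cq σ q = cq σ p := by
  classical
  have hA : ∀ t : Finset (ℕ → ℚ), (t : Set (ℕ → ℚ)) ⊆ GS σ B →
      Algebra.adjoin ℚ (t : Set (ℕ → ℚ)) ≤ OQ σ := fun t ht =>
    Algebra.adjoin_le (ht.trans hO)
  unfold Kf at hx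
  induction hx using Subfield.closure_induction with
  | mem x hx =>
    obtain ⟨b, hb, m, C, hm, hx⟩ := hx
    refine ⟨{fun n => (b : ℚ) ^ m n}, ?_, fun n => (b : ℚ) ^ m n, ?_, 1, Subalgebra.one_mem _,
      ?_, ?_⟩
    · intro u hu
      have hu' : u = fun n => (b : ℚ) ^ m n := by simpa using hu
      rw [hu']
      exact ⟨b, hb, m, C, hm, fun _ => rfl⟩
    · exact Algebra.subset_adjoin (by simp)
    · rw [cq_one]
      exact one_ne_zero
    · rw [cq_one, mul_one, ← hx]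
      unfold cq
      congr 1
      funext n
      push_cast
      rfl
  | one =>
    refine ⟨∅, by simp, 1, Subalgebra.one_mem _, 1, Subalgebra.one_mem _, ?_, ?_⟩
    · rw [cq_one]
      exact one_ne_zero
    · rw [one_mul]
  | add x y _ _ ihx ihy =>
    obtain ⟨t, ht, p, hp, q, hq, h1, h2⟩ := ihx
    obtain ⟨t', ht', p', hp', q', hq', h1', h2'⟩ := ihy
    have htt : ((t ∪ t' : Finset (ℕ → ℚ)) : Set (ℕ → ℚ)) ⊆ GS σ B := by
      rw [Finset.coe_union]
      exact Set.union_subset ht ht'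
    have l1 : Algebra.adjoin ℚ (t : Set (ℕ → ℚ)) ≤
        Algebra.adjoin ℚ ((t ∪ t' : Finset (ℕ → ℚ)) : Set (ℕ → ℚ)) :=
      Algebra.adjoin_mono (by rw [Finset.coe_union]; exact Set.subset_union_left)
    have l2 : Algebra.adjoin ℚ (t' : Set (ℕ → ℚ)) ≤
        Algebra.adjoin ℚ ((t ∪ t' : Finset (ℕ → ℚ)) : Set (ℕ → ℚ)) :=
      Algebra.adjoin_mono (by rw [Finset.coe_union]; exact Set.subset_union_right)
    have op := hA t ht hp
    have oq := hA t ht hq
    have op' := hA t' ht' hp'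
    have oq' := hA t' ht' hq'
    refine ⟨t ∪ t', htt, p * q' + p' * q, ?_, q * q', ?_, ?_, ?_⟩
    · exact Subalgebra.add_mem _ (Subalgebra.mul_mem _ (l1 hp) (l2 hq'))
        (Subalgebra.mul_mem _ (l2 hp') (l1 hq))
    · exact Subalgebra.mul_mem _ (l1 hq) (l2 hq')
    · rw [cq_mul oq oq']
      exact mul_ne_zero h1 h1'
    · rw [cq_mul oq oq', cq_add ((OQ σ).mul_mem op oq') ((OQ σ).mul_mem op' oq), cq_mul op oq',
        cq_mul op' oq, ← h2, ← h2']
      ring
  | neg x _ ihx =>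
    obtain ⟨t, ht, p, hp, q, hq, h1, h2⟩ := ihx
    refine ⟨t, ht, -p, Subalgebra.neg_mem _ hp, q, hq, h1, ?_⟩
    rw [cq_neg (hA t ht hp), ← h2]
    ring
  | inv x _ ihx =>
    obtain ⟨t, ht, p, hp, q, hq, h1, h2⟩ := ihx
    by_cases hx0 : x = 0
    · refine ⟨∅, by simp, 0, Subalgebra.zero_mem _, 1, Subalgebra.one_mem _, ?_, ?_⟩
      · rw [cq_one]
        exact one_ne_zero
      · rw [hx0, inv_zero, zero_mul]
        unfold cq
        rw [← cl_zero (σ := σ)]
        congr 1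
        funext n
        simp
    · refine ⟨t, ht, q, hq, p, hp, ?_, ?_⟩
      · rw [← h2]
        exact mul_ne_zero hx0 h1
      · rw [← h2, ← mul_assoc, inv_mul_cancel₀ hx0, one_mul]
  | mul x y _ _ ihx ihy =>
    obtain ⟨t, ht, p, hp, q, hq, h1, h2⟩ := ihx
    obtain ⟨t', ht', p', hp', q', hq', h1', h2'⟩ := ihy
    have htt : ((t ∪ t' : Finset (ℕ → ℚ)) : Set (ℕ → ℚ)) ⊆ GS σ B := by
      rw [Finset.coe_union]
      exact Set.union_subset ht ht'
    have l1 : Algebra.adjoin ℚ (t : Set (ℕ → ℚ)) ≤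
        Algebra.adjoin ℚ ((t ∪ t' : Finset (ℕ → ℚ)) : Set (ℕ → ℚ)) :=
      Algebra.adjoin_mono (by rw [Finset.coe_union]; exact Set.subset_union_left)
    have l2 : Algebra.adjoin ℚ (t' : Set (ℕ → ℚ)) ≤
        Algebra.adjoin ℚ ((t ∪ t' : Finset (ℕ → ℚ)) : Set (ℕ → ℚ)) :=
      Algebra.adjoin_mono (by rw [Finset.coe_union]; exact Set.subset_union_right)
    refine ⟨t ∪ t', htt, p * p', Subalgebra.mul_mem _ (l1 hp) (l2 hp'), q * q',
      Subalgebra.mul_mem _ (l1 hq) (l2 hq'), ?_, ?_⟩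
    · rw [cq_mul (hA t ht hq) (hA t' ht' hq')]
      exact mul_ne_zero h1 h1'
    · rw [cq_mul (hA t ht hq) (hA t' ht' hq'), cq_mul (hA t ht hp) (hA t' ht' hp'), ← h2, ← h2']
      ring

theorem un_gs {σ : Sc} {B S : Finset ℕ} (hS : PS S) (hB : ∀ b ∈ B, 2 ≤ b)
    (hBS : ∀ p : ℕ, p.Prime → ∀ b ∈ B, p ∣ b → p ∈ S) {u : ℕ → ℚ} (hu : u ∈ GS σ B) :
    u ∈ Un σ.U S σ.T := by
  obtain ⟨b, hb, m, C, hm, hu⟩ := hu
  have hb2 := hB b hb
  constructor
  · intro n
    rw [hu n]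
    exact isU_nat_pow hS (by omega) (fun p hp hpb => hBS p hp b hb hpb) _
  · have hl : 0 ≤ Real.log b := Real.log_natCast_nonneg b
    refine ⟨|C| * Real.log b, ?_⟩
    filter_upwards [hm, σ.large 0] with n hn hT v hv
    have hz : av v (u n) ≤ |(((b : ℤ) ^ m n : ℤ) : ℝ)| := by
      have := av_int_le_abs (place_of_mem hS hv) ((b : ℤ) ^ m n)
      rw [hu n]
      simpa using this
    refine hz.trans ?_
    have hbpos : (0 : ℝ) < b := by exact_mod_cast (by omega : 0 < b)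
    have e1 : |(((b : ℤ) ^ m n : ℤ) : ℝ)| = Real.exp ((m n : ℝ) * Real.log b) := by
      push_cast
      rw [abs_of_pos (by positivity), Real.exp_nat_mul, Real.exp_log hbpos]
    rw [e1]
    apply Real.exp_le_exp.2
    calc (m n : ℝ) * Real.log b ≤ (C * σ.T n) * Real.log b := mul_le_mul_of_nonneg_right hn hl
      _ ≤ (|C| * σ.T n) * Real.log b := by
          gcongr
          exact le_abs_self _
      _ = _ := by ring

/-- polynomials in the `u k` become polynomials in the `g i` after multiplication by a power of a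
monomial -/
theorem poly_conv {U : Ultrafilter ℕ} {r K : ℕ} {g : Fin r → ℕ → ℚ} (hg : ∀ i n, g i n ≠ 0)
    {u : Fin K → ℕ → ℚ} {κ : Fin K → ℚ} {e : Fin K → Fin r → ℤ}
    (hu : ∀ k, ∀ᶠ n in (U : Filter ℕ), u k n = κ k * ∏ i, g i n ^ e k i) :
    ∃ ρ : Fin r →₀ ℕ, ∀ f ∈ Algebra.adjoin ℚ (Set.range u), ∃ (N : ℕ)
      (P : MvPolynomial (Fin r) ℚ), ∀ᶠ n in (U : Filter ℕ), mon g ρ n ^ N * f n = ev g n P := by
  classical
  refine ⟨Finsupp.equivFunOnFinite.symm (fun i => ∑ k, (e k i).natAbs), ?_⟩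
  set ρ : Fin r →₀ ℕ := Finsupp.equivFunOnFinite.symm (fun i => ∑ k, (e k i).natAbs) with hρ
  have hmon : ∀ (s : Fin r →₀ ℕ) (c : ℚ) (n : ℕ),
      ev g n (MvPolynomial.monomial s c) = c * mon g s n := by
    intro s c n
    unfold ev mon
    rw [MvPolynomial.eval_monomial, Finsupp.prod_fintype]
    intro i
    simp
  intro f hf
  induction hf using Algebra.adjoin_induction with
  | mem f hf =>
    obtain ⟨k, rfl⟩ := hf
    refine ⟨1, MvPolynomial.monomial
      (Finsupp.equivFunOnFinite.symm (fun i => ((ρ i : ℤ) + e k i).toNat)) (κ k), ?_⟩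
    filter_upwards [hu k] with n hn
    rw [hmon, pow_one, hn]
    unfold mon
    rw [mul_left_comm, ← Finset.prod_mul_distrib]
    congr 1
    refine Finset.prod_congr rfl fun i _ => ?_
    have h1 : (0 : ℤ) ≤ (ρ i : ℤ) + e k i := by
      have h2 : (e k i).natAbs ≤ ρ i := by
        rw [hρ]
        exact Finset.single_le_sum (f := fun k => (e k i).natAbs) (fun _ _ => Nat.zero_le _)
          (Finset.mem_univ k)
      omega
    have h3 : (Finsupp.equivFunOnFinite.symm (fun i => ((ρ i : ℤ) + e k i).toNat)) i =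
        ((ρ i : ℤ) + e k i).toNat := rfl
    rw [h3, ← zpow_natCast (g i n) (ρ i), ← zpow_natCast (g i n) (((ρ i : ℤ) + e k i).toNat),
      Int.toNat_of_nonneg h1, zpow_add₀ (hg i n)]
  | algebraMap c =>
    refine ⟨0, MvPolynomial.C c, ?_⟩
    filter_upwards with n
    unfold ev
    rw [MvPolynomial.eval_C, pow_zero, one_mul]
    rfl
  | add f f' _ _ ih ih' =>
    obtain ⟨N, P, h⟩ := ih
    obtain ⟨N', P', h'⟩ := ih'
    refine ⟨N + N', MvPolynomial.monomial (N' • ρ) 1 * P + MvPolynomial.monomial (N • ρ) 1 * P',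
      ?_⟩
    filter_upwards [h, h'] with n h1 h2
    have e1 : ∀ M : ℕ, ev g n (MvPolynomial.monomial (M • ρ) 1) = mon g ρ n ^ M := by
      intro M
      rw [hmon, one_mul]
      unfold mon
      rw [← Finset.prod_pow]
      refine Finset.prod_congr rfl fun i _ => ?_
      rw [← pow_mul]
      congr 1
      simp [mul_comm]
    have e2 : ev g n (MvPolynomial.monomial (N' • ρ) 1 * P + MvPolynomial.monomial (N • ρ) 1 * P') =
        ev g n (MvPolynomial.monomial (N' • ρ) 1) * ev g n P +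
          ev g n (MvPolynomial.monomial (N • ρ) 1) * ev g n P' := by
      unfold ev
      rw [map_add, map_mul, map_mul]
    rw [e2, e1, e1, ← h1, ← h2, Pi.add_apply]
    ring
  | mul f f' _ _ ih ih' =>
    obtain ⟨N, P, h⟩ := ih
    obtain ⟨N', P', h'⟩ := ih'
    refine ⟨N + N', P * P', ?_⟩
    filter_upwards [h, h'] with n h1 h2
    have e2 : ev g n (P * P') = ev g n P * ev g n P' := by
      unfold ev
      rw [map_mul]
    rw [e2, ← h1, ← h2, Pi.mul_apply]
    ring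

end KQT_

open KQT_

theorem kqt_proof (hBAS : SBT.Stmt_BAS) (_hGAU : Stmt_GAU) (hKWD : Stmt_KWD) : Stmt_KQT := by
  classical
  intro σ B S d κ hS hB hBS hκ
  obtain ⟨-, hW2, hW3⟩ := hKWD σ B hB
  have hO : GS σ B ⊆ OQ σ := fun u hu => (hW2 u (wd_gs hu)).1
  choose t ht p hp q hq hq0 hpq using fun i => quot hO (hκ i)
  set τ : Finset (ℕ → ℚ) := Finset.univ.biUnion t with hτ
  have hτG : (τ : Set (ℕ → ℚ)) ⊆ GS σ B := by
    intro u hu
    rw [hτ, Finset.mem_coe, Finset.mem_biUnion] at hu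
    obtain ⟨i, -, hi⟩ := hu
    exact ht i hi
  have hle : ∀ i, Algebra.adjoin ℚ (t i : Set (ℕ → ℚ)) ≤ Algebra.adjoin ℚ (τ : Set (ℕ → ℚ)) := by
    intro i
    apply Algebra.adjoin_mono
    intro u hu
    rw [hτ, Finset.mem_coe, Finset.mem_biUnion]
    exact ⟨i, Finset.mem_univ i, hu⟩
  have hAO : Algebra.adjoin ℚ (τ : Set (ℕ → ℚ)) ≤ OQ σ := Algebra.adjoin_le (hτG.trans hO)
  -- the common denominator
  set q' : ℕ → ℚ := ∏ j, q j with hq'
  set p' : Fin d → ℕ → ℚ := fun i => p i * ∏ j ∈ Finset.univ.erase i, q j with hp'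
  have hq'A : q' ∈ Algebra.adjoin ℚ (τ : Set (ℕ → ℚ)) :=
    Subalgebra.prod_mem _ fun j _ => hle j (hq j)
  have hp'A : ∀ i, p' i ∈ Algebra.adjoin ℚ (τ : Set (ℕ → ℚ)) := fun i =>
    Subalgebra.mul_mem _ (hle i (hp i)) (Subalgebra.prod_mem _ fun j _ => hle j (hq j))
  have hqO : ∀ j, q j ∈ OQ σ := fun j => hAO (hle j (hq j))
  have hq'0 : cq σ q' ≠ 0 := by
    rw [hq', cq_prod _ _ hqO, Finset.prod_ne_zero_iff]
    exact fun j _ => hq0 j
  have hrel : ∀ i, κ i * cq σ q' = cq σ (p' i) := by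
    intro i
    have h1 : cq σ (p' i) = cq σ (p i) * ∏ j ∈ Finset.univ.erase i, cq σ (q j) := by
      rw [hp']
      show cq σ (p i * ∏ j ∈ Finset.univ.erase i, q j) = _
      rw [cq_mul (hAO (hle i (hp i))) ((OQ σ).prod_mem fun j _ => hqO j), cq_prod _ _ hqO]
    rw [h1, ← hpq i, hq', cq_prod _ _ hqO, ← Finset.mul_prod_erase _ _ (Finset.mem_univ i)]
    ring
  -- the units
  set u : Fin τ.card → ℕ → ℚ := fun k => (τ.equivFin.symm k).1 with hu
  have hur : Set.range u = (τ : Set (ℕ → ℚ)) := by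
    ext v
    constructor
    · rintro ⟨k, rfl⟩
      exact (τ.equivFin.symm k).2
    · intro hv
      refine ⟨τ.equivFin ⟨v, hv⟩, ?_⟩
      rw [hu]
      simp
  have huG : ∀ k, u k ∈ GS σ B := fun k => hτG (τ.equivFin.symm k).2
  have huU : ∀ k, u k ∈ Un σ.U S σ.T := fun k => un_gs hS hB hBS (huG k)
  obtain ⟨r, g, hg1, hg2, hg3⟩ := hBAS σ.U τ.card u (fun k n => ((huU k).1 n).1)
  obtain ⟨hgU, hgH⟩ := BAG_.prod_unit hS σ.lim huU hg1
  have hGd : Gd σ.U S σ.T g := ⟨hS, σ.lim, hgU, hg2, hgH⟩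
  have hgW : ∀ i, Wd σ B (g i) := by
    intro i
    obtain ⟨e, he⟩ := hg1 i
    have h1 := wd_prod hB (fun k => wd_gs (huG k)) e
    have h2 : g i = fun n => ∏ k, u k n ^ e k := funext he
    rw [h2]
    exact h1
  choose c e hc he using hg3
  obtain ⟨ρ, hρ⟩ := poly_conv (U := σ.U) (fun i n => (hgU i n).1.ne') he
  rw [hur] at hρ
  obtain ⟨N₀, Q₀, hQ₀⟩ := hρ q' hq'A
  choose N P₀ hP₀ using fun i => hρ (p' i) (hp'A i)
  -- the monomial
  have hmonW : ∀ M : ℕ, (mon g ρ) ^ M ∈ OQ σ ∧ cq σ ((mon g ρ) ^ M) ≠ 0 := by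
    intro M
    have h1 := wd_prod hB hgW (fun i => (M : ℤ) * (ρ i : ℤ))
    have h2 : (fun n => ∏ i, g i n ^ ((M : ℤ) * (ρ i : ℤ))) = (mon g ρ) ^ M := by
      funext n
      rw [Pi.pow_apply]
      unfold mon
      rw [← Finset.prod_pow]
      refine Finset.prod_congr rfl fun i _ => ?_
      rw [← pow_mul, ← zpow_natCast]
      congr 1
      push_cast
      ring
    rw [h2] at h1
    obtain ⟨h3, -, h5⟩ := hW2 _ h1
    exact ⟨h3, h5⟩
  have hevm : ∀ (M n : ℕ), ev g n (MvPolynomial.monomial (M • ρ) 1) = mon g ρ n ^ M := by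
    intro M n
    unfold ev mon
    rw [MvPolynomial.eval_monomial, Finsupp.prod_fintype _ _ (by intro i; simp), one_mul,
      ← Finset.prod_pow]
    refine Finset.prod_congr rfl fun i _ => ?_
    rw [← pow_mul]
    congr 1
    simp [mul_comm]
  set M : ℕ := N₀ + ∑ i, N i with hM
  have hN₀ : N₀ ≤ M := Nat.le_add_right _ _
  have hNi : ∀ i, N i ≤ M := fun i =>
    (Finset.single_le_sum (f := N) (fun _ _ => Nat.zero_le _) (Finset.mem_univ i)).trans
      (Nat.le_add_left _ _)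
  have conv : ∀ (N : ℕ) (P : MvPolynomial (Fin r) ℚ) (f : ℕ → ℚ), N ≤ M → f ∈ OQ σ →
      (∀ᶠ n in (σ.U : Filter ℕ), mon g ρ n ^ N * f n = ev g n P) →
      cl σ (fun n => ((ev g n (MvPolynomial.monomial ((M - N) • ρ) 1 * P) : ℚ) : ℝ)) =
        cq σ ((mon g ρ) ^ M) * cq σ f := by
    intro N P f hN hf hP
    rw [← cq_mul (hmonW M).1 hf]
    show cq σ (fun n => ev g n (MvPolynomial.monomial ((M - N) • ρ) 1 * P)) = _
    apply cq_congr
    filter_upwards [hP] with n hn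
    have e2 : ev g n (MvPolynomial.monomial ((M - N) • ρ) 1 * P) =
        ev g n (MvPolynomial.monomial ((M - N) • ρ) 1) * ev g n P := by
      unfold ev
      rw [map_mul]
    rw [e2, hevm, ← hn, ← mul_assoc, ← pow_add, Nat.sub_add_cancel hN, Pi.mul_apply, Pi.pow_apply]
  have hQcl := conv N₀ Q₀ q' hN₀ (hAO hq'A) hQ₀
  refine ⟨r, g, MvPolynomial.monomial ((M - N₀) • ρ) 1 * Q₀,
    fun i => MvPolynomial.monomial ((M - N i) • ρ) 1 * P₀ i, hGd, hgW, ?_, ?_⟩
  · intro h0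
    rw [h0] at hQcl
    have h1 : cl σ (fun n => ((ev g n (0 : MvPolynomial (Fin r) ℚ) : ℚ) : ℝ)) = 0 := by
      rw [← cl_zero (σ := σ)]
      congr 1
      funext n
      unfold ev
      simp
    rw [h1] at hQcl
    exact mul_ne_zero (hmonW M).2 hq'0 hQcl.symm
  · intro i
    rw [hQcl, conv (N i) (P₀ i) (p' i) (hNi i) (hAO (hp'A i)) (hP₀ i), ← hrel i]
    ring

end Pool.Agent.SGL
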