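import Pool.Agent.SGL.Stmts

set_option autoImplicit false

namespace Pool.Agent.SGL

open Filter Pool.Agent.SBT

namespace KWD_

variable {σ : Sc}

theorem pow_le (b m : ℕ) (C T : ℝ) (hb : 2 ≤ b) (h : (m : ℝ) ≤ C * T) :
    (b : ℝ) ^ m ≤ Real.exp ((Real.log b * C) * T) := by
  have hb0 : (0 : ℝ) < b := by exact_mod_cast (by omega : 0 < b)
  have hlog : 0 ≤ Real.log b := Real.log_nonneg (by exact_mod_cast (by omega : 1 ≤ b))
  calc (b : ℝ) ^ m = Real.exp (m * Real.log b) := by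
        rw [mul_comm, Real.exp_mul, Real.exp_log hb0, Real.rpow_natCast]
    _ ≤ Real.exp ((Real.log b * C) * T) := by
        apply Real.exp_le_exp.2
        nlinarith

theorem nat_mem (b : ℕ) (hb : 2 ≤ b) (m : ℕ → ℕ) (C : ℝ)
    (h : ∀ᶠ n in (σ.U : Filter ℕ), (m n : ℝ) ≤ C * σ.T n) :
    (fun n => (b : ℝ) ^ m n) ∈ OO σ := by
  refine ⟨Real.log b * C, ?_⟩
  filter_upwards [h] with n hn
  rw [abs_of_nonneg (by positivity)]
  exact pow_le b (m n) C (σ.T n) hb hn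

theorem nat_ne (b : ℕ) (hb : 2 ≤ b) (m : ℕ → ℕ) (C : ℝ)
    (h : ∀ᶠ n in (σ.U : Filter ℕ), (m n : ℝ) ≤ C * σ.T n) :
    cl σ (fun n => (b : ℝ) ^ m n) ≠ 0 := by
  intro h0
  rw [cl_zero_iff (nat_mem b hb m C h)] at h0
  obtain ⟨n, h1, h2⟩ := ((h0 1).and (σ.large 1)).exists
  rw [abs_of_nonneg (by positivity)] at h1
  have hb1 : (1 : ℝ) ≤ b := by exact_mod_cast (by omega : 1 ≤ b)
  have h3 : (1 : ℝ) ≤ (b : ℝ) ^ m n := one_le_pow₀ hb1
  have h4 : Real.exp (-(1 * σ.T n)) < 1 := by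
    rw [Real.exp_lt_one_iff]
    linarith
  linarith

theorem nat_Kf (B : Finset ℕ) (b : ℕ) (hbB : b ∈ B) (m : ℕ → ℕ) (C : ℝ)
    (h : ∀ᶠ n in (σ.U : Filter ℕ), (m n : ℝ) ≤ C * σ.T n) :
    cl σ (fun n => (b : ℝ) ^ m n) ∈ Kf σ B :=
  Subfield.subset_closure ⟨b, hbB, m, C, h, rfl⟩

theorem int_mem (B : Finset ℕ) (b : ℕ) (hbB : b ∈ B) (hb : 2 ≤ b) (z : ℕ → ℤ) (C : ℝ)
    (h : ∀ᶠ n in (σ.U : Filter ℕ), |(z n : ℝ)| ≤ C * σ.T n) :
    (fun n => (b : ℝ) ^ z n) ∈ OO σ ∧ cl σ (fun n => (b : ℝ) ^ z n) ∈ Kf σ B ∧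
      cl σ (fun n => (b : ℝ) ^ z n) ≠ 0 := by
  have hb0 : (b : ℝ) ≠ 0 := by
    have : (0 : ℝ) < b := by exact_mod_cast (by omega : 0 < b)
    exact this.ne'
  have h1 : ∀ᶠ n in (σ.U : Filter ℕ), (((z n).toNat : ℕ) : ℝ) ≤ C * σ.T n := by
    filter_upwards [h] with n hn
    refine le_trans ?_ hn
    have : ((z n).toNat : ℤ) ≤ |z n| := by
      rw [Int.toNat_eq_max]
      exact max_le (le_abs_self _) (abs_nonneg _)
    exact_mod_cast this
  have h2 : ∀ᶠ n in (σ.U : Filter ℕ), (((-z n).toNat : ℕ) : ℝ) ≤ C * σ.T n := by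
    filter_upwards [h] with n hn
    refine le_trans ?_ hn
    have : ((-z n).toNat : ℤ) ≤ |z n| := by
      rw [Int.toNat_eq_max]
      exact max_le (neg_le_abs _) (abs_nonneg _)
    exact_mod_cast this
  have e : (fun n => (b : ℝ) ^ z n) =
      fun n => (b : ℝ) ^ (z n).toNat * ((b : ℝ) ^ (-z n).toNat)⁻¹ := by
    funext n
    rw [← zpow_natCast, ← zpow_natCast, ← zpow_neg, ← zpow_add₀ hb0]
    congr 1
    omega
  have m1 := nat_mem b hb _ C h1
  have m2 := nat_mem b hb _ C h2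
  have n1 := nat_ne b hb _ C h1
  have n2 := nat_ne b hb _ C h2
  have k1 := nat_Kf B b hbB _ C h1
  have k2 := nat_Kf B b hbB _ C h2
  have hS : ¬ SS σ (fun n => (b : ℝ) ^ (-z n).toNat) := fun hh => n2 ((cl_zero_iff m2).2 hh)
  have m3 := inv_mem hS
  rw [e]
  refine ⟨(OO σ).mul_mem m1 m3, ?_, ?_⟩
  · rw [cl_mul m1 m3, cl_inv m2 n2]
    exact (Kf σ B).mul_mem k1 ((Kf σ B).inv_mem k2)
  · rw [cl_mul m1 m3, cl_inv m2 n2]
    exact mul_ne_zero n1 (inv_ne_zero n2)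

theorem prod_mem (B : Finset ℕ) (hB : ∀ b ∈ B, 2 ≤ b) (z : ℕ → ℕ → ℤ) (C : ℝ)
    (h : ∀ b ∈ B, ∀ᶠ n in (σ.U : Filter ℕ), |(z b n : ℝ)| ≤ C * σ.T n) (s : Finset ℕ)
    (hs : s ⊆ B) :
    (fun n => ∏ b ∈ s, (b : ℝ) ^ z b n) ∈ OO σ ∧
      cl σ (fun n => ∏ b ∈ s, (b : ℝ) ^ z b n) ∈ Kf σ B ∧
      cl σ (fun n => ∏ b ∈ s, (b : ℝ) ^ z b n) ≠ 0 := by
  classical
  induction s using Finset.induction_on with
  | empty =>
    simp only [Finset.prod_empty]
    refine ⟨const_mem 1, ?_, ?_⟩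
    · rw [cl_one]
      exact (Kf σ B).one_mem
    · rw [cl_one]
      exact one_ne_zero
  | insert b s hb ih =>
    have hbB : b ∈ B := hs (Finset.mem_insert_self b s)
    obtain ⟨i1, i2, i3⟩ := ih (fun x hx => hs (Finset.mem_insert_of_mem hx))
    obtain ⟨j1, j2, j3⟩ := int_mem B b hbB (hB b hbB) (z b) C (h b hbB)
    simp only [Finset.prod_insert hb]
    refine ⟨(OO σ).mul_mem j1 i1, ?_, ?_⟩
    · rw [cl_mul j1 i1]
      exact (Kf σ B).mul_mem j2 i2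
    · rw [cl_mul j1 i1]
      exact mul_ne_zero j3 i3

end KWD_

open KWD_ in
theorem kwd_proof : Stmt_KWD := by
  intro σ B hB
  have part2 : ∀ g, Wd σ B g → (fun n => ((g n : ℚ) : ℝ)) ∈ OO σ ∧
      cl σ (fun n => ((g n : ℚ) : ℝ)) ∈ Kf σ B ∧ cl σ (fun n => ((g n : ℚ) : ℝ)) ≠ 0 := by
    rintro g ⟨z, C, hg, hz⟩
    have e : (fun n => ((g n : ℚ) : ℝ)) = fun n => ∏ b ∈ B, (b : ℝ) ^ z b n := by
      funext n
      rw [hg n]
      push_cast
      rfl
    rw [e]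
    exact prod_mem B hB z C hz B le_rfl
  refine ⟨?_, part2, ?_⟩
  · refine Subfield.closure_le.2 ?_
    rintro _ ⟨b, hbB, m, C, hm, rfl⟩
    have hb := hB b hbB
    rw [SetLike.mem_coe, mem_Lf]
    refine ⟨fun n => (b : ℚ) ^ m n, ?_, ?_⟩
    · rw [Hq_iff]
      refine ⟨max (Real.log b * C) 0, ?_⟩
      filter_upwards [hm, σ.large 0] with n hn hT
      have h1 : Real.exp (Real.log b * C * σ.T n) ≤
          Real.exp (max (Real.log b * C) 0 * σ.T n) :=
        Real.exp_le_exp.2 (mul_le_mul_of_nonneg_right (le_max_left _ _) hT)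
      refine ⟨(b : ℤ) ^ m n, 1, one_ne_zero, by push_cast; rw [div_one], ?_, ?_⟩
      · push_cast
        rw [abs_of_nonneg (by positivity)]
        exact (pow_le b (m n) C (σ.T n) hb hn).trans h1
      · rw [Int.cast_one, abs_one]
        exact Real.one_le_exp (mul_nonneg (le_max_right _ _) hT)
    · congr 1
      funext n
      push_cast
      rfl
  · intro r g P hg
    induction P using MvPolynomial.induction_on with
    | C a =>
      have e : (fun n => ((ev g n (MvPolynomial.C a) : ℚ) : ℝ)) = fun _ => (a : ℝ) := by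
        funext n
        unfold ev
        rw [MvPolynomial.eval_C]
      rw [e]
      refine ⟨const_mem _, ?_⟩
      rw [← cst_apply, map_ratCast]
      exact SubfieldClass.ratCast_mem _ a
    | add p q hp hq =>
      have e : (fun n => ((ev g n (p + q) : ℚ) : ℝ)) =
          fun n => ((ev g n p : ℚ) : ℝ) + ((ev g n q : ℚ) : ℝ) := by
        funext n
        unfold ev
        rw [map_add]
        push_cast
        rfl
      rw [e]
      refine ⟨(OO σ).add_mem hp.1 hq.1, ?_⟩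
      rw [cl_add hp.1 hq.1]
      exact (Kf σ B).add_mem hp.2 hq.2
    | mul_X p i hp =>
      have e : (fun n => ((ev g n (p * MvPolynomial.X i) : ℚ) : ℝ)) =
          fun n => ((ev g n p : ℚ) : ℝ) * ((g i n : ℚ) : ℝ) := by
        funext n
        unfold ev
        rw [map_mul, MvPolynomial.eval_X]
        push_cast
        rfl
      obtain ⟨g1, g2, -⟩ := part2 (g i) (hg i)
      rw [e]
      refine ⟨(OO σ).mul_mem hp.1 g1, ?_⟩
      rw [cl_mul hp.1 g1]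
      exact (Kf σ B).mul_mem hp.2 g2

end Pool.Agent.SGL
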