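import Pool.Agent.SGL.Stmts

/-!
# Squad SGL, module LDS: linear disjointness is symmetric
-/

set_option autoImplicit false

namespace Pool.Agent.SGL

namespace LDS_

/-- a basis of the span of finitely many elements over a subfield -/
theorem exists_basis {F : Type} [Field F] (K A : Subfield F) (hKA : K ≤ A) {d : ℕ} (a : Fin d → F)
    (ha : ∀ i, a i ∈ A) :
    ∃ (r : ℕ) (e : Fin r → F) (κ : Fin d → Fin r → F), (∀ j, e j ∈ A) ∧ Ind K e ∧
      (∀ i j, κ i j ∈ K) ∧ ∀ i, a i = ∑ j, κ i j * e j := by
  classical
  let W : Submodule K F := Submodule.span K (Set.range a)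
  have : FiniteDimensional K W := FiniteDimensional.span_of_finite K (Set.finite_range a)
  let bs := Module.finBasis K W
  have hWA : ∀ w : W, (w : F) ∈ A := by
    intro w
    have h := w.2
    refine Submodule.span_induction (p := fun x _ => x ∈ A) ?_ ?_ ?_ ?_ h
    · rintro x ⟨i, rfl⟩
      exact ha i
    · exact A.zero_mem
    · intro x y _ _ hx hy
      exact A.add_mem hx hy
    · intro k x _ hx
      have : k • x = (k : F) * x := rfl
      rw [this]
      exact A.mul_mem (hKA k.2) hx
  refine ⟨Module.finrank K W, fun j => (bs j : F),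
    fun i j => ((bs.repr ⟨a i, Submodule.subset_span ⟨i, rfl⟩⟩ j : K) : F), fun j => hWA _, ?_,
    fun i j => (bs.repr ⟨a i, Submodule.subset_span ⟨i, rfl⟩⟩ j).2, ?_⟩
  · intro κ hκ hsum
    have h1 : ∑ j, (⟨κ j, hκ j⟩ : K) • bs j = 0 := by
      apply Subtype.ext
      rw [Submodule.coe_sum]
      exact hsum
    have h2 := Fintype.linearIndependent_iff.1 bs.linearIndependent _ h1
    funext j
    have := h2 j
    exact congrArg Subtype.val this
  · intro i
    have h1 := bs.sum_repr ⟨a i, Submodule.subset_span ⟨i, rfl⟩⟩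
    have h2 := congrArg (fun w : W => (w : F)) h1
    simp only [Submodule.coe_sum] at h2
    rw [← h2]
    rfl

end LDS_

theorem lds_proof : Stmt_LDS := by
  intro F _ K A B hKA hKB h d b a hb ha hInd hsum
  obtain ⟨r, e, κ, he, hInde, hκ, hae⟩ := LDS_.exists_basis K A hKA a ha
  have h1 : ∑ j, e j * (∑ i, κ i j * b i) = 0 := by
    have h2 : ∑ j, e j * (∑ i, κ i j * b i) = ∑ i, b i * a i := by
      simp only [Finset.mul_sum]
      rw [Finset.sum_comm]
      apply Finset.sum_congr rfl
      intro i _
      rw [hae i, Finset.mul_sum]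
      apply Finset.sum_congr rfl
      intro j _
      ring
    rw [h2, hsum]
  have h3 := h r e (fun j => ∑ i, κ i j * b i) he
    (fun j => B.sum_mem (fun i _ => B.mul_mem (hKB (hκ i j)) (hb i))) hInde h1
  funext i
  rw [hae i]
  have h4 : ∀ j, κ i j = 0 := by
    intro j
    have h5 := hInd (fun i => κ i j) (fun i => hκ i j) (congrFun h3 j)
    exact congrFun h5 i
  simp [h4]

end Pool.Agent.SGL
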