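import Pool.Agent.SGL.Stmts
import Pool.Agent.SGL.LDS
import Pool.Agent.SGL.KQT

/-!
# LDB: the closures for two independent sets of bases are linearly disjoint
-/

set_option autoImplicit false

namespace Pool.Agent.SGL

open Filter Pool.Agent.SBT

attribute [local irreducible] instFieldOm

namespace LDB_

variable {σ : Sc}

/-- rational constants have size at most `0` -/
theorem V_rat (q : ℚ) : V ((q : ℚ) : Om σ) 0 := by
  have h1 : ((q : ℚ) : Om σ) = cst σ (q : ℝ) := (map_ratCast (cst σ) q).symm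
  rw [h1]
  have h2 : cst σ (q : ℝ) = cl σ (fun _ => (q : ℝ)) := rfl
  rw [h2, V_cl (const_mem _)]
  intro c' hc'
  filter_upwards [σ.large (|(q : ℝ)| / c')] with n hn
  have h3 : |(q : ℝ)| ≤ c' * σ.T n := by
    rw [div_le_iff₀ hc'] at hn
    linarith
  have h4 := Real.add_one_le_exp (c' * σ.T n)
  linarith

theorem V_rat_mul (q : ℚ) {x : Om σ} {c : ℝ} (h : V x c) : V ((q : Om σ) * x) c := by
  have := V_mul (V_rat (σ := σ) q) h
  rwa [zero_add] at this

/-- if `u` is not of size `a` then its inverse is of size `-a` -/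
theorem V_inv_of_not {u : Om σ} {a : ℝ} (h : ¬ V u a) : u ≠ 0 ∧ V (u⁻¹) (-a) := by
  have hu : u ≠ 0 := by
    rintro rfl
    exact h (V_zero a)
  refine ⟨hu, ?_⟩
  obtain ⟨f, hf, rfl⟩ := cl_surj u
  have hS : ¬ SS σ f := fun hh => hu ((cl_zero_iff hf).2 hh)
  rw [V_cl hf] at h
  push Not at h
  obtain ⟨a', ha', h1⟩ := h
  rw [← cl_inv hf hu, V_cl (inv_mem hS)]
  intro c' hc'
  have h2 : ∀ᶠ n in (σ.U : Filter ℕ), Real.exp (a' * σ.T n) < |f n| := by
    exact h1
  filter_upwards [h2, σ.large 0] with n hn hT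
  rw [abs_inv]
  calc |f n|⁻¹ ≤ (Real.exp (a' * σ.T n))⁻¹ := inv_anti₀ (Real.exp_pos _) hn.le
    _ = Real.exp (-(a' * σ.T n)) := (Real.exp_neg _).symm
    _ ≤ Real.exp (c' * σ.T n) := Real.exp_le_exp.2 (by nlinarith)

/-- the value of a polynomial at a family with bounded values -/
noncomputable def Phi {r : ℕ} (g : Fin r → ℕ → ℚ)
    (h : ∀ P : MvPolynomial (Fin r) ℚ, (fun n => ((ev g n P : ℚ) : ℝ)) ∈ OO σ) :
    MvPolynomial (Fin r) ℚ →+* Om σ where
  toFun P := cl σ (fun n => ((ev g n P : ℚ) : ℝ))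
  map_one' := by
    have e : (fun n => ((ev g n 1 : ℚ) : ℝ)) = fun _ => 1 := by
      funext n
      unfold ev
      rw [map_one]
      simp
    rw [e]
    exact cl_one
  map_mul' P Q := by
    have e : (fun n => ((ev g n (P * Q) : ℚ) : ℝ)) =
        fun n => ((ev g n P : ℚ) : ℝ) * ((ev g n Q : ℚ) : ℝ) := by
      funext n
      unfold ev
      rw [map_mul]
      push_cast
      rfl
    rw [e]
    exact cl_mul (h P) (h Q)
  map_zero' := by
    have e : (fun n => ((ev g n 0 : ℚ) : ℝ)) = fun _ => 0 := by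
      funext n
      unfold ev
      rw [map_zero]
      simp
    rw [e]
    exact cl_zero
  map_add' P Q := by
    have e : (fun n => ((ev g n (P + Q) : ℚ) : ℝ)) =
        fun n => ((ev g n P : ℚ) : ℝ) + ((ev g n Q : ℚ) : ℝ) := by
      funext n
      unfold ev
      rw [map_add]
      push_cast
      rfl
    rw [e]
    exact cl_add (h P) (h Q)

theorem Phi_apply {r : ℕ} (g : Fin r → ℕ → ℚ)
    (h : ∀ P : MvPolynomial (Fin r) ℚ, (fun n => ((ev g n P : ℚ) : ℝ)) ∈ OO σ)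
    (P : MvPolynomial (Fin r) ℚ) : Phi g h P = cl σ (fun n => ((ev g n P : ℚ) : ℝ)) := rfl

theorem Phi_C {r : ℕ} (g : Fin r → ℕ → ℚ)
    (h : ∀ P : MvPolynomial (Fin r) ℚ, (fun n => ((ev g n P : ℚ) : ℝ)) ∈ OO σ) (q : ℚ) :
    Phi g h (MvPolynomial.C q) = (q : Om σ) := by
  rw [Phi_apply]
  have e : (fun n => ((ev g n (MvPolynomial.C q) : ℚ) : ℝ)) = fun _ => (q : ℝ) := by
    funext n
    unfold ev
    rw [MvPolynomial.eval_C]
  rw [e, ← cst_apply, map_ratCast]

theorem Phi_sum {r : ℕ} (g : Fin r → ℕ → ℚ)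
    (h : ∀ P : MvPolynomial (Fin r) ℚ, (fun n => ((ev g n P : ℚ) : ℝ)) ∈ OO σ)
    (P : MvPolynomial (Fin r) ℚ) :
    Phi g h P = ∑ e ∈ P.support, ((MvPolynomial.coeff e P : ℚ) : Om σ) *
      Phi g h (MvPolynomial.monomial e 1) := by
  conv_lhs => rw [← MvPolynomial.support_sum_monomial_coeff P]
  rw [map_sum]
  refine Finset.sum_congr rfl fun e _ => ?_
  rw [← Phi_C g h, ← map_mul, MvPolynomial.C_mul_monomial, mul_one]

/-- a polynomial all whose monomials are small is small -/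
theorem V_Phi {r : ℕ} (g : Fin r → ℕ → ℚ)
    (h : ∀ P : MvPolynomial (Fin r) ℚ, (fun n => ((ev g n P : ℚ) : ℝ)) ∈ OO σ)
    (P : MvPolynomial (Fin r) ℚ) (y : Om σ) (c : ℝ)
    (hP : ∀ e ∈ P.support, V (Phi g h (MvPolynomial.monomial e 1) * y) c) :
    V (Phi g h P * y) c := by
  rw [Phi_sum, Finset.sum_mul]
  refine V_sum _ _ fun e he => ?_
  rw [mul_assoc]
  exact V_rat_mul _ (hP e he)

theorem ev_monomial {r : ℕ} (g : Fin r → ℕ → ℚ) (n : ℕ) (e : Fin r →₀ ℕ) :
    ev g n (MvPolynomial.monomial e 1) = mon g e n := by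
  unfold ev mon
  rw [MvPolynomial.eval_monomial, Finsupp.prod_fintype _ _ (by intro i; simp), one_mul]

/-- the monomials of a polynomial in independent units are not larger than its value -/
theorem gau_V (hGAU : Stmt_GAU) {S : Finset ℕ} {r : ℕ} {g : Fin r → ℕ → ℚ}
    (hG : Gd σ.U S σ.T g) (P : MvPolynomial (Fin r) ℚ) (e : Fin r →₀ ℕ) (he : e ∈ P.support)
    (hP : (fun n => ((ev g n P : ℚ) : ℝ)) ∈ OO σ) (hm : (fun n => ((mon g e n : ℚ) : ℝ)) ∈ OO σ)
    (y : Om σ) (c : ℝ) (hV : V (cl σ (fun n => ((ev g n P : ℚ) : ℝ)) * y) c) :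
    V (cl σ (fun n => ((mon g e n : ℚ) : ℝ)) * y) c := by
  obtain ⟨f, hf, rfl⟩ := cl_surj y
  have m1 : (fun n => ((ev g n P : ℚ) : ℝ) * f n) ∈ OO σ := (OO σ).mul_mem hP hf
  have m2 : (fun n => ((mon g e n : ℚ) : ℝ) * f n) ∈ OO σ := (OO σ).mul_mem hm hf
  rw [← cl_mul hP hf, V_cl m1] at hV
  rw [← cl_mul hm hf, V_cl m2]
  intro c' hc'
  have h1 := hV ((c + c') / 2) (by linarith)
  have h2 := hGAU σ.U S σ.T r g hG P ((c' - c) / 2) (by linarith) e he
  filter_upwards [h1, h2] with n h3 h4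
  have h5 : av 0 (mon g e n) = |((mon g e n : ℚ) : ℝ)| := by
    unfold av
    rw [if_pos rfl]
  rw [h5] at h4
  rw [abs_mul] at h3 ⊢
  calc |((mon g e n : ℚ) : ℝ)| * |f n|
      ≤ (Real.exp ((c' - c) / 2 * σ.T n) * |((ev g n P : ℚ) : ℝ)|) * |f n| :=
        mul_le_mul_of_nonneg_right h4 (abs_nonneg _)
    _ = Real.exp ((c' - c) / 2 * σ.T n) * (|((ev g n P : ℚ) : ℝ)| * |f n|) := by ring
    _ ≤ Real.exp ((c' - c) / 2 * σ.T n) * Real.exp ((c + c') / 2 * σ.T n) :=
        mul_le_mul_of_nonneg_left h3 (Real.exp_pos _).le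
    _ = Real.exp (c' * σ.T n) := by
        rw [← Real.exp_add]
        congr 1
        ring

/-- the exponent of a product of a monomial in the first variables and a monomial in the last
variables -/
noncomputable def jn {r s : ℕ} (e : Fin r →₀ ℕ) (f : Fin s →₀ ℕ) : Fin (r + s) →₀ ℕ :=
  Finsupp.mapDomain (Fin.castAdd s) e + Finsupp.mapDomain (Fin.natAdd r) f

theorem jn_left {r s : ℕ} (e : Fin r →₀ ℕ) (f : Fin s →₀ ℕ) (i : Fin r) :
    jn e f (Fin.castAdd s i) = e i := by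
  unfold jn
  rw [Finsupp.add_apply, Finsupp.mapDomain_apply (Fin.castAdd_injective r s),
    Finsupp.mapDomain_of_notMem_range, add_zero]
  rintro ⟨j, hj⟩
  have := congrArg Fin.val hj
  simp only [Fin.val_natAdd, Fin.val_castAdd] at this
  have := i.2
  omega

theorem jn_right {r s : ℕ} (e : Fin r →₀ ℕ) (f : Fin s →₀ ℕ) (i : Fin s) :
    jn e f (Fin.natAdd r i) = f i := by
  unfold jn
  rw [Finsupp.add_apply, Finsupp.mapDomain_apply (Fin.natAdd_injective s r),
    Finsupp.mapDomain_of_notMem_range, zero_add]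
  rintro ⟨j, hj⟩
  have := congrArg Fin.val hj
  simp only [Fin.val_natAdd, Fin.val_castAdd] at this
  have := j.2
  omega

theorem jn_inj {r s : ℕ} {e e' : Fin r →₀ ℕ} {f f' : Fin s →₀ ℕ} :
    jn e f = jn e' f' ↔ e = e' ∧ f = f' := by
  constructor
  · intro h
    constructor
    · ext i
      rw [← jn_left e f i, h, jn_left]
    · ext i
      rw [← jn_right e f i, h, jn_right]
  · rintro ⟨rfl, rfl⟩
    rfl

/-- the coefficients of a product -/
theorem coeff_mul_rename {r s : ℕ} (P : MvPolynomial (Fin r) ℚ) (Q : MvPolynomial (Fin s) ℚ)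
    (e : Fin r →₀ ℕ) (f : Fin s →₀ ℕ) :
    MvPolynomial.coeff (jn e f) (MvPolynomial.rename (Fin.castAdd s) P *
      MvPolynomial.rename (Fin.natAdd r) Q) =
      MvPolynomial.coeff e P * MvPolynomial.coeff f Q := by
  induction P using MvPolynomial.induction_on' with
  | add P P' h1 h2 =>
    rw [map_add, add_mul, MvPolynomial.coeff_add, h1, h2, MvPolynomial.coeff_add, add_mul]
  | monomial u a =>
    induction Q using MvPolynomial.induction_on' with
    | add Q Q' h1 h2 =>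
      rw [map_add, mul_add, MvPolynomial.coeff_add, h1, h2, MvPolynomial.coeff_add, mul_add]
    | monomial v b =>
      rw [MvPolynomial.rename_monomial, MvPolynomial.rename_monomial,
        MvPolynomial.monomial_mul, MvPolynomial.coeff_monomial, MvPolynomial.coeff_monomial,
        MvPolynomial.coeff_monomial]
      have h : (Finsupp.mapDomain (Fin.castAdd s) u + Finsupp.mapDomain (Fin.natAdd r) v =
          jn e f) ↔ u = e ∧ v = f := jn_inj
      by_cases h1 : u = e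
      · by_cases h2 : v = f
        · rw [if_pos (h.2 ⟨h1, h2⟩), if_pos h1, if_pos h2]
        · rw [if_neg (fun hh => h2 (h.1 hh).2), if_neg h2, mul_zero]
      · rw [if_neg (fun hh => h1 (h.1 hh).1), if_neg h1, zero_mul]

/-- the two families together are independent -/
theorem gd_append {A B S : Finset ℕ} (hA : ∀ a ∈ A, 2 ≤ a) (hB : ∀ b ∈ B, 2 ≤ b)
    (hTI : TI A B) {r s : ℕ} {g : Fin r → ℕ → ℚ} {h : Fin s → ℕ → ℚ} (hg : Gd σ.U S σ.T g)
    (hh : Gd σ.U S σ.T h) (wg : ∀ i, Wd σ A (g i)) (wh : ∀ i, Wd σ B (h i)) :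
    Gd σ.U S σ.T (Fin.append g h) where
  prime := hg.prime
  lim := hg.lim
  unit := by
    intro i n
    induction i using Fin.addCases with
    | left i =>
      rw [Fin.append_left]
      exact hg.unit i n
    | right i =>
      rw [Fin.append_right]
      exact hh.unit i n
  ind := by
    intro e κ hκ
    have hA0 : ∀ a ∈ A, ((a : ℕ) : ℚ) ≠ 0 := fun a ha => by
      have := hA a ha
      exact_mod_cast (by omega : a ≠ 0)
    have hB0 : ∀ b ∈ B, ((b : ℕ) : ℚ) ≠ 0 := fun b hb => by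
      have := hB b hb
      exact_mod_cast (by omega : b ≠ 0)
    obtain ⟨z, C, hz', -⟩ := KQT_.wd_prod hA wg (fun i => e (Fin.castAdd s i))
    obtain ⟨w, D, hw', -⟩ := KQT_.wd_prod hB wh (fun i => e (Fin.natAdd r i))
    have hz : ∀ n, ∏ k, g k n ^ e (Fin.castAdd s k) = ∏ a ∈ A, (a : ℚ) ^ z a n := hz'
    have hw : ∀ n, ∏ k, h k n ^ e (Fin.natAdd r k) = ∏ b ∈ B, (b : ℚ) ^ w b n := hw'
    have hκ2 : ∀ᶠ n in (σ.U : Filter ℕ), (∏ a ∈ A, (a : ℚ) ^ z a n) * (∏ b ∈ B, (b : ℚ) ^ w b n) =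
        κ := by
      filter_upwards [hκ] with n hn
      rw [Fin.prod_univ_add] at hn
      simp only [Fin.append_left, Fin.append_right] at hn
      rw [← hz n, ← hw n]
      exact hn
    have pA : ∀ n, (∏ a ∈ A, (a : ℚ) ^ z a n) ≠ 0 := fun n =>
      Finset.prod_ne_zero_iff.2 fun a ha => zpow_ne_zero _ (hA0 a ha)
    have pB : ∀ n, (∏ b ∈ B, (b : ℚ) ^ w b n) ≠ 0 := fun n =>
      Finset.prod_ne_zero_iff.2 fun b hb => zpow_ne_zero _ (hB0 b hb)
    obtain ⟨n₀, hn₀⟩ := hκ2.exists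
    have hconst : ∀ᶠ n in (σ.U : Filter ℕ), (∏ a ∈ A, (a : ℚ) ^ z a n) =
        ∏ a ∈ A, (a : ℚ) ^ z a n₀ := by
      filter_upwards [hκ2] with n hn
      have q1 : ∏ a ∈ A, (a : ℚ) ^ (z a n - z a n₀) =
          (∏ a ∈ A, (a : ℚ) ^ z a n) / ∏ a ∈ A, (a : ℚ) ^ z a n₀ := by
        rw [← Finset.prod_div_distrib]
        exact Finset.prod_congr rfl fun a ha => zpow_sub₀ (hA0 a ha) _ _
      have q2 : ∏ b ∈ B, (b : ℚ) ^ (w b n₀ - w b n) =
          (∏ b ∈ B, (b : ℚ) ^ w b n₀) / ∏ b ∈ B, (b : ℚ) ^ w b n := by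
        rw [← Finset.prod_div_distrib]
        exact Finset.prod_congr rfl fun b hb => zpow_sub₀ (hB0 b hb) _ _
      have q3 := hTI (fun a => z a n - z a n₀) (fun b => w b n₀ - w b n) (by
        rw [q1, q2, div_eq_div_iff (pA n₀) (pB n), hn, mul_comm, hn₀])
      rw [q1, div_eq_one_iff_eq (pA n₀)] at q3
      exact q3
    have e1 : (fun i => e (Fin.castAdd s i)) = 0 := by
      apply hg.ind _ (∏ a ∈ A, (a : ℚ) ^ z a n₀)
      filter_upwards [hconst] with n hn
      rw [hz n]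
      exact hn
    have e2 : (fun i => e (Fin.natAdd r i)) = 0 := by
      apply hh.ind _ (κ / ∏ a ∈ A, (a : ℚ) ^ z a n₀)
      filter_upwards [hconst, hκ2] with n hn hn2
      rw [hw n, eq_div_iff (pA n₀), ← hn, mul_comm]
      exact hn2
    funext i
    induction i using Fin.addCases with
    | left i => exact congrFun e1 i
    | right i => exact congrFun e2 i
  height := by
    obtain ⟨C, hC⟩ := hg.height
    obtain ⟨D, hD⟩ := hh.height
    refine ⟨max C D, ?_⟩
    filter_upwards [hC, hD, σ.large 0] with n h1 h2 hT i v hv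
    induction i using Fin.addCases with
    | left i =>
      rw [Fin.append_left]
      exact (h1 i v hv).trans
        (Real.exp_le_exp.2 (mul_le_mul_of_nonneg_right (le_max_left _ _) hT))
    | right i =>
      rw [Fin.append_right]
      exact (h2 i v hv).trans
        (Real.exp_le_exp.2 (mul_le_mul_of_nonneg_right (le_max_right _ _) hT))

theorem mon_append {r s : ℕ} (g : Fin r → ℕ → ℚ) (h : Fin s → ℕ → ℚ) (e : Fin r →₀ ℕ)
    (f : Fin s →₀ ℕ) (n : ℕ) : mon (Fin.append g h) (jn e f) n = mon g e n * mon h f n := by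
  unfold mon
  rw [Fin.prod_univ_add]
  simp only [Fin.append_left, Fin.append_right, jn_left, jn_right]

theorem ev_rename_left {r s : ℕ} (g : Fin r → ℕ → ℚ) (h : Fin s → ℕ → ℚ) (n : ℕ)
    (P : MvPolynomial (Fin r) ℚ) :
    ev (Fin.append g h) n (MvPolynomial.rename (Fin.castAdd s) P) = ev g n P := by
  unfold ev
  rw [MvPolynomial.eval_rename]
  congr 2
  funext i
  simp only [Function.comp_apply, Fin.append_left]

theorem ev_rename_right {r s : ℕ} (g : Fin r → ℕ → ℚ) (h : Fin s → ℕ → ℚ) (n : ℕ)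
    (P : MvPolynomial (Fin s) ℚ) :
    ev (Fin.append g h) n (MvPolynomial.rename (Fin.natAdd r) P) = ev h n P := by
  unfold ev
  rw [MvPolynomial.eval_rename]
  congr 2
  funext i
  simp only [Function.comp_apply, Fin.append_right]

/-- denominators are not zero -/
theorem den_ne (hGAU : Stmt_GAU) (hKWD : Stmt_KWD) {A S : Finset ℕ} (hA : ∀ a ∈ A, 2 ≤ a)
    {r : ℕ} {g : Fin r → ℕ → ℚ} (hG : Gd σ.U S σ.T g) (wg : ∀ i, Wd σ A (g i))
    (Q : MvPolynomial (Fin r) ℚ) (hQ : Q ≠ 0) : cl σ (fun n => ((ev g n Q : ℚ) : ℝ)) ≠ 0 := by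
  intro h0
  obtain ⟨-, hW2, hW3⟩ := hKWD σ A hA
  obtain ⟨e, he⟩ := MvPolynomial.support_nonempty.2 hQ
  have w : Wd σ A (fun n => mon g e n) := by
    have h1 := KQT_.wd_prod hA wg (fun i => (e i : ℤ))
    have h2 : (fun n => ∏ i, g i n ^ ((e i : ℕ) : ℤ)) = fun n => mon g e n := by
      funext n
      unfold mon
      exact Finset.prod_congr rfl fun i _ => zpow_natCast _ _
    rwa [h2] at h1
  obtain ⟨m1, -, m2⟩ := hW2 _ w
  apply m2
  apply V_eq_zero
  intro c
  have h1 := gau_V hGAU hG Q e he (hW3 r g Q wg).1 m1 1 c (by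
    rw [h0, zero_mul]
    exact V_zero c)
  rwa [mul_one] at h1

theorem cl_sum {ι : Type} (s : Finset ι) (f : ι → ℕ → ℝ) (hf : ∀ i, f i ∈ OO σ) :
    (∑ i ∈ s, f i) ∈ OO σ ∧ cl σ (∑ i ∈ s, f i) = ∑ i ∈ s, cl σ (f i) := by
  classical
  induction s using Finset.induction_on with
  | empty =>
    rw [Finset.sum_empty, Finset.sum_empty]
    exact ⟨(OO σ).zero_mem, cl_zero⟩
  | insert i s hi ih =>
    rw [Finset.sum_insert hi, Finset.sum_insert hi, ← ih.2]
    exact ⟨(OO σ).add_mem (hf i) ih.1, cl_add (hf i) ih.1⟩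

theorem mem_bot {x : Om σ} (h : x ∈ (⊥ : Subfield (Om σ))) : ∃ q : ℚ, x = (q : Om σ) := by
  rw [Subfield.bot_eq_of_charZero] at h
  obtain ⟨q, hq⟩ := h
  exact ⟨q, by rw [← hq]; exact eq_ratCast _ q⟩

end LDB_

open LDB_ in
theorem ldb_proof (hKQT : Stmt_KQT) (hKWD : Stmt_KWD) (hGAU : Stmt_GAU) (hULB : Stmt_ULB) :
    Stmt_LDB := by
  classical
  intro σ A B hA hB hTI d α β hα hβ hInd hsum
  obtain ⟨m, e, κ, he, hInde, hκ, hβe⟩ := LDS_.exists_basis (⊥ : Subfield (Om σ))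
    (clo (Kf σ B)) bot_le β hβ
  choose c hc using fun i j => mem_bot (hκ i j)
  -- it is enough that the coefficients vanish
  suffices hz : ∀ i, c i = 0 by
    funext i
    rw [hβe i]
    refine Finset.sum_eq_zero fun j _ => ?_
    rw [hc i j, hz i, Pi.zero_apply, Rat.cast_zero, zero_mul]
  have hsum2 : ∑ i, ∑ j, ((c i j : ℚ) : Om σ) * (α i * e j) = 0 := by
    rw [← hsum]
    refine Finset.sum_congr rfl fun i _ => ?_
    rw [hβe i, Finset.mul_sum]
    refine Finset.sum_congr rfl fun j _ => ?_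
    rw [hc i j]
    ring
  obtain ⟨c₁, hc₁⟩ := hULB σ d α hInd
  obtain ⟨c₂, hc₂⟩ := hULB σ m e hInde
  -- the common bound
  choose Cα hCα using fun i => V_exists (α i)
  choose Ce hCe using fun j => V_exists (e j)
  set C : ℝ := ∑ i, |Cα i| + ∑ j, |Ce j| with hC
  have hC0 : 0 ≤ C := add_nonneg (Finset.sum_nonneg fun _ _ => abs_nonneg _)
    (Finset.sum_nonneg fun _ _ => abs_nonneg _)
  have hα1 : ∀ i, V (α i) C := by
    intro i
    refine V_mono ?_ (hCα i)
    have h1 : |Cα i| ≤ ∑ i, |Cα i| :=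
      Finset.single_le_sum (f := fun i => |Cα i|) (fun _ _ => abs_nonneg _) (Finset.mem_univ i)
    have h2 : 0 ≤ ∑ j, |Ce j| := Finset.sum_nonneg fun _ _ => abs_nonneg _
    have h3 := le_abs_self (Cα i)
    linarith
  have he1 : ∀ j, V (e j) C := by
    intro j
    refine V_mono ?_ (hCe j)
    have h1 : |Ce j| ≤ ∑ j, |Ce j| :=
      Finset.single_le_sum (f := fun j => |Ce j|) (fun _ _ => abs_nonneg _) (Finset.mem_univ j)
    have h2 : 0 ≤ ∑ i, |Cα i| := Finset.sum_nonneg fun _ _ => abs_nonneg _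
    have h3 := le_abs_self (Ce j)
    linarith
  obtain ⟨E, hE⟩ : ∃ E : ℝ, E = C + |c₁| + |c₂| + 2 := ⟨_, rfl⟩
  have k1 := abs_nonneg c₁
  have k2 := abs_nonneg c₂
  have k3 := neg_abs_le c₁
  have k4 := neg_abs_le c₂
  -- the approximations
  choose x hxA hxV using fun i => hα i (-E)
  choose y hyB hyV using fun j => he j (-E)
  have hy1 : ∀ j, V (y j) C := by
    intro j
    have h1 : y j = e j - (e j - y j) := by ring
    rw [h1]
    exact V_sub (he1 j) (V_mono (by linarith) (hyV j))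
  -- the units
  set S : Finset ℕ := (A ∪ B).biUnion Nat.primeFactors with hS
  have hPS : PS S := by
    intro p hp
    rw [hS, Finset.mem_biUnion] at hp
    obtain ⟨a, -, ha⟩ := hp
    exact Nat.prime_of_mem_primeFactors ha
  have hAB : ∀ b ∈ A ∪ B, 2 ≤ b := by
    intro b hb
    rcases Finset.mem_union.1 hb with hb | hb
    · exact hA b hb
    · exact hB b hb
  have hSS : ∀ p : ℕ, p.Prime → ∀ b ∈ A ∪ B, p ∣ b → p ∈ S := by
    intro p hp b hb hpb
    rw [hS, Finset.mem_biUnion]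
    have := hAB b hb
    exact ⟨b, hb, Nat.mem_primeFactors.2 ⟨hp, hpb, by omega⟩⟩
  obtain ⟨r, g, Q, P, hg, wg, hQ, hP⟩ := hKQT σ A S d x hPS hA
    (fun p hp b hb hpb => hSS p hp b (Finset.mem_union_left _ hb) hpb) hxA
  obtain ⟨s, h, Q', P', hh, wh, hQ', hP'⟩ := hKQT σ B S m y hPS hB
    (fun p hp b hb hpb => hSS p hp b (Finset.mem_union_right _ hb) hpb) hyB
  have hq := den_ne hGAU hKWD hA hg wg Q hQ
  have hq' := den_ne hGAU hKWD hB hh wh Q' hQ'
  have hG := gd_append hA hB hTI hg hh wg wh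
  have og : ∀ P : MvPolynomial (Fin r) ℚ, (fun n => ((ev g n P : ℚ) : ℝ)) ∈ OO σ := fun P =>
    ((hKWD σ A hA).2.2 r g P wg).1
  have oh : ∀ P : MvPolynomial (Fin s) ℚ, (fun n => ((ev h n P : ℚ) : ℝ)) ∈ OO σ := fun P =>
    ((hKWD σ B hB).2.2 s h P wh).1
  obtain ⟨q, hqd⟩ : ∃ q : Om σ, q = Phi g og Q := ⟨_, rfl⟩
  obtain ⟨q', hqd'⟩ : ∃ q' : Om σ, q' = Phi h oh Q' := ⟨_, rfl⟩
  have hq0 : q ≠ 0 := by rw [hqd]; exact hq
  have hq0' : q' ≠ 0 := by rw [hqd']; exact hq'
  have hP2 : ∀ i, Phi g og (P i) = x i * q := by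
    intro i
    rw [hqd]
    exact (hP i).symm
  have hP2' : ∀ j, Phi h oh (P' j) = y j * q' := by
    intro j
    rw [hqd']
    exact (hP' j).symm
  -- the polynomial
  obtain ⟨R, hR⟩ : ∃ R : MvPolynomial (Fin (r + s)) ℚ, R = ∑ i, ∑ j, MvPolynomial.C (c i j) *
      (MvPolynomial.rename (Fin.castAdd s) (P i) * MvPolynomial.rename (Fin.natAdd r) (P' j)) :=
    ⟨_, rfl⟩
  have hRev : (fun n => ((ev (Fin.append g h) n R : ℚ) : ℝ)) =
      ∑ i, ∑ j, (fun n => (c i j : ℝ) * (((ev g n (P i) : ℚ) : ℝ) * ((ev h n (P' j) : ℚ) : ℝ))) := by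
    funext n
    have h1 : ev (Fin.append g h) n R = ∑ i, ∑ j, c i j * (ev g n (P i) * ev h n (P' j)) := by
      rw [hR]
      have h2 : ∀ i j, ev (Fin.append g h) n (MvPolynomial.C (c i j) *
          (MvPolynomial.rename (Fin.castAdd s) (P i) *
            MvPolynomial.rename (Fin.natAdd r) (P' j))) =
          c i j * (ev g n (P i) * ev h n (P' j)) := by
        intro i j
        rw [← ev_rename_left g h n (P i), ← ev_rename_right g h n (P' j)]
        unfold ev
        rw [map_mul, map_mul, MvPolynomial.eval_C]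
      simp only [← h2]
      unfold ev
      rw [map_sum]
      exact Finset.sum_congr rfl fun i _ => map_sum _ _ _
    rw [h1]
    simp only [Finset.sum_apply]
    push_cast
    rfl
  have hterm : ∀ i j, (fun n => (c i j : ℝ) * (((ev g n (P i) : ℚ) : ℝ) *
      ((ev h n (P' j) : ℚ) : ℝ))) ∈ OO σ ∧ cl σ (fun n => (c i j : ℝ) *
      (((ev g n (P i) : ℚ) : ℝ) * ((ev h n (P' j) : ℚ) : ℝ))) =
      ((c i j : ℚ) : Om σ) * (Phi g og (P i) * Phi h oh (P' j)) := by
    intro i j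
    have m1 : (fun n => ((ev g n (P i) : ℚ) : ℝ) * ((ev h n (P' j) : ℚ) : ℝ)) ∈ OO σ :=
      (OO σ).mul_mem (og _) (oh _)
    refine ⟨(OO σ).mul_mem (const_mem _) m1, ?_⟩
    rw [cl_mul (const_mem _) m1, cl_mul (og _) (oh _), ← cst_apply, map_ratCast]
    rfl
  have hrow : ∀ i, (∑ j, (fun n => (c i j : ℝ) * (((ev g n (P i) : ℚ) : ℝ) *
      ((ev h n (P' j) : ℚ) : ℝ)))) ∈ OO σ ∧ cl σ (∑ j, (fun n => (c i j : ℝ) *
      (((ev g n (P i) : ℚ) : ℝ) * ((ev h n (P' j) : ℚ) : ℝ)))) =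
      ∑ j, ((c i j : ℚ) : Om σ) * (Phi g og (P i) * Phi h oh (P' j)) := by
    intro i
    obtain ⟨h1, h2⟩ := cl_sum (σ := σ) Finset.univ (fun j => (fun n => (c i j : ℝ) *
      (((ev g n (P i) : ℚ) : ℝ) * ((ev h n (P' j) : ℚ) : ℝ)))) (fun j => (hterm i j).1)
    refine ⟨h1, h2.trans ?_⟩
    exact Finset.sum_congr rfl fun j _ => (hterm i j).2
  have hR2 : (fun n => ((ev (Fin.append g h) n R : ℚ) : ℝ)) ∈ OO σ ∧
      cl σ (fun n => ((ev (Fin.append g h) n R : ℚ) : ℝ)) =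
      ∑ i, ∑ j, ((c i j : ℚ) : Om σ) * (Phi g og (P i) * Phi h oh (P' j)) := by
    rw [hRev]
    obtain ⟨h1, h2⟩ := cl_sum (σ := σ) Finset.univ (fun i => ∑ j, (fun n => (c i j : ℝ) *
      (((ev g n (P i) : ℚ) : ℝ) * ((ev h n (P' j) : ℚ) : ℝ)))) (fun i => (hrow i).1)
    refine ⟨h1, h2.trans ?_⟩
    exact Finset.sum_congr rfl fun i _ => (hrow i).2
  have hkey : V (cl σ (fun n => ((ev (Fin.append g h) n R : ℚ) : ℝ)) * (q⁻¹ * q'⁻¹))
      (-E + C) := by
    have h1 : cl σ (fun n => ((ev (Fin.append g h) n R : ℚ) : ℝ)) * (q⁻¹ * q'⁻¹) =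
        ∑ i, ∑ j, ((c i j : ℚ) : Om σ) * (x i * y j - α i * e j) := by
      have h2 : ∑ i, ∑ j, ((c i j : ℚ) : Om σ) * (x i * y j - α i * e j) =
          ∑ i, ∑ j, ((c i j : ℚ) : Om σ) * (x i * y j) -
            ∑ i, ∑ j, ((c i j : ℚ) : Om σ) * (α i * e j) := by
        rw [← Finset.sum_sub_distrib]
        refine Finset.sum_congr rfl fun i _ => ?_
        rw [← Finset.sum_sub_distrib]
        refine Finset.sum_congr rfl fun j _ => ?_
        ring
      rw [h2, hsum2, sub_zero, hR2.2, Finset.sum_mul]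
      refine Finset.sum_congr rfl fun i _ => ?_
      rw [Finset.sum_mul]
      refine Finset.sum_congr rfl fun j _ => ?_
      rw [hP2, hP2']
      have h3 : ((c i j : ℚ) : Om σ) * (x i * q * (y j * q')) * (q⁻¹ * q'⁻¹) =
          ((c i j : ℚ) : Om σ) * (x i * y j) * (q * q⁻¹) * (q' * q'⁻¹) := by ring
      rw [h3, mul_inv_cancel₀ hq0, mul_inv_cancel₀ hq0', mul_one, mul_one]
    rw [h1]
    refine V_sum _ _ fun i _ => V_sum _ _ fun j _ => V_rat_mul _ ?_
    have h2 : x i * y j - α i * e j = -((α i - x i) * y j) - α i * (e j - y j) := by ring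
    rw [h2]
    refine V_sub (V_neg (V_mul (hxV i) (hy1 j))) ?_
    rw [add_comm]
    exact V_mul (hα1 i) (hyV j)
  -- the monomials of the polynomials in the last variables
  obtain ⟨Rr, hRr⟩ : ∃ Rr : Fin d → MvPolynomial (Fin s) ℚ,
      ∀ i, Rr i = ∑ j, MvPolynomial.C (c i j) * P' j := ⟨_, fun _ => rfl⟩
  have hmain : ∀ i, ∀ f ∈ (Rr i).support,
      V (Phi h oh (MvPolynomial.monomial f 1) * q'⁻¹) (-E + C - c₁ + 1) := by
    intro i f hf
    obtain ⟨t, ht⟩ : ∃ t : Fin d → ℚ, ∀ i, t i = MvPolynomial.coeff f (Rr i) := ⟨_, fun _ => rfl⟩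
    have ht0 : t ≠ 0 := by
      intro h0
      have h1 := congrFun h0 i
      rw [ht i] at h1
      exact MvPolynomial.mem_support_iff.1 hf h1
    obtain ⟨H, hH⟩ : ∃ H : MvPolynomial (Fin r) ℚ, H = ∑ i, MvPolynomial.C (t i) * P i :=
      ⟨_, rfl⟩
    have hHq : Phi g og H * q⁻¹ = ∑ i, ((t i : ℚ) : Om σ) * x i := by
      rw [hH, map_sum, Finset.sum_mul]
      refine Finset.sum_congr rfl fun i _ => ?_
      rw [map_mul, Phi_C, hP2]
      have h3 : ((t i : ℚ) : Om σ) * (x i * q) * q⁻¹ = ((t i : ℚ) : Om σ) * x i * (q * q⁻¹) := by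
        ring
      rw [h3, mul_inv_cancel₀ hq0, mul_one]
    have hnV : ¬ V (Phi g og H * q⁻¹) (c₁ - 1) := by
      intro hV
      have h1 : ∑ i, ((t i : ℚ) : Om σ) * α i =
          Phi g og H * q⁻¹ + ∑ i, ((t i : ℚ) : Om σ) * (α i - x i) := by
        rw [hHq, ← Finset.sum_add_distrib]
        refine Finset.sum_congr rfl fun i _ => ?_
        ring
      have h2 := hc₁ t ht0 (c₁ - 1) (by
        rw [h1]
        refine V_add hV (V_sum _ _ fun i _ => V_rat_mul _ (V_mono ?_ (hxV i)))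
        linarith)
      linarith
    obtain ⟨e', he', hnV'⟩ : ∃ e' ∈ H.support,
        ¬ V (Phi g og (MvPolynomial.monomial e' 1) * q⁻¹) (c₁ - 1) := by
      by_contra hcon
      push Not at hcon
      exact hnV (V_Phi g og H q⁻¹ (c₁ - 1) hcon)
    have hcoef : MvPolynomial.coeff (jn e' f) R = MvPolynomial.coeff e' H := by
      rw [hR, hH, MvPolynomial.coeff_sum, MvPolynomial.coeff_sum]
      refine Finset.sum_congr rfl fun i _ => ?_
      rw [MvPolynomial.coeff_sum, MvPolynomial.coeff_C_mul, ht i, hRr i, MvPolynomial.coeff_sum,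
        Finset.sum_mul]
      refine Finset.sum_congr rfl fun j _ => ?_
      rw [MvPolynomial.coeff_C_mul, MvPolynomial.coeff_C_mul, coeff_mul_rename]
      ring
    have hsup : jn e' f ∈ R.support := by
      rw [MvPolynomial.mem_support_iff, hcoef]
      exact MvPolynomial.mem_support_iff.1 he'
    have hmm : (fun n => ((mon (Fin.append g h) (jn e' f) n : ℚ) : ℝ)) =
        fun n => ((ev g n (MvPolynomial.monomial e' 1) : ℚ) : ℝ) *
          ((ev h n (MvPolynomial.monomial f 1) : ℚ) : ℝ) := by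
      funext n
      rw [mon_append, ev_monomial, ev_monomial]
      push_cast
      rfl
    have hmO : (fun n => ((mon (Fin.append g h) (jn e' f) n : ℚ) : ℝ)) ∈ OO σ := by
      rw [hmm]
      exact (OO σ).mul_mem (og _) (oh _)
    have hmc : cl σ (fun n => ((mon (Fin.append g h) (jn e' f) n : ℚ) : ℝ)) =
        Phi g og (MvPolynomial.monomial e' 1) * Phi h oh (MvPolynomial.monomial f 1) := by
      rw [hmm, cl_mul (og _) (oh _)]
      rfl
    have h1 := gau_V hGAU hG R (jn e' f) hsup hR2.1 hmO _ _ hkey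
    rw [hmc] at h1
    obtain ⟨h2, h3⟩ := V_inv_of_not hnV'
    have h4 := V_mul h1 h3
    have h5 : Phi g og (MvPolynomial.monomial e' 1) * Phi h oh (MvPolynomial.monomial f 1) *
        (q⁻¹ * q'⁻¹) * (Phi g og (MvPolynomial.monomial e' 1) * q⁻¹)⁻¹ =
        Phi h oh (MvPolynomial.monomial f 1) * q'⁻¹ := by
      have h6 : Phi g og (MvPolynomial.monomial e' 1) * Phi h oh (MvPolynomial.monomial f 1) *
          (q⁻¹ * q'⁻¹) * (Phi g og (MvPolynomial.monomial e' 1) * q⁻¹)⁻¹ =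
          Phi h oh (MvPolynomial.monomial f 1) * q'⁻¹ *
            ((Phi g og (MvPolynomial.monomial e' 1) * q⁻¹) *
              (Phi g og (MvPolynomial.monomial e' 1) * q⁻¹)⁻¹) := by ring
      rw [h6, mul_inv_cancel₀ h2, mul_one]
    rw [h5] at h4
    refine V_mono ?_ h4
    linarith
  -- the end
  intro i
  by_contra hci
  have hRq : Phi h oh (Rr i) * q'⁻¹ = ∑ j, ((c i j : ℚ) : Om σ) * y j := by
    rw [hRr i, map_sum, Finset.sum_mul]
    refine Finset.sum_congr rfl fun j _ => ?_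
    rw [map_mul, Phi_C, hP2']
    have h3 : ((c i j : ℚ) : Om σ) * (y j * q') * q'⁻¹ =
        ((c i j : ℚ) : Om σ) * y j * (q' * q'⁻¹) := by
      ring
    rw [h3, mul_inv_cancel₀ hq0', mul_one]
  have h1 : ∑ j, ((c i j : ℚ) : Om σ) * e j =
      Phi h oh (Rr i) * q'⁻¹ + ∑ j, ((c i j : ℚ) : Om σ) * (e j - y j) := by
    rw [hRq, ← Finset.sum_add_distrib]
    refine Finset.sum_congr rfl fun j _ => ?_
    ring
  have h2 := hc₂ (c i) hci (-E + C + |c₁| + 1) (by
    rw [h1]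
    refine V_add (V_Phi h oh (Rr i) q'⁻¹ _ fun f hf => V_mono ?_ (hmain i f hf))
      (V_sum _ _ fun j _ => V_rat_mul _ (V_mono ?_ (hyV j)))
    · linarith
    · linarith)
  linarith

end Pool.Agent.SGL
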