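import Pool.Agent.SGL.Stmts2

/-!
# Squad SGL, module LDC: the algebraic closures of linearly disjoint fields
-/

set_option autoImplicit false

namespace Pool.Agent.SGL

namespace LDC_

variable {F : Type} [Field F]

theorem mem {K : Subfield F} {x : F} : x ∈ ac K ⊤ ↔ IsAlgebraic K x := by
  rw [mem_ac]
  exact ⟨fun h => h.1, fun h => ⟨h, Subfield.mem_top x⟩⟩

theorem le_ac (K : Subfield F) : K ≤ ac K ⊤ := by
  intro x hx
  rw [mem]
  exact isAlgebraic_algebraMap (⟨x, hx⟩ : K)

/-- algebraic over a smaller field -/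
theorem alg_mono {K L : Subfield F} (h : K ≤ L) {x : F} (hx : IsAlgebraic K x) :
    IsAlgebraic L x := by
  let _ : Algebra K L := (Subfield.inclusion h).toAlgebra
  have : IsScalarTower K L F := IsScalarTower.of_algebraMap_eq (fun _ => rfl)
  exact hx.tower_top L

theorem ac_mono {K L : Subfield F} (h : K ≤ L) : ac K ⊤ ≤ ac L ⊤ := by
  intro x hx
  rw [mem] at hx ⊢
  exact alg_mono h hx

/-- transitivity -/
theorem trans {K : Subfield F} {x : F} (hx : IsAlgebraic (ac K ⊤) x) : x ∈ ac K ⊤ := by
  let _ : Algebra K (ac K ⊤) := (Subfield.inclusion (le_ac K)).toAlgebra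
  have : IsScalarTower K (ac K ⊤) F := IsScalarTower.of_algebraMap_eq (fun _ => rfl)
  have : Algebra.IsAlgebraic K (ac K ⊤) := by
    constructor
    intro y
    have h1 : IsAlgebraic K (y : F) := mem.1 y.2
    have h2 : algebraMap (ac K ⊤) F y = (y : F) := rfl
    rw [← h2] at h1
    exact (isAlgebraic_algebraMap_iff (algebraMap (ac K ⊤) F).injective).1 h1
  rw [mem]
  exact hx.restrictScalars K

end LDC_

open LDC_ in
theorem ldc_proof (hLDF : Stmt_LDF) (hLDR : Stmt_LDR) : Stmt_LDC := by
  intro F _ _ _ K L M hKL hKM hLD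
  refine hLDR F (ac K ⊤) (ac L ⊤) (ac M ⊤) (ac_mono hKL) (ac_mono hKM) (fun x hx => trans hx)
    (fun x hx => trans hx) ?_
  intro n t ht hK
  have h1 : AlgebraicIndependent K t := by
    let _ : Algebra K (ac K ⊤) := (Subfield.inclusion (le_ac K)).toAlgebra
    have : IsScalarTower K (ac K ⊤) F := IsScalarTower.of_algebraMap_eq (fun _ => rfl)
    exact hK.restrictScalars (algebraMap K (ac K ⊤)).injective
  have h2 : AlgebraicIndependent M t :=
    hLDF F K L M hKL hKM hLD n t (fun i => mem.1 (ht i)) h1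
  let _ : Algebra M (ac M ⊤) := (Subfield.inclusion (le_ac M)).toAlgebra
  have : IsScalarTower M (ac M ⊤) F := IsScalarTower.of_algebraMap_eq (fun _ => rfl)
  have : Algebra.IsAlgebraic M (ac M ⊤) := by
    constructor
    intro y
    have h1 : IsAlgebraic M (y : F) := mem.1 y.2
    have h2 : algebraMap (ac M ⊤) F y = (y : F) := rfl
    rw [← h2] at h1
    exact (isAlgebraic_algebraMap_iff (algebraMap (ac M ⊤) F).injective).1 h1
  exact h2.extendScalars (ac M ⊤)

end Pool.Agent.SGL
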