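import Pool.Agent.SGL.Stmts

set_option autoImplicit false

namespace Pool.Agent.SGL

open Filter

namespace LDE_

variable {σ : Sc}

theorem gs_mono {A B : Finset ℕ} (h : A ⊆ B) : Gs σ A ⊆ Gs σ B := by
  rintro x ⟨b, hb, m, C, h1, h2⟩
  exact ⟨b, h hb, m, C, h1, h2⟩

theorem kf_mono {A B : Finset ℕ} (h : A ⊆ B) : Kf σ A ≤ Kf σ B :=
  Subfield.closure_mono (gs_mono h)

theorem clo_mono {K L : Subfield (Om σ)} (h : K ≤ L) : clo K ≤ clo L := by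
  intro x hx c
  obtain ⟨κ, hκ, h1⟩ := hx c
  exact ⟨κ, h hκ, h1⟩

theorem kf_union (A B : Finset ℕ) : Kf σ (A ∪ B) = Kf σ A ⊔ Kf σ B := by
  apply le_antisymm
  · refine Subfield.closure_le.2 ?_
    rintro x ⟨b, hb, m, C, h1, h2⟩
    rcases Finset.mem_union.1 hb with h | h
    · exact (le_sup_left : Kf σ A ≤ Kf σ A ⊔ Kf σ B)
        (Subfield.subset_closure ⟨b, h, m, C, h1, h2⟩)
    · exact (le_sup_right : Kf σ B ≤ Kf σ A ⊔ Kf σ B)
        (Subfield.subset_closure ⟨b, h, m, C, h1, h2⟩)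
  · exact sup_le (kf_mono Finset.subset_union_left) (kf_mono Finset.subset_union_right)

end LDE_

open LDE_ in
theorem lde_proof (hLDS : Stmt_LDS) (hTWR : Stmt_TWR) (hDSJ : Stmt_DSJ) (hKWD : Stmt_KWD)
    (hLDK : Stmt_LDK) (hLDB : Stmt_LDB) : Stmt_LDE := by
  classical
  intro σ A B hA hB hTI
  have hAB : ∀ b ∈ A ∪ B, 2 ≤ b := by
    intro b hb
    rcases Finset.mem_union.1 hb with h | h
    · exact hA b h
    · exact hB b h
  set KA := Kf σ A with hKA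
  set KB := Kf σ B with hKB
  set K := Kf σ (A ∪ B) with hK
  have hKu : K = KA ⊔ KB := kf_union A B
  have hKAK : KA ≤ K := kf_mono Finset.subset_union_left
  have hKBK : KB ≤ K := kf_mono Finset.subset_union_right
  have hcA : KA ≤ clo KA := le_clo KA
  have hcB : KB ≤ clo KB := le_clo KB
  -- first tower
  have h1 : LDj KA (clo KA) (KA ⊔ clo KB) :=
    hTWR (Om σ) ⊥ KA (clo KA) (clo KB) bot_le hcA bot_le (hLDB σ A B hA hB hTI)
  have h2 : LDj KA (KA ⊔ clo KB) (clo KA) :=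
    hLDS (Om σ) KA (clo KA) (KA ⊔ clo KB) hcA le_sup_left h1
  have hKD : K ≤ KA ⊔ clo KB := by
    rw [hKu]
    exact sup_le le_sup_left (hcB.trans le_sup_right)
  have h3 : LDj K (KA ⊔ clo KB) (K ⊔ clo KA) :=
    hTWR (Om σ) KA K (KA ⊔ clo KB) (clo KA) hKAK hKD hcA h2
  have h4 : LDj K (K ⊔ clo KA) (KA ⊔ clo KB) :=
    hLDS (Om σ) K (KA ⊔ clo KB) (K ⊔ clo KA) hKD le_sup_left h3
  have hL : LDj K (Lf σ) (clo K) := hLDK σ (A ∪ B) hAB
  have hKL : K ≤ Lf σ := (hKWD σ (A ∪ B) hAB).1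
  have hCM : K ⊔ clo KA ≤ clo K := sup_le (le_clo K) (clo_mono hKAK)
  have hDM : KA ⊔ clo KB ≤ clo K := sup_le (hKAK.trans (le_clo K)) (clo_mono hKBK)
  have h5 := hDSJ (Om σ) K (Lf σ) (clo K) (K ⊔ clo KA) (KA ⊔ clo KB) hKL le_sup_left hKD hCM hDM
    hL h4
  have e1 : Lf σ ⊔ (K ⊔ clo KA) = Lf σ ⊔ clo KA := by
    rw [← sup_assoc, sup_eq_left.2 hKL]
  have e2 : Lf σ ⊔ (KA ⊔ clo KB) = Lf σ ⊔ clo KB := by
    rw [← sup_assoc, sup_eq_left.2 (hKAK.trans hKL)]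
  rwa [e1, e2] at h5

end Pool.Agent.SGL
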