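import Pool.Agent.SGL.Stmts

/-!
# Squad SGL, module LDK: linear disjointness of `Lf` and the closure of `Kf`
-/

set_option autoImplicit false

namespace Pool.Agent.SGL

attribute [local irreducible] instFieldOm

theorem ldk_proof (hQLD : Stmt_QLD) : Stmt_LDK := by
  classical
  intro σ B hB d z b hz hb hInd hsum
  obtain ⟨c, hc⟩ := hQLD σ B hB d z hz hInd
  -- a common bound for the `z i`
  have h1 : ∃ C : ℝ, 0 ≤ C ∧ ∀ i, V (z i) C := by
    choose D hD using fun i => V_exists (z i)
    refine ⟨∑ i, |D i|, Finset.sum_nonneg (fun i _ => abs_nonneg _), fun i => ?_⟩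
    exact V_mono ((le_abs_self _).trans
      (Finset.single_le_sum (f := fun i => |D i|) (fun i _ => abs_nonneg _) (Finset.mem_univ i)))
      (hD i)
  obtain ⟨C, hC0, hC⟩ := h1
  funext i
  apply V_eq_zero
  intro e
  -- approximations
  choose κ hκ hκ2 using fun i => hb i (e - C - |c|)
  have h2 : V (∑ i, κ i * z i) (e - |c|) := by
    have h3 : ∑ i, κ i * z i = -∑ i, (b i - κ i) * z i := by
      have h4 : ∑ i, (b i - κ i) * z i = ∑ i, z i * b i - ∑ i, κ i * z i := by
        rw [← Finset.sum_sub_distrib]
        apply Finset.sum_congr rfl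
        intro j _
        ring
      rw [h4, hsum]
      ring
    rw [h3]
    apply V_neg
    apply V_sum
    intro j _
    exact V_mono (by linarith) (V_mul (hκ2 j) (hC j))
  have h3 := hc κ hκ (e - |c|) h2 i
  have h4 : b i = (b i - κ i) + κ i := by ring
  rw [h4]
  apply V_add
  · exact V_mono (by linarith [abs_nonneg c]) (hκ2 i)
  · exact V_mono (by linarith [le_abs_self c]) h3

end Pool.Agent.SGL
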