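import Pool.Agent.SGL.Stmts2
import Pool.Agent.SGL.LDS

/-!
# Squad SGL, module LDR: free extensions of an algebraically closed field are linearly disjoint
-/

set_option autoImplicit false

namespace Pool.Agent.SGL

namespace LDR_

open MvPolynomial

variable {K M F : Type} [Field K] [Field M] [Field F] [Algebra K M] [Algebra M F] [Algebra K F]
  [IsScalarTower K M F]

theorem integral_lift {ι : Type} (t : ι → F) (x : F)
    (hx : IsIntegral (Algebra.adjoin K (Set.range t)) x) :
    ∃ p : Polynomial (MvPolynomial ι K), p.Monic ∧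
      p.eval₂ (aeval t : MvPolynomial ι K →ₐ[K] F).toRingHom x = 0 := by
  have hmem : ∀ G : MvPolynomial ι K, aeval t G ∈ Algebra.adjoin K (Set.range t) := by
    intro G
    rw [Algebra.adjoin_range_eq_range_aeval]
    exact ⟨G, rfl⟩
  let g : MvPolynomial ι K →ₐ[K] Algebra.adjoin K (Set.range t) :=
    (aeval t : MvPolynomial ι K →ₐ[K] F).codRestrict _ hmem
  have hg : Function.Surjective g.toRingHom := by
    rintro ⟨y, hy⟩
    rw [Algebra.adjoin_range_eq_range_aeval] at hy
    obtain ⟨G, hG⟩ := hy
    exact ⟨G, Subtype.ext hG⟩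
  obtain ⟨p, hp, hpx⟩ := hx
  have hl : p ∈ Polynomial.lifts g.toRingHom := by
    rw [Polynomial.lifts_iff_coeff_lifts]
    intro n
    exact hg _
  obtain ⟨q, hq, -, hqm⟩ := Polynomial.lifts_and_natDegree_eq_and_monic hl hp
  refine ⟨q, hqm, ?_⟩
  rw [← hq, Polynomial.eval₂_map] at hpx
  exact hpx

/-- Specialisation: a ring homomorphism on the integral closure of `M[t]` extending `t ↦ τ`. -/
theorem spec [IsAlgClosed K] {ι : Type} (t : ι → F) (hind : AlgebraicIndependent M t)
    (τ : ι → K) :
    ∃ (B : Subring F) (D : Type) (_ : CommRing D) (_ : IsDomain D) (e : M →+* D)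
      (φ : B →+* D) (hM : ∀ m : M, algebraMap M F m ∈ B)
      (hI : ∀ x : F, IsIntegral (Algebra.adjoin K (Set.range t)) x → x ∈ B),
      (∀ m, φ ⟨algebraMap M F m, hM m⟩ = e m) ∧
      (∀ x hx, ∃ κ : K, φ ⟨x, hI x hx⟩ = e (algebraMap K M κ)) ∧
      ∀ (G : MvPolynomial ι K) (hG : aeval t G ∈ B), φ ⟨aeval t G, hG⟩ =
        e (algebraMap K M (eval τ G)) := by
  classical
  let _ : Algebra (MvPolynomial ι M) F := (aeval t : MvPolynomial ι M →ₐ[M] F).toRingHom.toAlgebra
  have hmap : ∀ r : MvPolynomial ι M, algebraMap (MvPolynomial ι M) F r = aeval t r := fun r => rfl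
  have hinj : Function.Injective (algebraMap (MvPolynomial ι M) F) := hind
  let ev : MvPolynomial ι M →+* M := eval (fun i => algebraMap K M (τ i))
  let P : Ideal (MvPolynomial ι M) := RingHom.ker ev
  have : P.IsPrime := RingHom.ker_isPrime ev
  have hinj' : Function.Injective (algebraMap (MvPolynomial ι M)
      (integralClosure (MvPolynomial ι M) F)) := by
    intro a b hab
    exact hinj (congrArg Subtype.val hab)
  obtain ⟨Q, hQ, hQP⟩ := Ideal.exists_ideal_over_prime_of_isIntegral_of_isDomain
    (S := integralClosure (MvPolynomial ι M) F) P (by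
      rw [(RingHom.injective_iff_ker_eq_bot _).1 hinj']
      exact bot_le)
  let φ : integralClosure (MvPolynomial ι M) F →+*
    (integralClosure (MvPolynomial ι M) F ⧸ Q) := Ideal.Quotient.mk Q
  let e : M →+* (integralClosure (MvPolynomial ι M) F ⧸ Q) :=
    (φ.comp (algebraMap (MvPolynomial ι M) (integralClosure (MvPolynomial ι M) F))).comp C
  have hfac : φ.comp (algebraMap (MvPolynomial ι M) (integralClosure (MvPolynomial ι M) F)) =
      e.comp ev := by
    refine RingHom.ext fun r => ?_
    change φ (algebraMap _ _ r) = φ (algebraMap _ _ (C (ev r)))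
    rw [← sub_eq_zero, ← map_sub, ← map_sub]
    have h1 : r - C (ev r) ∈ P := by
      change ev (r - C (ev r)) = 0
      rw [map_sub]
      have : ev (C (ev r)) = ev r := eval_C _
      rw [this, sub_self]
    rw [← hQP] at h1
    exact Ideal.Quotient.eq_zero_iff_mem.2 h1
  let incl : MvPolynomial ι K →+* MvPolynomial ι M := MvPolynomial.map (algebraMap K M)
  have hincl : ∀ G : MvPolynomial ι K, algebraMap (MvPolynomial ι M) F (incl G) = aeval t G := by
    intro G
    rw [hmap]
    change aeval t (MvPolynomial.map (algebraMap K M) G) = _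
    rw [aeval_map_algebraMap]
  have hincl' : (aeval t : MvPolynomial ι K →ₐ[K] F).toRingHom =
      (algebraMap (MvPolynomial ι M) F).comp incl := RingHom.ext fun G => (hincl G).symm
  have hevincl : ∀ G : MvPolynomial ι K, ev (incl G) = algebraMap K M (eval τ G) := by
    intro G
    change eval _ (MvPolynomial.map (algebraMap K M) G) = _
    rw [eval_map, ← MvPolynomial.coe_eval₂Hom]
    have : eval₂Hom (algebraMap K M) (fun i => algebraMap K M (τ i)) =
        (algebraMap K M).comp (eval τ) := by
      apply MvPolynomial.ringHom_ext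
      · intro r
        simp
      · intro i
        simp
    rw [this]
    rfl
  have hB : ∀ x : F, IsIntegral (Algebra.adjoin K (Set.range t)) x →
      x ∈ integralClosure (MvPolynomial ι M) F := by
    intro x hx
    obtain ⟨p, hp, hpx⟩ := integral_lift t x hx
    refine ⟨p.map incl, hp.map _, ?_⟩
    rw [Polynomial.eval₂_map, ← hincl', hpx]
  refine ⟨(integralClosure (MvPolynomial ι M) F).toSubring,
    integralClosure (MvPolynomial ι M) F ⧸ Q, inferInstance, inferInstance, e, φ, ?_, hB, ?_, ?_, ?_⟩
  · intro m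
    have h1 : algebraMap M F m = algebraMap (MvPolynomial ι M) F (C m) := by
      rw [hmap, aeval_C]
    rw [h1]
    exact (algebraMap (MvPolynomial ι M) (integralClosure (MvPolynomial ι M) F) (C m)).2
  · intro m
    change φ ⟨algebraMap M F m, _⟩ = φ (algebraMap _ _ (C m))
    congr 1
    apply Subtype.ext
    change algebraMap M F m = algebraMap (MvPolynomial ι M) F (C m)
    rw [hmap, aeval_C]
  · intro x hx
    obtain ⟨p, hp, hpx⟩ := integral_lift t x hx
    set x' : integralClosure (MvPolynomial ι M) F := ⟨x, hB x hx⟩ with hx'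
    have h1 : p.eval₂ ((algebraMap (MvPolynomial ι M)
        (integralClosure (MvPolynomial ι M) F)).comp incl) x' = 0 := by
      apply Subtype.ext
      have h2 := Polynomial.hom_eval₂ p ((algebraMap (MvPolynomial ι M)
        (integralClosure (MvPolynomial ι M) F)).comp incl)
        (integralClosure (MvPolynomial ι M) F).val.toRingHom x'
      change (integralClosure (MvPolynomial ι M) F).val.toRingHom _ = 0
      rw [h2]
      rw [hincl'] at hpx
      exact hpx
    have h3 := congrArg φ h1
    rw [Polynomial.hom_eval₂, map_zero, ← RingHom.comp_assoc, hfac, RingHom.comp_assoc] at h3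
    have h4 : ev.comp incl = (algebraMap K M).comp (eval τ) := RingHom.ext hevincl
    rw [h4, ← RingHom.comp_assoc, ← Polynomial.eval₂_map] at h3
    let _ : Algebra K (integralClosure (MvPolynomial ι M) F ⧸ Q) :=
      (e.comp (algebraMap K M)).toAlgebra
    have h5 : IsIntegral K (φ x') := ⟨p.map (eval τ), hp.map _, h3⟩
    have h6 : (minpoly K (φ x')).leadingCoeff = 1 := minpoly.monic h5
    have h7 : (minpoly K (φ x')).degree = 1 :=
      IsAlgClosed.degree_eq_one_of_irreducible K (minpoly.irreducible h5)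
    have h8 : Polynomial.aeval (φ x') (minpoly K (φ x')) = 0 := minpoly.aeval K (φ x')
    rw [Polynomial.eq_X_add_C_of_degree_eq_one h7, h6, Polynomial.C_1, one_mul,
      Polynomial.aeval_add, Polynomial.aeval_X, Polynomial.aeval_C,
      add_eq_zero_iff_eq_neg] at h8
    refine ⟨-(minpoly K (φ x')).coeff 0, ?_⟩
    refine h8.trans ?_
    rw [map_neg, map_neg]
    rfl
  · intro G hG
    have h1 := congrArg (fun f : MvPolynomial ι M →+* _ => f (incl G)) hfac
    have h2 : φ ⟨aeval t G, hG⟩ = φ (algebraMap _ _ (incl G)) := by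
      congr 1
      apply Subtype.ext
      exact (hincl G).symm
    rw [h2]
    change φ (algebraMap _ _ (incl G)) = e (ev (incl G)) at h1
    rw [h1, hevincl]

theorem key [IsAlgClosed K] {ι : Type} (t : ι → F) (hind : AlgebraicIndependent M t) {d : ℕ}
    (c : Fin d → M) (α : Fin d → F)
    (hc : ∀ κ : Fin d → K, ∑ i, κ i • c i = 0 → κ = 0)
    (hα : ∀ j, IsAlgebraic (Algebra.adjoin K (Set.range t)) (α j))
    (hsum : ∑ j, algebraMap M F (c j) * α j = 0) : α = 0 := by
  classical
  by_contra hne
  obtain ⟨j0, hj0⟩ : ∃ j, α j ≠ 0 := by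
    by_contra h
    push Not at h
    exact hne (funext h)
  have hinv : IsAlgebraic (Algebra.adjoin K (Set.range t)) (α j0)⁻¹ := (hα j0).inv
  choose y hy0 hyI using fun j => (hα j).exists_integral_multiple
  obtain ⟨y', hy'0, hy'I⟩ := hinv.exists_integral_multiple
  set Y := (∏ j, y j) * y' with hY
  have hY0 : Y ≠ 0 := mul_ne_zero (Finset.prod_ne_zero_iff.2 fun j _ => hy0 j) hy'0
  have hYI : ∀ j, IsIntegral (Algebra.adjoin K (Set.range t)) (Y • α j) := by
    intro j
    have : Y • α j = (y' * ∏ i ∈ Finset.univ.erase j, y i) • (y j • α j) := by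
      rw [← mul_smul, hY, ← Finset.mul_prod_erase Finset.univ y (Finset.mem_univ j)]
      congr 1
      ring
    rw [this]
    exact (hyI j).smul _
  have hYI' : IsIntegral (Algebra.adjoin K (Set.range t)) (Y • (α j0)⁻¹) := by
    rw [hY, mul_smul]
    exact hy'I.smul _
  obtain ⟨G, hG⟩ : ∃ G : MvPolynomial ι K, aeval t G = (Y : F) := by
    have h : ∀ z : F, z ∈ Algebra.adjoin K (Set.range t) →
        ∃ G : MvPolynomial ι K, aeval t G = z := by
      intro z hz
      rw [Algebra.adjoin_range_eq_range_aeval] at hz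
      exact hz
    exact h _ Y.2
  have hG0 : G ≠ 0 := by
    rintro rfl
    apply hY0
    apply Subtype.ext
    rw [← hG, map_zero]
    rfl
  have : Infinite K := IsAlgClosed.instInfinite
  obtain ⟨τ, hτ⟩ : ∃ τ : ι → K, eval τ G ≠ 0 := by
    by_contra h
    push Not at h
    exact hG0 (MvPolynomial.funext (fun x => by rw [h x, map_zero]))
  obtain ⟨B, D, _, _, e, φ, hM, hI, h1, h2, h3⟩ := spec (K := K) t hind τ
  choose κ hκ using fun j => h2 _ (hYI j)
  obtain ⟨κ', hκ'⟩ := h2 _ hYI'
  have hYB : (Y : F) ∈ B := by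
    apply hI
    exact isIntegral_algebraMap (x := Y)
  have hφY : φ ⟨(Y : F), hYB⟩ = e (algebraMap K M (eval τ G)) := by
    have hh : aeval t G ∈ B := hG ▸ hYB
    rw [← h3 G hh]
    congr 1
    exact Subtype.ext hG.symm
  have hinj : Function.Injective e := e.injective
  have hinj2 : Function.Injective (algebraMap K M) := (algebraMap K M).injective
  -- the values
  have h4 : κ j0 * κ' = eval τ G * eval τ G := by
    apply hinj2
    apply hinj
    rw [map_mul, map_mul, ← hκ j0, ← hκ', map_mul, map_mul, ← hφY, ← map_mul, ← map_mul]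
    congr 1
    apply Subtype.ext
    change (Y • α j0) * (Y • (α j0)⁻¹) = (Y : F) * Y
    rw [Algebra.smul_def, Algebra.smul_def]
    change ((Y : F) * α j0) * ((Y : F) * (α j0)⁻¹) = (Y : F) * Y
    field_simp
  have h5 : ∑ j, κ j • c j = 0 := by
    apply hinj
    rw [map_zero, map_sum]
    have h6 : ∀ j, e (κ j • c j) = φ (⟨algebraMap M F (c j), hM (c j)⟩ *
        ⟨Y • α j, hI _ (hYI j)⟩) := by
      intro j
      rw [map_mul, h1, hκ j, Algebra.smul_def, map_mul, mul_comm]
    rw [Finset.sum_congr rfl (fun j _ => h6 j), ← map_sum]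
    have h7 : (∑ j, (⟨algebraMap M F (c j), hM (c j)⟩ * ⟨Y • α j, hI _ (hYI j)⟩ : B)) = 0 := by
      apply Subtype.ext
      rw [AddSubmonoidClass.coe_finsetSum]
      change ∑ j, algebraMap M F (c j) * (Y • α j) = 0
      have : ∀ j, algebraMap M F (c j) * (Y • α j) = (Y : F) * (algebraMap M F (c j) * α j) := by
        intro j
        rw [Algebra.smul_def]
        change algebraMap M F (c j) * ((Y : F) * α j) = _
        ring
      rw [Finset.sum_congr rfl (fun j _ => this j), ← Finset.mul_sum, hsum, mul_zero]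
    rw [h7, map_zero]
  have h8 := congrFun (hc κ h5) j0
  rw [h8, Pi.zero_apply, zero_mul] at h4
  exact (mul_ne_zero hτ hτ) h4.symm

end LDR_

theorem ldr_proof : Stmt_LDR := by
  intro F _ _ _ K L M hKL hKM hK _ hfree
  apply lds_proof F K M L hKM hKL
  intro d c α hc hα hInd hsum
  classical
  let _ : Algebra K M := (Subfield.inclusion hKM).toAlgebra
  have : IsScalarTower K M F := IsScalarTower.of_algebraMap_eq (fun x => rfl)
  have : IsAlgClosed K := by
    apply IsAlgClosed.of_exists_root
    intro p hp hirr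
    obtain ⟨x, hx⟩ := IsAlgClosed.exists_aeval_eq_zero F p (hirr.degree_pos).ne'
    have hxK : x ∈ K := hK x ⟨p, hirr.ne_zero, hx⟩
    refine ⟨⟨x, hxK⟩, ?_⟩
    apply Subtype.ext
    have h1 := Polynomial.aeval_algebraMap_apply F (⟨x, hxK⟩ : K) p
    change Polynomial.aeval x p = _ at h1
    rw [hx, Polynomial.aeval_def, Algebra.algebraMap_self, Polynomial.eval₂_id] at h1
    exact h1.symm
  obtain ⟨s, hs⟩ := (AlgebraicIndependent.matroid K F).exists_isBasis (Set.range α)
    (Set.subset_univ _)
  rw [AlgebraicIndependent.matroid_isBasis_iff] at hs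
  obtain ⟨hs1, hs2, hs3⟩ := hs
  have hfin : s.Finite := (Set.finite_range α).subset hs2
  have : Fintype s := hfin.fintype
  let f : Fin (Fintype.card s) ≃ s := (Fintype.equivFin s).symm
  let t : Fin (Fintype.card s) → F := fun i => (f i : F)
  have ht : Set.range t = s := by
    ext x
    constructor
    · rintro ⟨i, rfl⟩
      exact (f i).2
    · intro hx
      exact ⟨f.symm ⟨x, hx⟩, by simp [t]⟩
  have hti : AlgebraicIndependent K t := by
    have h1 : AlgebraicIndependent K (fun x : s => (x : F)) := hs1
    exact h1.comp f f.injective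
  have htL : ∀ i, t i ∈ L := by
    intro i
    obtain ⟨j, hj⟩ := hs2 (f i).2
    change (f i : F) ∈ L
    rw [← hj]
    exact hα j
  have htM := hfree _ t htL hti
  refine LDR_.key (K := K) (M := M) t htM (fun i => (⟨c i, hc i⟩ : M)) α ?_ ?_ ?_
  · intro κ hκ
    have h1 := hInd (fun i => (κ i : F)) (fun i => (κ i).2) (by
      have h2 := congrArg (algebraMap M F) hκ
      rw [map_zero, map_sum] at h2
      rw [← h2]
      apply Finset.sum_congr rfl
      intro i _
      rw [Algebra.smul_def, map_mul]
      rfl)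
    funext i
    exact Subtype.ext (congrFun h1 i)
  · intro j
    rw [ht]
    exact hs3 _ ⟨j, rfl⟩
  · exact hsum

end Pool.Agent.SGL
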