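import Pool.Agent.SGL.Stmts

set_option autoImplicit false

namespace Pool.Agent.SGL

open Filter Pool.Agent.SBT

namespace LDT_

variable {σ : Sc}

/-- integer sequences along an ultrafilter -/
theorem tri (U : Ultrafilter ℕ) (z : ℕ → ℤ) :
    (∃ k, ∀ᶠ n in (U : Filter ℕ), z n = k) ∨ Tendsto z (U : Filter ℕ) atTop ∨
      Tendsto z (U : Filter ℕ) atBot := by
  by_cases h1 : ∀ k : ℤ, ∀ᶠ n in (U : Filter ℕ), k ≤ z n
  · exact Or.inr (Or.inl (tendsto_atTop.2 h1))
  by_cases h2 : ∀ k : ℤ, ∀ᶠ n in (U : Filter ℕ), z n ≤ k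
  · exact Or.inr (Or.inr (tendsto_atBot.2 h2))
  left
  push Not at h1 h2
  obtain ⟨k, hk⟩ := h1
  obtain ⟨l, hl⟩ := h2
  have h3 : ∀ᶠ n in (U : Filter ℕ), ∃ a ∈ (Finset.Icc l k : Set ℤ), z n = a := by
    filter_upwards [hk, hl] with n h4 h5
    exact ⟨z n, by simp; omega, rfl⟩
  rw [Ultrafilter.eventually_exists_mem_iff (Finset.finite_toSet _)] at h3
  obtain ⟨a, -, ha⟩ := h3
  exact ⟨a, ha⟩

theorem zpow_tendsto (U : Ultrafilter ℕ) (z : ℕ → ℤ) (b : ℕ) (hb : 2 ≤ b)
    (h : Tendsto z (U : Filter ℕ) atBot) :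
    Tendsto (fun n => (b : ℝ) ^ z n) (U : Filter ℕ) (nhds 0) := by
  have hb0 : (0 : ℝ) < b := by exact_mod_cast (by omega : 0 < b)
  have hlog : 0 < Real.log b := Real.log_pos (by exact_mod_cast (by omega : 1 < b))
  have e : (fun n => (b : ℝ) ^ z n) = fun n => Real.exp ((z n : ℝ) * Real.log b) := by
    funext n
    rw [mul_comm, Real.exp_mul, Real.exp_log hb0, Real.rpow_intCast]
  rw [e]
  refine Real.tendsto_exp_atBot.comp ?_
  exact (tendsto_intCast_atBot_iff.2 h).atBot_mul_const hlog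

theorem zpow_sum {ι : Type} (b : ℚ) (hb : b ≠ 0) (s : Finset ι) (x : ι → ℤ) :
    ∏ i ∈ s, b ^ x i = b ^ ∑ i ∈ s, x i := by
  classical
  induction s using Finset.induction_on with
  | empty => simp
  | insert i s hi ih => rw [Finset.prod_insert hi, Finset.sum_insert hi, ih, zpow_add₀ hb]

/-- leading terms of polynomials in units -/
theorem lead (b : ℕ) (hb : 2 ≤ b) {r : ℕ} (g : Fin r → ℕ → ℚ) (hMI : MI σ.U g)
    (hW : ∀ i, Wd σ {b} (g i)) (H : MvPolynomial (Fin r) ℚ) (hH : H ≠ 0) :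
    ∃ (z : ℕ → ℤ) (C : ℝ) (c : ℚ), c ≠ 0 ∧ (∀ᶠ n in (σ.U : Filter ℕ), |(z n : ℝ)| ≤ C * σ.T n) ∧
      Tendsto (fun n => ((ev g n H : ℚ) : ℝ) / (b : ℝ) ^ z n) (σ.U : Filter ℕ)
        (nhds (c : ℝ)) := by
  classical
  have hb0 : (0 : ℚ) < b := by exact_mod_cast (by omega : 0 < b)
  have hb0' : (0 : ℝ) < b := by exact_mod_cast (by omega : 0 < b)
  choose w C hw hC using hW
  have hg : ∀ i n, g i n = (b : ℚ) ^ w i b n := by
    intro i n
    rw [hw i n, Finset.prod_singleton]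
  set W : (Fin r →₀ ℕ) → ℕ → ℤ := fun e n => ∑ i, (e i : ℤ) * w i b n with hWdef
  have hmon : ∀ e n, ∏ i, g i n ^ (e i) = (b : ℚ) ^ W e n := by
    intro e n
    rw [hWdef]
    simp only
    rw [← zpow_sum (b : ℚ) hb0.ne' Finset.univ]
    refine Finset.prod_congr rfl fun i _ => ?_
    rw [hg i n, ← zpow_natCast, ← zpow_mul, mul_comm]
  have hsupp : H.support.Nonempty := MvPolynomial.support_nonempty.2 hH
  -- the largest exponent
  have h1 : ∀ᶠ n in (σ.U : Filter ℕ), ∃ e ∈ (H.support : Set (Fin r →₀ ℕ)),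
      ∀ e' ∈ H.support, W e' n ≤ W e n := by
    filter_upwards with n
    exact H.support.exists_max_image (fun e => W e n) hsupp
  rw [Ultrafilter.eventually_exists_mem_iff (Finset.finite_toSet _)] at h1
  obtain ⟨e₀, he₀, hmax⟩ := h1
  have he₀' : e₀ ∈ H.support := he₀
  refine ⟨W e₀, ∑ i, (e₀ i : ℝ) * C i, H.coeff e₀, MvPolynomial.mem_support_iff.1 he₀', ?_, ?_⟩
  · have h2 : ∀ᶠ n in (σ.U : Filter ℕ), ∀ i, |(w i b n : ℝ)| ≤ C i * σ.T n :=
      eventually_all.2 fun i => hC i b (Finset.mem_singleton_self b)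
    filter_upwards [h2] with n hn
    rw [hWdef]
    push_cast
    rw [Finset.sum_mul]
    refine (Finset.abs_sum_le_sum_abs _ _).trans (Finset.sum_le_sum fun i _ => ?_)
    rw [abs_mul, Nat.abs_cast, mul_assoc]
    exact mul_le_mul_of_nonneg_left (hn i) (Nat.cast_nonneg _)
  · have h3 : ∀ e ∈ H.support, Tendsto (fun n => ((H.coeff e : ℚ) : ℝ) * (b : ℝ) ^ (W e n - W e₀ n))
        (σ.U : Filter ℕ) (nhds (if e = e₀ then ((H.coeff e : ℚ) : ℝ) else 0)) := by
      intro e he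
      by_cases hee : e = e₀
      · rw [if_pos hee, hee]
        simp only [sub_self, zpow_zero, mul_one]
        exact tendsto_const_nhds
      · rw [if_neg hee]
        have h4 : Tendsto (fun n => W e n - W e₀ n) (σ.U : Filter ℕ) atBot := by
          rcases tri σ.U (fun n => W e n - W e₀ n) with h5 | h5 | h5
          · exfalso
            obtain ⟨k, hk⟩ := h5
            have h6 := hMI (fun i => (e i : ℤ) - e₀ i) ((b : ℚ) ^ k) (by
              filter_upwards [hk] with n hn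
              have h7 := hmon e n
              have h8 := hmon e₀ n
              rw [← hn, zpow_sub₀ hb0.ne', ← h7, ← h8, ← Finset.prod_div_distrib]
              refine Finset.prod_congr rfl fun i _ => ?_
              have h9 : g i n ≠ 0 := by
                rw [hg i n]
                exact (zpow_pos hb0 _).ne'
              rw [zpow_sub₀ h9, zpow_natCast, zpow_natCast])
            apply hee
            ext i
            have h7 := congrFun h6 i
            simp only [Pi.zero_apply] at h7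
            omega
          · exfalso
            obtain ⟨n, h6, h7⟩ := ((tendsto_atTop.1 h5 1).and hmax).exists
            have := h7 e he
            omega
          · exact h5
        have h5 := (zpow_tendsto σ.U _ b hb h4).const_mul ((H.coeff e : ℚ) : ℝ)
        rwa [mul_zero] at h5
    have h4 := tendsto_finsetSum H.support h3
    rw [Finset.sum_ite_eq' H.support e₀ (fun e => ((H.coeff e : ℚ) : ℝ)), if_pos he₀'] at h4
    refine h4.congr fun n => ?_
    have h5 : ((ev g n H : ℚ) : ℝ) = ∑ e ∈ H.support, ((H.coeff e : ℚ) : ℝ) * (b : ℝ) ^ W e n := by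
      unfold ev
      rw [MvPolynomial.eval_eq']
      push_cast
      refine Finset.sum_congr rfl fun e _ => ?_
      congr 1
      have h6 := hmon e n
      have h7 : ((∏ i, g i n ^ (e i) : ℚ) : ℝ) = (((b : ℚ) ^ W e n : ℚ) : ℝ) := by rw [h6]
      push_cast at h7
      exact h7
    rw [h5, Finset.sum_div]
    refine Finset.sum_congr rfl fun e _ => ?_
    rw [zpow_sub₀ hb0'.ne', mul_div_assoc]

/-- a sequence with a nonzero leading term is not small -/
theorem lead_ne (b : ℕ) (hb : 2 ≤ b) (f : ℕ → ℝ) (z : ℕ → ℤ) (C : ℝ) (c : ℝ) (hc : c ≠ 0)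
    (hz : ∀ᶠ n in (σ.U : Filter ℕ), |(z n : ℝ)| ≤ C * σ.T n)
    (h : Tendsto (fun n => f n / (b : ℝ) ^ z n) (σ.U : Filter ℕ) (nhds c)) : ¬ SS σ f := by
  intro hS
  have hb0 : (0 : ℝ) < b := by exact_mod_cast (by omega : 0 < b)
  have hlog : 0 < Real.log b := Real.log_pos (by exact_mod_cast (by omega : 1 < b))
  have h1 : Tendsto (fun n => f n / (b : ℝ) ^ z n) (σ.U : Filter ℕ) (nhds 0) := by
    rw [tendsto_zero_iff_abs_tendsto_zero]
    have h2 : Tendsto (fun n => Real.exp (-(1 * σ.T n))) (σ.U : Filter ℕ) (nhds 0) := by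
      refine Real.tendsto_exp_neg_atTop_nhds_zero.comp ?_
      simpa using σ.lim
    refine squeeze_zero' (Eventually.of_forall fun n => abs_nonneg _) ?_ h2
    filter_upwards [hz, hS (1 + Real.log b * C)] with n h3 h4
    rw [Function.comp_apply, abs_div, abs_of_pos (zpow_pos hb0 _)]
    have h5 : Real.exp (-(Real.log b * C * σ.T n)) ≤ (b : ℝ) ^ z n := by
      have e : (b : ℝ) ^ z n = Real.exp ((z n : ℝ) * Real.log b) := by
        rw [mul_comm, Real.exp_mul, Real.exp_log hb0, Real.rpow_intCast]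
      rw [e]
      apply Real.exp_le_exp.2
      have := (abs_le.1 h3).1
      nlinarith
    rw [div_le_iff₀ (zpow_pos hb0 _)]
    calc |f n| ≤ Real.exp (-((1 + Real.log b * C) * σ.T n)) := h4
      _ = Real.exp (-(1 * σ.T n)) * Real.exp (-(Real.log b * C * σ.T n)) := by
          rw [← Real.exp_add]
          congr 1
          ring
      _ ≤ Real.exp (-(1 * σ.T n)) * (b : ℝ) ^ z n :=
          mul_le_mul_of_nonneg_left h5 (Real.exp_pos _).le
  exact hc (tendsto_nhds_unique h h1)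

end LDT_

open LDT_ in
theorem ldt_proof (hKQT : Stmt_KQT) : Stmt_LDT := by
  classical
  intro σ b hb x hx hx0
  have hb0 : (0 : ℝ) < b := by exact_mod_cast (by omega : 0 < b)
  obtain ⟨c₀, hc₀⟩ := V_lower hx0
  obtain ⟨κ, hκ, hκV⟩ := mem_clo.1 hx (c₀ - 1)
  have hκ0 : κ ≠ 0 := by
    rintro rfl
    rw [sub_zero] at hκV
    have := hc₀ _ hκV
    linarith
  obtain ⟨r, g, Q, P, hGd, hW, hQ, hPQ⟩ := hKQT σ {b} b.primeFactors 1 (fun _ => κ)
    (fun p hp => Nat.prime_of_mem_primeFactors hp)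
    (fun b' hb' => by rw [Finset.mem_singleton.1 hb']; exact hb)
    (fun p hp b' hb' hpb => by
      rw [Finset.mem_singleton.1 hb'] at hpb
      exact Nat.mem_primeFactors.2 ⟨hp, hpb, by omega⟩)
    (fun _ => hκ)
  have hPQ := hPQ 0
  obtain ⟨zQ, CQ, cQ, hcQ, hzQ, hlQ⟩ := lead b hb g hGd.ind hW Q hQ
  -- the sequence of `Q` is in `OO`
  have hQS := lead_ne b hb (fun n => ((ev g n Q : ℚ) : ℝ)) zQ CQ (cQ : ℝ)
    (by exact_mod_cast hcQ) hzQ hlQ
  have hOO : ∀ H : MvPolynomial (Fin r) ℚ, H ≠ 0 → (fun n => ((ev g n H : ℚ) : ℝ)) ∈ OO σ := by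
    intro H hH
    obtain ⟨z, C, c, hc, hz, hl⟩ := lead b hb g hGd.ind hW H hH
    have hlog : 0 < Real.log b := Real.log_pos (by exact_mod_cast (by omega : 1 < b))
    refine ⟨Real.log b * C + 1, ?_⟩
    have h1 : ∀ᶠ n in (σ.U : Filter ℕ), |((ev g n H : ℚ) : ℝ) / (b : ℝ) ^ z n| < |(c : ℝ)| + 1 :=
      hl.abs.eventually_lt_const (by linarith)
    filter_upwards [h1, hz, σ.large (|(c : ℝ)| + 1)] with n h2 h3 h4
    rw [abs_div, abs_of_pos (zpow_pos hb0 _), div_lt_iff₀ (zpow_pos hb0 _)] at h2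
    have h5 : (b : ℝ) ^ z n ≤ Real.exp (Real.log b * C * σ.T n) := by
      have e : (b : ℝ) ^ z n = Real.exp ((z n : ℝ) * Real.log b) := by
        rw [mul_comm, Real.exp_mul, Real.exp_log hb0, Real.rpow_intCast]
      rw [e]
      apply Real.exp_le_exp.2
      have := (abs_le.1 h3).2
      nlinarith
    have h6 : |(c : ℝ)| + 1 ≤ Real.exp (σ.T n) := by
      have := Real.add_one_le_exp (σ.T n)
      linarith
    rw [add_mul, one_mul, Real.exp_add, mul_comm (Real.exp _)]
    exact h2.le.trans (mul_le_mul h6 h5 (zpow_pos hb0 _).le (Real.exp_pos _).le)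
  have hQO := hOO Q hQ
  have hQ0 : cl σ (fun n => ((ev g n Q : ℚ) : ℝ)) ≠ 0 := fun h => hQS ((cl_zero_iff hQO).1 h)
  have hP : P 0 ≠ 0 := by
    intro h
    rw [h] at hPQ
    have e : (fun n => ((ev g n (0 : MvPolynomial (Fin r) ℚ) : ℚ) : ℝ)) = fun _ => (0 : ℝ) := by
      funext n
      unfold ev
      rw [map_zero]
      simp
    rw [e, cl_zero] at hPQ
    exact mul_ne_zero hκ0 hQ0 hPQ
  have hPO := hOO (P 0) hP
  obtain ⟨zP, CP, cP, hcP, hzP, hlP⟩ := lead b hb g hGd.ind hW (P 0) hP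
  -- representatives
  obtain ⟨f, hf, hfx⟩ := cl_surj x
  set k : ℕ → ℝ := fun n => ((ev g n (P 0) : ℚ) : ℝ) * (((ev g n Q : ℚ) : ℝ))⁻¹ with hk
  have hQi := inv_mem hQS
  have hkO : k ∈ OO σ := (OO σ).mul_mem hPO hQi
  have hkκ : cl σ k = κ := by
    rw [hk, cl_mul hPO hQi, cl_inv hQO hQ0, ← hPQ]
    exact mul_inv_cancel_right₀ hQ0 κ
  -- `f` is not too small
  have h1 : ∀ᶠ n in (σ.U : Filter ℕ), Real.exp ((c₀ - 1 / 4) * σ.T n) < |f n| := by
    have h2 : ¬ V (cl σ f) (c₀ - 1 / 4) := by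
      rw [hfx]
      intro h
      have := hc₀ _ h
      linarith
    rw [V_cl hf] at h2
    push Not at h2
    obtain ⟨c', hc', h3⟩ := h2
    filter_upwards [h3, σ.large 0] with n h4 h5
    exact lt_of_le_of_lt (Real.exp_le_exp.2 (mul_le_mul_of_nonneg_right hc'.le h5)) h4
  have h2 : ∀ᶠ n in (σ.U : Filter ℕ), |f n - k n| ≤ Real.exp ((c₀ - 3 / 4) * σ.T n) := by
    have h3 : V (cl σ (fun n => f n - k n)) (c₀ - 1) := by
      rw [cl_sub hf hkO, hfx, hkκ]
      exact hκV
    exact (V_cl ((OO σ).sub_mem hf hkO)).1 h3 _ (by linarith)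
  have h3 : Tendsto (fun n => k n / f n) (σ.U : Filter ℕ) (nhds 1) := by
    have h4 : Tendsto (fun n => Real.exp (-(σ.T n / 2))) (σ.U : Filter ℕ) (nhds 0) :=
      Real.tendsto_exp_neg_atTop_nhds_zero.comp (σ.lim.atTop_div_const (by norm_num))
    have h5 : Tendsto (fun n => 1 - k n / f n) (σ.U : Filter ℕ) (nhds 0) := by
      rw [tendsto_zero_iff_abs_tendsto_zero]
      refine squeeze_zero' (Eventually.of_forall fun n => abs_nonneg _) ?_ h4
      filter_upwards [h1, h2] with n h6 h7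
      have h8 : 0 < |f n| := lt_trans (Real.exp_pos _) h6
      have h9 : f n ≠ 0 := abs_pos.1 h8
      rw [Function.comp_apply, show 1 - k n / f n = (f n - k n) / f n by field_simp, abs_div,
        div_le_iff₀ h8]
      calc |f n - k n| ≤ Real.exp ((c₀ - 3 / 4) * σ.T n) := h7
        _ = Real.exp (-(σ.T n / 2)) * Real.exp ((c₀ - 1 / 4) * σ.T n) := by
            rw [← Real.exp_add]
            congr 1
            ring
        _ ≤ Real.exp (-(σ.T n / 2)) * |f n| :=
            mul_le_mul_of_nonneg_left h6.le (Real.exp_pos _).le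
    have h6 := (tendsto_const_nhds (x := (1 : ℝ))).sub h5
    simpa using h6
  have h4 : Tendsto (fun n => k n / (b : ℝ) ^ (zP n - zQ n)) (σ.U : Filter ℕ)
      (nhds ((cP : ℝ) / (cQ : ℝ))) := by
    have h5 := hlP.div hlQ (by exact_mod_cast hcQ)
    refine h5.congr fun n => ?_
    rw [hk]
    simp only [Pi.div_apply]
    rw [zpow_sub₀ hb0.ne']
    have h6 : (b : ℝ) ^ zP n ≠ 0 := (zpow_pos hb0 _).ne'
    have h7 : (b : ℝ) ^ zQ n ≠ 0 := (zpow_pos hb0 _).ne'
    by_cases h8 : ((ev g n Q : ℚ) : ℝ) = 0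
    · rw [h8]
      simp
    · field_simp
  refine ⟨cP / cQ, fun n => zP n - zQ n, f, div_ne_zero hcP hcQ, hf, hfx, ?_⟩
  have h5 := h4.div h3 one_ne_zero
  rw [div_one] at h5
  push_cast
  refine (h5.congr' ?_)
  filter_upwards [h1, h3.eventually_ne one_ne_zero] with n h6 h7
  have h8 : f n ≠ 0 := by
    have : 0 < |f n| := lt_trans (Real.exp_pos _) h6
    exact abs_pos.1 this
  have h9 : k n ≠ 0 := by
    intro h
    rw [h, zero_div] at h7
    exact h7 rfl
  simp only [Pi.div_apply]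
  have h10 : (b : ℝ) ^ (zP n - zQ n) ≠ 0 := (zpow_pos hb0 _).ne'
  field_simp

end Pool.Agent.SGL
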