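import Pool.Agent.SGL.Stmts

set_option autoImplicit false

namespace Pool.Agent.SGL

open Filter Pool.Agent.SBT

namespace LIO_

open Polynomial

/-- roots are bounded -/
theorem root_bd (P : ℤ[X]) (H : ℝ) (hP : P ≠ 0) (h1 : 1 ≤ H) (hc : ∀ i, |(P.coeff i : ℝ)| ≤ H) (z : ℂ)
    (hz : aeval z P = 0) : ‖z‖ ≤ 1 + H := by
  have hinj : Function.Injective (Int.castRingHom ℂ) := RingHom.injective_int _
  set Q : ℂ[X] := P.map (Int.castRingHom ℂ) with hQ
  have hQ0 : Q ≠ 0 := (Polynomial.map_ne_zero_iff hinj).mpr hP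
  have hroot : Q.IsRoot z := by
    rw [IsRoot, hQ, eval_map, ← hz, aeval_def]
    rfl
  have h := hroot.norm_lt_cauchyBound hQ0
  have hlc : 1 ≤ ‖Q.leadingCoeff‖₊ := by
    rw [hQ, leadingCoeff_map_of_injective hinj]
    have h3 : P.leadingCoeff ≠ 0 := leadingCoeff_ne_zero.mpr hP
    have h4 : (1 : ℝ) ≤ |(P.leadingCoeff : ℝ)| := by
      have := Int.one_le_abs h3
      exact_mod_cast this
    rw [← NNReal.coe_le_coe, coe_nnnorm]
    simpa using h4
  have h2 : (cauchyBound Q : ℝ) ≤ H + 1 := by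
    rw [cauchyBound]
    have hH : ((H.toNNReal : NNReal) : ℝ) = H := Real.coe_toNNReal H (by linarith)
    have h5 : ((Finset.range Q.natDegree).sup fun x => ‖Q.coeff x‖₊) ≤ H.toNNReal := by
      apply Finset.sup_le
      intro i _
      rw [← NNReal.coe_le_coe, coe_nnnorm, hH]
      have := hc i
      rw [hQ, coeff_map]
      simpa using this
    have h6 : ((Finset.range Q.natDegree).sup fun x => ‖Q.coeff x‖₊) / ‖Q.leadingCoeff‖₊ ≤ H.toNNReal := by
      refine le_trans ?_ h5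
      exact div_le_self bot_le hlc
    have h7 : (((Finset.range Q.natDegree).sup fun x => ‖Q.coeff x‖₊) / ‖Q.leadingCoeff‖₊ + 1 : NNReal) ≤
        H.toNNReal + 1 := add_le_add h6 le_rfl
    have h8 := NNReal.coe_le_coe.mpr h7
    rw [NNReal.coe_add, NNReal.coe_add, hH] at h8
    simpa using h8
  have h9 : ‖z‖ < (cauchyBound Q : ℝ) := h
  linarith

theorem val_bd (P G : ℤ[X]) (n : ℕ) (H E : ℝ) (hP : P ≠ 0) (h1 : 1 ≤ H) (hE : 1 ≤ E)
    (hc : ∀ i, |(P.coeff i : ℝ)| ≤ H) (hg : ∀ i, |(G.coeff i : ℝ)| ≤ E) (hn : G.natDegree ≤ n) (z : ℂ)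
    (hz : aeval z P = 0) : ‖aeval z G‖ ≤ (n + 1) * 2 ^ n * H ^ n * E := by
  have hb := root_bd P H hP h1 hc z hz
  rw [aeval_eq_sum_range' (Nat.lt_succ_of_le hn)]
  have h2 : (1 : ℝ) ≤ 2 * H := by linarith
  calc ‖∑ i ∈ Finset.range n.succ, G.coeff i • z ^ i‖ ≤ ∑ i ∈ Finset.range n.succ, ‖G.coeff i • z ^ i‖ :=
        norm_sum_le _ _
    _ ≤ ∑ _i ∈ Finset.range n.succ, E * (2 * H) ^ n := by
        refine Finset.sum_le_sum fun i hi => ?_
        rw [zsmul_eq_mul, norm_mul, norm_pow]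
        have h3 : ‖((G.coeff i : ℤ) : ℂ)‖ ≤ E := by
          have := hg i
          simpa using this
        have h4 : ‖z‖ ^ i ≤ (2 * H) ^ n := by
          calc ‖z‖ ^ i ≤ (2 * H) ^ i := pow_le_pow_left₀ (norm_nonneg _) (by linarith) i
            _ ≤ (2 * H) ^ n := pow_le_pow_right₀ h2 (Nat.lt_succ_iff.mp (Finset.mem_range.mp hi))
        exact mul_le_mul h3 h4 (by positivity) (by linarith)
    _ = (n + 1) * 2 ^ n * H ^ n * E := by
        rw [Finset.sum_const, Finset.card_range, nsmul_eq_mul, mul_pow]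
        push_cast
        ring

theorem int_elt {K : Type} [Field K] (P G : ℤ[X]) (n : ℕ) (hn : G.natDegree ≤ n) (x : K)
    (hx : aeval x P = 0) : IsIntegral ℤ ((P.leadingCoeff : K) ^ n * aeval x G) := by
  have h1 : IsIntegral ℤ (P.leadingCoeff • x) := isIntegral_leadingCoeff_smul P x hx
  have e : (P.leadingCoeff : K) ^ n * aeval x G =
      ∑ i ∈ Finset.range n.succ, ((G.coeff i * P.leadingCoeff ^ (n - i) : ℤ) : K) * (P.leadingCoeff • x) ^ i := by
    rw [aeval_eq_sum_range' (Nat.lt_succ_of_le hn), Finset.mul_sum]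
    refine Finset.sum_congr rfl fun i hi => ?_
    have hi' : i ≤ n := Nat.lt_succ_iff.mp (Finset.mem_range.mp hi)
    rw [zsmul_eq_mul, zsmul_eq_mul, mul_pow]
    push_cast
    obtain ⟨k, rfl⟩ := Nat.exists_eq_add_of_le hi'
    rw [Nat.add_sub_cancel_left, pow_add]
    ring
  rw [e]
  refine IsIntegral.sum _ fun i _ => ?_
  refine IsIntegral.mul ?_ (h1.pow i)
  have : IsIntegral ℤ (algebraMap ℤ K (G.coeff i * P.leadingCoeff ^ (n - i))) := isIntegral_algebraMap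
  simpa using this


theorem core (K : Type) [Field K] [Algebra ℚ K] [FiniteDimensional ℚ K] (g : K) (ι : K →ₐ[ℚ] ℂ) (D n : ℕ)
    (hD : Module.finrank ℚ K ≤ D) (P G : ℤ[X]) (H E : ℝ) (θ : ℂ) (hgθ : ι g = θ) (hP : P ≠ 0)
    (hGn : G.natDegree ≤ n) (hPH : ∀ i, |(P.coeff i : ℝ)| ≤ H) (hGE : ∀ i, |(G.coeff i : ℝ)| ≤ E)
    (hH : 1 ≤ H) (hE : 1 ≤ E) (hPθ : aeval θ P = 0) (hGθ : aeval θ G ≠ 0) :
    1 ≤ H ^ n * ‖aeval θ G‖ * (((n : ℝ) + 1) * 2 ^ n * H ^ (2 * n) * E) ^ D := by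
  have hval : ∀ (Q : ℤ[X]) (σ : K →ₐ[ℚ] ℂ), σ (aeval g Q) = aeval (σ g) Q := by
    intro Q σ
    exact (Polynomial.aeval_algHom_apply (σ.restrictScalars ℤ) g Q).symm
  have hgP : aeval g P = 0 := by
    apply ι.toRingHom.injective
    change ι (aeval g P) = ι 0
    rw [hval P ι, hgθ, hPθ, map_zero]
  have hβint : IsIntegral ℤ ((P.leadingCoeff : K) ^ n * aeval g G) := int_elt P G n hGn g hgP
  have hlc : P.leadingCoeff ≠ 0 := leadingCoeff_ne_zero.mpr hP
  have hc0 : CharZero K := algebraRat.charZero K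
  have hgG : aeval g G ≠ 0 := by
    intro h
    apply hGθ
    rw [← hgθ, ← hval G ι, h, map_zero]
  have hβ0 : ((P.leadingCoeff : K) ^ n * aeval g G) ≠ 0 :=
    mul_ne_zero (pow_ne_zero _ (by exact_mod_cast hlc)) hgG
  have hnint : IsIntegral ℤ (Algebra.norm ℚ ((P.leadingCoeff : K) ^ n * aeval g G)) :=
    Algebra.isIntegral_norm ℚ hβint
  obtain ⟨m, hm⟩ := IsIntegrallyClosed.isIntegral_iff.mp hnint
  have hm0 : m ≠ 0 := by
    intro h
    rw [h, map_zero] at hm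
    exact hβ0 (Algebra.norm_eq_zero_iff.mp hm.symm)
  have hprod := Algebra.norm_eq_prod_embeddings ℚ ℂ ((P.leadingCoeff : K) ^ n * aeval g G)
  have hnorm1 : 1 ≤ ‖∏ σ : K →ₐ[ℚ] ℂ, σ ((P.leadingCoeff : K) ^ n * aeval g G)‖ := by
    rw [← hprod, ← hm]
    have h4 : (1 : ℝ) ≤ |(m : ℝ)| := by
      have := Int.one_le_abs hm0
      exact_mod_cast this
    simpa using h4
  have hlcH : ‖(P.leadingCoeff : ℂ)‖ ≤ H := by
    have := hPH P.natDegree
    simpa using this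
  set B : ℝ := ((n : ℝ) + 1) * 2 ^ n * H ^ (2 * n) * E with hB
  have hB1 : 1 ≤ B := by
    have a1 : (1 : ℝ) ≤ (n : ℝ) + 1 := by linarith [Nat.cast_nonneg (α := ℝ) n]
    have a2 : (1 : ℝ) ≤ 2 ^ n := one_le_pow₀ (by norm_num)
    have a3 : (1 : ℝ) ≤ H ^ (2 * n) := one_le_pow₀ hH
    exact one_le_mul_of_one_le_of_one_le (one_le_mul_of_one_le_of_one_le
      (one_le_mul_of_one_le_of_one_le a1 a2) a3) hE
  have hσ' : ∀ σ : K →ₐ[ℚ] ℂ, σ ((P.leadingCoeff : K) ^ n * aeval g G) =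
      (P.leadingCoeff : ℂ) ^ n * aeval (σ g) G := by
    intro σ
    rw [← hval G σ, map_mul, map_pow, map_intCast]
  have hσ : ∀ σ : K →ₐ[ℚ] ℂ, ‖σ ((P.leadingCoeff : K) ^ n * aeval g G)‖ ≤ B := by
    intro σ
    have h6 : aeval (σ g) P = 0 := by rw [← hval P σ, hgP, map_zero]
    rw [hσ', norm_mul, norm_pow]
    calc ‖(P.leadingCoeff : ℂ)‖ ^ n * ‖aeval (σ g) G‖
        ≤ H ^ n * ((n + 1) * 2 ^ n * H ^ n * E) :=
          mul_le_mul (pow_le_pow_left₀ (norm_nonneg _) hlcH n)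
            (val_bd P G n H E hP hH hE hPH hGE hGn _ h6) (norm_nonneg _) (by positivity)
      _ = B := by rw [hB, two_mul, pow_add]; ring
  have hcard : Fintype.card (K →ₐ[ℚ] ℂ) ≤ D := by
    rw [AlgHom.card ℚ K ℂ]
    exact hD
  have hid : ‖ι ((P.leadingCoeff : K) ^ n * aeval g G)‖ ≤ H ^ n * ‖aeval θ G‖ := by
    rw [hσ', hgθ, norm_mul, norm_pow]
    exact mul_le_mul_of_nonneg_right (pow_le_pow_left₀ (norm_nonneg _) hlcH n) (norm_nonneg _)
  classical
  refine hnorm1.trans ?_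
  rw [← Finset.mul_prod_erase Finset.univ
    (fun σ : K →ₐ[ℚ] ℂ => σ ((P.leadingCoeff : K) ^ n * aeval g G)) (Finset.mem_univ ι), norm_mul]
  refine mul_le_mul hid ?_ (norm_nonneg _) (by positivity)
  rw [norm_prod]
  calc ∏ σ ∈ Finset.univ.erase ι, ‖σ ((P.leadingCoeff : K) ^ n * aeval g G)‖
      ≤ ∏ _σ ∈ Finset.univ.erase ι, B :=
        Finset.prod_le_prod (fun _ _ => norm_nonneg _) fun σ _ => hσ σ
    _ = B ^ (Finset.univ.erase ι).card := by rw [Finset.prod_const]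
    _ ≤ B ^ D := pow_le_pow_right₀ hB1 ((Finset.card_erase_le).trans hcard)

end LIO_

open LIO_ Polynomial in
theorem lio_proof : Stmt_LIO := by
  intro D n
  refine ⟨((((n : ℝ) + 1) * 2 ^ n) ^ D)⁻¹, n + 2 * n * D, by positivity, ?_⟩
  intro P G H E θ hP hPD hGn hPH hGE hH hE hPθ hGθ
  have hPQ : (P.map (Int.castRingHom ℚ)) ≠ 0 :=
    (Polynomial.map_ne_zero_iff (RingHom.injective_int _)).mpr hP
  have hθQ : aeval θ (P.map (Int.castRingHom ℚ)) = 0 := by
    rw [← hPθ]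
    exact aeval_map_algebraMap (A := ℚ) (R := ℤ) θ P
  have hint : IsIntegral ℚ θ := isAlgebraic_iff_isIntegral.mp ⟨_, hPQ, hθQ⟩
  have hfd : FiniteDimensional ℚ (IntermediateField.adjoin ℚ {θ}) :=
    IntermediateField.adjoin.finiteDimensional hint
  have hD : Module.finrank ℚ (IntermediateField.adjoin ℚ {θ}) ≤ D := by
    rw [IntermediateField.adjoin.finrank hint]
    refine (natDegree_le_natDegree (minpoly.degree_le_of_ne_zero ℚ θ hPQ hθQ)).trans ?_
    exact (natDegree_map_le).trans hPD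
  have hmain := core (IntermediateField.adjoin ℚ {θ}) (IntermediateField.AdjoinSimple.gen ℚ θ)
    (IntermediateField.adjoin ℚ {θ}).val D n hD P G H E θ (IntermediateField.AdjoinSimple.coe_gen ℚ θ)
    hP hGn hPH hGE hH hE hPθ hGθ
  rw [inv_le_iff_one_le_mul₀ (by positivity)]
  refine hmain.trans (le_of_eq ?_)
  rw [mul_pow _ E D, mul_pow _ (H ^ (2 * n)) D, ← pow_mul, pow_add]
  ring

end Pool.Agent.SGL
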