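import Pool.Agent.SGL.Stmts

/-!
# Squad SGL, module MEM: numbers of linear complexity
-/

set_option autoImplicit false

namespace Pool.Agent.SGL

open Filter Pool.Agent.SBT

namespace MEM_

variable {σ : Sc}

theorem cl_sum {ι : Type} (s : Finset ι) (f : ι → ℕ → ℝ) (h : ∀ i ∈ s, f i ∈ OO σ) :
    (fun n => ∑ i ∈ s, f i n) ∈ OO σ ∧
      cl σ (fun n => ∑ i ∈ s, f i n) = ∑ i ∈ s, cl σ (f i) := by
  classical
  induction s using Finset.induction_on with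
  | empty =>
    simp only [Finset.sum_empty]
    exact ⟨const_mem 0, cl_zero⟩
  | insert i s hi ih =>
    obtain ⟨h1, h2⟩ := ih (fun j hj => h j (Finset.mem_insert_of_mem hj))
    have h3 := h i (Finset.mem_insert_self i s)
    simp only [Finset.sum_insert hi]
    refine ⟨(OO σ).add_mem h3 h1, ?_⟩
    rw [cl_add h3 h1, h2]

/-- membership in a subfield -/
def G (K : Subfield (Om σ)) (f : ℕ → ℝ) : Prop := f ∈ OO σ ∧ cl σ f ∈ K

variable {K : Subfield (Om σ)}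

theorem G_mul {f g : ℕ → ℝ} (hf : G K f) (hg : G K g) : G K (fun n => f n * g n) := by
  refine ⟨(OO σ).mul_mem hf.1 hg.1, ?_⟩
  rw [cl_mul hf.1 hg.1]
  exact K.mul_mem hf.2 hg.2

theorem G_sub {f g : ℕ → ℝ} (hf : G K f) (hg : G K g) : G K (fun n => f n - g n) := by
  refine ⟨(OO σ).sub_mem hf.1 hg.1, ?_⟩
  rw [cl_sub hf.1 hg.1]
  exact K.sub_mem hf.2 hg.2

theorem G_congr {f g : ℕ → ℝ} (h : ∀ᶠ n in (σ.U : Filter ℕ), f n = g n) (hf : G K f) :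
    G K g := ⟨OO_congr h hf.1, by rw [← cl_congr h]; exact hf.2⟩

theorem G_int (z : ℤ) : G K (fun _ => (z : ℝ)) := by
  refine ⟨const_mem _, ?_⟩
  rw [← cst_apply, map_intCast]
  exact K.intCast_mem z

theorem G_sum {ι : Type} (s : Finset ι) (f : ι → ℕ → ℝ) (h : ∀ i ∈ s, G K (f i)) :
    G K (fun n => ∑ i ∈ s, f i n) := by
  obtain ⟨h1, h2⟩ := cl_sum (σ := σ) s f (fun i hi => (h i hi).1)
  exact ⟨h1, by rw [h2]; exact K.sum_mem (fun i hi => (h i hi).2)⟩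

theorem G_prod {ι : Type} (s : Finset ι) (f : ι → ℕ → ℝ) (h : ∀ i ∈ s, G K (f i)) :
    G K (fun n => ∏ i ∈ s, f i n) := by
  classical
  induction s using Finset.induction_on with
  | empty =>
    simp only [Finset.prod_empty]
    have := G_int (K := K) 1
    simpa using this
  | insert i s hi ih =>
    simp only [Finset.prod_insert hi]
    exact G_mul (h i (Finset.mem_insert_self i s))
      (ih (fun j hj => h j (Finset.mem_insert_of_mem hj)))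

theorem cl_ne {f : ℕ → ℝ} (hf : f ∈ OO σ) (h : ∀ᶠ n in (σ.U : Filter ℕ), 1 ≤ |f n|) :
    cl σ f ≠ 0 := by
  intro h0
  rw [cl_zero_iff hf] at h0
  obtain ⟨n, h1, h2, h3⟩ := (h.and ((h0 1).and (σ.large 1))).exists
  have h4 : Real.exp (-(1 * σ.T n)) < 1 := by
    rw [Real.exp_lt_one_iff]
    linarith
  linarith

theorem G_inv {f : ℕ → ℝ} (hf : G K f) (h : ∀ᶠ n in (σ.U : Filter ℕ), 1 ≤ |f n|) :
    G K (fun n => (f n)⁻¹) := by
  have h0 := cl_ne hf.1 h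
  refine ⟨inv_mem (fun h2 => h0 ((cl_zero_iff hf.1).2 h2)), ?_⟩
  rw [cl_inv hf.1 h0]
  exact K.inv_mem hf.2

theorem G_pow (b : ℕ) (hb : 1 ≤ b) (m : ℕ → ℕ) (D : ℝ)
    (hm : ∀ᶠ n in (σ.U : Filter ℕ), (m n : ℝ) ≤ D * σ.T n) :
    G (Kf σ {b}) (fun n => (b : ℝ) ^ m n) := by
  refine ⟨⟨D * Real.log b, ?_⟩, ?_⟩
  · filter_upwards [hm] with n hn
    have hb0 : (0 : ℝ) < b := by exact_mod_cast (by omega : 0 < b)
    have hl : 0 ≤ Real.log b := Real.log_natCast_nonneg _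
    rw [abs_of_pos (by positivity)]
    have e : (b : ℝ) ^ m n = Real.exp (m n * Real.log b) := by
      rw [← Real.log_pow, Real.exp_log (by positivity)]
    rw [e]
    apply Real.exp_le_exp.2
    calc (m n : ℝ) * Real.log b ≤ (D * σ.T n) * Real.log b := mul_le_mul_of_nonneg_right hn hl
      _ = D * Real.log b * σ.T n := by ring
  · apply Subfield.subset_closure
    exact ⟨b, Finset.mem_singleton_self b, m, D, hm, rfl⟩

/-- signs are eventually constant -/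
theorem G_sign (ε : ℕ → ℤ) (h : ∀ᶠ n in (σ.U : Filter ℕ), |ε n| ≤ 1) :
    G K (fun n => (ε n : ℝ)) := by
  have h1 : ∀ᶠ n in (σ.U : Filter ℕ), ε n = -1 ∨ ε n = 0 ∨ ε n = 1 := by
    filter_upwards [h] with n hn
    rw [abs_le] at hn
    omega
  rw [Ultrafilter.eventually_or] at h1
  rcases h1 with h1 | h1
  · refine G_congr ?_ (G_int (-1))
    filter_upwards [h1] with n hn
    rw [hn]
  · rw [Ultrafilter.eventually_or] at h1
    rcases h1 with h1 | h1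
    · refine G_congr ?_ (G_int 0)
      filter_upwards [h1] with n hn
      rw [hn]
    · refine G_congr ?_ (G_int 1)
      filter_upwards [h1] with n hn
      rw [hn]

theorem G_rep (b : ℕ) (hb : 1 ≤ b) (N : ℕ) (M : ℕ → ℕ) (D : ℝ)
    (hM : ∀ᶠ n in (σ.U : Filter ℕ), (M n : ℝ) ≤ D * σ.T n) (F : ℕ → ℤ)
    (h : ∀ᶠ n in (σ.U : Filter ℕ), Rep b N (M n) (F n)) :
    G (Kf σ {b}) (fun n => (F n : ℝ)) := by
  classical
  have h1 : ∀ n, ∃ (ε : Fin N → ℤ) (k : Fin N → ℕ), Rep b N (M n) (F n) →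
      (∀ t, |ε t| ≤ 1) ∧ (∀ t, k t ≤ M n) ∧ F n = ∑ t, ε t * (b : ℤ) ^ (k t) := by
    intro n
    by_cases hn : Rep b N (M n) (F n)
    · obtain ⟨ε, k, h1⟩ := hn
      exact ⟨ε, k, fun _ => h1⟩
    · exact ⟨fun _ => 0, fun _ => 0, fun h => absurd h hn⟩
  choose ε k hεk using h1
  have h2 : G (Kf σ {b}) (fun n => ∑ t, (ε n t : ℝ) * (b : ℝ) ^ (k n t)) := by
    apply G_sum
    intro t _
    apply G_mul
    · apply G_sign
      filter_upwards [h] with n hn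
      exact (hεk n hn).1 t
    · apply G_pow b hb _ D
      filter_upwards [h, hM] with n hn hMn
      have h3 := (hεk n hn).2.1 t
      have h4 : (k n t : ℝ) ≤ M n := by exact_mod_cast h3
      exact h4.trans hMn
  refine G_congr ?_ h2
  filter_upwards [h] with n hn
  conv_rhs => rw [(hεk n hn).2.2]
  push_cast
  rfl

theorem log_ge_half {b : ℕ} (hb : 2 ≤ b) : (1 : ℝ) / 2 ≤ Real.log b := by
  have h2 : (1 : ℝ) / 2 ≤ Real.log 2 := by
    have := Real.log_two_gt_d9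
    linarith
  have : Real.log 2 ≤ Real.log b := by
    apply Real.log_le_log (by norm_num)
    exact_mod_cast hb
  linarith

theorem floor_approx (x : ℝ) {b : ℕ} (hb : 2 ≤ b) (L : ℕ) :
    |x - (⌊x * (b : ℝ) ^ L⌋ : ℝ) / (b : ℝ) ^ L| ≤ 1 / (b : ℝ) ^ L := by
  have hb0 : (0 : ℝ) < (b : ℝ) ^ L := by positivity
  have h1 := Int.floor_le (x * (b : ℝ) ^ L)
  have h2 := Int.lt_floor_add_one (x * (b : ℝ) ^ L)
  have e : x - (⌊x * (b : ℝ) ^ L⌋ : ℝ) / (b : ℝ) ^ L =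
      (x * (b : ℝ) ^ L - ⌊x * (b : ℝ) ^ L⌋) / (b : ℝ) ^ L := by
    field_simp
  rw [e, abs_of_nonneg (div_nonneg (by linarith) hb0.le)]
  apply div_le_div_of_nonneg_right _ hb0.le
  linarith

end MEM_

open MEM_

theorem mem_proof (hSTU : Stmt_STU) (hSPN : Stmt_SPN) (hDGT : SBT.Stmt_DGT) (hKWD : Stmt_KWD) :
    Stmt_MEM := by
  classical
  intro σ N Λ b C x hb hT hΛ hcnt
  have hb1 : 1 ≤ b := by omega
  have hbr1 : (1 : ℝ) ≤ b := by exact_mod_cast hb1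
  have hbr0 : (0 : ℝ) < b := by linarith
  have hlog := log_ge_half hb
  have hB : ∀ c ∈ ({b} : Finset ℕ), 2 ≤ c := by
    intro c hc
    rw [Finset.mem_singleton] at hc
    omega
  obtain ⟨s, B, Nf, hs⟩ := hSTU C
  obtain ⟨hdig, hrec, hnbl, -⟩ := hDGT b x hb
  have key : ∀ n : ℕ, 8 ≤ N n → cnt b x (N n) (Λ n * N n) ≤ C * N n →
      ∃ (q : Fin s → ℕ) (y : Fin s → ℤ), (∀ i, 1 ≤ q i ∧ q i ≤ B * N n) ∧
      (∀ i, |y i| ≤ (|⌊x * (b : ℝ) ^ 0⌋| + 1) * (b : ℤ) ^ (B * N n)) ∧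
      ∀ Λ' ≤ Λ n, ∀ z, z + B * N n < Λ' * N n → ∃ L, z ≤ L ∧ L ≤ z + B * N n ∧ ∃ F : Fin s → ℤ,
        (∀ i, Rep b (Nf Λ') (Nf Λ' * N n) (F i)) ∧
        (∏ i, ((b : ℤ) ^ q i - 1)) * ⌊x * (b : ℝ) ^ L⌋ = ∑ i, F i * y i := by
    intro n hn hc
    exact hs (Λ n) b (N n) (fun i => (dig b x (i + 1)).toNat) (fun i => ⌊x * (b : ℝ) ^ i⌋) hb hn
      (fun i => by
        have := hdig (i + 1)
        show (dig b x (i + 1)).toNat < b
        omega)
      (fun i => by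
        have h := hdig (i + 1)
        have h2 := hrec i
        show ⌊x * (b : ℝ) ^ (i + 1)⌋ = b * ⌊x * (b : ℝ) ^ i⌋ + ((dig b x (i + 1)).toNat : ℤ)
        rw [h2, Int.toNat_of_nonneg h.1])
      (by rw [← hnbl]; exact hc)
  choose! q y hq hy hkey using key
  have hgood : ∀ᶠ n in (σ.U : Filter ℕ), 8 ≤ N n ∧ cnt b x (N n) (Λ n * N n) ≤ C * N n := by
    have h1 : ∀ᶠ n in (σ.U : Filter ℕ), 8 ≤ N n := by
      filter_upwards [σ.large 8] with n hn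
      rw [hT] at hn
      exact_mod_cast hn
    exact h1.and hcnt
  -- the numbers `y`
  have hYL : ∀ i, Hq σ (fun n => (y n i : ℚ)) := by
    intro i
    rw [Hq_iff]
    set A : ℝ := ((|⌊x * (b : ℝ) ^ 0⌋| + 1 : ℤ) : ℝ) with hA
    have hA1 : 1 ≤ A := by
      have : (1 : ℤ) ≤ |⌊x * (b : ℝ) ^ 0⌋| + 1 := by
        have := abs_nonneg ⌊x * (b : ℝ) ^ 0⌋
        omega
      rw [hA]
      exact_mod_cast this
    refine ⟨Real.log A + B * Real.log b, ?_⟩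
    filter_upwards [hgood] with n hn
    have hT1 : (1 : ℝ) ≤ σ.T n := by
      rw [hT]
      exact_mod_cast (by omega : 1 ≤ N n)
    have hAl := Real.log_nonneg hA1
    refine ⟨y n i, 1, one_ne_zero, by simp, ?_, ?_⟩
    · have h1 := hy n hn.1 hn.2 i
      have h2 : |(y n i : ℝ)| ≤ A * (b : ℝ) ^ (B * N n) := by
        rw [hA]
        exact_mod_cast h1
      refine h2.trans ?_
      have e : (b : ℝ) ^ (B * N n) = Real.exp (B * Real.log b * σ.T n) := by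
        rw [hT]
        have : (b : ℝ) ^ (B * N n) = Real.exp ((B * N n : ℕ) * Real.log b) := by
          rw [← Real.log_pow, Real.exp_log (by positivity)]
        rw [this]
        congr 1
        push_cast
        ring
      rw [e, add_mul, Real.exp_add]
      apply mul_le_mul_of_nonneg_right _ (Real.exp_pos _).le
      calc A = Real.exp (Real.log A) := (Real.exp_log (by linarith)).symm
        _ ≤ Real.exp (Real.log A * σ.T n) := by
          apply Real.exp_le_exp.mpr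
          nlinarith
    · rw [Int.cast_one, abs_one]
      apply Real.one_le_exp
      positivity
  refine hSPN σ {b} hB (hKWD σ {b} hB).1 s (fun i => cl σ (fun n => ((y n i : ℚ) : ℝ))) (cst σ x)
    (fun i => ⟨_, hYL i, rfl⟩) ?_
  intro c
  set k : ℕ := ⌈2 * |c|⌉₊ with hk
  set Λ' : ℕ := k + B + 1 with hΛ'
  have hgood2 : ∀ᶠ n in (σ.U : Filter ℕ), Λ' ≤ Λ n ∧ 8 ≤ N n ∧
      cnt b x (N n) (Λ n * N n) ≤ C * N n := (hΛ.eventually_ge_atTop Λ').and hgood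
  have key2 : ∀ n : ℕ, Λ' ≤ Λ n ∧ 8 ≤ N n ∧ cnt b x (N n) (Λ n * N n) ≤ C * N n →
      ∃ (L : ℕ) (F : Fin s → ℤ), k * N n ≤ L ∧ L ≤ k * N n + B * N n ∧
        (∀ i, Rep b (Nf Λ') (Nf Λ' * N n) (F i)) ∧
        (∏ i, ((b : ℤ) ^ q n i - 1)) * ⌊x * (b : ℝ) ^ L⌋ = ∑ i, F i * y n i := by
    intro n hn
    obtain ⟨L, h1, h2, F, h3, h4⟩ := hkey n hn.2.1 hn.2.2 Λ' hn.1 (k * N n) (by
      rw [hΛ']
      have h5 : 1 ≤ N n := by omega
      nlinarith)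
    exact ⟨L, F, h1, h2, h3, h4⟩
  choose! L F hL1 hL2 hF hid using key2
  -- the denominators
  have hG : ∀ i, G (Kf σ {b}) (fun n => (F n i : ℝ)) := by
    intro i
    apply G_rep b hb1 (Nf Λ') (fun n => Nf Λ' * N n) (Nf Λ')
    · filter_upwards with n
      rw [hT]
      push_cast
      exact le_rfl
    · filter_upwards [hgood2] with n hn
      exact hF n hn i
  have hD1 : G (Kf σ {b}) (fun n => (b : ℝ) ^ L n) := by
    apply G_pow b hb1 _ (k + B)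
    filter_upwards [hgood2] with n hn
    have := hL2 n hn
    rw [hT]
    have h2 : (L n : ℝ) ≤ k * N n + B * N n := by exact_mod_cast this
    linarith
  have hD2 : G (Kf σ {b}) (fun n => ∏ i, ((b : ℝ) ^ q n i - 1)) := by
    apply G_prod
    intro i _
    apply G_sub
    · apply G_pow b hb1 _ B
      filter_upwards [hgood] with n hn
      have := (hq n hn.1 hn.2 i).2
      rw [hT]
      exact_mod_cast this
    · have := G_int (K := Kf σ {b}) 1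
      simpa using this
  have hD : G (Kf σ {b}) (fun n => (b : ℝ) ^ L n * ∏ i, ((b : ℝ) ^ q n i - 1)) := G_mul hD1 hD2
  have hfac : ∀ n, 8 ≤ N n ∧ cnt b x (N n) (Λ n * N n) ≤ C * N n → ∀ i,
      (1 : ℝ) ≤ (b : ℝ) ^ q n i - 1 := by
    intro n hn i
    have h1 : (b : ℝ) ^ 1 ≤ (b : ℝ) ^ q n i := pow_le_pow_right₀ hbr1 (hq n hn.1 hn.2 i).1
    have h2 : (2 : ℝ) ≤ b := by exact_mod_cast hb
    rw [pow_one] at h1
    linarith
  have hprod1 : ∀ n, 8 ≤ N n ∧ cnt b x (N n) (Λ n * N n) ≤ C * N n →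
      (1 : ℝ) ≤ ∏ i, ((b : ℝ) ^ q n i - 1) := by
    intro n hn
    have h := Finset.prod_le_prod (s := (Finset.univ : Finset (Fin s))) (f := fun _ => (1 : ℝ))
      (g := fun i => (b : ℝ) ^ q n i - 1) (fun _ _ => zero_le_one) (fun i _ => hfac n hn i)
    simpa using h
  have hDge : ∀ᶠ n in (σ.U : Filter ℕ), 1 ≤ |(b : ℝ) ^ L n * ∏ i, ((b : ℝ) ^ q n i - 1)| := by
    filter_upwards [hgood] with n hn
    have h1 := hprod1 n hn
    have h2 : (1 : ℝ) ≤ (b : ℝ) ^ L n := one_le_pow₀ hbr1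
    refine le_trans ?_ (le_abs_self _)
    nlinarith
  have hDinv := G_inv hD hDge
  have hκ : ∀ i, G (Kf σ {b}) (fun n => (F n i : ℝ) *
      ((b : ℝ) ^ L n * ∏ i, ((b : ℝ) ^ q n i - 1))⁻¹) := fun i => G_mul (hG i) hDinv
  refine ⟨fun i => cl σ (fun n => (F n i : ℝ) *
      ((b : ℝ) ^ L n * ∏ i, ((b : ℝ) ^ q n i - 1))⁻¹), fun i => (hκ i).2, ?_⟩
  have hterm : ∀ i, (fun n => ((F n i : ℝ) *
      ((b : ℝ) ^ L n * ∏ i, ((b : ℝ) ^ q n i - 1))⁻¹) * ((y n i : ℚ) : ℝ)) ∈ OO σ := fun i =>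
    (OO σ).mul_mem (hκ i).1 (Hq_mem (hYL i))
  obtain ⟨hS1, hS2⟩ := cl_sum (σ := σ) (Finset.univ : Finset (Fin s))
    (fun i n => ((F n i : ℝ) *
      ((b : ℝ) ^ L n * ∏ i, ((b : ℝ) ^ q n i - 1))⁻¹) * ((y n i : ℚ) : ℝ)) (fun i _ => hterm i)
  have hS3 : ∑ i, cl σ (fun n => (F n i : ℝ) *
      ((b : ℝ) ^ L n * ∏ i, ((b : ℝ) ^ q n i - 1))⁻¹) * cl σ (fun n => ((y n i : ℚ) : ℝ)) =
      cl σ (fun n => ∑ i, ((F n i : ℝ) *
      ((b : ℝ) ^ L n * ∏ i, ((b : ℝ) ^ q n i - 1))⁻¹) * ((y n i : ℚ) : ℝ)) := by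
    rw [hS2]
    apply Finset.sum_congr rfl
    intro i _
    exact (cl_mul (hκ i).1 (Hq_mem (hYL i))).symm
  show V (cst σ x - ∑ i, cl σ (fun n => (F n i : ℝ) *
      ((b : ℝ) ^ L n * ∏ i, ((b : ℝ) ^ q n i - 1))⁻¹) * cl σ (fun n => ((y n i : ℚ) : ℝ))) c
  have hsub : (fun n => x - ∑ i, ((F n i : ℝ) *
      ((b : ℝ) ^ L n * ∏ i, ((b : ℝ) ^ q n i - 1))⁻¹) * ((y n i : ℚ) : ℝ)) ∈ OO σ :=
    (OO σ).sub_mem (const_mem x) hS1
  rw [hS3, cst_apply, ← cl_sub (const_mem x) hS1, V_cl hsub]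
  intro c' hc'
  filter_upwards [hgood2] with n hn
  have hb0L : (0 : ℝ) < (b : ℝ) ^ L n := by positivity
  have hp0 : (0 : ℝ) < ∏ i, ((b : ℝ) ^ q n i - 1) := lt_of_lt_of_le one_pos (hprod1 n hn.2)
  have h1 : (∏ i, ((b : ℝ) ^ q n i - 1)) * (⌊x * (b : ℝ) ^ L n⌋ : ℝ) =
      ∑ i, (F n i : ℝ) * (y n i : ℝ) := by
    have h2 := hid n hn
    have h3 : (((∏ i, ((b : ℤ) ^ q n i - 1)) * ⌊x * (b : ℝ) ^ L n⌋ : ℤ) : ℝ) =
        ((∑ i, F n i * y n i : ℤ) : ℝ) := by rw [h2]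
    push_cast at h3
    exact h3
  have h4 : ∑ i, ((F n i : ℝ) *
      ((b : ℝ) ^ L n * ∏ i, ((b : ℝ) ^ q n i - 1))⁻¹) * ((y n i : ℚ) : ℝ) =
      (⌊x * (b : ℝ) ^ L n⌋ : ℝ) / (b : ℝ) ^ L n := by
    have h5 : ∑ i, ((F n i : ℝ) *
      ((b : ℝ) ^ L n * ∏ i, ((b : ℝ) ^ q n i - 1))⁻¹) * ((y n i : ℚ) : ℝ) =
      (∑ i, (F n i : ℝ) * (y n i : ℝ)) * ((b : ℝ) ^ L n * ∏ i, ((b : ℝ) ^ q n i - 1))⁻¹ := by
      rw [Finset.sum_mul]
      apply Finset.sum_congr rfl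
      intro i _
      push_cast
      ring
    rw [h5, ← h1]
    field_simp
  show |x - ∑ i, ((F n i : ℝ) *
      ((b : ℝ) ^ L n * ∏ i, ((b : ℝ) ^ q n i - 1))⁻¹) * ((y n i : ℚ) : ℝ)| ≤ _
  rw [h4]
  refine (floor_approx x hb (L n)).trans ?_
  have e : 1 / (b : ℝ) ^ L n = Real.exp (-(L n * Real.log b)) := by
    rw [Real.exp_neg, ← Real.log_pow, Real.exp_log (by positivity), one_div]
  rw [e]
  apply Real.exp_le_exp.mpr
  have h6 : (k : ℝ) * N n ≤ L n := by exact_mod_cast hL1 n hn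
  have h7 : 2 * |c| ≤ k := Nat.le_ceil _
  have h8 := neg_abs_le c
  rw [hT]
  have h9 : (0 : ℝ) ≤ N n := Nat.cast_nonneg _
  have h10 : (k : ℝ) * N n * (1 / 2) ≤ L n * Real.log b := by
    apply mul_le_mul h6 hlog (by norm_num) (Nat.cast_nonneg _)
  have h11 : 2 * |c| * N n ≤ k * N n := mul_le_mul_of_nonneg_right h7 h9
  nlinarith

end Pool.Agent.SGL
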