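import Pool.Agent.SGL.Stmts

/-!
# SGL, module NUP: `π` is not a `U`-number (MP_57632f_nt)
-/

set_option autoImplicit false

namespace Pool.Agent.SGL

open Filter Pool.Agent.SBT

namespace NUP_

open Polynomial

/-- the coefficients of the real part of `P (i Y)` -/
def ca (P : ℤ[X]) (k : ℕ) : ℤ := if Even k then (-1) ^ (k / 2) * P.coeff k else 0

/-- the coefficients of the imaginary part of `P (i Y)` -/
def cb (P : ℤ[X]) (k : ℕ) : ℤ := if Even k then 0 else (-1) ^ (k / 2) * P.coeff k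

/-- the real part of `P (i Y)` -/
noncomputable def rA (P : ℤ[X]) (D : ℕ) : ℤ[X] := ∑ k ∈ Finset.range (D + 1), monomial k (ca P k)

/-- the imaginary part of `P (i Y)` -/
noncomputable def rB (P : ℤ[X]) (D : ℕ) : ℤ[X] := ∑ k ∈ Finset.range (D + 1), monomial k (cb P k)

/-- the norm -/
noncomputable def rQ (P : ℤ[X]) (D : ℕ) : ℤ[X] := rA P D ^ 2 + rB P D ^ 2

theorem coeff_sum (D : ℕ) (c : ℕ → ℤ) (k : ℕ) :
    (∑ j ∈ Finset.range (D + 1), monomial j (c j)).coeff k = if k < D + 1 then c k else 0 := by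
  rw [finsetSum_coeff]
  simp only [coeff_monomial]
  rw [Finset.sum_ite_eq' (Finset.range (D + 1)) k c]
  simp only [Finset.mem_range]

theorem coeff_rA (P : ℤ[X]) (D k : ℕ) : (rA P D).coeff k = if k < D + 1 then ca P k else 0 :=
  coeff_sum D _ k

theorem coeff_rB (P : ℤ[X]) (D k : ℕ) : (rB P D).coeff k = if k < D + 1 then cb P k else 0 :=
  coeff_sum D _ k

theorem abs_ca {P : ℤ[X]} {H : ℝ} (hH : 0 ≤ H) (h : ∀ i, |(P.coeff i : ℝ)| ≤ H) (k : ℕ) :
    |(ca P k : ℝ)| ≤ H := by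
  unfold ca
  split
  · push_cast
    rw [abs_mul, abs_pow, abs_neg, abs_one, one_pow, one_mul]
    exact h k
  · simpa using hH

theorem abs_cb {P : ℤ[X]} {H : ℝ} (hH : 0 ≤ H) (h : ∀ i, |(P.coeff i : ℝ)| ≤ H) (k : ℕ) :
    |(cb P k : ℝ)| ≤ H := by
  unfold cb
  split
  · simpa using hH
  · push_cast
    rw [abs_mul, abs_pow, abs_neg, abs_one, one_pow, one_mul]
    exact h k

theorem natDegree_sum_le (D : ℕ) (c : ℕ → ℤ) :
    (∑ j ∈ Finset.range (D + 1), monomial j (c j)).natDegree ≤ D := by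
  rw [natDegree_le_iff_coeff_eq_zero]
  intro N hN
  rw [coeff_sum, if_neg (by omega)]

theorem natDegree_rQ (P : ℤ[X]) (D : ℕ) : (rQ P D).natDegree ≤ 2 * D := by
  unfold rQ
  refine (natDegree_add_le _ _).trans (max_le ?_ ?_)
  · refine natDegree_pow_le.trans ?_
    exact Nat.mul_le_mul_left 2 (natDegree_sum_le D _)
  · refine natDegree_pow_le.trans ?_
    exact Nat.mul_le_mul_left 2 (natDegree_sum_le D _)

theorem coeff_sq_le {A : ℤ[X]} {D : ℕ} {H : ℝ} (hH : 0 ≤ H) (hd : A.natDegree ≤ D)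
    (h : ∀ k, |(A.coeff k : ℝ)| ≤ H) (n : ℕ) :
    |(((A ^ 2).coeff n : ℤ) : ℝ)| ≤ (2 * D + 1) * H ^ 2 := by
  by_cases hn : n ≤ 2 * D
  · rw [sq, coeff_mul]
    push_cast
    refine (Finset.abs_sum_le_sum_abs _ _).trans ?_
    have h1 : ∀ x ∈ Finset.HasAntidiagonal.antidiagonal n,
        |(A.coeff x.1 : ℝ) * (A.coeff x.2 : ℝ)| ≤ H ^ 2 := by
      intro x _
      rw [abs_mul, sq]
      exact mul_le_mul (h _) (h _) (abs_nonneg _) hH
    refine (Finset.sum_le_card_nsmul _ _ _ h1).trans ?_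
    rw [Finset.Nat.card_antidiagonal, nsmul_eq_mul]
    apply mul_le_mul_of_nonneg_right _ (sq_nonneg H)
    have : (n : ℝ) ≤ 2 * D := by exact_mod_cast hn
    push_cast
    linarith
  · have h2 : (A ^ 2).coeff n = 0 := by
      apply coeff_eq_zero_of_natDegree_lt
      have := (natDegree_pow_le (p := A) (n := 2))
      have := Nat.mul_le_mul_left 2 hd
      omega
    rw [h2]
    simp only [Int.cast_zero, abs_zero]
    positivity

theorem coeff_rQ {P : ℤ[X]} {D : ℕ} {H : ℝ} (hH : 0 ≤ H) (h : ∀ i, |(P.coeff i : ℝ)| ≤ H)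
    (n : ℕ) : |((rQ P D).coeff n : ℝ)| ≤ 2 * (2 * D + 1) * H ^ 2 := by
  unfold rQ
  rw [coeff_add]
  push_cast
  have h1 : ∀ k, |((rA P D).coeff k : ℝ)| ≤ H := by
    intro k
    rw [coeff_rA]
    split
    · exact abs_ca hH h k
    · simpa using hH
  have h2 : ∀ k, |((rB P D).coeff k : ℝ)| ≤ H := by
    intro k
    rw [coeff_rB]
    split
    · exact abs_cb hH h k
    · simpa using hH
  have h3 := coeff_sq_le hH (natDegree_sum_le D (ca P)) h1 n
  have h4 := coeff_sq_le hH (natDegree_sum_le D (cb P)) h2 n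
  have h5 := abs_add_le (((rA P D ^ 2).coeff n : ℤ) : ℝ) (((rB P D ^ 2).coeff n : ℤ) : ℝ)
  have h6 : |(((rA P D ^ 2).coeff n : ℤ) : ℝ)| ≤ (2 * D + 1) * H ^ 2 := h3
  have h7 : |(((rB P D ^ 2).coeff n : ℤ) : ℝ)| ≤ (2 * D + 1) * H ^ 2 := h4
  linarith

theorem rQ_ne {P : ℤ[X]} {D : ℕ} (hP : P ≠ 0) (hd : P.natDegree ≤ D) : rQ P D ≠ 0 := by
  intro h
  have h1 : ∀ t : ℤ, (rA P D).eval t = 0 ∧ (rB P D).eval t = 0 := by
    intro t
    have h2 : (rQ P D).eval t = 0 := by rw [h, eval_zero]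
    unfold rQ at h2
    rw [eval_add, eval_pow, eval_pow] at h2
    have h3 := sq_nonneg ((rA P D).eval t)
    have h4 := sq_nonneg ((rB P D).eval t)
    constructor
    · exact pow_eq_zero_iff (two_ne_zero) |>.1 (by linarith)
    · exact pow_eq_zero_iff (two_ne_zero) |>.1 (by linarith)
  have hA : rA P D = 0 := Polynomial.funext fun t => by rw [(h1 t).1, eval_zero]
  have hB : rB P D = 0 := Polynomial.funext fun t => by rw [(h1 t).2, eval_zero]
  apply hP
  ext k
  rw [coeff_zero]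
  by_cases hk : k < D + 1
  · have ha := coeff_rA P D k
    have hb := coeff_rB P D k
    rw [hA, coeff_zero, if_pos hk] at ha
    rw [hB, coeff_zero, if_pos hk] at hb
    unfold ca at ha
    unfold cb at hb
    by_cases he : Even k
    · rw [if_pos he] at ha
      rcases mul_eq_zero.1 ha.symm with h5 | h5
      · exact absurd h5 (pow_ne_zero _ (by norm_num))
      · exact h5
    · rw [if_neg he] at hb
      rcases mul_eq_zero.1 hb.symm with h5 | h5
      · exact absurd h5 (pow_ne_zero _ (by norm_num))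
      · exact h5
  · exact coeff_eq_zero_of_natDegree_lt (by omega)

theorem aeval_sum (D : ℕ) (c : ℕ → ℤ) (z : ℂ) :
    aeval z (∑ j ∈ Finset.range (D + 1), monomial j (c j)) =
      ∑ j ∈ Finset.range (D + 1), (c j : ℂ) * z ^ j := by
  rw [map_sum]
  apply Finset.sum_congr rfl
  intro j _
  rw [aeval_monomial]
  simp

theorem I_pow (k : ℕ) : (Complex.I * 1) ^ k = if Even k then ((-1 : ℂ)) ^ (k / 2) else
    (-1) ^ (k / 2) * Complex.I := by
  rw [mul_one]
  rcases Nat.even_or_odd' k with ⟨c, hc | hc⟩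
  · rw [hc, if_pos (even_two_mul c), pow_mul, Complex.I_sq, Nat.mul_div_cancel_left _ two_pos]
  · have h1 : ¬ Even (2 * c + 1) := by
      rw [Nat.not_even_iff_odd]
      exact ⟨c, rfl⟩
    have h2 : (2 * c + 1) / 2 = c := by omega
    rw [hc, if_neg h1, h2, pow_succ, pow_mul, Complex.I_sq]

theorem parts {P : ℤ[X]} {D : ℕ} (hd : P.natDegree ≤ D) (z ι : ℂ) (hι : ι = 1 ∨ ι = -1) :
    aeval (Complex.I * ι * z) P = aeval z (rA P D) + Complex.I * ι * aeval z (rB P D) := by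
  unfold rA rB
  rw [aeval_sum, aeval_sum, aeval_eq_sum_range' (Nat.lt_succ_of_le hd), Finset.mul_sum,
    ← Finset.sum_add_distrib]
  apply Finset.sum_congr rfl
  intro k _
  rw [zsmul_eq_mul, mul_pow, mul_pow]
  have hI := I_pow k
  rw [mul_one] at hI
  rw [hI]
  have hι2 : ι ^ 2 = 1 := by
    rcases hι with h | h <;> rw [h] <;> norm_num
  unfold ca cb
  by_cases he : Even k
  · have h3 : ι ^ k = 1 := by
      obtain ⟨m, hm⟩ := he
      rw [hm, ← two_mul, pow_mul, hι2, one_pow]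
    rw [if_pos he, if_pos he, if_pos he, h3]
    push_cast
    ring
  · have h3 : ι ^ k = ι := by
      rw [Nat.not_even_iff_odd] at he
      obtain ⟨m, hm⟩ := he
      rw [hm, pow_succ, pow_mul, hι2, one_pow, one_mul]
    rw [if_neg he, if_neg he, if_neg he, h3]
    push_cast
    ring

theorem aeval_rQ {P : ℤ[X]} {D : ℕ} (hd : P.natDegree ≤ D) (z : ℂ) :
    aeval z (rQ P D) = aeval (Complex.I * 1 * z) P * aeval (Complex.I * (-1) * z) P := by
  rw [parts hd z 1 (Or.inl rfl), parts hd z (-1) (Or.inr rfl)]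
  unfold rQ
  rw [map_add, map_pow, map_pow]
  have := Complex.I_sq
  linear_combination ((aeval z (rB P D)) ^ 2) * this

theorem ms {c M : ℝ} (hc : 0 ≤ c) (z : ℂ) (s : Multiset ℂ)
    (h : ∀ θ ∈ s, c ≤ ‖θ - z‖ * M) :
    c ^ (Multiset.card s) ≤ ‖(s.map fun θ => z - θ).prod‖ * M ^ (Multiset.card s) := by
  induction s using Multiset.induction_on with
  | empty => simp
  | cons θ s ih =>
    rw [Multiset.map_cons, Multiset.prod_cons, Multiset.card_cons, norm_mul, pow_succ, pow_succ]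
    have h1 := ih (fun θ' hθ' => h θ' (Multiset.mem_cons_of_mem hθ'))
    have h2 := h θ (Multiset.mem_cons_self θ s)
    rw [norm_sub_rev] at h2
    calc c ^ (Multiset.card s) * c ≤ (‖(s.map fun θ => z - θ).prod‖ * M ^ (Multiset.card s)) *
          (‖z - θ‖ * M) := mul_le_mul h1 h2 hc ((pow_nonneg hc _).trans h1)
      _ = _ := by ring

theorem val_le {P : ℤ[X]} {D : ℕ} {H : ℝ} (hd : P.natDegree ≤ D)
    (h : ∀ i, |(P.coeff i : ℝ)| ≤ H) (hH : 0 ≤ H) {z : ℂ} (hz : ‖z‖ ≤ 4) :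
    ‖aeval z P‖ ≤ (D + 1) * 4 ^ D * H := by
  rw [aeval_eq_sum_range' (Nat.lt_succ_of_le hd)]
  refine (norm_sum_le _ _).trans ?_
  have h1 : ∀ k ∈ Finset.range (D + 1), ‖P.coeff k • z ^ k‖ ≤ 4 ^ D * H := by
    intro k hk
    rw [zsmul_eq_mul, norm_mul, norm_pow, mul_comm]
    apply mul_le_mul _ _ (norm_nonneg _) (by positivity)
    · calc ‖z‖ ^ k ≤ 4 ^ k := pow_le_pow_left₀ (norm_nonneg _) hz k
        _ ≤ 4 ^ D := pow_le_pow_right₀ (by norm_num) (by
            have := Finset.mem_range.1 hk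
            omega)
    · have := h k
      rwa [Complex.norm_intCast]
  refine (Finset.sum_le_card_nsmul _ _ _ h1).trans ?_
  rw [Finset.card_range, nsmul_eq_mul]
  push_cast
  rw [mul_assoc]

end NUP_

theorem nup_proof (hHP7 : Stmt_HP7) : Stmt_NUP := by
  intro D
  obtain ⟨μ, c₀, hc₀, hkey⟩ := hHP7 (2 * D)
  -- a constant at most 1
  set c : ℝ := min c₀ 1 with hc
  have hc0 : 0 < c := lt_min hc₀ one_pos
  have hc1 : c ≤ 1 := min_le_right _ _
  set K : ℝ := 2 * (2 * D + 1) with hK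
  have hK1 : 1 ≤ K := by
    have : (0 : ℝ) ≤ D := Nat.cast_nonneg D
    rw [hK]
    linarith
  have hK0 : 0 < K := by linarith
  set E : ℝ := (D + 1) * 4 ^ D with hE
  have hE0 : 0 < E := by positivity
  refine ⟨4 * D * μ + 1, c ^ (2 * D) / (E * K ^ (2 * D * μ)), by positivity, ?_⟩
  intro P H hP hd hcoef
  have hH1 : 1 ≤ H := by
    obtain ⟨k, hk⟩ : ∃ k, P.coeff k ≠ 0 := by
      by_contra hcon
      push Not at hcon
      exact hP (Polynomial.ext fun k => by rw [hcon k, Polynomial.coeff_zero])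
    refine le_trans ?_ (hcoef k)
    have : (1 : ℤ) ≤ |P.coeff k| := Int.one_le_abs hk
    exact_mod_cast this
  have hH0 : 0 ≤ H := by linarith
  have hH'1 : 1 ≤ K * H ^ 2 := one_le_mul_of_one_le_of_one_le hK1 (one_le_pow₀ hH1)
  set Q := NUP_.rQ P D with hQ
  have hQ0 : Q ≠ 0 := NUP_.rQ_ne hP hd
  have hQd : Q.natDegree ≤ 2 * D := NUP_.natDegree_rQ P D
  have hQc : ∀ i, |(Q.coeff i : ℝ)| ≤ K * H ^ 2 := NUP_.coeff_rQ hH0 hcoef
  set z : ℂ := Real.pi * Complex.I with hz
  set M : ℝ := (K * H ^ 2) ^ μ with hM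
  have hM1 : 1 ≤ M := one_le_pow₀ hH'1
  -- the value of `Q`
  set QC : Polynomial ℂ := Q.map (algebraMap ℤ ℂ) with hQC
  have hinj : Function.Injective (algebraMap ℤ ℂ) := (algebraMap ℤ ℂ).injective_int
  have hQC0 : QC ≠ 0 := (Polynomial.map_ne_zero_iff hinj).2 hQ0
  have hsp : QC.Splits := IsAlgClosed.splits QC
  have hval : Polynomial.aeval z Q = QC.leadingCoeff * (QC.roots.map fun a => z - a).prod := by
    rw [← hsp.eval_eq_prod_roots, hQC, Polynomial.eval_map_algebraMap]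
  have hlead : 1 ≤ ‖QC.leadingCoeff‖ := by
    rw [hQC, Polynomial.leadingCoeff_map_of_injective hinj]
    rw [eq_intCast, Complex.norm_intCast]
    have : (1 : ℤ) ≤ |Q.leadingCoeff| := Int.one_le_abs (Polynomial.leadingCoeff_ne_zero.2 hQ0)
    exact_mod_cast this
  have hroots : ∀ θ ∈ QC.roots, c ≤ ‖θ - z‖ * M := by
    intro θ hθ
    have h1 : Polynomial.aeval θ Q = 0 := by
      have := (Polynomial.mem_roots hQC0).1 hθ
      rw [Polynomial.IsRoot.def, hQC, Polynomial.eval_map_algebraMap] at this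
      exact this
    exact (min_le_left _ _).trans (hkey Q (K * H ^ 2) θ hQ0 hQd hQc hH'1 h1)
  have hcard : Multiset.card QC.roots ≤ 2 * D :=
    (Polynomial.card_roots' QC).trans (by
      rw [hQC]
      exact (Polynomial.natDegree_map_le).trans hQd)
  have hlow : c ^ (2 * D) ≤ ‖Polynomial.aeval z Q‖ * M ^ (2 * D) := by
    have h1 := NUP_.ms hc0.le z QC.roots hroots
    calc c ^ (2 * D) ≤ c ^ (Multiset.card QC.roots) := pow_le_pow_of_le_one hc0.le hc1 hcard
      _ ≤ ‖(QC.roots.map fun a => z - a).prod‖ * M ^ (Multiset.card QC.roots) := h1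
      _ ≤ ‖(QC.roots.map fun a => z - a).prod‖ * M ^ (2 * D) :=
          mul_le_mul_of_nonneg_left (pow_le_pow_right₀ hM1 hcard) (norm_nonneg _)
      _ ≤ ‖Polynomial.aeval z Q‖ * M ^ (2 * D) := by
          apply mul_le_mul_of_nonneg_right _ (by positivity)
          rw [hval, norm_mul]
          exact le_mul_of_one_le_left (norm_nonneg _) hlead
  -- the upper bound
  have hup : ‖Polynomial.aeval z Q‖ ≤ |Polynomial.aeval Real.pi P| * (E * H) := by
    rw [hQ, NUP_.aeval_rQ hd z]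
    have e1 : Complex.I * 1 * z = ((-Real.pi : ℝ) : ℂ) := by
      rw [hz]
      push_cast
      linear_combination (Real.pi : ℂ) * Complex.I_sq
    have e2 : Complex.I * (-1) * z = ((Real.pi : ℝ) : ℂ) := by
      rw [hz]
      linear_combination (-(Real.pi : ℂ)) * Complex.I_sq
    rw [e1, e2, norm_mul, mul_comm]
    have e3 : Polynomial.aeval ((Real.pi : ℝ) : ℂ) P = ((Polynomial.aeval Real.pi P : ℝ) : ℂ) := by
      have := Polynomial.aeval_algebraMap_apply ℂ (Real.pi : ℝ) P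
      simpa using this
    rw [e3, Complex.norm_real, Real.norm_eq_abs]
    apply mul_le_mul_of_nonneg_left _ (abs_nonneg _)
    apply NUP_.val_le hd hcoef hH0
    rw [Complex.norm_real, norm_neg, Real.norm_of_nonneg Real.pi_pos.le]
    exact Real.pi_le_four
  rw [div_le_iff₀ (by positivity)]
  calc c ^ (2 * D) ≤ ‖Polynomial.aeval z Q‖ * M ^ (2 * D) := hlow
    _ ≤ (|Polynomial.aeval Real.pi P| * (E * H)) * M ^ (2 * D) :=
        mul_le_mul_of_nonneg_right hup (by positivity)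
    _ = _ := by
        have e1 : M ^ (2 * D) = K ^ (2 * D * μ) * H ^ (4 * D * μ) := by
          rw [hM, ← pow_mul, mul_pow, ← pow_mul]
          congr 2 <;> ring
        rw [e1, pow_succ]
        ring

end Pool.Agent.SGL
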