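import Pool.Agent.SGL.Stmts2

/-!
# PLC: the places of `L` as places of the tensor product
-/

set_option autoImplicit false

namespace Pool.Agent.SGL

open TensorProduct

namespace PLC_

/-- an element of the tensor product as a sum with independent right factors -/
theorem repr {K L M : Type} [Field K] [Field L] [Field M] [Algebra K L] [Algebra K M]
    (z : L ⊗[K] M) : ∃ (d : ℕ) (l : Fin d → L) (m : Fin d → M), LinearIndependent K m ∧
      z = ∑ i, l i ⊗ₜ[K] m i := by
  classical
  let B := Module.Basis.ofVectorSpace K M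
  obtain ⟨c, hc⟩ := TensorProduct.eq_repr_basis_right B z
  let e := c.support.equivFin
  refine ⟨c.support.card, fun i => c (e.symm i), fun i => B (e.symm i), ?_, ?_⟩
  · exact B.linearIndependent.comp (fun i => ((e.symm i : c.support) : _))
      (Subtype.val_injective.comp e.symm.injective)
  · rw [← hc, Finsupp.sum, ← Finset.sum_coe_sort]
    exact (Equiv.sum_comp e.symm (fun i : c.support => c i ⊗ₜ[K] B i)).symm

theorem const {K L : Type} [Field K] [IsAlgClosed K] [Field L] [Algebra K L] {l : L}
    (h : ¬ Transcendental K l) : ∃ c : K, algebraMap K L c = l := by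
  have h1 : IsAlgebraic K l := not_not.1 h
  have h2 : IsIntegral K l := h1.isIntegral
  have h3 := IsAlgClosed.degree_eq_one_of_irreducible K (minpoly.irreducible h2)
  exact minpoly.mem_range_of_degree_eq_one K l h3

end PLC_

open PLC_

theorem plc_proof (hVLR : Stmt_VLR) (hGSV : Stmt_GSV) : Stmt_PLC := by
  intro K L M F _ _ _ _ _ _ _ _ _
  classical
  choose w hw1 hw2 hw3 using
    fun (V : ValuationSubring L) (hV : ∀ c : K, algebraMap K L c ∈ V) => hGSV K L M F V hV
  refine ⟨{W | ∃ V hV, W = w V hV}, ?_, ?_, ?_⟩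
  · rintro W ⟨V, hV, rfl⟩ m hm
    exact hw1 V hV m hm
  · intro z hz
    obtain ⟨d, l, m, hm, rfl⟩ := repr z
    have h1 : ∀ i, ∃ c : K, algebraMap K L c = l i := by
      intro i
      apply const
      intro h2
      obtain ⟨V, hV, hl⟩ := hVLR K L (l i) h2
      exact hl (hw2 V hV d l m hm (hz _ ⟨V, hV, rfl⟩) i)
    choose c hc using h1
    refine ⟨∑ i, c i • m i, ?_⟩
    rw [TensorProduct.tmul_sum]
    apply Finset.sum_congr rfl
    intro i _
    rw [← hc i, Algebra.algebraMap_eq_smul_one, TensorProduct.smul_tmul]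
  · rintro D D' hD W ⟨V, hV, rfl⟩ z
    exact hw3 V hV D D' hD z

end Pool.Agent.SGL
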