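import Pool.Agent.SGL.Stmts

/-!
# QLD: quantitative linear independence over `Kf`
-/

set_option autoImplicit false

namespace Pool.Agent.SGL

open Filter Pool.Agent.SBT

namespace QLD_

variable {σ : Sc}

theorem cl_sum {ι : Type} (s : Finset ι) (f : ι → ℕ → ℝ) (h : ∀ i ∈ s, f i ∈ OO σ) :
    (fun n => ∑ i ∈ s, f i n) ∈ OO σ ∧
      cl σ (fun n => ∑ i ∈ s, f i n) = ∑ i ∈ s, cl σ (f i) := by
  classical
  induction s using Finset.induction_on with
  | empty => exact ⟨by simpa using const_mem (σ := σ) 0, by simpa using cl_zero (σ := σ)⟩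
  | insert i s hi ih =>
    have h1 := ih (fun j hj => h j (Finset.mem_insert_of_mem hj))
    have h2 := h i (Finset.mem_insert_self i s)
    have e : (fun n => ∑ j ∈ insert i s, f j n) =
        fun n => f i n + (fun n => ∑ j ∈ s, f j n) n := by
      funext n
      rw [Finset.sum_insert hi]
    rw [e, Finset.sum_insert hi, ← h1.2]
    exact ⟨(OO σ).add_mem h2 h1.1, cl_add h2 h1.1⟩

theorem cl_prod {ι : Type} (s : Finset ι) (f : ι → ℕ → ℝ) (h : ∀ i ∈ s, f i ∈ OO σ) :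
    (fun n => ∏ i ∈ s, f i n) ∈ OO σ ∧
      cl σ (fun n => ∏ i ∈ s, f i n) = ∏ i ∈ s, cl σ (f i) := by
  classical
  induction s using Finset.induction_on with
  | empty => exact ⟨by simpa using const_mem (σ := σ) 1, by simpa using cl_one (σ := σ)⟩
  | insert i s hi ih =>
    have h1 := ih (fun j hj => h j (Finset.mem_insert_of_mem hj))
    have h2 := h i (Finset.mem_insert_self i s)
    have e : (fun n => ∏ j ∈ insert i s, f j n) =
        fun n => f i n * (fun n => ∏ j ∈ s, f j n) n := by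
      funext n
      rw [Finset.prod_insert hi]
    rw [e, Finset.prod_insert hi, ← h1.2]
    exact ⟨(OO σ).mul_mem h2 h1.1, cl_mul h2 h1.1⟩

theorem cl_pow (f : ℕ → ℝ) (h : f ∈ OO σ) (k : ℕ) :
    (fun n => f n ^ k) ∈ OO σ ∧ cl σ (fun n => f n ^ k) = cl σ f ^ k := by
  have h1 := cl_prod (σ := σ) (Finset.range k) (fun _ => f) (fun _ _ => h)
  simpa using h1

/-- a polynomial in independent units whose value is super small is zero -/
theorem ev_ne (hGAU : Stmt_GAU) (hKWD : Stmt_KWD) {B S : Finset ℕ} (hB : ∀ b ∈ B, 2 ≤ b)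
    {r : ℕ} {g : Fin r → ℕ → ℚ} (hG : Gd σ.U S σ.T g) (hW : ∀ i, Wd σ B (g i))
    (P : MvPolynomial (Fin r) ℚ) (hP : cl σ (fun n => ((ev g n P : ℚ) : ℝ)) = 0) : P = 0 := by
  by_contra h0
  obtain ⟨e, he⟩ := MvPolynomial.support_nonempty.2 h0
  have h1 := hGAU σ.U S σ.T r g hG P 1 one_pos e he
  obtain ⟨-, h2, h3⟩ := hKWD σ B hB
  have h4 := (h3 r g P hW).1
  rw [cl_zero_iff h4] at hP
  have h5 : SS σ (fun n => ∏ i, ((g i n : ℚ) : ℝ) ^ (e i)) := by
    intro C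
    filter_upwards [h1, hP (C + 1)] with n h6 h7
    have h8 : av 0 (mon g e n) = |∏ i, ((g i n : ℚ) : ℝ) ^ (e i)| := by
      unfold av mon
      rw [if_pos rfl]
      push_cast
      rfl
    rw [h8] at h6
    refine h6.trans ?_
    calc Real.exp (1 * σ.T n) * |((ev g n P : ℚ) : ℝ)|
        ≤ Real.exp (1 * σ.T n) * Real.exp (-((C + 1) * σ.T n)) :=
          mul_le_mul_of_nonneg_left h7 (Real.exp_pos _).le
      _ = Real.exp (-(C * σ.T n)) := by
          rw [← Real.exp_add]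
          congr 1
          ring
  have h6 : ∀ i, (fun n => ((g i n : ℚ) : ℝ)) ∈ OO σ := fun i => (h2 (g i) (hW i)).1
  have h7 := cl_prod (σ := σ) Finset.univ (fun i n => ((g i n : ℚ) : ℝ) ^ (e i))
    (fun i _ => (cl_pow _ (h6 i) (e i)).1)
  have h8 := (cl_zero_iff h7.1).2 h5
  rw [h7.2, Finset.prod_eq_zero_iff] at h8
  obtain ⟨i, -, h9⟩ := h8
  rw [(cl_pow _ (h6 i) (e i)).2] at h9
  exact (h2 (g i) (hW i)).2.2 (eq_zero_of_pow_eq_zero h9)

/-- a common bound for finitely many rational sequences -/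
theorem common {d : ℕ} {q : Fin d → ℕ → ℚ} (h : ∀ i, Hq σ (q i)) :
    ∃ C : ℝ, 0 ≤ C ∧ ∀ᶠ n in (σ.U : Filter ℕ), ∀ i, |((q i n).num : ℝ)| ≤ Real.exp (C * σ.T n) ∧
      ((q i n).den : ℝ) ≤ Real.exp (C * σ.T n) := by
  choose C hC using h
  refine ⟨∑ i, |C i|, Finset.sum_nonneg (fun i _ => abs_nonneg _), ?_⟩
  filter_upwards [eventually_all.2 hC, σ.large 0] with n h1 h2 i
  have h3 : Real.exp (C i * σ.T n) ≤ Real.exp ((∑ i, |C i|) * σ.T n) := by
    apply Real.exp_le_exp.2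
    apply mul_le_mul_of_nonneg_right _ h2
    exact (le_abs_self _).trans
      (Finset.single_le_sum (f := fun i => |C i|) (fun i _ => abs_nonneg _) (Finset.mem_univ i))
  exact ⟨(h1 i).1.trans h3, (h1 i).2.trans h3⟩

/-- the common denominator -/
def Dn {d : ℕ} (q : Fin d → ℕ → ℚ) (n : ℕ) : ℕ := ∏ i, (q i n).den

/-- the numerators -/
def Zn {d : ℕ} (q : Fin d → ℕ → ℚ) (i : Fin d) (n : ℕ) : ℤ :=
  (q i n).num * ∏ j ∈ Finset.univ.erase i, ((q j n).den : ℤ)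

theorem Zn_eq {d : ℕ} (q : Fin d → ℕ → ℚ) (i : Fin d) (n : ℕ) :
    (Zn q i n : ℚ) = q i n * (Dn q n : ℚ) := by
  unfold Zn Dn
  push_cast
  rw [← Finset.mul_prod_erase Finset.univ (fun j => ((q j n).den : ℚ)) (Finset.mem_univ i),
    ← mul_assoc]
  congr 1
  exact (Rat.mul_den_eq_num (q i n)).symm

theorem Dn_pos {d : ℕ} (q : Fin d → ℕ → ℚ) (n : ℕ) : 0 < Dn q n :=
  Finset.prod_pos (fun i _ => (q i n).pos)

theorem Dn_le {d : ℕ} (q : Fin d → ℕ → ℚ) (n : ℕ) {x : ℝ}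
    (h : ∀ i, ((q i n).den : ℝ) ≤ Real.exp x) : (Dn q n : ℝ) ≤ Real.exp (d * x) := by
  unfold Dn
  push_cast
  calc ∏ i, ((q i n).den : ℝ) ≤ ∏ _i : Fin d, Real.exp x :=
        Finset.prod_le_prod (fun i _ => Nat.cast_nonneg _) (fun i _ => h i)
    _ = Real.exp (d * x) := by
        rw [Finset.prod_const, Finset.card_univ, Fintype.card_fin, ← Real.exp_nat_mul]

theorem Zn_le {d : ℕ} (q : Fin d → ℕ → ℚ) (n : ℕ) {x : ℝ} (i : Fin d)
    (h : ∀ i, |((q i n).num : ℝ)| ≤ Real.exp x ∧ ((q i n).den : ℝ) ≤ Real.exp x) :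
    |(Zn q i n : ℝ)| ≤ Real.exp (d * x) := by
  unfold Zn
  push_cast
  rw [abs_mul, Finset.abs_prod]
  have h1 : ∏ j ∈ Finset.univ.erase i, |((q j n).den : ℝ)| ≤
      ∏ _j ∈ (Finset.univ : Finset (Fin d)).erase i, Real.exp x := by
    apply Finset.prod_le_prod (fun i _ => abs_nonneg _)
    intro j _
    rw [Nat.abs_cast]
    exact (h j).2
  calc |((q i n).num : ℝ)| * ∏ j ∈ Finset.univ.erase i, |((q j n).den : ℝ)|
      ≤ Real.exp x * ∏ _j ∈ (Finset.univ : Finset (Fin d)).erase i, Real.exp x :=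
        mul_le_mul (h i).1 h1 (Finset.prod_nonneg (fun i _ => abs_nonneg _)) (Real.exp_pos _).le
    _ = ∏ _j : Fin d, Real.exp x :=
        Finset.mul_prod_erase Finset.univ (fun _ => Real.exp x) (Finset.mem_univ i)
    _ = Real.exp (d * x) := by
        rw [Finset.prod_const, Finset.card_univ, Fintype.card_fin, ← Real.exp_nat_mul]

end QLD_

open QLD_

theorem qld_proof (hKQT : Stmt_KQT) (hKWD : Stmt_KWD) (hGAU : Stmt_GAU) (hS2T : SBT.Stmt_S2T) :
    Stmt_QLD := by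
  intro σ B hB d z hz hI
  classical
  choose q hq hqz using hz
  obtain ⟨C, hC0, hC⟩ := common (σ := σ) hq
  set B₀ : ℝ := d * C with hB₀
  have hB₀0 : 0 ≤ B₀ := mul_nonneg (Nat.cast_nonneg _) hC0
  refine ⟨d * B₀ + B₀, ?_⟩
  intro κ hκ e hV i
  set S : Finset ℕ := B.biUnion Nat.primeFactors with hS
  have hPS : PS S := by
    intro p hp
    obtain ⟨b, -, h⟩ := Finset.mem_biUnion.1 hp
    exact Nat.prime_of_mem_primeFactors h
  have hSB : ∀ p : ℕ, p.Prime → ∀ b ∈ B, p ∣ b → p ∈ S := by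
    intro p hp b hb hpb
    exact Finset.mem_biUnion.2 ⟨b, hb, Nat.mem_primeFactors.2 ⟨hp, hpb, by
      have := hB b hb
      omega⟩⟩
  obtain ⟨r, g, Q, P, hG, hW, hQ, hQP⟩ := hKQT σ B S d κ hPS hB hSB hκ
  obtain ⟨-, -, hK3⟩ := hKWD σ B hB
  have hQ0 : cl σ (fun n => ((ev g n Q : ℚ) : ℝ)) ≠ 0 := fun h => hQ (ev_ne hGAU hKWD hB hG hW Q h)
  have hQm := (hK3 r g Q hW).1
  have hPm : ∀ j, (fun n => ((ev g n (P j) : ℚ) : ℝ)) ∈ OO σ := fun j => (hK3 r g (P j) hW).1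
  have hqm : ∀ j, (fun n => ((q j n : ℚ) : ℝ)) ∈ OO σ := fun j => Hq_mem (hq j)
  -- independence
  have hInd : Indp σ.U g (Zn q) := by
    intro H hH
    have h1 : ∀ᶠ n in (σ.U : Filter ℕ),
        (∑ j, ((ev g n (H j) : ℚ) : ℝ) * ((q j n : ℚ) : ℝ)) = 0 := by
      filter_upwards [hH] with n hn
      have h2 : (∑ j, ev g n (H j) * q j n) * (Dn q n : ℚ) = 0 := by
        rw [Finset.sum_mul, ← hn]
        apply Finset.sum_congr rfl
        intro j _
        rw [Zn_eq, mul_assoc]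
      have h3 : (Dn q n : ℚ) ≠ 0 := by exact_mod_cast (Dn_pos q n).ne'
      have h4 := (mul_eq_zero.1 h2).resolve_right h3
      exact_mod_cast h4
    have hHm : ∀ j, (fun n => ((ev g n (H j) : ℚ) : ℝ)) ∈ OO σ := fun j => (hK3 r g (H j) hW).1
    have h2 := cl_sum (σ := σ) Finset.univ
      (fun j n => ((ev g n (H j) : ℚ) : ℝ) * ((q j n : ℚ) : ℝ))
      (fun j _ => (OO σ).mul_mem (hHm j) (hqm j))
    have h3 : cl σ (fun n => ∑ j, ((ev g n (H j) : ℚ) : ℝ) * ((q j n : ℚ) : ℝ)) = 0 := by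
      rw [← cl_zero (σ := σ)]
      exact cl_congr h1
    rw [h2.2] at h3
    have h4 : ∑ j, cl σ (fun n => ((ev g n (H j) : ℚ) : ℝ)) * z j = 0 := by
      rw [← h3]
      apply Finset.sum_congr rfl
      intro j _
      rw [cl_mul (hHm j) (hqm j), hqz j]
    have h5 := hI _ (fun j => (hK3 r g (H j) hW).2) h4
    funext j
    exact ev_ne hGAU hKWD hB hG hW (H j) (congrFun h5 j)
  have hZ : ∀ᶠ n in (σ.U : Filter ℕ), ∀ i, |(Zn q i n : ℝ)| ≤ Real.exp (B₀ * σ.T n) := by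
    filter_upwards [hC] with n hn i
    have := Zn_le q n i hn
    rwa [← mul_assoc] at this
  -- the representative of the sum
  set F : ℕ → ℝ := fun n => (∑ j, ((ev g n (P j) : ℚ) : ℝ) * ((q j n : ℚ) : ℝ)) with hF
  have h2 := cl_sum (σ := σ) Finset.univ
      (fun j n => ((ev g n (P j) : ℚ) : ℝ) * ((q j n : ℚ) : ℝ))
      (fun j _ => (OO σ).mul_mem (hPm j) (hqm j))
  have hFm : F ∈ OO σ := h2.1
  have hFc : cl σ F = (∑ j, κ j * z j) * cl σ (fun n => ((ev g n Q : ℚ) : ℝ)) := by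
    rw [hF, h2.2]
    refine Eq.trans ?_ (Finset.sum_mul Finset.univ (fun j => κ j * z j)
      (cl σ (fun n => ((ev g n Q : ℚ) : ℝ)))).symm
    apply Finset.sum_congr rfl
    intro j _
    rw [cl_mul (hPm j) (hqm j), hqz j, ← hQP j]
    ring
  have hQS : ¬ SS σ (fun n => ((ev g n Q : ℚ) : ℝ)) := fun h => hQ0 ((cl_zero_iff hQm).2 h)
  have hQi := inv_mem hQS
  have hFQm : (fun n => F n * (((ev g n Q : ℚ) : ℝ))⁻¹) ∈ OO σ := (OO σ).mul_mem hFm hQi
  have hFQ : cl σ (fun n => F n * (((ev g n Q : ℚ) : ℝ))⁻¹) = ∑ j, κ j * z j := by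
    rw [cl_mul hFm hQi, hFc, cl_inv hQm hQ0, mul_assoc, mul_inv_cancel₀ hQ0, mul_one]
  have hκm : (fun n => ((ev g n (P i) : ℚ) : ℝ) * (((ev g n Q : ℚ) : ℝ))⁻¹) ∈ OO σ :=
    (OO σ).mul_mem (hPm i) hQi
  have hκi : cl σ (fun n => ((ev g n (P i) : ℚ) : ℝ) * (((ev g n Q : ℚ) : ℝ))⁻¹) = κ i := by
    rw [cl_mul (hPm i) hQi, ← hQP i, cl_inv hQm hQ0, mul_assoc, mul_inv_cancel₀ hQ0, mul_one]
  rw [← hFQ, V_cl hFQm] at hV
  rw [← hκi, V_cl hκm]
  intro c' hc'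
  obtain ⟨ε, hε, hε2⟩ : ∃ ε : ℝ, 0 < ε ∧ e + (d * B₀ + B₀) + 3 * ε = c' :=
    ⟨(c' - (e + (d * B₀ + B₀))) / 3, by linarith, by ring⟩
  have h3 : ∀ e' ∈ (P i).support, ∀ᶠ n in (σ.U : Filter ℕ), av 0 (mon g e' n) ≤
      Real.exp ((d * B₀ + ε) * σ.T n) *
        |((∑ i, ev g n (P i) * (Zn q i n : ℚ) : ℚ) : ℝ)| :=
    hS2T σ.U S σ.T r d g (Zn q) B₀ ε P hG hB₀0 hε hZ hInd i
  have h4 : ∀ᶠ n in (σ.U : Filter ℕ), ∀ e' ∈ (P i).support, av 0 (mon g e' n) ≤
      Real.exp ((d * B₀ + ε) * σ.T n) *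
        |((∑ i, ev g n (P i) * (Zn q i n : ℚ) : ℚ) : ℝ)| :=
    (Finset.eventually_all _).2 h3
  set K : ℝ := ∑ e' ∈ (P i).support, |((MvPolynomial.coeff e' (P i) : ℚ) : ℝ)| with hK
  have hK0 : 0 ≤ K := Finset.sum_nonneg (fun _ _ => abs_nonneg _)
  filter_upwards [h4, hV (e + ε) (by linarith), hC, σ.large (K / ε), σ.large 0]
    with n h5 h6 h7 h8 h9
  have h10 : K ≤ Real.exp (ε * σ.T n) := by
    rw [div_le_iff₀ hε] at h8
    have := Real.add_one_le_exp (ε * σ.T n)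
    linarith
  have h11 : ((∑ i, ev g n (P i) * (Zn q i n : ℚ) : ℚ) : ℝ) = F n * (Dn q n : ℝ) := by
    have : (∑ i, ev g n (P i) * (Zn q i n : ℚ) : ℚ) =
        (∑ i, ev g n (P i) * q i n) * (Dn q n : ℚ) := by
      rw [Finset.sum_mul]
      apply Finset.sum_congr rfl
      intro j _
      rw [Zn_eq, mul_assoc]
    rw [this, hF]
    push_cast
    rfl
  have h12 : |((ev g n (P i) : ℚ) : ℝ)| ≤
      K * (Real.exp ((d * B₀ + ε) * σ.T n) * |F n * (Dn q n : ℝ)|) := by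
    have h13 : ((ev g n (P i) : ℚ) : ℝ) = ∑ e' ∈ (P i).support,
        ((MvPolynomial.coeff e' (P i) : ℚ) : ℝ) * ((mon g e' n : ℚ) : ℝ) := by
      unfold ev mon
      rw [MvPolynomial.eval_eq']
      push_cast
      rfl
    rw [h13, hK, Finset.sum_mul]
    refine (Finset.abs_sum_le_sum_abs _ _).trans (Finset.sum_le_sum ?_)
    intro e' he'
    rw [abs_mul]
    apply mul_le_mul_of_nonneg_left _ (abs_nonneg _)
    have h14 := h5 e' he'
    rw [h11] at h14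
    unfold av at h14
    rwa [if_pos rfl] at h14
  have h13 : (Dn q n : ℝ) ≤ Real.exp (B₀ * σ.T n) := by
    have := Dn_le q n (fun i => (h7 i).2)
    rwa [← mul_assoc] at this
  have hx := Real.exp_pos ((d * B₀ + ε) * σ.T n)
  rw [abs_mul] at h6 ⊢
  have h14 : |F n * (Dn q n : ℝ)| = |F n| * (Dn q n : ℝ) := by
    rw [abs_mul, Nat.abs_cast]
  rw [h14] at h12
  calc |((ev g n (P i) : ℚ) : ℝ)| * |(((ev g n Q : ℚ) : ℝ))⁻¹|
      ≤ (K * (Real.exp ((d * B₀ + ε) * σ.T n) * (|F n| * (Dn q n : ℝ)))) *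
          |(((ev g n Q : ℚ) : ℝ))⁻¹| := mul_le_mul_of_nonneg_right h12 (abs_nonneg _)
    _ = K * (Real.exp ((d * B₀ + ε) * σ.T n) * ((|F n| * |(((ev g n Q : ℚ) : ℝ))⁻¹|) *
          (Dn q n : ℝ))) := by ring
    _ ≤ Real.exp (ε * σ.T n) * (Real.exp ((d * B₀ + ε) * σ.T n) *
          (Real.exp ((e + ε) * σ.T n) * Real.exp (B₀ * σ.T n))) := by
        apply mul_le_mul h10 _ (by positivity) (Real.exp_pos _).le
        apply mul_le_mul_of_nonneg_left _ hx.le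
        exact mul_le_mul h6 h13 (Nat.cast_nonneg _) (Real.exp_pos _).le
    _ = Real.exp (c' * σ.T n) := by
        rw [← Real.exp_add, ← Real.exp_add, ← Real.exp_add, ← hε2]
        congr 1
        ring

end Pool.Agent.SGL
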