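import Pool.Agent.SGL.Stmts

set_option autoImplicit false

namespace Pool.Agent.SGL

namespace RGE_

variable {F : Type} [Field F]

/-- sums of products over a finite type -/
def Sp (A B : Subfield F) (x : F) : Prop :=
  ∃ (ι : Type) (_ : Fintype ι) (a b : ι → F), (∀ i, a i ∈ A) ∧ (∀ i, b i ∈ B) ∧
    x = ∑ i, a i * b i

theorem sp_of_mem {A B : Subfield F} {x : F} (hx : x ∈ Rg A B) : Sp A B x := by
  unfold Rg at hx
  induction hx using Subring.closure_induction with
  | mem x h =>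
    rcases h with h | h
    · exact ⟨Unit, inferInstance, fun _ => x, fun _ => 1, fun _ => h, fun _ => B.one_mem, by simp⟩
    · exact ⟨Unit, inferInstance, fun _ => 1, fun _ => x, fun _ => A.one_mem, fun _ => h, by simp⟩
  | zero =>
    exact ⟨Empty, inferInstance, fun _ => 0, fun _ => 0, fun _ => A.zero_mem,
      fun _ => B.zero_mem, by simp⟩
  | one =>
    exact ⟨Unit, inferInstance, fun _ => 1, fun _ => 1, fun _ => A.one_mem, fun _ => B.one_mem,
      by simp⟩
  | add x y _ _ hx hy =>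
    obtain ⟨ι, fι, a, b, ha, hb, hx⟩ := hx
    obtain ⟨κ, fκ, a', b', ha', hb', hy⟩ := hy
    refine ⟨ι ⊕ κ, inferInstance, Sum.elim a a', Sum.elim b b', ?_, ?_, ?_⟩
    · rintro (i | i)
      · exact ha i
      · exact ha' i
    · rintro (i | i)
      · exact hb i
      · exact hb' i
    · rw [Fintype.sum_sum_type]
      simp only [Sum.elim_inl, Sum.elim_inr]
      rw [hx, hy]
  | neg x _ hx =>
    obtain ⟨ι, fι, a, b, ha, hb, hx⟩ := hx
    refine ⟨ι, fι, fun i => - a i, b, fun i => A.neg_mem (ha i), hb, ?_⟩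
    rw [hx, ← Finset.sum_neg_distrib]
    exact Finset.sum_congr rfl fun i _ => by ring
  | mul x y _ _ hx hy =>
    obtain ⟨ι, fι, a, b, ha, hb, hx⟩ := hx
    obtain ⟨κ, fκ, a', b', ha', hb', hy⟩ := hy
    refine ⟨ι × κ, inferInstance, fun p => a p.1 * a' p.2, fun p => b p.1 * b' p.2,
      fun p => A.mul_mem (ha _) (ha' _), fun p => B.mul_mem (hb _) (hb' _), ?_⟩
    rw [Fintype.sum_prod_type, hx, hy, Finset.sum_mul_sum]
    exact Finset.sum_congr rfl fun i _ => Finset.sum_congr rfl fun j _ => by ring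

theorem mem_left {A B : Subfield F} {x : F} (hx : x ∈ A) : x ∈ Rg A B :=
  Subring.subset_closure (Or.inl hx)

theorem mem_right {A B : Subfield F} {x : F} (hx : x ∈ B) : x ∈ Rg A B :=
  Subring.subset_closure (Or.inr hx)

theorem mem_of_sp {A B : Subfield F} {x : F} (hx : Sp A B x) : x ∈ Rg A B := by
  obtain ⟨ι, fι, a, b, ha, hb, rfl⟩ := hx
  exact sum_mem fun i _ => mul_mem (mem_left (ha i)) (mem_right (hb i))

/-- the same with `Fin d` -/
theorem sp_iff {A B : Subfield F} {x : F} : x ∈ Rg A B ↔ ∃ (d : ℕ) (a b : Fin d → F),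
    (∀ i, a i ∈ A) ∧ (∀ i, b i ∈ B) ∧ x = ∑ i, a i * b i := by
  constructor
  · intro hx
    obtain ⟨ι, fι, a, b, ha, hb, hx⟩ := sp_of_mem hx
    refine ⟨Fintype.card ι, fun i => a ((Fintype.equivFin ι).symm i),
      fun i => b ((Fintype.equivFin ι).symm i), fun i => ha _, fun i => hb _, ?_⟩
    rw [hx]
    exact ((Fintype.equivFin ι).symm.sum_comp (fun i => a i * b i)).symm
  · rintro ⟨d, a, b, ha, hb, hx⟩
    exact mem_of_sp ⟨Fin d, inferInstance, a, b, ha, hb, hx⟩

/-- quotients -/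
def Qf (A B : Subfield F) : Subfield F where
  carrier := {x | ∃ q ∈ Rg A B, q ≠ 0 ∧ q * x ∈ Rg A B}
  zero_mem' := ⟨1, one_mem _, one_ne_zero, by rw [mul_zero]; exact zero_mem _⟩
  one_mem' := ⟨1, one_mem _, one_ne_zero, by rw [mul_one]; exact one_mem _⟩
  add_mem' := by
    rintro x y ⟨q, hq, hq0, hqx⟩ ⟨r, hr, hr0, hry⟩
    refine ⟨q * r, mul_mem hq hr, mul_ne_zero hq0 hr0, ?_⟩
    have : q * r * (x + y) = r * (q * x) + q * (r * y) := by ring
    rw [this]
    exact add_mem (mul_mem hr hqx) (mul_mem hq hry)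
  mul_mem' := by
    rintro x y ⟨q, hq, hq0, hqx⟩ ⟨r, hr, hr0, hry⟩
    refine ⟨q * r, mul_mem hq hr, mul_ne_zero hq0 hr0, ?_⟩
    have : q * r * (x * y) = (q * x) * (r * y) := by ring
    rw [this]
    exact mul_mem hqx hry
  neg_mem' := by
    rintro x ⟨q, hq, hq0, hqx⟩
    refine ⟨q, hq, hq0, ?_⟩
    rw [mul_neg]
    exact neg_mem hqx
  inv_mem' := by
    rintro x ⟨q, hq, hq0, hqx⟩
    by_cases hx : x = 0
    · subst hx
      exact ⟨1, one_mem _, one_ne_zero, by rw [inv_zero, mul_zero]; exact zero_mem _⟩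
    · refine ⟨q * x, hqx, mul_ne_zero hq0 hx, ?_⟩
      rw [mul_assoc, mul_inv_cancel₀ hx, mul_one]
      exact hq

theorem sup_le_Qf (A B : Subfield F) : A ⊔ B ≤ Qf A B := by
  refine sup_le ?_ ?_
  · intro x hx
    exact ⟨1, one_mem _, one_ne_zero, by rw [one_mul]; exact mem_left hx⟩
  · intro x hx
    exact ⟨1, one_mem _, one_ne_zero, by rw [one_mul]; exact mem_right hx⟩

theorem le_sup {A B : Subfield F} {x : F} (hx : x ∈ Rg A B) : x ∈ A ⊔ B := by
  have h : Rg A B ≤ (A ⊔ B).toSubring := by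
    unfold Rg
    rw [Subring.closure_le]
    rintro y (hy | hy)
    · exact (le_sup_left : A ≤ A ⊔ B) hy
    · exact (le_sup_right : B ≤ A ⊔ B) hy
  exact h hx

/-- common independent elements -/
theorem common (K A B : Subfield F) (hKA : K ≤ A) (s : ℕ) (x : Fin s → F)
    (hx : ∀ i, x i ∈ Rg A B) :
    ∃ (d : ℕ) (b : Fin d → F) (α : Fin s → Fin d → F), (∀ j, b j ∈ B) ∧ Ind K b ∧
      (∀ i j, α i j ∈ A) ∧ ∀ i, x i = ∑ j, α i j * b j := by
  choose ι fι a b ha hb hxe using fun i => sp_of_mem (hx i)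
  obtain ⟨t, ht, hspan, hli⟩ := exists_linearIndependent K
    (Set.range fun p : (Σ i, ι i) => b p.1 p.2)
  have hfin : (Set.range fun p : (Σ i, ι i) => b p.1 p.2).Finite := Set.finite_range _
  have htf : t.Finite := hfin.subset ht
  let ft : Fintype t := htf.fintype
  have hex : ∀ p : (Σ i, ι i), ∃ κ : t → K, ∑ u, κ u • (u : F) = b p.1 p.2 := by
    intro p
    have h1 : b p.1 p.2 ∈ Submodule.span K t := by
      rw [hspan]
      exact Submodule.subset_span ⟨p, rfl⟩
    have h2 : b p.1 p.2 ∈ Submodule.span K (Set.range (Subtype.val : t → F)) := by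
      rw [Subtype.range_coe_subtype]
      exact h1
    exact (Submodule.mem_span_range_iff_exists_fun K).1 h2
  choose κ hκ using hex
  let e := Fintype.equivFin t
  refine ⟨Fintype.card t, fun j => (e.symm j : F),
    fun i j => ∑ u, a i u * (κ ⟨i, u⟩ (e.symm j) : F), ?_, ?_, ?_, ?_⟩
  · intro j
    obtain ⟨p, hp⟩ := ht (e.symm j).2
    have h1 : ((e.symm j : t) : F) ∈ B := by
      rw [← hp]
      exact hb _ _
    exact h1
  · intro c hc hsum
    have h1 := Fintype.linearIndependent_iff.1 hli (fun u => ⟨c (e u), hc _⟩) (by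
      rw [← hsum, ← e.sum_comp (fun j => c j * (e.symm j : F))]
      refine Finset.sum_congr rfl fun u _ => ?_
      rw [e.symm_apply_apply]
      rfl)
    funext j
    have h2 := congrArg Subtype.val (h1 (e.symm j))
    simpa using h2
  · intro i j
    exact sum_mem fun u _ => mul_mem (ha _ _) (hKA (κ _ _).2)
  · intro i
    calc x i = ∑ u, a i u * b i u := hxe i
      _ = ∑ u, a i u * ∑ v, (κ ⟨i, u⟩ v : F) * (v : F) := by
          refine Finset.sum_congr rfl fun u _ => ?_
          rw [← hκ ⟨i, u⟩]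
          rfl
      _ = ∑ u, ∑ v, a i u * (κ ⟨i, u⟩ v : F) * (v : F) := by
          refine Finset.sum_congr rfl fun u _ => ?_
          rw [Finset.mul_sum]
          exact Finset.sum_congr rfl fun v _ => by ring
      _ = ∑ v, ∑ u, a i u * (κ ⟨i, u⟩ v : F) * (v : F) := Finset.sum_comm
      _ = ∑ v, (∑ u, a i u * (κ ⟨i, u⟩ v : F)) * (v : F) := by
          refine Finset.sum_congr rfl fun v _ => ?_
          rw [Finset.sum_mul]
      _ = ∑ j, (∑ u, a i u * (κ ⟨i, u⟩ (e.symm j) : F)) * (e.symm j : F) :=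
          (e.symm.sum_comp (fun v => (∑ u, a i u * (κ ⟨i, u⟩ v : F)) * (v : F))).symm

/-- common denominators -/
theorem denom (A B : Subfield F) (s : ℕ) (x : Fin s → F) (hx : ∀ i, x i ∈ A ⊔ B) :
    ∃ q ∈ Rg A B, q ≠ 0 ∧ ∀ i, q * x i ∈ Rg A B := by
  choose q hq hq0 hqx using fun i => sup_le_Qf A B (hx i)
  refine ⟨∏ i, q i, prod_mem fun i _ => hq i, Finset.prod_ne_zero_iff.2 fun i _ => hq0 i, ?_⟩
  intro i
  rw [← Finset.mul_prod_erase Finset.univ q (Finset.mem_univ i)]
  have : q i * (∏ j ∈ Finset.univ.erase i, q j) * x i =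
      (∏ j ∈ Finset.univ.erase i, q j) * (q i * x i) := by ring
  rw [this]
  exact mul_mem (prod_mem fun j _ => hq j) (hqx i)

end RGE_

theorem rge_proof : Stmt_RGE := by
  intro F _ K A B hKA _
  exact ⟨fun x => RGE_.sp_iff, fun s x hx => RGE_.common K A B hKA s x hx,
    fun s x hx => RGE_.denom A B s x hx, fun x hx => RGE_.le_sup hx⟩

end Pool.Agent.SGL
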