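import Pool.Agent.SGL.Stmts2

set_option autoImplicit false

namespace Pool.Agent.SGL

open Filter Pool.Agent.SBT TensorProduct

namespace SGA_

theorem isAlgClosed_ac (F : Type) [Field F] [IsAlgClosed F] (K : Subfield F) :
    IsAlgClosed (ac K ⊤) := by
  haveI h1 : IsAlgClosed (algebraicClosure K F) :=
    (inferInstance : IsAlgClosure K (algebraicClosure K F)).isAlgClosed
  have e : (algebraicClosure K F) ≃+* (ac K ⊤ : Subfield F) :=
    { toFun := fun x => ⟨x.1, mem_ac.2 ⟨mem_algebraicClosure_iff.1 x.2, Subfield.mem_top _⟩⟩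
      invFun := fun x => ⟨x.1, mem_algebraicClosure_iff.2 (mem_ac.1 x.2).1⟩
      left_inv := fun x => rfl
      right_inv := fun x => rfl
      map_mul' := fun x y => rfl
      map_add' := fun x y => rfl }
  exact IsAlgClosed.of_ringEquiv _ _ e

/-- injectivity of the multiplication map -/
theorem inj (F : Type) [Field F] (K L M : Subfield F) [Algebra K L] [Algebra K M]
    (h1 : ∀ c : K, ((algebraMap K L c : L) : F) = c)
    (hd : LDj K L M) (θ : (L ⊗[K] M) →ₐ[K] F)
    (hθ : ∀ (l : L) (m : M), θ (l ⊗ₜ[K] m) = (l : F) * m) : Function.Injective θ := by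
  rw [injective_iff_map_eq_zero]
  intro z hz
  classical
  set ℬ := Module.Basis.ofVectorSpace K L with hB
  obtain ⟨c, rfl⟩ := TensorProduct.eq_repr_basis_left ℬ z
  rw [Finsupp.sum, map_sum] at hz
  simp only [hθ] at hz
  set e := c.support.equivFin with he
  have h2 : ∑ i : Fin c.support.card, ((ℬ (e.symm i).1 : L) : F) * ((c (e.symm i).1 : M) : F) = 0 := by
    rw [← hz]
    rw [← Finset.sum_coe_sort c.support (fun i => ((ℬ i : L) : F) * ((c i : M) : F))]
    exact Fintype.sum_equiv e.symm _ _ (fun i => rfl)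
  have hli := ℬ.linearIndependent
  have h3 := hd c.support.card (fun i => ((ℬ (e.symm i).1 : L) : F))
    (fun i => ((c (e.symm i).1 : M) : F)) (fun i => (ℬ (e.symm i).1).2)
    (fun i => (c (e.symm i).1).2) (by
      intro κ hκ hs
      have h4 : ∑ i : Fin c.support.card, (⟨κ i, hκ i⟩ : K) • ℬ (e.symm i).1 = 0 := by
        apply Subtype.val_injective
        have h5 : ((∑ i : Fin c.support.card, (⟨κ i, hκ i⟩ : K) • ℬ (e.symm i).1 : L) : F) =
            ∑ i : Fin c.support.card, κ i * ((ℬ (e.symm i).1 : L) : F) := by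
          rw [← Subfield.coe_subtype, map_sum]
          refine Finset.sum_congr rfl fun i _ => ?_
          rw [Algebra.smul_def, map_mul]
          congr 1
          exact h1 _
        rw [h5, hs]
        rfl
      have h6 : LinearIndependent K (fun i : Fin c.support.card => ℬ (e.symm i).1) :=
        hli.comp (fun i : Fin c.support.card => (e.symm i).1)
          (fun i j hij => e.symm.injective (Subtype.ext hij))
      have h7 := Fintype.linearIndependent_iff.mp h6 (fun i => (⟨κ i, hκ i⟩ : K)) h4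
      funext i
      have := h7 i
      exact congrArg Subtype.val this) h2
  have h8 : c = 0 := by
    ext i
    by_contra hne
    have hne' : c i ≠ 0 := fun h => hne (by rw [h]; rfl)
    have hi : i ∈ c.support := Finsupp.mem_support_iff.mpr hne'
    have h9 := congrFun h3 (e ⟨i, hi⟩)
    simp only [Equiv.symm_apply_apply, Pi.zero_apply] at h9
    exact hne h9
  rw [h8, Finsupp.sum_zero_index]

theorem upst (hST3 : Stmt_ST3) (hSTH : Stmt_STH) (F : Type) [Field F] [CharZero F]
    (K L M : Subfield F) (hK : IsAlgClosed K) (hKL : K ≤ L) (hKM : K ≤ M) (hd : LDj K L M)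
    (f : Polynomial ℚ) (hf : Squarefree f) (x : F) (hx : x ∈ Rg L M) :
    (2 ≤ f.natDegree → Polynomial.aeval x f ≠ 0 → (Polynomial.aeval x f)⁻¹ ∈ Rg L M →
      x ∈ L ∨ x ∈ M) ∧
    ∀ (y : F) (e : ℕ), e + f.natDegree < e * f.natDegree → y ∈ Rg L M →
      y ^ e = Polynomial.aeval x f → x ∈ L ∨ x ∈ M := by
  letI : Algebra K L := (Subfield.inclusion hKL).toAlgebra
  letI : Algebra K M := (Subfield.inclusion hKM).toAlgebra
  let fL : L →ₐ[K] F := { L.subtype with commutes' := fun _ => rfl }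
  let fM : M →ₐ[K] F := { M.subtype with commutes' := fun _ => rfl }
  let θ : (L ⊗[K] M) →ₐ[K] F := Algebra.TensorProduct.productMap fL fM
  have hθ : ∀ (l : L) (m : M), θ (l ⊗ₜ[K] m) = (l : F) * m := by
    intro l m
    exact Algebra.TensorProduct.productMap_apply_tmul fL fM l m
  have hinj : Function.Injective θ := inj F K L M (fun _ => rfl) hd θ hθ
  have hrange : ∀ t ∈ Rg L M, ∃ t' : L ⊗[K] M, θ t' = t := by
    intro t ht
    have h1 : Rg L M ≤ θ.toRingHom.range := by
      unfold Rg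
      rw [Subring.closure_le]
      rintro s (hs | hs)
      · refine ⟨(⟨s, hs⟩ : L) ⊗ₜ[K] (1 : M), ?_⟩
        show θ _ = _
        rw [hθ]
        show s * ((1 : M) : F) = s
        rw [OneMemClass.coe_one, mul_one]
      · refine ⟨(1 : L) ⊗ₜ[K] (⟨s, hs⟩ : M), ?_⟩
        show θ _ = _
        rw [hθ]
        show ((1 : L) : F) * s = s
        rw [OneMemClass.coe_one, one_mul]
    obtain ⟨t', ht'⟩ := h1 ht
    exact ⟨t', ht'⟩
  set f₂ : Polynomial K := f.map (algebraMap ℚ K) with hf₂
  have hsep : f₂.Separable := (PerfectField.separable_iff_squarefree.mpr hf).map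
  have hsq : Squarefree f₂ := hsep.squarefree
  have hdeg : f₂.natDegree = f.natDegree := Polynomial.natDegree_map _
  have haev : ∀ t : L ⊗[K] M, θ (Polynomial.aeval t f₂) = Polynomial.aeval (θ t) f := by
    intro t
    rw [← Polynomial.aeval_algHom_apply, hf₂, Polynomial.aeval_def, Polynomial.eval₂_map,
      Polynomial.aeval_def]
    congr 1
  obtain ⟨x', hx'⟩ := hrange x hx
  have hfin : ((∃ l : L, x' = l ⊗ₜ[K] (1 : M)) ∨ ∃ m : M, x' = (1 : L) ⊗ₜ[K] m) → x ∈ L ∨ x ∈ M := by
    rintro (⟨l, hl⟩ | ⟨m, hm⟩)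
    · left
      rw [← hx', hl, hθ, OneMemClass.coe_one, mul_one]
      exact l.2
    · right
      rw [← hx', hm, hθ, OneMemClass.coe_one, one_mul]
      exact m.2
  constructor
  · intro h2 hne hinv
    classical
    apply hfin
    obtain ⟨w, hw⟩ := hrange _ hinv
    have hunit : IsUnit (Polynomial.aeval x' f₂) := by
      apply IsUnit.of_mul_eq_one w
      apply hinj
      rw [map_mul, haev, hx', hw, map_one, mul_inv_cancel₀ hne]
    have hcard : f₂.roots.toFinset.card = f₂.natDegree := by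
      rw [Multiset.toFinset_card_of_nodup (Polynomial.nodup_roots hsep)]
      exact IsAlgClosed.card_roots_eq_natDegree
    have h1lt : 1 < f₂.roots.toFinset.card := by
      rw [hcard, hdeg]
      omega
    obtain ⟨r₁, hr₁, r₂, hr₂, hne12⟩ := Finset.one_lt_card.mp h1lt
    have hroot : ∀ r ∈ f₂.roots.toFinset, IsUnit (x' - algebraMap K (L ⊗[K] M) r) := by
      intro r hr
      have hr' : f₂.IsRoot r := (Polynomial.mem_roots'.mp (Multiset.mem_toFinset.mp hr)).2
      obtain ⟨g, hg⟩ := Polynomial.dvd_iff_isRoot.mpr hr'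
      rw [hg, map_mul] at hunit
      have := isUnit_of_mul_isUnit_left hunit
      simpa using this
    have hc : r₂ - r₁ ≠ 0 := sub_ne_zero.mpr (Ne.symm hne12)
    set z : L ⊗[K] M := algebraMap K (L ⊗[K] M) (r₂ - r₁)⁻¹ * (x' - algebraMap K _ r₁) with hz
    have hcu : IsUnit (algebraMap K (L ⊗[K] M) (r₂ - r₁)⁻¹) :=
      (isUnit_iff_ne_zero.mpr (inv_ne_zero hc)).map _
    have hz1 : IsUnit z := hcu.mul (hroot r₁ hr₁)
    have hcc : algebraMap K (L ⊗[K] M) (r₂ - r₁)⁻¹ *
        (algebraMap K (L ⊗[K] M) r₂ - algebraMap K (L ⊗[K] M) r₁) = 1 := by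
      rw [← map_sub, ← map_mul, inv_mul_cancel₀ hc, map_one]
    have hz2 : IsUnit (1 - z) := by
      have h3 : 1 - z = -(algebraMap K (L ⊗[K] M) (r₂ - r₁)⁻¹ * (x' - algebraMap K _ r₂)) := by
        rw [hz]
        linear_combination (-1 : L ⊗[K] M) * hcc
      rw [h3]
      exact (hcu.mul (hroot r₂ hr₂)).neg
    have hxz : x' = algebraMap K (L ⊗[K] M) (r₂ - r₁) * z + algebraMap K (L ⊗[K] M) r₁ := by
      have h4 : algebraMap K (L ⊗[K] M) (r₂ - r₁) * algebraMap K (L ⊗[K] M) (r₂ - r₁)⁻¹ = 1 := by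
        rw [← map_mul, mul_inv_cancel₀ hc, map_one]
      rw [hz]
      linear_combination (-(x' - algebraMap K (L ⊗[K] M) r₁)) * h4
    rcases hST3 K L M z hz1 hz2 with ⟨l, hl⟩ | ⟨m, hm⟩
    · left
      refine ⟨algebraMap K L (r₂ - r₁) * l + algebraMap K L r₁, ?_⟩
      rw [hxz, hl, TensorProduct.add_tmul]
      congr 1
      rw [Algebra.TensorProduct.algebraMap_apply, Algebra.TensorProduct.tmul_mul_tmul, one_mul]
    · right
      refine ⟨algebraMap K M (r₂ - r₁) * m + algebraMap K M r₁, ?_⟩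
      rw [hxz, hm, TensorProduct.tmul_add]
      congr 1
      · rw [Algebra.TensorProduct.algebraMap_apply', Algebra.TensorProduct.tmul_mul_tmul, one_mul]
      · rw [Algebra.TensorProduct.algebraMap_apply']
  · intro y e he hy hyx
    apply hfin
    obtain ⟨y', hy'⟩ := hrange y hy
    apply hSTH K L M x' y' f₂ e hsq (by rw [hdeg]; exact he)
    apply hinj
    rw [map_pow, hy', haev, hx', hyx]

theorem alg_down (F F' : Type) [Field F] [Field F'] (ι : F →+* F') (L : Subfield F) (x : F)
    (h : IsAlgebraic (L.map ι) (ι x)) : IsAlgebraic L x := by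
  refine IsAlgebraic.of_ringHom_of_comp_eq
    (f := ((ι.comp L.subtype).codRestrict (L.map ι) (fun l => ⟨l.1, l.2, rfl⟩))) (g := ι) h ?_
    ι.injective ?_
  · rintro ⟨y, z, hz, rfl⟩
    exact ⟨⟨z, hz⟩, rfl⟩
  · rfl

theorem ldj_map (F F' : Type) [Field F] [Field F'] (ι : F →+* F') (K L M : Subfield F)
    (h : LDj K L M) : LDj (K.map ι) (L.map ι) (M.map ι) := by
  intro d a b ha hb hI hs
  choose a' ha' hea using ha
  choose b' hb' heb using hb
  have h1 : Ind K a' := by
    intro κ hκ hs'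
    have h2 := hI (fun i => ι (κ i)) (fun i => ⟨κ i, hκ i, rfl⟩) (by
      have h3 := congrArg ι hs'
      rw [map_zero, map_sum] at h3
      rw [← h3]
      refine Finset.sum_congr rfl fun i _ => ?_
      rw [map_mul, ← hea i])
    funext i
    have h4 := congrFun h2 i
    simp only [Pi.zero_apply] at h4
    rw [Pi.zero_apply]
    exact (map_eq_zero ι).mp h4
  have h5 := h d a' b' ha' hb' h1 (by
    apply ι.injective
    rw [map_zero, ← hs, map_sum]
    refine Finset.sum_congr rfl fun i _ => ?_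
    rw [map_mul, ← hea i, ← heb i])
  funext i
  rw [← heb i, h5]
  simp

theorem ac_mono (F : Type) [Field F] (K L : Subfield F) (h : K ≤ L) : ac K ⊤ ≤ ac L ⊤ := by
  intro x hx
  rw [mem_ac] at hx ⊢
  refine ⟨?_, hx.2⟩
  obtain ⟨p, hp, hpx⟩ := hx.1
  refine ⟨p.map (Subfield.inclusion h), ?_, ?_⟩
  · rw [Polynomial.map_ne_zero_iff (Subfield.inclusion h).injective]
    exact hp
  · rw [Polynomial.aeval_def, Polynomial.eval₂_map]
    exact hpx

theorem le_ac (F : Type) [Field F] (K : Subfield F) : K ≤ ac K ⊤ := by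
  intro x hx
  rw [mem_ac]
  exact ⟨isAlgebraic_algebraMap (⟨x, hx⟩ : K), Subfield.mem_top _⟩

end SGA_

theorem sga_proof (hST3 : Stmt_ST3) (hSTH : Stmt_STH) (hLDC : Stmt_LDC) : Stmt_SGA := by
  intro F _ _ K L M hKL hKM hd f x hf hx
  set F' := AlgebraicClosure F with hF'
  let ι : F →+* F' := algebraMap F F'
  haveI : CharZero F' := charZero_of_injective_algebraMap (algebraMap F F').injective
  have hd' := SGA_.ldj_map F F' ι K L M hd
  have hKL' : K.map ι ≤ L.map ι := (Subfield.gc_map_comap ι).monotone_l hKL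
  have hKM' : K.map ι ≤ M.map ι := (Subfield.gc_map_comap ι).monotone_l hKM
  have hd2 := hLDC F' (K.map ι) (L.map ι) (M.map ι) hKL' hKM' hd'
  have hRg : ∀ t ∈ Rg L M, ι t ∈ Rg (ac (L.map ι) ⊤) (ac (M.map ι) ⊤) := by
    intro t ht
    have h1 : Rg L M ≤ (Rg (ac (L.map ι) ⊤) (ac (M.map ι) ⊤)).comap ι := by
      conv_lhs => unfold Rg
      rw [Subring.closure_le]
      rintro s (hs | hs)
      · exact Subring.subset_closure (Or.inl (SGA_.le_ac F' _ ⟨s, hs, rfl⟩))
      · exact Subring.subset_closure (Or.inr (SGA_.le_ac F' _ ⟨s, hs, rfl⟩))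
    exact h1 ht
  have haev : Polynomial.aeval (ι x) f = ι (Polynomial.aeval x f) := by
    rw [Polynomial.aeval_def, Polynomial.aeval_def, Polynomial.hom_eval₂]
    congr 1
  have hover := SGA_.upst hST3 hSTH F' (ac (K.map ι) ⊤) (ac (L.map ι) ⊤) (ac (M.map ι) ⊤)
    (SGA_.isAlgClosed_ac F' _) (SGA_.ac_mono F' _ _ hKL') (SGA_.ac_mono F' _ _ hKM') hd2 f hf
    (ι x) (hRg x hx)
  have hdown : (ι x ∈ ac (L.map ι) ⊤ ∨ ι x ∈ ac (M.map ι) ⊤) → IsAlgebraic L x ∨ IsAlgebraic M x := by
    rintro (h | h)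
    · left
      exact SGA_.alg_down F F' ι L x (mem_ac.1 h).1
    · right
      exact SGA_.alg_down F F' ι M x (mem_ac.1 h).1
  constructor
  · intro h2 hne hinv
    apply hdown
    refine hover.1 h2 ?_ ?_
    · rw [haev]
      exact (map_ne_zero ι).mpr hne
    · rw [haev, ← map_inv₀]
      exact hRg _ hinv
  · intro y e he hy hyx
    apply hdown
    refine hover.2 (ι y) e he (hRg y hy) ?_
    rw [haev, ← hyx, map_pow]

end Pool.Agent.SGL
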