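import Pool.Agent.SGL.Stmts3
import Pool.Agent.SGL.SGA

set_option autoImplicit false

namespace Pool.Agent.SGL

open Filter Pool.Agent.SBT TensorProduct

namespace SGB_

theorem upst (hST3 : Stmt_ST3) (hSTH : Stmt_STH) (F : Type) [Field F] [CharZero F]
    (K L M : Subfield F) (hK : IsAlgClosed K) (hKL : K ≤ L) (hKM : K ≤ M) (hd : LDj K L M)
    (f₂ : Polynomial K) (hf : Squarefree f₂) (x : F) (hx : x ∈ Rg L M) :
    (2 ≤ f₂.natDegree → Polynomial.aeval x f₂ ≠ 0 → (Polynomial.aeval x f₂)⁻¹ ∈ Rg L M →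
      x ∈ L ∨ x ∈ M) ∧
    ∀ (y : F) (e : ℕ), e + f₂.natDegree < e * f₂.natDegree → y ∈ Rg L M →
      y ^ e = Polynomial.aeval x f₂ → x ∈ L ∨ x ∈ M := by
  letI : Algebra K L := (Subfield.inclusion hKL).toAlgebra
  letI : Algebra K M := (Subfield.inclusion hKM).toAlgebra
  let fL : L →ₐ[K] F := { L.subtype with commutes' := fun _ => rfl }
  let fM : M →ₐ[K] F := { M.subtype with commutes' := fun _ => rfl }
  let θ : (L ⊗[K] M) →ₐ[K] F := Algebra.TensorProduct.productMap fL fM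
  have hθ : ∀ (l : L) (m : M), θ (l ⊗ₜ[K] m) = (l : F) * m := by
    intro l m
    exact Algebra.TensorProduct.productMap_apply_tmul fL fM l m
  have hinj : Function.Injective θ := SGA_.inj F K L M (fun _ => rfl) hd θ hθ
  have hrange : ∀ t ∈ Rg L M, ∃ t' : L ⊗[K] M, θ t' = t := by
    intro t ht
    have h1 : Rg L M ≤ θ.toRingHom.range := by
      unfold Rg
      rw [Subring.closure_le]
      rintro s (hs | hs)
      · refine ⟨(⟨s, hs⟩ : L) ⊗ₜ[K] (1 : M), ?_⟩
        show θ _ = _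
        rw [hθ]
        show s * ((1 : M) : F) = s
        rw [OneMemClass.coe_one, mul_one]
      · refine ⟨(1 : L) ⊗ₜ[K] (⟨s, hs⟩ : M), ?_⟩
        show θ _ = _
        rw [hθ]
        show ((1 : L) : F) * s = s
        rw [OneMemClass.coe_one, one_mul]
    obtain ⟨t', ht'⟩ := h1 ht
    exact ⟨t', ht'⟩
  have hsep : f₂.Separable := PerfectField.separable_iff_squarefree.mpr hf
  have haev : ∀ t : L ⊗[K] M, θ (Polynomial.aeval t f₂) = Polynomial.aeval (θ t) f₂ := by
    intro t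
    rw [← Polynomial.aeval_algHom_apply]
  obtain ⟨x', hx'⟩ := hrange x hx
  have hfin : ((∃ l : L, x' = l ⊗ₜ[K] (1 : M)) ∨ ∃ m : M, x' = (1 : L) ⊗ₜ[K] m) → x ∈ L ∨ x ∈ M := by
    rintro (⟨l, hl⟩ | ⟨m, hm⟩)
    · left
      rw [← hx', hl, hθ, OneMemClass.coe_one, mul_one]
      exact l.2
    · right
      rw [← hx', hm, hθ, OneMemClass.coe_one, one_mul]
      exact m.2
  constructor
  · intro h2 hne hinv
    classical
    apply hfin
    obtain ⟨w, hw⟩ := hrange _ hinv
    have hunit : IsUnit (Polynomial.aeval x' f₂) := by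
      apply IsUnit.of_mul_eq_one w
      apply hinj
      rw [map_mul, haev, hx', hw, map_one, mul_inv_cancel₀ hne]
    have hcard : f₂.roots.toFinset.card = f₂.natDegree := by
      rw [Multiset.toFinset_card_of_nodup (Polynomial.nodup_roots hsep)]
      exact IsAlgClosed.card_roots_eq_natDegree
    have h1lt : 1 < f₂.roots.toFinset.card := by
      rw [hcard]
      omega
    obtain ⟨r₁, hr₁, r₂, hr₂, hne12⟩ := Finset.one_lt_card.mp h1lt
    have hroot : ∀ r ∈ f₂.roots.toFinset, IsUnit (x' - algebraMap K (L ⊗[K] M) r) := by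
      intro r hr
      have hr' : f₂.IsRoot r := (Polynomial.mem_roots'.mp (Multiset.mem_toFinset.mp hr)).2
      obtain ⟨g, hg⟩ := Polynomial.dvd_iff_isRoot.mpr hr'
      rw [hg, map_mul] at hunit
      have := isUnit_of_mul_isUnit_left hunit
      simpa using this
    have hc : r₂ - r₁ ≠ 0 := sub_ne_zero.mpr (Ne.symm hne12)
    set z : L ⊗[K] M := algebraMap K (L ⊗[K] M) (r₂ - r₁)⁻¹ * (x' - algebraMap K _ r₁) with hz
    have hcu : IsUnit (algebraMap K (L ⊗[K] M) (r₂ - r₁)⁻¹) :=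
      (isUnit_iff_ne_zero.mpr (inv_ne_zero hc)).map _
    have hz1 : IsUnit z := hcu.mul (hroot r₁ hr₁)
    have hcc : algebraMap K (L ⊗[K] M) (r₂ - r₁)⁻¹ *
        (algebraMap K (L ⊗[K] M) r₂ - algebraMap K (L ⊗[K] M) r₁) = 1 := by
      rw [← map_sub, ← map_mul, inv_mul_cancel₀ hc, map_one]
    have hz2 : IsUnit (1 - z) := by
      have h3 : 1 - z = -(algebraMap K (L ⊗[K] M) (r₂ - r₁)⁻¹ * (x' - algebraMap K _ r₂)) := by
        rw [hz]
        linear_combination (-1 : L ⊗[K] M) * hcc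
      rw [h3]
      exact (hcu.mul (hroot r₂ hr₂)).neg
    have hxz : x' = algebraMap K (L ⊗[K] M) (r₂ - r₁) * z + algebraMap K (L ⊗[K] M) r₁ := by
      have h4 : algebraMap K (L ⊗[K] M) (r₂ - r₁) * algebraMap K (L ⊗[K] M) (r₂ - r₁)⁻¹ = 1 := by
        rw [← map_mul, mul_inv_cancel₀ hc, map_one]
      rw [hz]
      linear_combination (-(x' - algebraMap K (L ⊗[K] M) r₁)) * h4
    rcases hST3 K L M z hz1 hz2 with ⟨l, hl⟩ | ⟨m, hm⟩
    · left
      refine ⟨algebraMap K L (r₂ - r₁) * l + algebraMap K L r₁, ?_⟩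
      rw [hxz, hl, TensorProduct.add_tmul]
      congr 1
      rw [Algebra.TensorProduct.algebraMap_apply, Algebra.TensorProduct.tmul_mul_tmul, one_mul]
    · right
      refine ⟨algebraMap K M (r₂ - r₁) * m + algebraMap K M r₁, ?_⟩
      rw [hxz, hm, TensorProduct.tmul_add]
      congr 1
      · rw [Algebra.TensorProduct.algebraMap_apply', Algebra.TensorProduct.tmul_mul_tmul, one_mul]
      · rw [Algebra.TensorProduct.algebraMap_apply']
  · intro y e he hy hyx
    apply hfin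
    obtain ⟨y', hy'⟩ := hrange y hy
    apply hSTH K L M x' y' f₂ e hf he
    apply hinj
    rw [map_pow, hy', haev, hx', hyx]

theorem alg_up (F F' : Type) [Field F] [Field F'] (ι : F →+* F') (L : Subfield F) (x : F)
    (h : IsAlgebraic L x) : IsAlgebraic (L.map ι) (ι x) := by
  obtain ⟨p, hp, hpx⟩ := h
  let φ : L →+* (L.map ι) := (ι.comp L.subtype).codRestrict (L.map ι) (fun l => ⟨l.1, l.2, rfl⟩)
  refine ⟨p.map φ, ?_, ?_⟩
  · rw [Polynomial.map_ne_zero_iff φ.injective]
    exact hp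
  · rw [Polynomial.aeval_def, Polynomial.eval₂_map]
    have h1 : (algebraMap (L.map ι) F').comp φ = ι.comp (algebraMap L F) := rfl
    rw [h1, ← Polynomial.hom_eval₂, ← Polynomial.aeval_def, hpx, map_zero]

end SGB_

theorem sgb_proof (hST3 : Stmt_ST3) (hSTH : Stmt_STH) (hLDC : Stmt_LDC) : Stmt_SGB := by
  intro F _ _ K L M hKL hKM hd f x hf hco hx
  set F' := AlgebraicClosure F with hF'
  let ι : F →+* F' := algebraMap F F'
  haveI : CharZero F' := charZero_of_injective_algebraMap (algebraMap F F').injective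
  have hd' := SGA_.ldj_map F F' ι K L M hd
  have hKL' : K.map ι ≤ L.map ι := (Subfield.gc_map_comap ι).monotone_l hKL
  have hKM' : K.map ι ≤ M.map ι := (Subfield.gc_map_comap ι).monotone_l hKM
  have hd2 := hLDC F' (K.map ι) (L.map ι) (M.map ι) hKL' hKM' hd'
  have hup : ∀ (N : Subfield F) (s : F), s ∈ ac N ⊤ → ι s ∈ ac (N.map ι) ⊤ := by
    intro N s hs
    exact mem_ac.2 ⟨SGB_.alg_up F F' ι N s (mem_ac.1 hs).1, Subfield.mem_top _⟩
  have hRg : ∀ t ∈ Rg (ac L ⊤) (ac M ⊤), ι t ∈ Rg (ac (L.map ι) ⊤) (ac (M.map ι) ⊤) := by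
    intro t ht
    have h1 : Rg (ac L ⊤) (ac M ⊤) ≤ (Rg (ac (L.map ι) ⊤) (ac (M.map ι) ⊤)).comap ι := by
      conv_lhs => unfold Rg
      rw [Subring.closure_le]
      rintro s (hs | hs)
      · exact Subring.subset_closure (Or.inl (hup L s hs))
      · exact Subring.subset_closure (Or.inr (hup M s hs))
    exact h1 ht
  -- the polynomial over the algebraic closure of `K`
  have hlift : f.map ι ∈ Polynomial.lifts (ac (K.map ι) ⊤).subtype := by
    rw [Polynomial.lifts_iff_coeff_lifts]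
    intro i
    rw [Polynomial.coeff_map]
    exact ⟨⟨ι (f.coeff i), mem_ac.2 ⟨SGB_.alg_up F F' ι K _ (hco i), Subfield.mem_top _⟩⟩, rfl⟩
  obtain ⟨f₂, hf₂⟩ := (Polynomial.mem_lifts _).1 hlift
  have hsep : f.Separable := PerfectField.separable_iff_squarefree.mpr hf
  have hsep' : (f.map ι).Separable := hsep.map
  have hsep2 : f₂.Separable := by
    rw [← hf₂] at hsep'
    exact (Polynomial.separable_map _).1 hsep'
  have hsq : Squarefree f₂ := hsep2.squarefree
  have hdeg : f₂.natDegree = f.natDegree := by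
    rw [← Polynomial.natDegree_map (ac (K.map ι) ⊤).subtype (p := f₂), hf₂,
      Polynomial.natDegree_map]
  have haev : Polynomial.aeval (ι x) f₂ = ι (f.eval x) := by
    rw [Polynomial.aeval_def, ← Polynomial.eval_map]
    have h1 : f₂.map (algebraMap (ac (K.map ι) ⊤) F') = f.map ι := hf₂
    rw [h1, Polynomial.eval_map, Polynomial.eval₂_hom]
  have hover := SGB_.upst hST3 hSTH F' (ac (K.map ι) ⊤) (ac (L.map ι) ⊤) (ac (M.map ι) ⊤)
    (SGA_.isAlgClosed_ac F' _) (SGA_.ac_mono F' _ _ hKL') (SGA_.ac_mono F' _ _ hKM') hd2 f₂ hsq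
    (ι x) (hRg x hx)
  have hdown : (ι x ∈ ac (L.map ι) ⊤ ∨ ι x ∈ ac (M.map ι) ⊤) → IsAlgebraic L x ∨ IsAlgebraic M x := by
    rintro (h | h)
    · left
      exact SGA_.alg_down F F' ι L x (mem_ac.1 h).1
    · right
      exact SGA_.alg_down F F' ι M x (mem_ac.1 h).1
  constructor
  · intro h2 hne hinv
    apply hdown
    refine hover.1 (by rw [hdeg]; exact h2) ?_ ?_
    · rw [haev]
      exact (map_ne_zero ι).mpr hne
    · rw [haev, ← map_inv₀]
      exact hRg _ hinv
  · intro y e he hy hyx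
    apply hdown
    refine hover.2 (ι y) e (by rw [hdeg]; exact he) (hRg y hy) ?_
    rw [haev, ← hyx, map_pow]

end Pool.Agent.SGL
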