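import Pool.Agent.SGL.Stmts

set_option autoImplicit false

namespace Pool.Agent.SGL

open Filter Pool.Agent.SBT

namespace SPN_

theorem swap {F : Type} [Field F] {s d : ℕ} (κ : Fin s → F) (α : Fin s → Fin d → F)
    (z : Fin d → F) (y : Fin s → F) (h : ∀ i, y i = ∑ j, α i j * z j) :
    ∑ j, (∑ i, κ i * α i j) * z j = ∑ i, κ i * y i := by
  simp only [h, Finset.sum_mul, Finset.mul_sum]
  rw [Finset.sum_comm]
  exact Finset.sum_congr rfl fun i _ => Finset.sum_congr rfl fun j _ => by ring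

theorem diff {F : Type} [Field F] {d : ℕ} (x a b : F) (u v z : Fin d → F)
    (ha : ∑ j, u j * z j = a) (hb : ∑ j, v j * z j = b) :
    ∑ j, (u j - v j) * z j = (x - b) - (x - a) := by
  simp only [sub_mul, Finset.sum_sub_distrib]
  rw [ha, hb]
  ring

theorem diff2 {F : Type} [Field F] {d : ℕ} (x b : F) (u v z : Fin d → F)
    (hb : ∑ j, v j * z j = b) :
    x - ∑ j, u j * z j = (x - b) - ∑ j, (u j - v j) * z j := by
  simp only [sub_mul, Finset.sum_sub_distrib]
  rw [hb]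
  ring

end SPN_

open SPN_ in
theorem spn_proof (hQLD : Stmt_QLD) (hCPL : Stmt_CPL) (hRGE : Stmt_RGE) : Stmt_SPN := by
  intro σ B hB hKL s y x hy hx
  -- a maximal independent family
  obtain ⟨-, hR2, -, -⟩ := hRGE (Om σ) (Kf σ B) (Kf σ B) (Lf σ) le_rfl hKL
  obtain ⟨d, z, α, hz, hind, hα, hyz⟩ := hR2 s y (fun i => Subring.subset_closure (Or.inr (hy i)))
  obtain ⟨c, hc⟩ := hQLD σ B hB d z hz hind
  have hex : ∀ k : ℕ, ∃ κ : Fin s → Om σ, (∀ i, κ i ∈ Kf σ B) ∧
      V (x - ∑ i, κ i * y i) (-(k : ℝ) - max c 0) := fun k => hx _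
  choose κ hκ hκV using hex
  -- the coefficients with respect to `z`
  have hlam : ∀ k j, (∑ i, κ k i * α i j) ∈ Kf σ B := fun k j =>
    (Kf σ B).sum_mem fun i _ => (Kf σ B).mul_mem (hκ k i) (hα i j)
  have hsum : ∀ k, ∑ j, (∑ i, κ k i * α i j) * z j = ∑ i, κ k i * y i := by
    intro k
    exact swap (κ k) α z y hyz
  have hstep : ∀ (j : Fin d) (k : ℕ),
      V ((∑ i, κ (k + 1) i * α i j) - (∑ i, κ k i * α i j)) (-(k : ℝ)) := by
    intro j k
    have h1 : V (∑ j, ((∑ i, κ (k + 1) i * α i j) - (∑ i, κ k i * α i j)) * z j)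
        (-(k : ℝ) - max c 0) := by
      have e : ∑ j, ((∑ i, κ (k + 1) i * α i j) - (∑ i, κ k i * α i j)) * z j =
          (x - ∑ i, κ k i * y i) - (x - ∑ i, κ (k + 1) i * y i) :=
        diff x _ _ _ _ z (hsum (k + 1)) (hsum k)
      rw [e]
      refine V_sub (hκV k) (V_mono ?_ (hκV (k + 1)))
      push_cast
      linarith
    have h2 := hc _ (fun j => (Kf σ B).sub_mem (hlam (k + 1) j) (hlam k j)) _ h1 j
    refine V_mono ?_ h2
    have := le_max_left c 0
    linarith
  have hlim : ∀ j : Fin d, ∃ l : Om σ, ∀ k : ℕ, V (l - ∑ i, κ k i * α i j) (-(k : ℝ)) :=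
    fun j => hCPL σ (fun k => ∑ i, κ k i * α i j) (hstep j)
  choose l hl using hlim
  have hlclo : ∀ j, l j ∈ clo (Kf σ B) := by
    intro j
    rw [mem_clo]
    intro e
    obtain ⟨k, hk⟩ := exists_nat_ge (-e)
    exact ⟨_, hlam k j, V_mono (by linarith) (hl j k)⟩
  -- the limit
  have hxz : x = ∑ j, l j * z j := by
    rw [← sub_eq_zero]
    apply V_eq_zero
    intro e
    choose D hD using fun j => V_exists (z j)
    obtain ⟨D₀, hD₀⟩ : ∃ D₀ : ℝ, ∀ j, D j ≤ D₀ :=
      ⟨∑ j, |D j|, fun j => (le_abs_self _).trans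
        (Finset.single_le_sum (f := fun j => |D j|) (fun i _ => abs_nonneg _) (Finset.mem_univ j))⟩
    obtain ⟨k, hk⟩ := exists_nat_ge (max (-e) (D₀ - e))
    have hk1 := (le_max_left (-e) (D₀ - e)).trans hk
    have hk2 := (le_max_right (-e) (D₀ - e)).trans hk
    have e1 : x - ∑ j, l j * z j =
        (x - ∑ i, κ k i * y i) - ∑ j, (l j - ∑ i, κ k i * α i j) * z j :=
      diff2 x _ l _ z (hsum k)
    rw [e1]
    refine V_sub (V_mono ?_ (hκV k)) (V_sum _ _ fun j _ => V_mono ?_ (V_mul (hl j k) (hD j)))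
    · have := le_max_right c 0
      linarith
    · have := hD₀ j
      linarith
  rw [hxz]
  exact Subring.sum_mem _ fun j _ => Subring.mul_mem _
    (Subring.subset_closure (Or.inr (hlclo j))) (Subring.subset_closure (Or.inl (hz j)))

end Pool.Agent.SGL
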