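import Pool.Agent.SGL.Stmts2

/-!
# Squad SGL, module ST3: three points
-/

set_option autoImplicit false

namespace Pool.Agent.SGL

open Filter Pool.Agent.SBT TensorProduct

namespace ST3_

/-- logarithmic derivatives of units come from `M` -/
theorem logder (hPLC : Stmt_PLC) (K L M : Type) [Field K] [IsAlgClosed K] [Field L] [Field M]
    [Algebra K L] [Algebra K M] [IsDomain (L ⊗[K] M)] (D : Derivation K M M)
    (D' : Derivation K (L ⊗[K] M) (L ⊗[K] M)) (hD : ∀ l m, D' (l ⊗ₜ[K] m) = l ⊗ₜ[K] D m)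
    (w : L ⊗[K] M) (hw : IsUnit w) : ∃ m : M, D' w = w * ((1 : L) ⊗ₜ[K] m) := by
  obtain ⟨𝒲, -, hW2, hW3⟩ := hPLC K L M (FractionRing (L ⊗[K] M))
  obtain ⟨v, hv⟩ := hw.exists_right_inv
  obtain ⟨m, hm⟩ := hW2 (v * D' w) (by
    intro W hW
    rw [← ValuationSubring.valuation_le_one_iff, map_mul, map_mul]
    have h1 := hW3 D D' hD W hW w
    calc W.valuation (algebraMap (L ⊗[K] M) (FractionRing (L ⊗[K] M)) v) *
          W.valuation (algebraMap (L ⊗[K] M) (FractionRing (L ⊗[K] M)) (D' w))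
        ≤ W.valuation (algebraMap (L ⊗[K] M) (FractionRing (L ⊗[K] M)) v) *
          W.valuation (algebraMap (L ⊗[K] M) (FractionRing (L ⊗[K] M)) w) :=
          mul_le_mul_right h1 _
      _ = W.valuation (algebraMap (L ⊗[K] M) (FractionRing (L ⊗[K] M)) (w * v)) := by
          rw [← map_mul, ← map_mul, mul_comm v w]
      _ ≤ 1 := by rw [hv, map_one, map_one])
  refine ⟨m, ?_⟩
  rw [← hm, ← mul_assoc, hv, one_mul]

end ST3_

open ST3_ in
theorem st3_proof (_hDRT : Stmt_DRT) (hDMT : Stmt_DMT) (hPLC : Stmt_PLC) (hCST : Stmt_CST) :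
    Stmt_ST3 := by
  intro K L M _ _ _ _ _ _ _ z hz h1z
  by_cases hm : ∃ m : M, z = (1 : L) ⊗ₜ[K] m
  · exact Or.inr hm
  · left
    have : IsDomain (L ⊗[K] M) := hDMT K L M
    refine hCST K L M z ?_
    intro D D' hD
    obtain ⟨m₁, h1⟩ := logder hPLC K L M D D' hD z hz
    obtain ⟨m₂, h2⟩ := logder hPLC K L M D D' hD (1 - z) h1z
    rw [map_sub, Derivation.map_one_eq_zero, zero_sub, h1] at h2
    -- `z (1 ⊗ (m₁ - m₂)) = - (1 ⊗ m₂)`
    have h3 : z * ((1 : L) ⊗ₜ[K] (m₁ - m₂)) = -((1 : L) ⊗ₜ[K] m₂) := by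
      rw [TensorProduct.tmul_sub, mul_sub]
      linear_combination -h2
    have h12 : m₁ - m₂ = 0 := by
      by_contra hne
      apply hm
      refine ⟨-(m₂ * (m₁ - m₂)⁻¹), ?_⟩
      have h4 : z * ((1 : L) ⊗ₜ[K] (m₁ - m₂)) * ((1 : L) ⊗ₜ[K] (m₁ - m₂)⁻¹) = z := by
        rw [mul_assoc, Algebra.TensorProduct.tmul_mul_tmul, one_mul, mul_inv_cancel₀ hne,
          ← Algebra.TensorProduct.one_def, mul_one]
      rw [← h4, h3, neg_mul, Algebra.TensorProduct.tmul_mul_tmul, one_mul, TensorProduct.tmul_neg]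
    rw [h12, TensorProduct.tmul_zero, mul_zero, zero_eq_neg] at h3
    have h5 : m₁ = m₂ := sub_eq_zero.mp h12
    rw [h1, h5, h3, mul_zero]

end Pool.Agent.SGL
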