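import Pool.Agent.SGL.Stmts2

/-!
# Module STH: superelliptic curves
-/

set_option autoImplicit false

namespace Pool.Agent.SGL

open TensorProduct

namespace STH_

section

variable {K T F Γ : Type} [Field K] [CommRing T] [Algebra K T] [Field F] [Algebra T F]
  [LinearOrderedCommGroupWithZero Γ]

/-- a polynomial in an integral element is integral -/
theorem poly_le (v : Valuation T Γ) (hc : ∀ c : K, v (algebraMap K T c) ≤ 1) (x : T)
    (hx : v x ≤ 1) (p : Polynomial K) : v (Polynomial.aeval x p) ≤ 1 := by
  rw [Polynomial.aeval_eq_sum_range]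
  refine Valuation.map_sum_le v fun i _ => ?_
  rw [Algebra.smul_def, map_mul, map_pow]
  exact mul_le_one' (hc _) (pow_le_one' hx _)

/-- the value of a polynomial at a pole -/
theorem poly_eq (v : Valuation T Γ) (hc : ∀ c : K, c ≠ 0 → v (algebraMap K T c) = 1) (x : T)
    (hx : 1 < v x) (p : Polynomial K) (hp : p ≠ 0) :
    v (Polynomial.aeval x p) = v x ^ p.natDegree := by
  have hx0 : v x ≠ 0 := fun h => by
    rw [h] at hx
    exact absurd hx (not_lt.2 zero_le_one)
  rw [Polynomial.aeval_eq_sum_range, Finset.sum_range_succ]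
  have h1 : v (p.coeff p.natDegree • x ^ p.natDegree) = v x ^ p.natDegree := by
    rw [Algebra.smul_def, map_mul, map_pow, hc _ (by simpa using hp), one_mul]
  have h2 : v (∑ i ∈ Finset.range p.natDegree, p.coeff i • x ^ i) < v x ^ p.natDegree := by
    refine Valuation.map_sum_lt v (pow_ne_zero _ hx0) fun i hi => ?_
    have hi' : i < p.natDegree := Finset.mem_range.1 hi
    rw [Algebra.smul_def, map_mul, map_pow]
    by_cases h0 : p.coeff i = 0
    · rw [h0, map_zero, map_zero, zero_mul]
      exact zero_lt_iff.2 (pow_ne_zero _ hx0)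
    · rw [hc _ h0, one_mul]
      exact pow_lt_pow_right₀ hx hi'
  rw [Valuation.map_add_eq_of_lt_right v (by rw [h1]; exact h2), h1]

end

end STH_

open STH_ in
theorem sth_proof (_hDRT : Stmt_DRT) (hDMT : Stmt_DMT) (hPLC : Stmt_PLC) (hCST : Stmt_CST) :
    Stmt_STH := by
  intro K L M _ _ _ _ _ _ _ x y f e hsq hed hxy
  by_cases hx : ∃ m : M, x = (1 : L) ⊗ₜ[K] m
  · exact Or.inr hx
  left
  apply hCST K L M x
  intro D D' hD
  have : IsDomain (L ⊗[K] M) := hDMT K L M
  obtain ⟨𝒲, h1, h2, h3⟩ := hPLC K L M (FractionRing (L ⊗[K] M))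
  have he : 2 ≤ e := by
    by_contra hlt
    interval_cases e <;> omega
  have hf0 : f ≠ 0 := hsq.ne_zero
  have hd : 2 ≤ f.natDegree := by
    by_contra hlt
    interval_cases h : f.natDegree <;> omega
  have hsep : f.Separable := PerfectField.separable_iff_squarefree.2 hsq
  obtain ⟨a, b, hab⟩ := hsep
  -- the derivative of the equation
  have hder : (e : L ⊗[K] M) * y ^ (e - 1) * D' y =
      Polynomial.aeval x (Polynomial.derivative f) * D' x := by
    have h := congrArg D' hxy
    rw [Derivation.leibniz_pow, Derivation.map_aeval] at h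
    simpa [mul_assoc] using h
  set u : L ⊗[K] M := Polynomial.aeval x a * y * D' x + (e : L ⊗[K] M) * Polynomial.aeval x b * D' y
    with hu
  have hab' : Polynomial.aeval x a * Polynomial.aeval x f +
      Polynomial.aeval x b * Polynomial.aeval x (Polynomial.derivative f) = 1 := by
    rw [← map_mul, ← map_mul, ← map_add, hab, map_one]
  have hye : y * y ^ (e - 1) = y ^ e := by
    rw [← pow_succ']
    congr 1
    omega
  have huy : u * y ^ (e - 1) = D' x := by
    calc u * y ^ (e - 1)
        = Polynomial.aeval x a * (y * y ^ (e - 1)) * D' x +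
          Polynomial.aeval x b * ((e : L ⊗[K] M) * y ^ (e - 1) * D' y) := by
          rw [hu]; ring
      _ = (Polynomial.aeval x a * Polynomial.aeval x f +
          Polynomial.aeval x b * Polynomial.aeval x (Polynomial.derivative f)) * D' x := by
          rw [hye, hxy, hder]; ring
      _ = D' x := by rw [hab', one_mul]
  -- valuations
  have hval : ∀ W ∈ 𝒲, ∃ v : Valuation (L ⊗[K] M) W.ValueGroup,
      (∀ z, v z = W.valuation (algebraMap (L ⊗[K] M) (FractionRing (L ⊗[K] M)) z)) :=
    fun W _ => ⟨W.valuation.comap (algebraMap (L ⊗[K] M) (FractionRing (L ⊗[K] M))), fun z => rfl⟩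
  have hcst : ∀ c : K, algebraMap K (L ⊗[K] M) c = (1 : L) ⊗ₜ[K] (algebraMap K M c) := by
    intro c
    rw [Algebra.TensorProduct.algebraMap_apply, Algebra.algebraMap_eq_smul_one,
      Algebra.algebraMap_eq_smul_one, TensorProduct.smul_tmul]
  have key : ∀ W ∈ 𝒲, ∀ v : Valuation (L ⊗[K] M) W.ValueGroup,
      (∀ z, v z = W.valuation (algebraMap (L ⊗[K] M) (FractionRing (L ⊗[K] M)) z)) →
      v u ≤ 1 ∧ (1 < v x → v u < 1) := by
    intro W hW v hv
    have hc1 : ∀ c : K, c ≠ 0 → v (algebraMap K (L ⊗[K] M) c) = 1 := by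
      intro c hc
      rw [hv, hcst]
      exact h1 W hW _ (by simpa using hc)
    have hc2 : ∀ c : K, v (algebraMap K (L ⊗[K] M) c) ≤ 1 := by
      intro c
      by_cases hc : c = 0
      · rw [hc, map_zero, map_zero]
        exact zero_le_one
      · exact (hc1 c hc).le
    have hDv : ∀ z, v (D' z) ≤ v z := fun z => by
      rw [hv, hv]
      exact h3 D D' hD W hW z
    have hye' : v y ^ e = v (Polynomial.aeval x f) := by rw [← map_pow, hxy]
    by_cases hx1 : 1 < v x
    · have hlt : v u < 1 := by
        have h4 : v y ^ e = v x ^ f.natDegree := by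
          rw [hye', poly_eq v hc1 x hx1 f hf0]
        have h5 : v u * v y ^ (e - 1) ≤ v x := by
          rw [← map_pow, ← map_mul, huy]
          exact hDv x
        have h6 : v u ^ e * v x ^ (f.natDegree * (e - 1)) ≤ v x ^ e := by
          calc v u ^ e * v x ^ (f.natDegree * (e - 1))
              = (v u * v y ^ (e - 1)) ^ e := by
                rw [mul_pow, pow_mul, ← h4, ← pow_mul, ← pow_mul, mul_comm e (e - 1)]
            _ ≤ v x ^ e := pow_le_pow_left₀ (zero_le (a := _)) h5 e
        by_contra hge
        have hge' : 1 ≤ v u := not_lt.1 hge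
        have h7 : v x ^ (f.natDegree * (e - 1)) ≤ v x ^ e := by
          refine le_trans ?_ h6
          calc v x ^ (f.natDegree * (e - 1)) = 1 * v x ^ (f.natDegree * (e - 1)) := (one_mul _).symm
            _ ≤ v u ^ e * v x ^ (f.natDegree * (e - 1)) :=
                mul_le_mul' (one_le_pow₀ hge') le_rfl
        have h8 : e < f.natDegree * (e - 1) := by
          obtain ⟨k, rfl⟩ : ∃ k, e = k + 1 := ⟨e - 1, by omega⟩
          have : (k + 1) * f.natDegree = f.natDegree * k + f.natDegree := by ring
          simp only [Nat.add_sub_cancel]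
          omega
        exact absurd h7 (not_le.2 (pow_lt_pow_right₀ hx1 h8))
      exact ⟨hlt.le, fun _ => hlt⟩
    · refine ⟨?_, fun h => absurd h hx1⟩
      have hx2 : v x ≤ 1 := not_lt.1 hx1
      have hy : v y ≤ 1 := by
        by_contra hy
        have h9 : 1 < v y ^ e := one_lt_pow₀ (not_le.1 hy) (by omega)
        rw [hye'] at h9
        exact absurd h9 (not_lt.2 (poly_le v hc2 x hx2 f))
      have he1 : v (e : L ⊗[K] M) ≤ 1 := by
        have := hc2 (e : K)
        rwa [map_natCast] at this
      rw [hu]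
      refine Valuation.map_add_le v ?_ ?_
      · rw [map_mul, map_mul]
        exact mul_le_one' (mul_le_one' (poly_le v hc2 x hx2 a) hy) ((hDv x).trans hx2)
      · rw [map_mul, map_mul]
        exact mul_le_one' (mul_le_one' he1 (poly_le v hc2 x hx2 b)) ((hDv y).trans hy)
  have hu1 : ∃ m : M, u = (1 : L) ⊗ₜ[K] m := by
    apply h2
    intro W hW
    obtain ⟨v, hv⟩ := hval W hW
    have := (key W hW v hv).1
    rw [hv] at this
    exact (ValuationSubring.valuation_le_one_iff W _).1 this
  obtain ⟨m, hm⟩ := hu1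
  have hu0 : u = 0 := by
    by_contra hne
    have hm0 : m ≠ 0 := by
      rintro rfl
      exact hne (by rw [hm, TensorProduct.tmul_zero])
    have hex : ∃ W ∈ 𝒲, algebraMap (L ⊗[K] M) (FractionRing (L ⊗[K] M)) x ∉ W := by
      by_contra hno
      push Not at hno
      exact hx (h2 x hno)
    obtain ⟨W, hW, hxW⟩ := hex
    obtain ⟨v, hv⟩ := hval W hW
    have hx1 : 1 < v x := by
      rw [hv]
      exact not_le.1 fun h => hxW ((ValuationSubring.valuation_le_one_iff W _).1 h)
    have h10 := (key W hW v hv).2 hx1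
    rw [hv, hm, h1 W hW m hm0] at h10
    exact absurd h10 (lt_irrefl _)
  rw [← huy, hu0, zero_mul]

end Pool.Agent.SGL
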