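import Pool.Agent.SGL.Stmts

/-!
# SGL TAA: two sets of bases
-/

set_option autoImplicit false

namespace Pool.Agent.SGL

open Filter Pool.Agent.SBT

namespace TAA_

variable {σ : Sc}

lemma clo_mono {K K' : Subfield (Om σ)} (h : K ≤ K') : clo K ≤ clo K' := by
  intro x hx
  rw [mem_clo] at hx ⊢
  intro c
  obtain ⟨κ, h1, h2⟩ := hx c
  exact ⟨κ, h h1, h2⟩

lemma Kf_mono {A B : Finset ℕ} (h : A ⊆ B) : Kf σ A ≤ Kf σ B := by
  unfold Kf
  apply Subfield.closure_mono
  rintro x ⟨b, hb, h1⟩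
  exact ⟨b, h hb, h1⟩

lemma Rg_le {F : Type} [Field F] {A B D : Subfield F} (h1 : A ≤ D) (h2 : B ≤ D) {x : F}
    (hx : x ∈ Rg A B) : x ∈ D := by
  have h3 : Rg A B ≤ D.toSubring := by
    unfold Rg
    rw [Subring.closure_le]
    rintro y (hy | hy)
    · exact h1 hy
    · exact h2 hy
  exact h3 hx

/-- transport of algebraic dependence to `Om σ` -/
lemma alg_of {s : Set ℝ} {ξ : ℝ} {D : Subfield (Om σ)} (h : ∀ x ∈ s, cst σ x ∈ D)
    (hξ : IsAlgebraic (IntermediateField.adjoin ℚ s) ξ) : IsAlgebraic D (cst σ ξ) := by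
  have h1 : ∀ z ∈ IntermediateField.adjoin ℚ s, cst σ z ∈ D := by
    intro z hz
    induction hz using IntermediateField.adjoin_induction with
    | mem x hx => exact h x hx
    | algebraMap q =>
      have h2 : cst σ (algebraMap ℚ ℝ q) = (q : Om σ) := by
        rw [eq_ratCast, map_ratCast]
      rw [h2]
      exact SubfieldClass.ratCast_mem D q
    | add x y _ _ hx hy =>
      rw [map_add]
      exact D.add_mem hx hy
    | inv x _ hx =>
      rw [map_inv₀]
      exact D.inv_mem hx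
    | mul x y _ _ hx hy =>
      rw [map_mul]
      exact D.mul_mem hx hy
  let g : IntermediateField.adjoin ℚ s →+* D :=
    RingHom.codRestrict ((cst σ).comp (algebraMap (IntermediateField.adjoin ℚ s) ℝ)) D
      (fun z => h1 z.1 z.2)
  obtain ⟨p, hp, hpξ⟩ := hξ
  refine ⟨p.map g, ?_, ?_⟩
  · rwa [Ne, Polynomial.map_eq_zero]
  · rw [Polynomial.aeval_def, Polynomial.eval₂_map]
    have h3 : (algebraMap D (Om σ)).comp g =
        (cst σ).comp (algebraMap (IntermediateField.adjoin ℚ s) ℝ) := by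
      ext z
      rfl
    rw [h3, ← Polynomial.hom_eval₂, ← Polynomial.aeval_def, hpξ, map_zero]

end TAA_

open TAA_ in
theorem taa_proof (hMEM : Stmt_MEM) (_hKWD : Stmt_KWD) (hLDE : Stmt_LDE) (hFRE : Stmt_FRE)
    (hTRL : Stmt_TRL) : Stmt_TAA := by
  classical
  intro ξ A B k l a b x y hξ hA hB hTI ha hb hx hy C
  by_contra hcon
  push Not at hcon
  have h1 : ∀ Λ : ℕ, ∃ n, Λ ≤ n ∧
      ∑ i, cnt (a i) (x i) n (Λ * n) + ∑ j, cnt (b j) (y j) n (Λ * n) < C * n := by
    intro Λ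
    have h2 := hcon Λ
    obtain ⟨n, h3, h4⟩ := (h2.and_eventually (eventually_ge_atTop Λ)).exists
    exact ⟨n, h4, h3⟩
  choose N hN hN2 using h1
  have hU : ((hyperfilter ℕ : Ultrafilter ℕ) : Filter ℕ) ≤ atTop := Nat.hyperfilter_le_atTop
  have hNt : Tendsto (fun n => (N n : ℝ)) atTop atTop := by
    apply tendsto_natCast_atTop_atTop.comp
    exact tendsto_atTop_mono hN tendsto_id
  let σ : Sc := ⟨hyperfilter ℕ, fun n => (N n : ℝ), hNt.mono_left hU⟩
  have hmem1 : ∀ i, cst σ (x i) ∈ Rg (Lf σ) (clo (Kf σ {a i})) := by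
    intro i
    apply hMEM σ N id (a i) C (x i) (hA _ (ha i)) (fun _ => rfl)
    · exact tendsto_id.mono_left hU
    · filter_upwards with n
      have h3 : cnt (a i) (x i) (N n) (n * N n) ≤ ∑ i, cnt (a i) (x i) (N n) (n * N n) :=
        Finset.single_le_sum (f := fun i => cnt (a i) (x i) (N n) (n * N n))
          (fun _ _ => Nat.zero_le _) (Finset.mem_univ i)
      have h4 := hN2 n
      simp only [id]
      omega
  have hmem2 : ∀ i, cst σ (y i) ∈ Rg (Lf σ) (clo (Kf σ {b i})) := by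
    intro i
    apply hMEM σ N id (b i) C (y i) (hB _ (hb i)) (fun _ => rfl)
    · exact tendsto_id.mono_left hU
    · filter_upwards with n
      have h3 : cnt (b i) (y i) (N n) (n * N n) ≤ ∑ i, cnt (b i) (y i) (N n) (n * N n) :=
        Finset.single_le_sum (f := fun i => cnt (b i) (y i) (N n) (n * N n))
          (fun _ _ => Nat.zero_le _) (Finset.mem_univ i)
      have h4 := hN2 n
      simp only [id]
      omega
  have hx2 : ∀ z ∈ Set.range x, cst σ z ∈ Lf σ ⊔ clo (Kf σ A) := by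
    rintro z ⟨i, rfl⟩
    refine Rg_le le_sup_left (le_trans (clo_mono (Kf_mono ?_)) le_sup_right) (hmem1 i)
    exact Finset.singleton_subset_iff.2 (ha i)
  have hy2 : ∀ z ∈ Set.range y, cst σ z ∈ Lf σ ⊔ clo (Kf σ B) := by
    rintro z ⟨i, rfl⟩
    refine Rg_le le_sup_left (le_trans (clo_mono (Kf_mono ?_)) le_sup_right) (hmem2 i)
    exact Finset.singleton_subset_iff.2 (hb i)
  have hfin := hFRE (Om σ) (Lf σ) (Lf σ ⊔ clo (Kf σ A)) (Lf σ ⊔ clo (Kf σ B)) le_sup_left
    le_sup_left (hLDE σ A B hA hB hTI) (cst σ ξ) (alg_of hx2 hx) (alg_of hy2 hy)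
  exact hTRL σ ξ hξ hfin

end Pool.Agent.SGL
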