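import Pool.Agent.SGL.Stmts

/-!
# TRK: transcendental constants are transcendental over `clo (Kf σ {b})`
-/

set_option autoImplicit false

namespace Pool.Agent.SGL

open Filter Topology

namespace TRK_

variable {σ : Sc}

theorem sum_mem_OO {ι : Type} (s : Finset ι) (g : ι → ℕ → ℝ) (h : ∀ i ∈ s, g i ∈ OO σ) :
    (fun n => ∑ i ∈ s, g i n) ∈ OO σ := by
  have h1 := (OO σ).sum_mem h
  have h2 : (∑ i ∈ s, g i) = fun n => ∑ i ∈ s, g i n := by
    funext n
    rw [Finset.sum_apply]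
  rwa [h2] at h1

theorem cl_sum {ι : Type} (s : Finset ι) (g : ι → ℕ → ℝ) (h : ∀ i ∈ s, g i ∈ OO σ) :
    cl σ (fun n => ∑ i ∈ s, g i n) = ∑ i ∈ s, cl σ (g i) := by
  classical
  induction s using Finset.induction_on with
  | empty => simpa using cl_zero (σ := σ)
  | insert a s ha ih =>
    have h1 : ∀ i ∈ s, g i ∈ OO σ := fun i hi => h i (Finset.mem_insert_of_mem hi)
    rw [Finset.sum_insert ha, ← ih h1, ← cl_add (h a (Finset.mem_insert_self a s))
      (sum_mem_OO s g h1)]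
    congr 1
    funext n
    rw [Finset.sum_insert ha]

theorem ult_finite (U : Ultrafilter ℕ) {ι : Type} (s : Finset ι) {P : ι → ℕ → Prop}
    (h : ∀ᶠ n in (U : Filter ℕ), ∃ i ∈ s, P i n) : ∃ i ∈ s, ∀ᶠ n in (U : Filter ℕ), P i n := by
  by_contra hc
  push Not at hc
  have h1 : ∀ i ∈ s, ∀ᶠ n in (U : Filter ℕ), ¬ P i n := fun i hi =>
    (hc i hi)
  have h2 : ∀ᶠ n in (U : Filter ℕ), ∀ i ∈ s, ¬ P i n := (eventually_all_finset s).2 h1
  obtain ⟨n, ⟨i, hi, hn1⟩, hn2⟩ := (h.and h2).exists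
  exact hn2 i hi hn1

theorem zpow_lim (U : Ultrafilter ℕ) {b : ℕ} (hb : 2 ≤ b) (d : ℕ → ℤ)
    (hd : ∀ᶠ n in (U : Filter ℕ), d n ≤ 0) :
    ∃ r : ℚ, Tendsto (fun n => (b : ℝ) ^ d n) (U : Filter ℕ) (𝓝 (r : ℝ)) := by
  by_cases h : ∃ m : ℤ, ∀ᶠ n in (U : Filter ℕ), d n = m
  · obtain ⟨m, hm⟩ := h
    refine ⟨(b : ℚ) ^ m, ?_⟩
    push_cast
    apply Tendsto.congr' _ tendsto_const_nhds
    filter_upwards [hm] with n hn
    rw [hn]
  · push Not at h
    refine ⟨0, ?_⟩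
    have hb1 : (1 : ℝ) < b := by exact_mod_cast (by omega : 1 < b)
    have hb0 : (0 : ℝ) < b := by linarith
    have h1 : ∀ M : ℕ, ∀ᶠ n in (U : Filter ℕ), d n < -(M : ℤ) := by
      intro M
      have h2 : ∀ᶠ n in (U : Filter ℕ), ∀ m ∈ Finset.range (M + 1), d n ≠ -(m : ℤ) :=
        (eventually_all_finset _).2 fun m _ => h (-(m : ℤ))
      filter_upwards [h2, hd] with n hn hdn
      by_contra hc
      push Not at hc
      refine hn (-d n).toNat ?_ ?_
      · rw [Finset.mem_range]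
        omega
      · omega
    rw [Rat.cast_zero, Metric.tendsto_nhds]
    intro ε hε
    obtain ⟨M, hM⟩ := exists_pow_lt_of_lt_one hε (inv_lt_one_of_one_lt₀ hb1)
    filter_upwards [h1 M] with n hn
    rw [Real.dist_eq, sub_zero, abs_of_pos (zpow_pos hb0 _)]
    refine lt_of_lt_of_le (zpow_lt_zpow_right₀ hb1 hn) ?_
    rw [zpow_neg, zpow_natCast, ← inv_pow]
    exact hM.le

end TRK_

open TRK_

theorem trk_proof (hLDT : Stmt_LDT) : Stmt_TRK := by
  classical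
  intro σ b hb ξ hξ hal
  obtain ⟨p, hp0, hp⟩ := hal
  have hb0 : (0 : ℝ) < b := by
    have : 0 < b := by omega
    exact_mod_cast this
  -- data of the coefficients
  have hdata : ∀ i, ∃ (q : ℚ) (z : ℕ → ℤ) (f : ℕ → ℝ), i ∈ p.support → q ≠ 0 ∧ f ∈ OO σ ∧
      cl σ f = (p.coeff i : Om σ) ∧
      Tendsto (fun n => f n / (b : ℝ) ^ z n) (σ.U : Filter ℕ) (𝓝 (q : ℝ)) := by
    intro i
    by_cases hi : i ∈ p.support
    · have h1 : (p.coeff i : Om σ) ≠ 0 := by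
        intro h
        exact (Polynomial.mem_support_iff.1 hi) (Subtype.ext h)
      obtain ⟨q, z, f, h⟩ := hLDT σ b hb _ (p.coeff i).2 h1
      exact ⟨q, z, f, fun _ => h⟩
    · exact ⟨0, fun _ => 0, fun _ => 0, fun h => absurd h hi⟩
  choose q z f hqzf using hdata
  have hne : p.support.Nonempty := Polynomial.support_nonempty.2 hp0
  -- the largest exponent
  obtain ⟨i₀, hi₀, hmax⟩ : ∃ i₀ ∈ p.support, ∀ᶠ n in (σ.U : Filter ℕ),
      ∀ i ∈ p.support, z i n ≤ z i₀ n := by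
    apply ult_finite σ.U p.support (P := fun i₀ n => ∀ i ∈ p.support, z i n ≤ z i₀ n)
    refine Eventually.of_forall fun n => ?_
    obtain ⟨i, hi, h⟩ := Finset.exists_max_image p.support (fun i => z i n) hne
    exact ⟨i, hi, h⟩
  -- limits
  have hlim : ∀ i, ∃ r : ℚ, i ∈ p.support →
      Tendsto (fun n => f i n / (b : ℝ) ^ z i₀ n) (σ.U : Filter ℕ) (𝓝 (r : ℝ)) := by
    intro i
    by_cases hi : i ∈ p.support
    · obtain ⟨r, hr⟩ := zpow_lim σ.U hb (fun n => z i n - z i₀ n) (by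
        filter_upwards [hmax] with n hn
        have := hn i hi
        omega)
      refine ⟨q i * r, fun _ => ?_⟩
      have h1 := (hqzf i hi).2.2.2.mul hr
      push_cast
      refine h1.congr fun n => ?_
      rw [zpow_sub₀ hb0.ne']
      have h2 : (b : ℝ) ^ z i n ≠ 0 := zpow_ne_zero _ hb0.ne'
      have h3 : (b : ℝ) ^ z i₀ n ≠ 0 := zpow_ne_zero _ hb0.ne'
      field_simp
    · exact ⟨0, fun h => absurd h hi⟩
  choose r hr using hlim
  have hr0 : r i₀ = q i₀ := by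
    have h1 := tendsto_nhds_unique (hr i₀ hi₀) (hqzf i₀ hi₀).2.2.2
    exact_mod_cast h1
  -- the sum is super-small
  have hmem : ∀ i ∈ p.support, (fun n => f i n * ξ ^ i) ∈ OO σ := fun i hi =>
    (OO σ).mul_mem (hqzf i hi).2.1 (const_mem (ξ ^ i))
  have hSS : SS σ (fun n => ∑ i ∈ p.support, f i n * ξ ^ i) := by
    rw [← cl_zero_iff (sum_mem_OO p.support (fun i n => f i n * ξ ^ i) hmem),
      cl_sum p.support (fun i n => f i n * ξ ^ i) hmem, ← hp, Polynomial.aeval_def,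
      Polynomial.eval₂_eq_sum, Polynomial.sum_def]
    refine Finset.sum_congr rfl fun i hi => ?_
    rw [cl_mul (hqzf i hi).2.1 (const_mem (ξ ^ i)), (hqzf i hi).2.2.1, ← cst_apply, map_pow]
    rfl
  have hnS : ¬ SS σ (f i₀) := by
    intro h
    have h1 := (cl_zero_iff (hqzf i₀ hi₀).2.1).2 h
    rw [(hqzf i₀ hi₀).2.2.1] at h1
    exact (Polynomial.mem_support_iff.1 hi₀) (Subtype.ext h1)
  obtain ⟨C, hC⟩ := not_SS σ hnS
  -- first limit
  have hL1 : Tendsto (fun n => (∑ i ∈ p.support, f i n * ξ ^ i) / (b : ℝ) ^ z i₀ n)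
      (σ.U : Filter ℕ) (𝓝 (∑ i ∈ p.support, (r i : ℝ) * ξ ^ i)) := by
    have h1 : Tendsto (fun n => ∑ i ∈ p.support, f i n / (b : ℝ) ^ z i₀ n * ξ ^ i)
        (σ.U : Filter ℕ) (𝓝 (∑ i ∈ p.support, (r i : ℝ) * ξ ^ i)) :=
      tendsto_finsetSum _ fun i hi => (hr i hi).mul_const _
    refine h1.congr fun n => ?_
    rw [Finset.sum_div]
    refine Finset.sum_congr rfl fun i _ => ?_
    ring
  -- second limit
  have hL2 : Tendsto (fun n => (∑ i ∈ p.support, f i n * ξ ^ i) / (b : ℝ) ^ z i₀ n)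
      (σ.U : Filter ℕ) (𝓝 0) := by
    have h1 : ∀ᶠ n in (σ.U : Filter ℕ), |f i₀ n / (b : ℝ) ^ z i₀ n| ≤ |(q i₀ : ℝ)| + 1 := by
      have h2 := (hqzf i₀ hi₀).2.2.2.abs
      have h3 := h2.eventually (gt_mem_nhds (lt_add_one |(q i₀ : ℝ)|))
      filter_upwards [h3] with n hn
      exact hn.le
    have h4 : Tendsto (fun n => (|(q i₀ : ℝ)| + 1) * Real.exp (-σ.T n)) (σ.U : Filter ℕ)
        (𝓝 0) := by
      have h5 : Tendsto (fun n => Real.exp (-σ.T n)) (σ.U : Filter ℕ) (𝓝 0) :=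
        Real.tendsto_exp_neg_atTop_nhds_zero.comp σ.lim
      simpa using h5.const_mul (|(q i₀ : ℝ)| + 1)
    apply squeeze_zero_norm' _ h4
    filter_upwards [h1, hC, hSS (C + 1)] with n hn1 hn2 hn3
    have hz : 0 < (b : ℝ) ^ z i₀ n := zpow_pos hb0 _
    rw [abs_div, abs_of_pos hz, div_le_iff₀ hz] at hn1
    rw [Real.norm_eq_abs, abs_div, abs_of_pos hz, div_le_iff₀ hz]
    calc _ ≤ Real.exp (-((C + 1) * σ.T n)) := hn3
      _ = Real.exp (-σ.T n) * Real.exp (-(C * σ.T n)) := by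
          rw [← Real.exp_add]
          congr 1
          ring
      _ ≤ Real.exp (-σ.T n) * ((|(q i₀ : ℝ)| + 1) * (b : ℝ) ^ z i₀ n) :=
          mul_le_mul_of_nonneg_left (hn2.le.trans hn1) (Real.exp_pos _).le
      _ = (|(q i₀ : ℝ)| + 1) * Real.exp (-σ.T n) * (b : ℝ) ^ z i₀ n := by ring
  have hsum : ∑ i ∈ p.support, (r i : ℝ) * ξ ^ i = 0 := tendsto_nhds_unique hL1 hL2
  -- the polynomial
  apply hξ
  refine ⟨∑ i ∈ p.support, Polynomial.monomial i (r i), ?_, ?_⟩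
  · intro h
    have h1 := congrArg (fun Q : Polynomial ℚ => Q.coeff i₀) h
    simp only [Polynomial.finsetSum_coeff, Polynomial.coeff_monomial, Polynomial.coeff_zero] at h1
    rw [Finset.sum_ite_eq' p.support i₀ r, if_pos hi₀, hr0] at h1
    exact (hqzf i₀ hi₀).1 h1
  · rw [map_sum, ← hsum]
    refine Finset.sum_congr rfl fun i _ => ?_
    rw [Polynomial.aeval_monomial]
    rfl

end Pool.Agent.SGL
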