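import Pool.Agent.SGL.Stmts

set_option autoImplicit false

namespace Pool.Agent.SGL

theorem twr_proof (hRGE : Stmt_RGE) (hLDS : Stmt_LDS) : Stmt_TWR := by
  intro F _ K A₀ A B hK hA hB hLD s a c ha hc hind hsum
  have hKA : K ≤ A := hK.trans hA
  have hLD' : LDj K B A := hLDS F K A B hKA hB hLD
  obtain ⟨-, h2, h3, -⟩ := hRGE F K A₀ B hK hB
  obtain ⟨q, hq, hq0, hqc⟩ := h3 s c hc
  obtain ⟨d, b, α, hb, hbind, hα, hrep⟩ := h2 s (fun i => q * c i) hqc
  have hz : ∀ j, ∑ i, α i j * a i = 0 := by
    have h4 : ∑ j, b j * (∑ i, α i j * a i) = 0 := by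
      calc ∑ j, b j * (∑ i, α i j * a i) = ∑ j, ∑ i, a i * (α i j * b j) := by
            apply Finset.sum_congr rfl
            intro j _
            rw [Finset.mul_sum]
            apply Finset.sum_congr rfl
            intro i _
            ring
        _ = ∑ i, ∑ j, a i * (α i j * b j) := Finset.sum_comm
        _ = ∑ i, a i * (q * c i) := by
            apply Finset.sum_congr rfl
            intro i _
            rw [← Finset.mul_sum, hrep i]
        _ = q * ∑ i, a i * c i := by
            rw [Finset.mul_sum]
            apply Finset.sum_congr rfl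
            intro i _
            ring
        _ = 0 := by rw [hsum, mul_zero]
    have h5 := hLD' d b (fun j => ∑ i, α i j * a i) hb
      (fun j => A.sum_mem fun i _ => A.mul_mem (hA (hα i j)) (ha i)) hbind h4
    intro j
    exact congrFun h5 j
  have hα0 : ∀ i j, α i j = 0 := by
    intro i j
    have := hind (fun i => α i j) (fun i => hα i j) (hz j)
    exact congrFun this i
  funext i
  have h6 : q * c i = 0 := by
    have := hrep i
    simp only [hα0, zero_mul, Finset.sum_const_zero] at this
    exact this
  exact (mul_eq_zero.mp h6).resolve_left hq0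

end Pool.Agent.SGL
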