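import Pool.Agent.SGL.Stmts

set_option autoImplicit false

namespace Pool.Agent.SGL

open Filter Pool.Agent.SBT

namespace ULB_

variable {σ : Sc}

/-- nonzero rational constants have size `0` -/
theorem V_rat (q : ℚ) : V ((q : ℚ) : Om σ) 0 := by
  have h1 : ((q : ℚ) : Om σ) = cst σ (q : ℝ) := (map_ratCast (cst σ) q).symm
  rw [h1]
  have h2 : cst σ (q : ℝ) = cl σ (fun _ => (q : ℝ)) := rfl
  rw [h2, V_cl (const_mem _)]
  intro c' hc'
  filter_upwards [σ.large (|(q : ℝ)| / c')] with n hn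
  have h3 : |(q : ℝ)| ≤ c' * σ.T n := by
    rw [div_le_iff₀ hc'] at hn
    linarith
  have h4 := Real.add_one_le_exp (c' * σ.T n)
  linarith

/-- the subspace of the rational combinations of size at most `e` -/
noncomputable def W (σ : Sc) {d : ℕ} (α : Fin d → Om σ) (e : ℝ) : Submodule ℚ (Fin d → ℚ) where
  carrier := {q | V (∑ i, (q i : Om σ) * α i) e}
  add_mem' := by
    intro q r hq hr
    have h : ∑ i, (((q + r) i : ℚ) : Om σ) * α i =
        (∑ i, (q i : Om σ) * α i) + ∑ i, (r i : Om σ) * α i := by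
      rw [← Finset.sum_add_distrib]
      refine Finset.sum_congr rfl fun i _ => ?_
      rw [Pi.add_apply]
      push_cast
      ring
    show V (∑ i, (((q + r) i : ℚ) : Om σ) * α i) e
    rw [h]
    exact V_add hq hr
  zero_mem' := by
    show V (∑ i, (((0 : Fin d → ℚ) i : ℚ) : Om σ) * α i) e
    simpa using V_zero e
  smul_mem' := by
    intro c q hq
    have h : ∑ i, (((c • q) i : ℚ) : Om σ) * α i = (c : Om σ) * ∑ i, (q i : Om σ) * α i := by
      refine Eq.trans ?_ (Finset.mul_sum _ _ _).symm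
      refine Finset.sum_congr rfl fun i _ => ?_
      rw [Pi.smul_apply, smul_eq_mul]
      push_cast
      ring
    show V (∑ i, (((c • q) i : ℚ) : Om σ) * α i) e
    rw [h]
    have := V_mul (V_rat (σ := σ) c) hq
    rwa [zero_add] at this

theorem mem_W {d : ℕ} (α : Fin d → Om σ) (e : ℝ) (q : Fin d → ℚ) :
    q ∈ W σ α e ↔ V (∑ i, (q i : Om σ) * α i) e := Iff.rfl

theorem W_mono {d : ℕ} (α : Fin d → Om σ) {e e' : ℝ} (h : e ≤ e') : W σ α e ≤ W σ α e' :=
  fun _ hq => V_mono h hq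

end ULB_

theorem ulb_proof : Stmt_ULB := by
  intro σ d α hα
  let f : ℕ →o (Submodule ℚ (Fin d → ℚ))ᵒᵈ :=
    { toFun := fun n => OrderDual.toDual (ULB_.W σ α (-(n : ℝ)))
      monotone' := by
        intro a b hab
        show ULB_.W σ α (-(b : ℝ)) ≤ ULB_.W σ α (-(a : ℝ))
        apply ULB_.W_mono
        have : (a : ℝ) ≤ b := by exact_mod_cast hab
        linarith }
  obtain ⟨n, hn⟩ := IsArtinian.monotone_stabilizes f
  have hstab : ∀ m, n ≤ m → ULB_.W σ α (-(n : ℝ)) = ULB_.W σ α (-(m : ℝ)) := fun m hm => hn m hm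
  refine ⟨-(n : ℝ), ?_⟩
  intro q hq e he
  by_contra hlt
  push Not at hlt
  apply hq
  have h1 : q ∈ ULB_.W σ α (-(n : ℝ)) := V_mono hlt.le he
  have h2 : ∑ i, (q i : Om σ) * α i = 0 := by
    apply V_eq_zero
    intro c
    obtain ⟨m, hm⟩ := exists_nat_ge (max (n : ℝ) (-c))
    have h3 : n ≤ m := by exact_mod_cast (le_max_left _ _).trans hm
    have h4 : q ∈ ULB_.W σ α (-(m : ℝ)) := by
      rw [← hstab m h3]
      exact h1
    have h5 : -(m : ℝ) ≤ c := by
      have := (le_max_right (n : ℝ) (-c)).trans hm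
      linarith
    exact V_mono h5 h4
  have h3 := hα (fun i => ((q i : ℚ) : Om σ)) (fun i => by
    exact SubfieldClass.ratCast_mem _ _) h2
  funext i
  have h4 := congrFun h3 i
  simp only [Pi.zero_apply] at h4 ⊢
  exact_mod_cast h4

end Pool.Agent.SGL
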