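import Pool.Agent.SGL.Stmts2

/-!
# SGL, module VLR: a transcendental element has a pole (MP_57632f_nt)
-/

set_option autoImplicit false

namespace Pool.Agent.SGL

open Filter Pool.Agent.SBT

theorem vlr_proof : Stmt_VLR := by
  intro K L _ _ _ l hl
  -- the integral closure of `K` in `L`
  have hl2 : l ∉ (integralClosure K L).toSubring := by
    intro h
    have h2 : IsIntegral K l := h
    exact hl h2.isAlgebraic
  have : IsIntegrallyClosedIn (integralClosure K L).toSubring L := by
    rw [Subring.isIntegrallyClosedIn_iff]
    intro x hx
    have h1 : IsIntegral (integralClosure K L) x := hx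
    exact isIntegral_trans (A := integralClosure K L) x h1
  obtain ⟨V, hV, hlV⟩ := Subring.exists_le_valuationSubring_of_isIntegrallyClosedIn hl2
  exact ⟨V, fun c => hV ((integralClosure K L).algebraMap_mem c), hlV⟩

end Pool.Agent.SGL
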