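import Pool.Agent.SBT.Main
import Pool.Agent.SGL.RGE
import Pool.Agent.SGL.LDS
import Pool.Agent.SGL.TWR
import Pool.Agent.SGL.DSJ
import Pool.Agent.SGL.FRE
import Pool.Agent.SGL.EXC
import Pool.Agent.SGL.CPL
import Pool.Agent.SGL.GAU
import Pool.Agent.SGL.KWD
import Pool.Agent.SGL.KQT
import Pool.Agent.SGL.QLD
import Pool.Agent.SGL.LDK
import Pool.Agent.SGL.SPN
import Pool.Agent.SGL.LDT
import Pool.Agent.SGL.TRK
import Pool.Agent.SGL.TRL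
import Pool.Agent.SGL.ULB
import Pool.Agent.SGL.LDB
import Pool.Agent.SGL.LDE
import Pool.Agent.SGL.STA
import Pool.Agent.SGL.STU
import Pool.Agent.SGL.MEM
import Pool.Agent.SGL.TAA
import Pool.Agent.SGL.DEV
import Pool.Agent.SGL.DRT
import Pool.Agent.SGL.DMT
import Pool.Agent.SGL.VLR
import Pool.Agent.SGL.GSV
import Pool.Agent.SGL.PLC
import Pool.Agent.SGL.CST
import Pool.Agent.SGL.ST3
import Pool.Agent.SGL.STH
import Pool.Agent.SGL.LDF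
import Pool.Agent.SGL.LDR
import Pool.Agent.SGL.LDC
import Pool.Agent.SGL.SGB
import Pool.Agent.SGL.HP1
import Pool.Agent.SGL.HP2
import Pool.Agent.SGL.HP3
import Pool.Agent.SGL.HP4
import Pool.Agent.SGL.HP5
import Pool.Agent.SGL.LIO
import Pool.Agent.SGL.HP6
import Pool.Agent.SGL.HP7
import Pool.Agent.SGL.NUP

/-!
# Squad SGL: assembly of the modules
-/

set_option autoImplicit false

namespace Pool.Agent.SGL

theorem RGE_ : Stmt_RGE := rge_proof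
theorem LDS_ : Stmt_LDS := lds_proof
theorem TWR_ : Stmt_TWR := twr_proof RGE_ LDS_
theorem DSJ_ : Stmt_DSJ := dsj_proof LDS_ TWR_
theorem FRE_ : Stmt_FRE := fre_proof
theorem EXC_ : Stmt_EXC := exc_proof
theorem CPL_ : Stmt_CPL := cpl_proof
theorem GAU_ : Stmt_GAU := gau_proof SBT.S2T_ SBT.UNI_
theorem KWD_ : Stmt_KWD := kwd_proof
theorem KQT_ : Stmt_KQT := kqt_proof SBT.bas_proof GAU_ KWD_
theorem QLD_ : Stmt_QLD := qld_proof KQT_ KWD_ GAU_ SBT.S2T_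
theorem LDK_ : Stmt_LDK := ldk_proof QLD_
theorem SPN_ : Stmt_SPN := spn_proof QLD_ CPL_ RGE_
theorem LDT_ : Stmt_LDT := ldt_proof KQT_
theorem TRK_ : Stmt_TRK := trk_proof LDT_
theorem TRL_ : Stmt_TRL := trl_proof
theorem ULB_ : Stmt_ULB := ulb_proof
theorem LDB_ : Stmt_LDB := ldb_proof KQT_ KWD_ GAU_ ULB_
theorem LDE_ : Stmt_LDE := lde_proof LDS_ TWR_ DSJ_ KWD_ LDK_ LDB_
theorem STA_ : Stmt_STA := sta_proof SBT.tyc_proof SBT.dtm_proof SBT.spx_proof SBT.RTN_ SBT.STV_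
theorem STU_ : Stmt_STU := stu_proof STA_ SBT.rpa_proof
theorem MEM_ : Stmt_MEM := mem_proof STU_ SPN_ SBT.dgt_proof KWD_
theorem TAA_ : Stmt_TAA := taa_proof MEM_ KWD_ LDE_ FRE_ TRL_
theorem DEV_ : Stmt_DEV := dev_proof
theorem DRT_ : Stmt_DRT := drt_proof
theorem DMT_ : Stmt_DMT := dmt_proof
theorem VLR_ : Stmt_VLR := vlr_proof
theorem GSV_ : Stmt_GSV := gsv_proof DMT_
theorem PLC_ : Stmt_PLC := plc_proof VLR_ GSV_
theorem CST_ : Stmt_CST := cst_proof DEV_ DRT_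
theorem ST3_ : Stmt_ST3 := st3_proof DRT_ DMT_ PLC_ CST_
theorem STH_ : Stmt_STH := sth_proof DRT_ DMT_ PLC_ CST_
theorem LDF_ : Stmt_LDF := ldf_proof
theorem LDR_ : Stmt_LDR := ldr_proof
theorem LDC_ : Stmt_LDC := ldc_proof LDF_ LDR_
theorem SGB_ : Stmt_SGB := sgb_proof ST3_ STH_ LDC_
theorem HP1_ : Stmt_HP1 := hp1_proof
theorem HP2_ : Stmt_HP2 := hp2_proof HP1_
theorem HP3_ : Stmt_HP3 := hp3_proof HP2_
theorem HP4_ : Stmt_HP4 := hp4_proof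
theorem HP5_ : Stmt_HP5 := hp5_proof HP2_
theorem LIO_ : Stmt_LIO := lio_proof
theorem HP6_ : Stmt_HP6 := hp6_proof
theorem HP7_ : Stmt_HP7 := hp7_proof HP3_ HP4_ HP5_ LIO_ HP6_
theorem NUP_ : Stmt_NUP := nup_proof HP7_

end Pool.Agent.SGL
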