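import Pool.Agent.SBT.StmtsD

/-!
# Squad SGL (MP_57632f_nt): a Siegel type theorem for digits.  Definitions.
-/

set_option autoImplicit false

namespace Pool.Agent.SGL

open Filter

/-! ## The field of a scale -/

/-- a scale: an ultrafilter and a sequence of real numbers which tends to infinity -/
structure Sc where
  /-- the ultrafilter -/
  U : Ultrafilter ℕ
  /-- the scale -/
  T : ℕ → ℝ
  lim : Tendsto T (U : Filter ℕ) atTop

variable (σ : Sc)

theorem Sc.large (A : ℝ) : ∀ᶠ n in (σ.U : Filter ℕ), A ≤ σ.T n := σ.lim.eventually_ge_atTop A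

/-- real sequences of size `exp (O(T))` -/
def OO : Subring (ℕ → ℝ) where
  carrier := {f | ∃ C : ℝ, ∀ᶠ n in (σ.U : Filter ℕ), |f n| ≤ Real.exp (C * σ.T n)}
  mul_mem' := by
    rintro f g ⟨C, hf⟩ ⟨D, hg⟩
    refine ⟨C + D, ?_⟩
    filter_upwards [hf, hg] with n h1 h2
    rw [Pi.mul_apply, abs_mul, add_mul, Real.exp_add]
    exact mul_le_mul h1 h2 (abs_nonneg _) (Real.exp_pos _).le
  one_mem' := ⟨0, by simp⟩
  add_mem' := by
    rintro f g ⟨C, hf⟩ ⟨D, hg⟩
    refine ⟨max C D + 1, ?_⟩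
    filter_upwards [hf, hg, σ.large 1] with n h1 h2 h3
    have h4 : Real.exp (C * σ.T n) ≤ Real.exp (max C D * σ.T n) :=
      Real.exp_le_exp.2 (mul_le_mul_of_nonneg_right (le_max_left _ _) (by linarith))
    have h5 : Real.exp (D * σ.T n) ≤ Real.exp (max C D * σ.T n) :=
      Real.exp_le_exp.2 (mul_le_mul_of_nonneg_right (le_max_right _ _) (by linarith))
    have h6 : (2 : ℝ) ≤ Real.exp (σ.T n) := by
      have := Real.add_one_le_exp (σ.T n)
      linarith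
    have h7 : Real.exp ((max C D + 1) * σ.T n) =
        Real.exp (max C D * σ.T n) * Real.exp (σ.T n) := by
      rw [add_mul, one_mul, Real.exp_add]
    rw [h7]
    have h8 := Real.exp_pos (max C D * σ.T n)
    have h9 := abs_add_le (f n) (g n)
    rw [Pi.add_apply]
    nlinarith
  zero_mem' := ⟨0, by simp⟩
  neg_mem' := by
    rintro f ⟨C, hf⟩
    refine ⟨C, ?_⟩
    filter_upwards [hf] with n h1
    rwa [Pi.neg_apply, abs_neg]

/-- super-exponentially small sequences -/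
def SS (f : ℕ → ℝ) : Prop := ∀ C : ℝ, ∀ᶠ n in (σ.U : Filter ℕ), |f n| ≤ Real.exp (-(C * σ.T n))

/-- the maximal ideal -/
def MM : Ideal (OO σ) where
  carrier := {f | SS σ f.1}
  add_mem' := by
    intro f g hf hg C
    filter_upwards [hf (C + 1), hg (C + 1), σ.large 1] with n h1 h2 h3
    have h6 : (2 : ℝ) ≤ Real.exp (σ.T n) := by
      have := Real.add_one_le_exp (σ.T n)
      linarith
    have h7 : Real.exp (-(C * σ.T n)) =
        Real.exp (-((C + 1) * σ.T n)) * Real.exp (σ.T n) := by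
      rw [← Real.exp_add]
      congr 1
      ring
    rw [h7]
    have h8 := Real.exp_pos (-((C + 1) * σ.T n))
    have h9 := abs_add_le (f.1 n) (g.1 n)
    show |f.1 n + g.1 n| ≤ _
    nlinarith
  zero_mem' := by
    intro C
    filter_upwards with n
    show |(0 : ℝ)| ≤ _
    rw [abs_zero]
    exact (Real.exp_pos _).le
  smul_mem' := by
    rintro ⟨f, D, hf⟩ g hg C
    filter_upwards [hf, hg (C + D)] with n h1 h2
    show |f n * g.1 n| ≤ _
    rw [abs_mul]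
    calc |f n| * |g.1 n| ≤ Real.exp (D * σ.T n) * Real.exp (-((C + D) * σ.T n)) :=
          mul_le_mul h1 h2 (abs_nonneg _) (Real.exp_pos _).le
      _ = Real.exp (-(C * σ.T n)) := by
          rw [← Real.exp_add]
          congr 1
          ring

theorem not_SS {f : ℕ → ℝ} (h : ¬ SS σ f) :
    ∃ C : ℝ, ∀ᶠ n in (σ.U : Filter ℕ), Real.exp (-(C * σ.T n)) < |f n| := by
  unfold SS at h
  push Not at h
  exact h

instance : (MM σ).IsMaximal := by
  rw [Ideal.isMaximal_iff]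
  constructor
  · intro h
    have h1 : SS σ (fun _ => (1 : ℝ)) := h
    have h2 := h1 1
    have h3 := (h2.and (σ.large 1)).exists
    obtain ⟨n, h4, h5⟩ := h3
    have h6 : Real.exp (-(1 * σ.T n)) < 1 := by
      rw [Real.exp_lt_one_iff]
      linarith
    rw [abs_one] at h4
    linarith
  · intro J f hJ hf hfJ
    obtain ⟨C, hC⟩ := not_SS σ hf
    have h1 : (fun n => (f.1 n)⁻¹) ∈ OO σ := by
      refine ⟨C, ?_⟩
      filter_upwards [hC] with n hn
      rw [abs_inv]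
      have h2 := Real.exp_pos (-(C * σ.T n))
      rw [show Real.exp (C * σ.T n) = (Real.exp (-(C * σ.T n)))⁻¹ by
        rw [← Real.exp_neg, neg_neg]]
      exact inv_anti₀ h2 hn.le
    have h2 : (⟨fun n => (f.1 n)⁻¹, h1⟩ : OO σ) * f - 1 ∈ MM σ := by
      intro D
      filter_upwards [hC] with n hn
      have h3 : f.1 n ≠ 0 := by
        intro h4
        rw [h4, abs_zero] at hn
        exact absurd hn (not_lt.2 (Real.exp_pos _).le)
      show |(f.1 n)⁻¹ * f.1 n - 1| ≤ _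
      rw [inv_mul_cancel₀ h3, sub_self, abs_zero]
      exact (Real.exp_pos _).le
    have h3 : (⟨fun n => (f.1 n)⁻¹, h1⟩ : OO σ) * f ∈ J := J.mul_mem_left _ hfJ
    have h4 := J.sub_mem h3 (hJ h2)
    rwa [sub_sub_cancel] at h4

/-- the field of the scale: sequences of size `exp (O(T))` modulo super-exponentially small
sequences -/
def Om : Type := OO σ ⧸ MM σ

noncomputable instance : Field (Om σ) := Ideal.Quotient.field (MM σ)

/-- the class of a sequence (`0` if the sequence is not in `OO σ`) -/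
noncomputable def cl (f : ℕ → ℝ) : Om σ :=
  open Classical in if h : f ∈ OO σ then Ideal.Quotient.mk (MM σ) ⟨f, h⟩ else 0

variable {σ}

theorem mem_OO {f : ℕ → ℝ} :
    f ∈ OO σ ↔ ∃ C : ℝ, ∀ᶠ n in (σ.U : Filter ℕ), |f n| ≤ Real.exp (C * σ.T n) := Iff.rfl

theorem cl_of_mem {f : ℕ → ℝ} (h : f ∈ OO σ) : cl σ f = Ideal.Quotient.mk (MM σ) ⟨f, h⟩ := by
  unfold cl
  rw [dif_pos h]

theorem cl_surj (x : Om σ) : ∃ f ∈ OO σ, cl σ f = x := by
  obtain ⟨⟨f, hf⟩, h⟩ := Ideal.Quotient.mk_surjective (I := MM σ) x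
  exact ⟨f, hf, by rw [cl_of_mem hf]; exact h⟩

theorem cl_add {f g : ℕ → ℝ} (hf : f ∈ OO σ) (hg : g ∈ OO σ) :
    cl σ (fun n => f n + g n) = cl σ f + cl σ g := by
  have h : (fun n => f n + g n) ∈ OO σ := (OO σ).add_mem hf hg
  rw [cl_of_mem hf, cl_of_mem hg, cl_of_mem h]
  exact map_add (Ideal.Quotient.mk (MM σ)) ⟨f, hf⟩ ⟨g, hg⟩

theorem cl_mul {f g : ℕ → ℝ} (hf : f ∈ OO σ) (hg : g ∈ OO σ) :
    cl σ (fun n => f n * g n) = cl σ f * cl σ g := by
  have h : (fun n => f n * g n) ∈ OO σ := (OO σ).mul_mem hf hg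
  rw [cl_of_mem hf, cl_of_mem hg, cl_of_mem h]
  exact map_mul (Ideal.Quotient.mk (MM σ)) ⟨f, hf⟩ ⟨g, hg⟩

theorem cl_sub {f g : ℕ → ℝ} (hf : f ∈ OO σ) (hg : g ∈ OO σ) :
    cl σ (fun n => f n - g n) = cl σ f - cl σ g := by
  have h : (fun n => f n - g n) ∈ OO σ := (OO σ).sub_mem hf hg
  rw [cl_of_mem hf, cl_of_mem hg, cl_of_mem h]
  exact map_sub (Ideal.Quotient.mk (MM σ)) ⟨f, hf⟩ ⟨g, hg⟩

theorem cl_neg {f : ℕ → ℝ} (hf : f ∈ OO σ) : cl σ (fun n => - f n) = - cl σ f := by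
  have h : (fun n => - f n) ∈ OO σ := (OO σ).neg_mem hf
  rw [cl_of_mem hf, cl_of_mem h]
  exact map_neg (Ideal.Quotient.mk (MM σ)) ⟨f, hf⟩

theorem cl_zero_iff {f : ℕ → ℝ} (hf : f ∈ OO σ) : cl σ f = 0 ↔ SS σ f := by
  rw [cl_of_mem hf]
  exact Ideal.Quotient.eq_zero_iff_mem

theorem cl_eq_iff {f g : ℕ → ℝ} (hf : f ∈ OO σ) (hg : g ∈ OO σ) :
    cl σ f = cl σ g ↔ SS σ (fun n => f n - g n) := by
  rw [← sub_eq_zero, ← cl_sub hf hg]
  exact cl_zero_iff ((OO σ).sub_mem hf hg)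

theorem SS_mem {f : ℕ → ℝ} (hf : SS σ f) : f ∈ OO σ := by
  refine ⟨0, ?_⟩
  filter_upwards [hf 0] with n hn
  simpa using hn

theorem SS_of_eq {f g : ℕ → ℝ} (h : ∀ᶠ n in (σ.U : Filter ℕ), f n = g n) :
    SS σ (fun n => f n - g n) := by
  intro C
  filter_upwards [h] with n hn
  rw [hn, sub_self, abs_zero]
  exact (Real.exp_pos _).le

theorem OO_congr {f g : ℕ → ℝ} (h : ∀ᶠ n in (σ.U : Filter ℕ), f n = g n) (hf : f ∈ OO σ) :
    g ∈ OO σ := by
  obtain ⟨C, hC⟩ := hf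
  refine ⟨C, ?_⟩
  filter_upwards [h, hC] with n h1 h2
  rwa [← h1]

theorem cl_congr {f g : ℕ → ℝ} (h : ∀ᶠ n in (σ.U : Filter ℕ), f n = g n) :
    cl σ f = cl σ g := by
  by_cases hf : f ∈ OO σ
  · have hg := OO_congr h hf
    rw [cl_eq_iff hf hg]
    exact SS_of_eq h
  · have hg : g ∉ OO σ := fun hg => hf (OO_congr (by filter_upwards [h] with n hn; exact hn.symm) hg)
    unfold cl
    rw [dif_neg hf, dif_neg hg]

theorem const_mem (r : ℝ) : (fun _ : ℕ => r) ∈ OO σ := by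
  refine ⟨|r|, ?_⟩
  filter_upwards [σ.large 1] with n hn
  have h1 := Real.add_one_le_exp (|r| * σ.T n)
  have h2 : |r| ≤ |r| * σ.T n := le_mul_of_one_le_right (abs_nonneg _) hn
  linarith

variable (σ) in
/-- the real numbers as constant sequences -/
noncomputable def cst : ℝ →+* Om σ where
  toFun r := cl σ (fun _ => r)
  map_one' := by
    rw [cl_of_mem (const_mem 1)]
    exact map_one (Ideal.Quotient.mk (MM σ))
  map_mul' r s := cl_mul (const_mem r) (const_mem s)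
  map_zero' := by
    rw [cl_of_mem (const_mem 0)]
    exact map_zero (Ideal.Quotient.mk (MM σ))
  map_add' r s := cl_add (const_mem r) (const_mem s)

theorem cst_apply (r : ℝ) : cst σ r = cl σ (fun _ => r) := rfl

noncomputable instance : Algebra ℝ (Om σ) := (cst σ).toAlgebra

instance : CharZero (Om σ) := charZero_of_injective_ringHom (cst σ).injective

theorem cl_zero : cl σ (fun _ => 0) = 0 := map_zero (cst σ)

theorem cl_one : cl σ (fun _ => 1) = 1 := map_one (cst σ)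

/-- inverses -/
theorem inv_mem {f : ℕ → ℝ} (hf : ¬ SS σ f) : (fun n => (f n)⁻¹) ∈ OO σ := by
  obtain ⟨C, hC⟩ := not_SS σ hf
  refine ⟨C, ?_⟩
  filter_upwards [hC] with n hn
  rw [abs_inv]
  have h2 := Real.exp_pos (-(C * σ.T n))
  rw [show Real.exp (C * σ.T n) = (Real.exp (-(C * σ.T n)))⁻¹ by rw [← Real.exp_neg, neg_neg]]
  exact inv_anti₀ h2 hn.le

theorem ne_zero_of_not_SS {f : ℕ → ℝ} (hf : ¬ SS σ f) : ∀ᶠ n in (σ.U : Filter ℕ), f n ≠ 0 := by
  obtain ⟨C, hC⟩ := not_SS σ hf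
  filter_upwards [hC] with n hn h4
  rw [h4, abs_zero] at hn
  exact absurd hn (not_lt.2 (Real.exp_pos _).le)

theorem cl_inv {f : ℕ → ℝ} (hf : f ∈ OO σ) (h : cl σ f ≠ 0) :
    cl σ (fun n => (f n)⁻¹) = (cl σ f)⁻¹ := by
  have h1 : ¬ SS σ f := fun h2 => h ((cl_zero_iff hf).2 h2)
  have h2 := inv_mem h1
  have h3 : cl σ (fun n => (f n)⁻¹) * cl σ f = 1 := by
    rw [← cl_mul h2 hf, ← cl_one (σ := σ)]
    apply cl_congr
    filter_upwards [ne_zero_of_not_SS h1] with n hn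
    exact inv_mul_cancel₀ hn
  exact eq_inv_of_mul_eq_one_left h3

/-! ## The valuation -/

/-- `x` has size at most `exp (c T)` up to `exp (o(T))` -/
def V (x : Om σ) (c : ℝ) : Prop :=
  ∃ f ∈ OO σ, cl σ f = x ∧ ∀ c' > c, ∀ᶠ n in (σ.U : Filter ℕ), |f n| ≤ Real.exp (c' * σ.T n)

theorem V_cl {f : ℕ → ℝ} (hf : f ∈ OO σ) {c : ℝ} :
    V (cl σ f) c ↔ ∀ c' > c, ∀ᶠ n in (σ.U : Filter ℕ), |f n| ≤ Real.exp (c' * σ.T n) := by
  constructor
  · rintro ⟨g, hg, h1, h2⟩ c' hc'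
    rw [cl_eq_iff hg hf] at h1
    obtain ⟨c'', h3, h4⟩ := exists_between hc'
    obtain ⟨ε, hε, hε2⟩ : ∃ ε : ℝ, 0 < ε ∧ c'' + ε = c' := ⟨c' - c'', by linarith, by ring⟩
    filter_upwards [h2 c'' h3, h1 (-c''), σ.large (1 / ε)] with n h5 h6 h7
    have h8 : |f n| ≤ |g n| + |g n - f n| := by
      have := abs_sub_abs_le_abs_sub (f n) (g n)
      rw [abs_sub_comm (f n) (g n)] at this
      linarith
    have h9 : Real.exp (c' * σ.T n) = Real.exp (c'' * σ.T n) * Real.exp (ε * σ.T n) := by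
      rw [← Real.exp_add, ← hε2]
      congr 1
      ring
    have h10 : (2 : ℝ) ≤ Real.exp (ε * σ.T n) := by
      have h11 := Real.add_one_le_exp (ε * σ.T n)
      have h12 : 1 ≤ ε * σ.T n := by
        rw [div_le_iff₀ hε] at h7
        linarith
      linarith
    have h13 : -(-c'' * σ.T n) = c'' * σ.T n := by ring
    rw [h13] at h6
    rw [h9]
    have h14 := Real.exp_pos (c'' * σ.T n)
    nlinarith
  · intro h
    exact ⟨f, hf, rfl, h⟩

theorem V_zero (c : ℝ) : V (0 : Om σ) c :=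
  ⟨fun _ => 0, const_mem 0, cl_zero, fun c' _ => by
    filter_upwards with n
    rw [abs_zero]
    exact (Real.exp_pos _).le⟩

theorem V_mono {x : Om σ} {c d : ℝ} (h : c ≤ d) (hx : V x c) : V x d := by
  obtain ⟨f, hf, h1, h2⟩ := hx
  exact ⟨f, hf, h1, fun c' hc' => h2 c' (lt_of_le_of_lt h hc')⟩

theorem V_add {x y : Om σ} {c : ℝ} (hx : V x c) (hy : V y c) : V (x + y) c := by
  obtain ⟨f, hf, rfl, h1⟩ := hx
  obtain ⟨g, hg, rfl, h2⟩ := hy
  refine ⟨fun n => f n + g n, (OO σ).add_mem hf hg, cl_add hf hg, ?_⟩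
  intro c' hc'
  obtain ⟨c'', h3, h4⟩ := exists_between hc'
  obtain ⟨ε, hε, hε2⟩ : ∃ ε : ℝ, 0 < ε ∧ c'' + ε = c' := ⟨c' - c'', by linarith, by ring⟩
  filter_upwards [h1 c'' h3, h2 c'' h3, σ.large (1 / ε)] with n h5 h6 h7
  have h9 : Real.exp (c' * σ.T n) = Real.exp (c'' * σ.T n) * Real.exp (ε * σ.T n) := by
    rw [← Real.exp_add, ← hε2]
    congr 1
    ring
  have h10 : (2 : ℝ) ≤ Real.exp (ε * σ.T n) := by
    have h11 := Real.add_one_le_exp (ε * σ.T n)
    have h12 : 1 ≤ ε * σ.T n := by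
      rw [div_le_iff₀ hε] at h7
      linarith
    linarith
  rw [h9]
  have h14 := Real.exp_pos (c'' * σ.T n)
  have h15 := abs_add_le (f n) (g n)
  nlinarith

theorem V_neg {x : Om σ} {c : ℝ} (hx : V x c) : V (-x) c := by
  obtain ⟨f, hf, rfl, h1⟩ := hx
  refine ⟨fun n => - f n, (OO σ).neg_mem hf, cl_neg hf, ?_⟩
  intro c' hc'
  filter_upwards [h1 c' hc'] with n hn
  rwa [abs_neg]

theorem V_sub {x y : Om σ} {c : ℝ} (hx : V x c) (hy : V y c) : V (x - y) c := by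
  rw [sub_eq_add_neg]
  exact V_add hx (V_neg hy)

theorem V_mul {x y : Om σ} {c d : ℝ} (hx : V x c) (hy : V y d) : V (x * y) (c + d) := by
  obtain ⟨f, hf, rfl, h1⟩ := hx
  obtain ⟨g, hg, rfl, h2⟩ := hy
  refine ⟨fun n => f n * g n, (OO σ).mul_mem hf hg, cl_mul hf hg, ?_⟩
  intro c' hc'
  filter_upwards [h1 (c + (c' - (c + d)) / 2) (by linarith),
    h2 (d + (c' - (c + d)) / 2) (by linarith)] with n h3 h4
  rw [abs_mul]
  calc |f n| * |g n| ≤ Real.exp ((c + (c' - (c + d)) / 2) * σ.T n) *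
        Real.exp ((d + (c' - (c + d)) / 2) * σ.T n) :=
        mul_le_mul h3 h4 (abs_nonneg _) (Real.exp_pos _).le
    _ = Real.exp (c' * σ.T n) := by
        rw [← Real.exp_add]
        congr 1
        ring

theorem V_sum {ι : Type} (s : Finset ι) (x : ι → Om σ) {c : ℝ} (h : ∀ i ∈ s, V (x i) c) :
    V (∑ i ∈ s, x i) c := by
  classical
  induction s using Finset.induction_on with
  | empty => simpa using V_zero c
  | insert i s hi ih =>
    rw [Finset.sum_insert hi]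
    exact V_add (h i (Finset.mem_insert_self i s))
      (ih (fun j hj => h j (Finset.mem_insert_of_mem hj)))

/-- everything is bounded -/
theorem V_exists (x : Om σ) : ∃ c, V x c := by
  obtain ⟨f, ⟨C, hC⟩, rfl⟩ := cl_surj x
  refine ⟨C, f, ⟨C, hC⟩, rfl, ?_⟩
  intro c' hc'
  filter_upwards [hC, σ.large 0] with n h1 h2
  exact h1.trans (Real.exp_le_exp.2 (mul_le_mul_of_nonneg_right hc'.le h2))

/-- only zero is arbitrarily small -/
theorem V_eq_zero {x : Om σ} (h : ∀ c, V x c) : x = 0 := by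
  obtain ⟨f, hf, rfl⟩ := cl_surj x
  rw [cl_zero_iff hf]
  intro C
  have h1 := (V_cl hf).1 (h (-C - 1)) (-C) (by linarith)
  filter_upwards [h1] with n hn
  rwa [← neg_mul]

/-- nonzero elements are not arbitrarily small: `V x c` implies `c₀ ≤ c` -/
theorem V_lower {x : Om σ} (hx : x ≠ 0) : ∃ c₀ : ℝ, ∀ c, V x c → c₀ ≤ c := by
  obtain ⟨d, hd⟩ := V_exists (x⁻¹)
  refine ⟨-d, ?_⟩
  intro c hc
  have h1 := V_mul hc hd
  rw [mul_inv_cancel₀ hx] at h1
  rw [← cl_one (σ := σ), V_cl (const_mem 1)] at h1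
  by_contra h2
  push Not at h2
  have h3 := h1 ((c + d) / 2) (by linarith)
  obtain ⟨n, h4, h5⟩ := (h3.and (σ.large 1)).exists
  rw [abs_one] at h4
  have h6 : Real.exp ((c + d) / 2 * σ.T n) < 1 := by
    rw [Real.exp_lt_one_iff]
    nlinarith
  linarith

/-! ## Closures -/

/-- an inverse is near if the element is near -/
theorem inv_near {x : Om σ} (hx : x ≠ 0) :
    ∃ c₁ e : ℝ, ∀ (κ : Om σ) (c : ℝ), c ≤ c₁ → V (x - κ) c → κ ≠ 0 ∧ V (x⁻¹ - κ⁻¹) (c + e) := by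
  obtain ⟨c₀, hc₀⟩ := V_lower hx
  obtain ⟨d, hd⟩ := V_exists (x⁻¹)
  refine ⟨min (c₀ - 1) (-d - 1), 2 * d, ?_⟩
  intro κ c hc h1
  have hκ : κ ≠ 0 := by
    rintro rfl
    rw [sub_zero] at h1
    have := hc₀ c h1
    have := min_le_left (c₀ - 1) (-d - 1)
    linarith
  refine ⟨hκ, ?_⟩
  -- `κ⁻¹` is at most of size `d`
  obtain ⟨f, hf, hfx⟩ := cl_surj x
  obtain ⟨g, hg, hgκ⟩ := cl_surj κ
  have h2 : V (κ⁻¹) d := by
    have hf0 : cl σ f ≠ 0 := by rw [hfx]; exact hx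
    have hg0 : cl σ g ≠ 0 := by rw [hgκ]; exact hκ
    have hd2 : V (cl σ (fun n => (f n)⁻¹)) d := by rw [cl_inv hf hf0, hfx]; exact hd
    have hfS : ¬ SS σ f := fun h => hf0 ((cl_zero_iff hf).2 h)
    have hgS : ¬ SS σ g := fun h => hg0 ((cl_zero_iff hg).2 h)
    rw [← hgκ, ← cl_inv hg hg0, V_cl (inv_mem hgS)]
    intro c' hc'
    have h3 := (V_cl (inv_mem hfS)).1 hd2
    have h4 : V (cl σ (fun n => f n - g n)) c := by rw [cl_sub hf hg, hfx, hgκ]; exact h1
    have h5 := (V_cl ((OO σ).sub_mem hf hg)).1 h4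
    obtain ⟨ε, hε, hε2⟩ : ∃ ε : ℝ, 0 < ε ∧ ε ≤ 1 / 4 ∧ d + 2 * ε ≤ c' :=
      ⟨min (1 / 4) ((c' - d) / 2), lt_min (by norm_num) (by linarith), min_le_left _ _, by
        have := min_le_right (1 / 4) ((c' - d) / 2)
        linarith⟩
    filter_upwards [h3 (d + ε) (by linarith), h5 (c + ε) (by linarith), ne_zero_of_not_SS hfS,
      ne_zero_of_not_SS hgS, σ.large (1 / ε)] with n h6 h7 h8 h9 h10
    have h11 : 1 ≤ ε * σ.T n := by
      rw [div_le_iff₀ hε] at h10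
      linarith
    have hT : 0 < σ.T n := by
      rcases lt_trichotomy (σ.T n) 0 with h | h | h
      · nlinarith
      · rw [h, mul_zero] at h11; linarith
      · exact h
    rw [abs_inv] at h6 ⊢
    have h12 : Real.exp (-((d + ε) * σ.T n)) ≤ |f n| := by
      rw [Real.exp_neg]
      exact inv_le_of_inv_le₀ (abs_pos.2 h8) h6
    have h13 : |f n - g n| ≤ |f n| / 2 := by
      have h14 : Real.exp ((c + ε) * σ.T n) ≤ Real.exp (-((d + ε) * σ.T n)) * Real.exp (-1) := by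
        rw [← Real.exp_add]
        apply Real.exp_le_exp.2
        have h15 : c ≤ -d - 1 := hc.trans (min_le_right _ _)
        nlinarith
      have h16 : Real.exp (-1) ≤ 1 / 2 := by
        have h17 := Real.add_one_le_exp (1 : ℝ)
        rw [Real.exp_neg, one_div]
        exact inv_anti₀ (by norm_num) (by linarith)
      have h18 := Real.exp_pos (-((d + ε) * σ.T n))
      calc |f n - g n| ≤ Real.exp ((c + ε) * σ.T n) := h7
        _ ≤ Real.exp (-((d + ε) * σ.T n)) * Real.exp (-1) := h14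
        _ ≤ |f n| * (1 / 2) := mul_le_mul h12 h16 (Real.exp_pos _).le (abs_nonneg _)
        _ = |f n| / 2 := by ring
    have h19 : |f n| / 2 ≤ |g n| := by
      have h20 := abs_sub_abs_le_abs_sub (f n) (g n)
      linarith
    have h21 : |f n|⁻¹ * 2 = (|f n| / 2)⁻¹ := by
      rw [inv_div]
      ring
    calc |g n|⁻¹ ≤ (|f n| / 2)⁻¹ := inv_anti₀ (by
          have := abs_pos.2 h8
          linarith) h19
      _ = |f n|⁻¹ * 2 := h21.symm
      _ ≤ Real.exp ((d + ε) * σ.T n) * Real.exp (ε * σ.T n) := by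
          apply mul_le_mul h6 _ (by norm_num) (Real.exp_pos _).le
          have := Real.add_one_le_exp (ε * σ.T n)
          linarith
      _ = Real.exp ((d + 2 * ε) * σ.T n) := by
          rw [← Real.exp_add]
          congr 1
          ring
      _ ≤ Real.exp (c' * σ.T n) :=
          Real.exp_le_exp.2 (mul_le_mul_of_nonneg_right hε2.2 hT.le)
  have h3 : x⁻¹ - κ⁻¹ = -(x - κ) * (x⁻¹ * κ⁻¹) := by
    field_simp
    ring
  rw [h3]
  have h4 := V_mul (V_neg h1) (V_mul hd h2)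
  exact V_mono (by linarith) h4

/-- the closure of a subfield -/
def clo (K : Subfield (Om σ)) : Subfield (Om σ) where
  carrier := {x | ∀ c : ℝ, ∃ κ ∈ K, V (x - κ) c}
  mul_mem' := by
    intro x y hx hy c
    obtain ⟨cx, hcx⟩ := V_exists x
    obtain ⟨cy, hcy⟩ := V_exists y
    obtain ⟨κ, hκ, h1⟩ := hx (min (c - cy) 0)
    obtain ⟨l, hl, h2⟩ := hy (min (c - max cx 0) 0)
    refine ⟨κ * l, K.mul_mem hκ hl, ?_⟩
    have h3 : x * y - κ * l = (x - κ) * y + κ * (y - l) := by ring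
    have h4 : V κ (max cx 0) := by
      have h5 : κ = x - (x - κ) := by ring
      rw [h5]
      exact V_sub (V_mono (le_max_left _ _) hcx)
        (V_mono ((min_le_right _ _).trans (le_max_right _ _)) h1)
    rw [h3]
    apply V_add
    · refine V_mono ?_ (V_mul h1 hcy)
      have := min_le_left (c - cy) 0
      linarith
    · refine V_mono ?_ (V_mul h4 h2)
      have := min_le_left (c - max cx 0) 0
      linarith
  one_mem' := fun c => ⟨1, K.one_mem, by rw [sub_self]; exact V_zero c⟩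
  add_mem' := by
    intro x y hx hy c
    obtain ⟨κ, hκ, h1⟩ := hx c
    obtain ⟨l, hl, h2⟩ := hy c
    refine ⟨κ + l, K.add_mem hκ hl, ?_⟩
    have h3 : x + y - (κ + l) = (x - κ) + (y - l) := by ring
    rw [h3]
    exact V_add h1 h2
  zero_mem' := fun c => ⟨0, K.zero_mem, by rw [sub_self]; exact V_zero c⟩
  neg_mem' := by
    intro x hx c
    obtain ⟨κ, hκ, h1⟩ := hx c
    refine ⟨-κ, K.neg_mem hκ, ?_⟩
    have h3 : -x - -κ = -(x - κ) := by ring
    rw [h3]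
    exact V_neg h1
  inv_mem' := by
    intro x hx c
    by_cases h0 : x = 0
    · refine ⟨0, K.zero_mem, ?_⟩
      rw [h0, inv_zero, sub_self]
      exact V_zero c
    · obtain ⟨c₁, e, h1⟩ := inv_near h0
      obtain ⟨κ, hκ, h2⟩ := hx (min c₁ (c - e))
      obtain ⟨-, h3⟩ := h1 κ _ (min_le_left _ _) h2
      refine ⟨κ⁻¹, K.inv_mem hκ, V_mono ?_ h3⟩
      have := min_le_right c₁ (c - e)
      linarith

theorem mem_clo {K : Subfield (Om σ)} {x : Om σ} :
    x ∈ clo K ↔ ∀ c : ℝ, ∃ κ ∈ K, V (x - κ) c := Iff.rfl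

theorem le_clo (K : Subfield (Om σ)) : K ≤ clo K := fun x hx c =>
  ⟨x, hx, by rw [sub_self]; exact V_zero c⟩

/-! ## The subfields -/

variable (σ) in
/-- rational sequences of height `exp (O(T))` -/
def Hq (q : ℕ → ℚ) : Prop := ∃ C : ℝ, ∀ᶠ n in (σ.U : Filter ℕ),
  |((q n).num : ℝ)| ≤ Real.exp (C * σ.T n) ∧ ((q n).den : ℝ) ≤ Real.exp (C * σ.T n)

theorem Hq_mem {q : ℕ → ℚ} (h : Hq σ q) : (fun n => (q n : ℝ)) ∈ OO σ := by
  obtain ⟨C, hC⟩ := h
  refine ⟨C, ?_⟩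
  filter_upwards [hC] with n hn
  refine le_trans ?_ hn.1
  have h1 : (q n : ℝ) = (q n).num / (q n).den := by
    exact_mod_cast (Rat.num_div_den (q n)).symm
  rw [h1, abs_div, Nat.abs_cast]
  apply div_le_self (abs_nonneg _)
  exact_mod_cast (q n).pos

theorem Hq_iff {q : ℕ → ℚ} : Hq σ q ↔ ∃ C : ℝ, ∀ᶠ n in (σ.U : Filter ℕ), ∃ p d : ℤ, d ≠ 0 ∧
    q n = p / d ∧ |(p : ℝ)| ≤ Real.exp (C * σ.T n) ∧ |(d : ℝ)| ≤ Real.exp (C * σ.T n) := by
  constructor
  · rintro ⟨C, hC⟩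
    refine ⟨C, ?_⟩
    filter_upwards [hC] with n hn
    refine ⟨(q n).num, (q n).den, by exact_mod_cast (q n).den_nz, ?_, hn.1, ?_⟩
    · exact_mod_cast (Rat.num_div_den (q n)).symm
    · have : |(((q n).den : ℤ) : ℝ)| = ((q n).den : ℝ) := by
        push_cast
        exact abs_of_nonneg (Nat.cast_nonneg _)
      rw [this]
      exact hn.2
  · rintro ⟨C, hC⟩
    refine ⟨max C 0, ?_⟩
    filter_upwards [hC, σ.large 0] with n hn hT
    obtain ⟨p, d, hd, hq, hp, hd2⟩ := hn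
    have hmono : Real.exp (C * σ.T n) ≤ Real.exp (max C 0 * σ.T n) :=
      Real.exp_le_exp.2 (mul_le_mul_of_nonneg_right (le_max_left _ _) hT)
    have h1 : (q n).num ∣ p := by
      rw [hq, ← Rat.divInt_eq_div]
      exact Rat.num_dvd p hd
    have h2 : ((q n).den : ℤ) ∣ d := by
      rw [hq, ← Rat.divInt_eq_div]
      exact Rat.den_dvd p d
    constructor
    · by_cases hp0 : p = 0
      · have : q n = 0 := by rw [hq, hp0]; simp
        rw [this]
        simp only [Rat.num_ofNat, Int.cast_zero, abs_zero]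
        exact (Real.exp_pos _).le
      · refine le_trans ?_ (hp.trans hmono)
        have h3 := Int.le_of_dvd (abs_pos.2 hp0) ((abs_dvd_abs _ _).2 h1)
        exact_mod_cast h3
    · refine le_trans ?_ (hd2.trans hmono)
      have h3 := Int.le_of_dvd (abs_pos.2 hd) ((dvd_abs _ _).2 h2)
      exact_mod_cast h3

theorem Hq_mul {q r : ℕ → ℚ} (hq : Hq σ q) (hr : Hq σ r) : Hq σ (fun n => q n * r n) := by
  rw [Hq_iff] at *
  obtain ⟨C, hC⟩ := hq
  obtain ⟨D, hD⟩ := hr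
  refine ⟨C + D, ?_⟩
  filter_upwards [hC, hD] with n h1 h2
  obtain ⟨p, d, hd, hq, hp, hd2⟩ := h1
  obtain ⟨p', d', hd', hq', hp', hd2'⟩ := h2
  refine ⟨p * p', d * d', mul_ne_zero hd hd', ?_, ?_, ?_⟩
  · rw [hq, hq']
    push_cast
    exact div_mul_div_comm _ _ _ _
  · push_cast
    rw [abs_mul, add_mul, Real.exp_add]
    exact mul_le_mul hp hp' (abs_nonneg _) (Real.exp_pos _).le
  · push_cast
    rw [abs_mul, add_mul, Real.exp_add]
    exact mul_le_mul hd2 hd2' (abs_nonneg _) (Real.exp_pos _).le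

theorem Hq_add {q r : ℕ → ℚ} (hq : Hq σ q) (hr : Hq σ r) : Hq σ (fun n => q n + r n) := by
  rw [Hq_iff] at *
  obtain ⟨C, hC⟩ := hq
  obtain ⟨D, hD⟩ := hr
  refine ⟨C + D + 1, ?_⟩
  filter_upwards [hC, hD, σ.large 1] with n h1 h2 hT
  obtain ⟨p, d, hd, hq, hp, hd2⟩ := h1
  obtain ⟨p', d', hd', hq', hp', hd2'⟩ := h2
  have hdq : (d : ℚ) ≠ 0 := by exact_mod_cast hd
  have hdq' : (d' : ℚ) ≠ 0 := by exact_mod_cast hd'
  have h6 : (2 : ℝ) ≤ Real.exp (σ.T n) := by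
    have := Real.add_one_le_exp (σ.T n)
    linarith
  have e1 : Real.exp ((C + D + 1) * σ.T n) =
      Real.exp (C * σ.T n) * Real.exp (D * σ.T n) * Real.exp (σ.T n) := by
    rw [← Real.exp_add, ← Real.exp_add]
    congr 1
    ring
  have pC := Real.exp_pos (C * σ.T n)
  have pD := Real.exp_pos (D * σ.T n)
  have pCD := mul_pos pC pD
  refine ⟨p * d' + p' * d, d * d', mul_ne_zero hd hd', ?_, ?_, ?_⟩
  · rw [hq, hq']
    push_cast
    field_simp
  · push_cast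
    rw [e1]
    have a1 : |(p : ℝ) * d'| ≤ Real.exp (C * σ.T n) * Real.exp (D * σ.T n) := by
      rw [abs_mul]
      exact mul_le_mul hp hd2' (abs_nonneg _) pC.le
    have a2 : |(p' : ℝ) * d| ≤ Real.exp (C * σ.T n) * Real.exp (D * σ.T n) := by
      rw [abs_mul, mul_comm]
      exact mul_le_mul hd2 hp' (abs_nonneg _) pC.le
    have a3 := abs_add_le ((p : ℝ) * d') ((p' : ℝ) * d)
    nlinarith
  · push_cast
    rw [e1]
    have a1 : |(d : ℝ) * d'| ≤ Real.exp (C * σ.T n) * Real.exp (D * σ.T n) := by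
      rw [abs_mul]
      exact mul_le_mul hd2 hd2' (abs_nonneg _) pC.le
    nlinarith

theorem Hq_neg {q : ℕ → ℚ} (hq : Hq σ q) : Hq σ (fun n => - q n) := by
  obtain ⟨C, hC⟩ := hq
  refine ⟨C, ?_⟩
  filter_upwards [hC] with n hn
  rw [Rat.neg_num, Rat.neg_den]
  push_cast
  rw [abs_neg]
  exact hn

theorem Hq_inv {q : ℕ → ℚ} (hq : Hq σ q) : Hq σ (fun n => (q n)⁻¹) := by
  rw [Hq_iff]
  obtain ⟨C, hC⟩ := hq
  refine ⟨max C 0, ?_⟩
  filter_upwards [hC, σ.large 0] with n hn hT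
  have hmono : Real.exp (C * σ.T n) ≤ Real.exp (max C 0 * σ.T n) :=
    Real.exp_le_exp.2 (mul_le_mul_of_nonneg_right (le_max_left _ _) hT)
  have h1 : (1 : ℝ) ≤ Real.exp (max C 0 * σ.T n) := by
    exact Real.one_le_exp (mul_nonneg (le_max_right _ _) hT)
  by_cases h0 : q n = 0
  · refine ⟨0, 1, one_ne_zero, by rw [h0]; simp, ?_, ?_⟩
    · simp only [Int.cast_zero, abs_zero]
      exact (Real.exp_pos _).le
    · simpa using h1
  · refine ⟨(q n).den, (q n).num, by exact_mod_cast (Rat.num_ne_zero.2 h0), ?_, ?_, ?_⟩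
    · have h2 : q n = (q n).num / (q n).den := (Rat.num_div_den (q n)).symm
      have h3 : (q n)⁻¹ = (((q n).num : ℚ) / ((q n).den : ℚ))⁻¹ := by rw [← h2]
      rw [h3, inv_div]
      push_cast
      rfl
    · have : |(((q n).den : ℤ) : ℝ)| = ((q n).den : ℝ) := by
        push_cast
        exact abs_of_nonneg (Nat.cast_nonneg _)
      rw [this]
      exact hn.2.trans hmono
    · exact hn.1.trans hmono

variable (σ) in
/-- the field of rational sequences of height `exp (O(T))` -/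
def Lf : Subfield (Om σ) where
  carrier := {x | ∃ q : ℕ → ℚ, Hq σ q ∧ cl σ (fun n => (q n : ℝ)) = x}
  mul_mem' := by
    rintro _ _ ⟨q, hq, rfl⟩ ⟨r, hr, rfl⟩
    refine ⟨fun n => q n * r n, Hq_mul hq hr, ?_⟩
    rw [← cl_mul (Hq_mem hq) (Hq_mem hr)]
    congr 1
    funext n
    push_cast
    rfl
  one_mem' := ⟨fun _ => 1, ⟨0, by simp⟩, by simpa using cl_one (σ := σ)⟩
  add_mem' := by
    rintro _ _ ⟨q, hq, rfl⟩ ⟨r, hr, rfl⟩
    refine ⟨fun n => q n + r n, Hq_add hq hr, ?_⟩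
    rw [← cl_add (Hq_mem hq) (Hq_mem hr)]
    congr 1
    funext n
    push_cast
    rfl
  zero_mem' := ⟨fun _ => 0, ⟨0, by simp⟩, by simpa using cl_zero (σ := σ)⟩
  neg_mem' := by
    rintro _ ⟨q, hq, rfl⟩
    refine ⟨fun n => - q n, Hq_neg hq, ?_⟩
    rw [← cl_neg (Hq_mem hq)]
    congr 1
    funext n
    push_cast
    rfl
  inv_mem' := by
    rintro _ ⟨q, hq, rfl⟩
    by_cases h0 : cl σ (fun n => (q n : ℝ)) = 0
    · rw [h0, inv_zero]
      exact ⟨fun _ => 0, ⟨0, by simp⟩, by simpa using cl_zero (σ := σ)⟩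
    · refine ⟨fun n => (q n)⁻¹, Hq_inv hq, ?_⟩
      rw [← cl_inv (Hq_mem hq) h0]
      congr 1
      funext n
      push_cast
      rfl

theorem mem_Lf {x : Om σ} :
    x ∈ Lf σ ↔ ∃ q : ℕ → ℚ, Hq σ q ∧ cl σ (fun n => (q n : ℝ)) = x := Iff.rfl

variable (σ) in
/-- the sequences `b ^ m n`, `b ∈ B`, `m n = O(T)` -/
def Gs (B : Finset ℕ) : Set (Om σ) :=
  {x | ∃ b ∈ B, ∃ (m : ℕ → ℕ) (C : ℝ), (∀ᶠ n in (σ.U : Filter ℕ), (m n : ℝ) ≤ C * σ.T n) ∧
    cl σ (fun n => (b : ℝ) ^ m n) = x}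

variable (σ) in
/-- the field generated by the sequences `b ^ m n`, `b ∈ B`, `m n = O(T)` -/
noncomputable def Kf (B : Finset ℕ) : Subfield (Om σ) := Subfield.closure (Gs σ B)

variable (σ) in
/-- products of powers of the elements of `B` with exponents of size `O(T)` -/
def Wd (B : Finset ℕ) (g : ℕ → ℚ) : Prop :=
  ∃ (z : ℕ → ℕ → ℤ) (C : ℝ), (∀ n, g n = ∏ b ∈ B, (b : ℚ) ^ z b n) ∧
    ∀ b ∈ B, ∀ᶠ n in (σ.U : Filter ℕ), |(z b n : ℝ)| ≤ C * σ.T n

/-! ## Algebra -/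

section Alg

variable {F : Type} [Field F]

/-- linear independence over a subfield -/
def Ind (K : Subfield F) {d : ℕ} (a : Fin d → F) : Prop :=
  ∀ κ : Fin d → F, (∀ i, κ i ∈ K) → ∑ i, κ i * a i = 0 → κ = 0

/-- `A` and `B` are linearly disjoint over `K` -/
def LDj (K A B : Subfield F) : Prop :=
  ∀ (d : ℕ) (a b : Fin d → F), (∀ i, a i ∈ A) → (∀ i, b i ∈ B) → Ind K a →
    ∑ i, a i * b i = 0 → b = 0

/-- the ring generated by two subfields -/
def Rg (A B : Subfield F) : Subring F := Subring.closure ((A : Set F) ∪ B)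

/-- the elements of `B` which are algebraic over `K` -/
noncomputable def ac (K B : Subfield F) : Subfield F := (algebraicClosure K F).toSubfield ⊓ B

theorem mem_ac {K B : Subfield F} {x : F} : x ∈ ac K B ↔ IsAlgebraic K x ∧ x ∈ B := by
  unfold ac
  rw [Subfield.mem_inf]
  constructor
  · rintro ⟨h1, h2⟩
    exact ⟨mem_algebraicClosure_iff.1 h1, h2⟩
  · rintro ⟨h1, h2⟩
    exact ⟨mem_algebraicClosure_iff.2 h1, h2⟩

end Alg

/-! ## Numbers -/

/-- `ξ` is transcendental and not a `U`-number: the values of nonzero integer polynomials of degree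
at most `D` and height `H` are at least `c H ^ (-μ)` -/
def NU (ξ : ℝ) : Prop :=
  ∀ D : ℕ, ∃ (μ : ℕ) (c : ℝ), 0 < c ∧ ∀ (P : Polynomial ℤ) (H : ℝ), P ≠ 0 → P.natDegree ≤ D →
    (∀ i, |(P.coeff i : ℝ)| ≤ H) → c ≤ |Polynomial.aeval ξ P| * H ^ μ

/-- the groups generated by `A` and by `B` have trivial intersection -/
def TI (A B : Finset ℕ) : Prop :=
  ∀ e f : ℕ → ℤ, ∏ a ∈ A, (a : ℚ) ^ e a = ∏ b ∈ B, (b : ℚ) ^ f b → ∏ a ∈ A, (a : ℚ) ^ e a = 1

/-! ## Hermite's approximations -/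

/-- multiplicities: `n`, and `n + 1` for `k` -/
def mult (n k : ℕ) : ℕ → ℕ := fun h => n + if h = k then 1 else 0

/-- the power series of `∏ (z + h - g) ^ (- ν g)`, product over `g ≤ m`, `g ≠ h` -/
noncomputable def Bh (m : ℕ) (ν : ℕ → ℕ) (h : ℕ) : PowerSeries ℚ :=
  (∏ g ∈ (Finset.range (m + 1)).erase h,
    ((PowerSeries.X : PowerSeries ℚ) + PowerSeries.C ((h : ℚ) - g)) ^ ν g)⁻¹

/-- the coefficients of the partial fractions of `∏ (X - g) ^ (- ν g)`:
the coefficient of `(X - h) ^ (- i - 1)` -/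
noncomputable def cc (m : ℕ) (ν : ℕ → ℕ) (h i : ℕ) : ℚ :=
  PowerSeries.coeff (ν h - 1 - i) (Bh m ν h)

/-- the polynomial factor of `exp (h u)` -/
noncomputable def Ph (m : ℕ) (ν : ℕ → ℕ) (h : ℕ) : Polynomial ℚ :=
  ∑ i ∈ Finset.range (ν h), Polynomial.C (cc m ν h i / (i.factorial : ℚ)) * Polynomial.X ^ i

/-- the least common multiple of `1, ..., m` -/
def dl (m : ℕ) : ℕ := (Finset.Icc 1 m).lcm id

/-- bound for the coefficients -/
noncomputable def Hh (n m : ℕ) : ℝ :=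
  (m + 1) * 2 ^ (m * n) * (dl m : ℝ) ^ (n + 1) * n.factorial * (2 * (n + 1) * (m + 1)) ^ n

/-- bound for the remainder -/
noncomputable def Rr (n m : ℕ) : ℝ :=
  (m.factorial : ℝ) ^ n * (dl m : ℝ) ^ (n + 1) * n.factorial * Real.pi ^ ((m + 1) * n) *
    Real.exp (Real.pi * m) / ((m + 1) * n).factorial

end Pool.Agent.SGL
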