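import Pool.Agent.SGL.Stmts2

set_option autoImplicit false

namespace Pool.Agent.SGL

namespace LDF_

open AlgebraicIndependent Set

variable {F : Type} [Field F]

theorem alg_hom {R S : Type} [CommRing R] [CommRing S] [Algebra R F] [Algebra S F] (f : R →+* S)
    (h : ∀ r, algebraMap S F (f r) = algebraMap R F r)
    (hinj : Function.Injective (algebraMap R F)) {x : F} (hx : IsAlgebraic R x) :
    IsAlgebraic S x := by
  obtain ⟨p, hp, hpx⟩ := hx
  have hf : Function.Injective f := by
    intro a b hab
    apply hinj
    rw [← h, ← h, hab]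
  refine ⟨p.map f, (Polynomial.map_ne_zero_iff hf).2 hp, ?_⟩
  rw [Polynomial.aeval_def, Polynomial.eval₂_map]
  have e : (algebraMap S F).comp f = algebraMap R F := RingHom.ext h
  rw [e, ← Polynomial.aeval_def]
  exact hpx

theorem sub_inj (K : Subfield F) : Function.Injective (algebraMap K F) :=
  Subtype.val_injective

theorem adj_le {K M : Subfield F} (hKM : K ≤ M) (J : Set F) {x : F}
    (hx : x ∈ Algebra.adjoin K J) : x ∈ Algebra.adjoin M J := by
  induction hx using Algebra.adjoin_induction with
  | mem x hx => exact Algebra.subset_adjoin hx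
  | algebraMap r => exact (Algebra.adjoin M J).algebraMap_mem ⟨r.1, hKM r.2⟩
  | add x y _ _ hx hy => exact add_mem hx hy
  | mul x y _ _ hx hy => exact mul_mem hx hy

theorem cl_le {K M : Subfield F} (hKM : K ≤ M) (J : Set F) :
    (matroid K F).closure J ⊆ (matroid M F).closure J := by
  intro x hx
  rw [matroid_closure_eq, SetLike.mem_coe, Subalgebra.mem_algebraicClosure] at hx ⊢
  refine alg_hom ((Algebra.adjoin K J).val.toRingHom.codRestrict (Algebra.adjoin M J)
    (fun x => adj_le hKM J x.2)) ?_ ?_ hx
  · intro r
    rfl
  · exact Subtype.val_injective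

theorem cl_field {K L : Subfield F} {x : F} (hx : IsAlgebraic L x) :
    x ∈ (matroid K F).closure (L : Set F) := by
  rw [matroid_closure_eq, SetLike.mem_coe, Subalgebra.mem_algebraicClosure]
  refine alg_hom (L.subtype.codRestrict (Algebra.adjoin K (L : Set F))
    (fun x => Algebra.subset_adjoin x.2)) ?_ ?_ hx
  · intro r
    rfl
  · exact Subtype.val_injective

/-- monomials in elements of `L` -/
theorem indep {K L M : Subfield F} (h : LDj K L M) (s : Set F) (hs : s ⊆ L)
    (hi : AlgebraicIndependent K ((↑) : s → F)) : AlgebraicIndependent M ((↑) : s → F) := by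
  classical
  rw [algebraicIndependent_iff] at hi ⊢
  intro p hp
  by_contra hne
  let e := p.support.equivFin
  let a : Fin p.support.card → F := fun i => (e.symm i).1.prod fun j k => (j : F) ^ k
  let b : Fin p.support.card → F := fun i => (p.coeff (e.symm i).1 : M)
  have hb : b = 0 := by
    refine h _ a b ?_ ?_ ?_ ?_
    · intro i
      exact prod_mem fun j _ => pow_mem (hs j.2) _
    · intro i
      exact (p.coeff (e.symm i).1).2
    · intro κ hκ hsum
      let q : MvPolynomial s K := ∑ i, MvPolynomial.monomial (e.symm i).1 (⟨κ i, hκ i⟩ : K)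
      have hq : MvPolynomial.aeval ((↑) : s → F) q = 0 := by
        rw [← hsum]
        show MvPolynomial.aeval ((↑) : s → F) (∑ i, MvPolynomial.monomial (e.symm i).1
          (⟨κ i, hκ i⟩ : K)) = _
        rw [map_sum]
        refine Finset.sum_congr rfl fun i _ => ?_
        rw [MvPolynomial.aeval_monomial]
        rfl
      have hq0 := hi q hq
      funext i
      have h1 : MvPolynomial.coeff (e.symm i).1 q = ⟨κ i, hκ i⟩ := by
        show MvPolynomial.coeff (e.symm i).1 (∑ i, MvPolynomial.monomial (e.symm i).1
          (⟨κ i, hκ i⟩ : K)) = _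
        rw [MvPolynomial.coeff_sum, Finset.sum_eq_single i]
        · rw [MvPolynomial.coeff_monomial, if_pos rfl]
        · intro j _ hj
          rw [MvPolynomial.coeff_monomial, if_neg]
          intro hc
          exact hj (e.symm.injective (Subtype.ext hc))
        · intro hc
          exact absurd (Finset.mem_univ i) hc
      rw [hq0, MvPolynomial.coeff_zero] at h1
      exact (congrArg Subtype.val h1).symm
    · rw [MvPolynomial.aeval_def, MvPolynomial.eval₂_eq] at hp
      rw [← hp, ← Finset.sum_coe_sort p.support, ← Equiv.sum_comp e.symm]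
      refine Finset.sum_congr rfl fun i _ => ?_
      rw [mul_comm]
      rfl
  have hpos : 0 < p.support.card := by
    rw [Finset.card_pos]
    exact MvPolynomial.support_nonempty.2 hne
  have h1 := congrFun hb ⟨0, hpos⟩
  have h2 : p.coeff (e.symm ⟨0, hpos⟩).1 ≠ 0 :=
    MvPolynomial.mem_support_iff.1 (e.symm ⟨0, hpos⟩).2
  exact h2 (Subtype.ext h1)

end LDF_

open LDF_ AlgebraicIndependent Set in
theorem ldf_proof : Stmt_LDF := by
  classical
  intro F _ K L M hKL hKM hLD n t ht hti
  -- a finite independent subset of `L`
  obtain ⟨s, hsL, hsf, hsi, hts⟩ := Matroid.exists_subset_finite_closure_of_subset_closure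
    (M := matroid K F) (X := range t) (Y := (L : Set F)) (finite_range t)
    (by rintro _ ⟨i, rfl⟩; exact cl_field (ht i))
  have hsM : (matroid M F).Indep s := by
    rw [matroid_indep_iff] at hsi ⊢
    exact indep hLD s hsL hsi
  have hrt : (matroid K F).Indep (range t) := by
    rw [matroid_indep_iff]
    exact hti.to_subtype_range
  obtain ⟨J, hJ, htJ⟩ := hrt.subset_isBasis_of_subset (subset_union_left (t := s))
  have hJf : J.Finite := ((finite_range t).union hsf).subset hJ.subset
  have hr1 : J.encard ≤ s.encard := by
    rw [← hJ.eRk_eq_encard, ← hsi.eRk_eq_encard]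
    refine ((matroid K F).eRk_mono ?_).trans ((matroid K F).eRk_closure_eq s).le
    exact union_subset hts ((matroid K F).subset_closure s)
  have hr2 : s.encard ≤ (matroid M F).eRk J := by
    rw [← hsM.eRk_eq_encard, ← (matroid M F).eRk_closure_eq J]
    refine (matroid M F).eRk_mono ?_
    refine subset_trans ?_ (cl_le hKM J)
    refine subset_trans ?_ hJ.subset_closure
    exact subset_union_right
  have hJM : (matroid M F).Indep J := by
    rw [Matroid.indep_iff_eRk_eq_encard_of_finite hJf]
    exact le_antisymm ((matroid M F).eRk_le_encard J) (hr1.trans hr2)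
  have htM := hJM.subset htJ
  rw [matroid_indep_iff] at htM
  exact (algebraicIndependent_subtype_range hti.injective).1 htM

end Pool.Agent.SGL
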