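import Pool.Agent.SGL.Stmts

/-!
# Squad SGL, module TBB: one base
-/

set_option autoImplicit false

namespace Pool.Agent.SGL

open Filter Pool.Agent.SBT

namespace TBB_

variable {σ : Sc}

theorem clo_mono {K K' : Subfield (Om σ)} (h : K ≤ K') : clo K ≤ clo K' := by
  intro x hx c
  obtain ⟨κ, hκ, h1⟩ := hx c
  exact ⟨κ, h hκ, h1⟩

theorem Kf_pow (b k : ℕ) : Kf σ {b ^ k} ≤ Kf σ {b} := by
  unfold Kf
  rw [Subfield.closure_le]
  rintro _ ⟨c, hc, m, D, hm, rfl⟩
  rw [Finset.mem_singleton] at hc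
  subst hc
  apply Subfield.subset_closure
  refine ⟨b, Finset.mem_singleton_self b, fun n => k * m n, k * D, ?_, ?_⟩
  · filter_upwards [hm] with n hn
    push_cast
    calc (k : ℝ) * m n ≤ k * (D * σ.T n) := mul_le_mul_of_nonneg_left hn (Nat.cast_nonneg _)
      _ = k * D * σ.T n := by ring
  · congr 1
    funext n
    push_cast
    rw [pow_mul]

/-- the ring generated over `ℚ` -/
theorem adjoin_mem {m : ℕ} (x : Fin m → ℝ) (M : Subfield (Om σ))
    (h : ∀ i, cst σ (x i) ∈ Rg (Lf σ) M) (y : ℝ) (hy : y ∈ Algebra.adjoin ℚ (Set.range x)) :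
    cst σ y ∈ Rg (Lf σ) M := by
  induction hy using Algebra.adjoin_induction with
  | mem y hy =>
    obtain ⟨i, rfl⟩ := hy
    exact h i
  | algebraMap r =>
    apply Subring.subset_closure
    left
    have e : cst σ (algebraMap ℚ ℝ r) = (r : Om σ) := by
      rw [eq_ratCast (algebraMap ℚ ℝ) r, map_ratCast]
    rw [e]
    exact SubfieldClass.ratCast_mem (Lf σ) r
  | add y z _ _ h1 h2 =>
    rw [map_add]
    exact Subring.add_mem _ h1 h2
  | mul y z _ _ h1 h2 =>
    rw [map_mul]
    exact Subring.mul_mem _ h1 h2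

/-- transitivity -/
theorem alg_trans (u ξ : ℝ) (hξ : IsAlgebraic (IntermediateField.adjoin ℚ {u}) ξ)
    (hu : IsAlgebraic (Lf σ) (cst σ u)) : IsAlgebraic (Lf σ) (cst σ ξ) := by
  set E : IntermediateField (Lf σ) (Om σ) := algebraicClosure (Lf σ) (Om σ) with hE
  set E' : Subfield ℝ := E.toSubfield.comap (cst σ) with hE'
  have hmem : ∀ y : ℝ, y ∈ E' ↔ IsAlgebraic (Lf σ) (cst σ y) := by
    intro y
    rw [hE', Subfield.mem_comap]
    exact mem_algebraicClosure_iff
  have hrat : ∀ r : ℚ, algebraMap ℚ ℝ r ∈ E' := by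
    intro r
    rw [eq_ratCast (algebraMap ℚ ℝ) r]
    exact SubfieldClass.ratCast_mem E' r
  have hle : IntermediateField.adjoin ℚ {u} ≤ Subfield.toIntermediateField E' hrat := by
    rw [IntermediateField.adjoin_le_iff]
    intro v hv
    rw [Set.mem_singleton_iff] at hv
    rw [hv]
    show u ∈ E'
    rw [hmem]
    exact hu
  have hin : ∀ y : IntermediateField.adjoin ℚ {u}, cst σ (y : ℝ) ∈ E := by
    intro y
    have h1 : (y : ℝ) ∈ Subfield.toIntermediateField E' hrat := hle y.2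
    have h2 : (y : ℝ) ∈ E' := h1
    exact h2
  let f : IntermediateField.adjoin ℚ {u} →+* E :=
    ((cst σ).comp (algebraMap (IntermediateField.adjoin ℚ {u}) ℝ)).codRestrict E hin
  have h1 : IsAlgebraic E (cst σ ξ) := by
    refine IsAlgebraic.ringHom_of_comp_eq (f := f) (g := cst σ) hξ f.injective ?_
    ext y
    rfl
  exact h1.restrictScalars (Lf σ)

end TBB_

open TBB_

theorem tbb_proof (hMEM : Stmt_MEM) (hKWD : Stmt_KWD) (hLDK : Stmt_LDK) (hUEQ : Stmt_UEQ)
    (hTRK : Stmt_TRK) (hTRL : Stmt_TRL) : Stmt_TBB := by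
  classical
  intro b m ξ u k x hb hk hNU hu hξ hu1 hu2 hu3 C
  by_contra hcon
  push Not at hcon
  have h1 : ∀ j : ℕ, ∃ N : ℕ, j ≤ N ∧ ∑ i, cnt (b ^ k i) (x i) N (j * N) < C * N := by
    intro j
    obtain ⟨N, h2, h3⟩ := (hcon j).and_eventually (eventually_ge_atTop j) |>.exists
    exact ⟨N, h3, h2⟩
  choose N hN1 hN2 using h1
  let U : Ultrafilter ℕ := hyperfilter ℕ
  have hU : (U : Filter ℕ) ≤ atTop := by
    rw [← Nat.cofinite_eq_atTop]
    exact hyperfilter_le_cofinite
  have hNt : Tendsto N atTop atTop := tendsto_atTop_mono hN1 tendsto_id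
  let σ : Sc := ⟨U, fun n => (N n : ℝ), (tendsto_natCast_atTop_atTop.comp hNt).mono_left hU⟩
  have hB : ∀ c ∈ ({b} : Finset ℕ), 2 ≤ c := by
    intro c hc
    rw [Finset.mem_singleton] at hc
    omega
  have hx : ∀ i, cst σ (x i) ∈ Rg (Lf σ) (clo (Kf σ {b})) := by
    intro i
    have hbk : 2 ≤ b ^ k i := by
      calc 2 ≤ b ^ 1 := by rw [pow_one]; exact hb
        _ ≤ b ^ k i := Nat.pow_le_pow_right (by omega) (hk i)
    have h2 := hMEM σ N (fun n => n) (b ^ k i) C (x i) hbk (fun _ => rfl)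
      (tendsto_id.mono_left hU) (by
        apply Eventually.of_forall
        intro n
        have h3 := hN2 n
        have h4 : cnt (b ^ k i) (x i) (N n) (n * N n) ≤
            ∑ i, cnt (b ^ k i) (x i) (N n) (n * N n) :=
          Finset.single_le_sum (f := fun i => cnt (b ^ k i) (x i) (N n) (n * N n))
            (fun _ _ => Nat.zero_le _) (Finset.mem_univ i)
        omega)
    refine Subring.closure_mono ?_ h2
    exact Set.union_subset_union_right _ (clo_mono (Kf_pow b (k i)))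
  have hR := adjoin_mem x (clo (Kf σ {b})) hx
  have hu0 : u ≠ 0 := by
    rintro rfl
    exact hu isAlgebraic_zero
  have hu01 : u ≠ 1 := by
    rintro rfl
    exact hu isAlgebraic_one
  have hKL := (hKWD σ {b} hB).1
  have h3 := hUEQ (Om σ) (Kf σ {b}) (Lf σ) (clo (Kf σ {b})) hKL (le_clo _) (hLDK σ {b} hB)
    (cst σ u) (by
      intro h
      rw [map_eq_zero] at h
      exact hu0 h) (by
      intro h
      rw [← map_one (cst σ)] at h
      exact hu01 ((cst σ).injective h)) (hR u hu1) (by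
      rw [← map_inv₀]
      exact hR _ hu2) (by
      rw [← map_one (cst σ), ← map_sub, ← map_inv₀]
      exact hR _ hu3)
  rcases h3 with h3 | h3
  · exact hTRL σ ξ hNU (alg_trans u ξ hξ h3)
  · exact hTRK σ b hb u hu h3

end Pool.Agent.SGL
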