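import Pool.Agent.SGL.Stmts3
import Pool.Agent.SGL.TBB

/-!
# Squad SGL, module TBV: one base, integral points on curves, real algebraic coefficients
-/

set_option autoImplicit false

namespace Pool.Agent.SGL

open Filter Pool.Agent.SBT

namespace TBV_

variable {σ : Sc}

/-- real algebraic numbers -/
theorem alg_cst (K : Subfield (Om σ)) {a : ℝ} (ha : IsAlgebraic ℚ a) :
    IsAlgebraic K (cst σ a) := by
  refine IsAlgebraic.ringHom_of_comp_eq (f := algebraMap ℚ K) (g := cst σ) ha
    (algebraMap ℚ K).injective ?_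
  exact Subsingleton.elim _ _

/-- the ring generated over the real algebraic numbers -/
theorem adjoin_mem_ac {m : ℕ} (x : Fin m → ℝ) (M : Subfield (Om σ))
    (h : ∀ i, cst σ (x i) ∈ Rg (Lf σ) M) (y : ℝ)
    (hy : y ∈ Algebra.adjoin (algebraicClosure ℚ ℝ) (Set.range x)) :
    cst σ y ∈ Rg (ac (Lf σ) ⊤) (ac M ⊤) := by
  have hle : Rg (Lf σ) M ≤ Rg (ac (Lf σ) ⊤) (ac M ⊤) := by
    unfold Rg
    refine Subring.closure_mono ?_
    rintro z (hz | hz)
    · left
      exact mem_ac.2 ⟨isAlgebraic_algebraMap (⟨z, hz⟩ : Lf σ), Subfield.mem_top z⟩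
    · right
      exact mem_ac.2 ⟨isAlgebraic_algebraMap (⟨z, hz⟩ : M), Subfield.mem_top z⟩
  induction hy using Algebra.adjoin_induction with
  | mem y hy =>
    obtain ⟨i, rfl⟩ := hy
    exact hle (h i)
  | algebraMap r =>
    apply Subring.subset_closure
    left
    refine mem_ac.2 ⟨alg_cst (Lf σ) ?_, Subfield.mem_top _⟩
    exact mem_algebraicClosure_iff.1 r.2
  | add y z _ _ h1 h2 =>
    rw [map_add]
    exact Subring.add_mem _ h1 h2
  | mul y z _ _ h1 h2 =>
    rw [map_mul]
    exact Subring.mul_mem _ h1 h2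

end TBV_

open TBB_ TBV_

theorem tbv_proof (hMEM : Stmt_MEM) (hKWD : Stmt_KWD) (hLDK : Stmt_LDK) (hSGB : Stmt_SGB)
    (hTRK : Stmt_TRK) (hTRL : Stmt_TRL) : Stmt_TBV := by
  classical
  intro b m ξ u k x f hb hk hNU hu hξ hf hfc hu1 hu2 C
  by_contra hcon
  push Not at hcon
  have h1 : ∀ j : ℕ, ∃ N : ℕ, j ≤ N ∧ ∑ i, cnt (b ^ k i) (x i) N (j * N) < C * N := by
    intro j
    obtain ⟨N, h2, h3⟩ := (hcon j).and_eventually (eventually_ge_atTop j) |>.exists
    exact ⟨N, h3, h2⟩
  choose N hN1 hN2 using h1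
  let U : Ultrafilter ℕ := hyperfilter ℕ
  have hU : (U : Filter ℕ) ≤ atTop := by
    rw [← Nat.cofinite_eq_atTop]
    exact hyperfilter_le_cofinite
  have hNt : Tendsto N atTop atTop := tendsto_atTop_mono hN1 tendsto_id
  let σ : Sc := ⟨U, fun n => (N n : ℝ), (tendsto_natCast_atTop_atTop.comp hNt).mono_left hU⟩
  have hB : ∀ c ∈ ({b} : Finset ℕ), 2 ≤ c := by
    intro c hc
    rw [Finset.mem_singleton] at hc
    omega
  have hx : ∀ i, cst σ (x i) ∈ Rg (Lf σ) (clo (Kf σ {b})) := by
    intro i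
    have hbk : 2 ≤ b ^ k i := by
      calc 2 ≤ b ^ 1 := by rw [pow_one]; exact hb
        _ ≤ b ^ k i := Nat.pow_le_pow_right (by omega) (hk i)
    have h2 := hMEM σ N (fun n => n) (b ^ k i) C (x i) hbk (fun _ => rfl)
      (tendsto_id.mono_left hU) (by
        apply Eventually.of_forall
        intro n
        have h3 := hN2 n
        have h4 : cnt (b ^ k i) (x i) (N n) (n * N n) ≤
            ∑ i, cnt (b ^ k i) (x i) (N n) (n * N n) :=
          Finset.single_le_sum (f := fun i => cnt (b ^ k i) (x i) (N n) (n * N n))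
            (fun _ _ => Nat.zero_le _) (Finset.mem_univ i)
        omega)
    refine Subring.closure_mono ?_ h2
    exact Set.union_subset_union_right _ (clo_mono (Kf_pow b (k i)))
  have hR := adjoin_mem_ac x (clo (Kf σ {b})) hx
  have hKL := (hKWD σ {b} hB).1
  have hinj : Function.Injective (cst σ) := (cst σ).injective
  have hev : (f.map (cst σ)).eval (cst σ u) = cst σ (f.eval u) := by
    rw [Polynomial.eval_map, Polynomial.eval₂_hom]
  have hsq : Squarefree (f.map (cst σ)) := by
    have h2 : f.Separable := PerfectField.separable_iff_squarefree.2 hf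
    exact (h2.map (f := cst σ)).squarefree
  have hdeg : (f.map (cst σ)).natDegree = f.natDegree := Polynomial.natDegree_map (cst σ)
  have hcoef : ∀ i, IsAlgebraic (Kf σ {b}) ((f.map (cst σ)).coeff i) := by
    intro i
    rw [Polynomial.coeff_map]
    exact alg_cst _ (hfc i)
  have hS := hSGB (Om σ) (Kf σ {b}) (Lf σ) (clo (Kf σ {b})) hKL (le_clo _) (hLDK σ {b} hB)
    (f.map (cst σ)) (cst σ u) hsq hcoef (hR u hu1)
  rw [hdeg, hev] at hS
  have h3 : IsAlgebraic (Lf σ) (cst σ u) ∨ IsAlgebraic (clo (Kf σ {b})) (cst σ u) := by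
    rcases hu2 with ⟨hd, hinv⟩ | ⟨e, v, he, hv, hvm⟩
    · refine hS.1 hd ?_ ?_
      · intro h
        rw [map_eq_zero] at h
        -- `u` would be algebraic
        have hf0 : f ≠ 0 := hf.ne_zero
        have h5 : IsAlgebraic (algebraicClosure ℚ ℝ) u := by
          have h6 : ∀ i, f.coeff i ∈ Set.range (algebraMap (algebraicClosure ℚ ℝ) ℝ) := by
            intro i
            exact ⟨⟨f.coeff i, mem_algebraicClosure_iff.2 (hfc i)⟩, rfl⟩
          obtain ⟨g, hg'⟩ := (Polynomial.mem_lifts f).1 ((Polynomial.lifts_iff_coeff_lifts f).2 h6)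
          refine ⟨g, ?_, ?_⟩
          · rintro rfl
            rw [Polynomial.map_zero] at hg'
            exact hf0 hg'.symm
          · rw [Polynomial.aeval_def, ← Polynomial.eval_map, hg', h]
        have : Algebra.IsAlgebraic ℚ (algebraicClosure ℚ ℝ) := algebraicClosure.isAlgebraic ℚ ℝ
        exact hu (h5.restrictScalars ℚ)
      · rw [← map_inv₀]
        exact hR _ hinv
    · refine hS.2 (cst σ v) e he (hR v hvm) ?_
      rw [← map_pow, hv]
  rcases h3 with h3 | h3
  · exact hTRL σ ξ hNU (alg_trans u ξ hξ h3)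
  · exact hTRK σ b hb u hu h3

end Pool.Agent.SGL
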