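import Pool.Agent.SGL.Stmts3

/-!
# Squad SGL, module TBX: three real algebraic points
-/

set_option autoImplicit false

namespace Pool.Agent.SGL

open Filter Pool.Agent.SBT

namespace TBX_

theorem alg_mem (A : Subalgebra (algebraicClosure ℚ ℝ) ℝ) {r : ℝ} (hr : IsAlgebraic ℚ r) :
    r ∈ A := A.algebraMap_mem (⟨r, mem_algebraicClosure_iff.2 hr⟩ : algebraicClosure ℚ ℝ)

/-- change of the generator -/
theorem alg_change {u w ξ : ℝ} (hξ : IsAlgebraic (IntermediateField.adjoin ℚ {u}) ξ)
    (hu : IsAlgebraic (IntermediateField.adjoin ℚ {w}) u) :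
    IsAlgebraic (IntermediateField.adjoin ℚ {w}) ξ := by
  set K := IntermediateField.adjoin ℚ {w} with hK
  set E : IntermediateField K ℝ := algebraicClosure K ℝ with hE
  have hrat : ∀ r : ℚ, algebraMap ℚ ℝ r ∈ E.toSubfield := by
    intro r
    rw [eq_ratCast (algebraMap ℚ ℝ) r]
    exact SubfieldClass.ratCast_mem E.toSubfield r
  have hle : IntermediateField.adjoin ℚ {u} ≤ Subfield.toIntermediateField E.toSubfield hrat := by
    rw [IntermediateField.adjoin_le_iff]
    intro v hv
    rw [Set.mem_singleton_iff] at hv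
    rw [hv]
    exact mem_algebraicClosure_iff.2 hu
  have hin : ∀ y : IntermediateField.adjoin ℚ {u}, (y : ℝ) ∈ E := fun y => hle y.2
  let f : IntermediateField.adjoin ℚ {u} →+* E :=
    (algebraMap (IntermediateField.adjoin ℚ {u}) ℝ).codRestrict E hin
  have h1 : IsAlgebraic E ((RingHom.id ℝ) ξ) := by
    refine IsAlgebraic.ringHom_of_comp_eq (f := f) (g := RingHom.id ℝ) hξ f.injective ?_
    ext y
    rfl
  exact (show IsAlgebraic E ξ from h1).restrictScalars K

theorem ne_alg {u r : ℝ} (hu : Transcendental ℚ u) (hr : IsAlgebraic ℚ r) : u - r ≠ 0 := by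
  intro h
  apply hu
  have : u = r := by linarith
  rw [this]
  exact hr

end TBX_

open TBX_

theorem tbx_proof (hTBV : Stmt_TBV) : Stmt_TBX := by
  intro b ξ u hb hξ hu hal r s t har has hat hrs hrt hst C
  have hr := ne_alg hu har
  have hs := ne_alg hu has
  have ht := ne_alg hu hat
  have hsr : s - r ≠ 0 := sub_ne_zero.2 hrs.symm
  have htr : t - r ≠ 0 := sub_ne_zero.2 hrt.symm
  have hts : t - s ≠ 0 := sub_ne_zero.2 hst.symm
  set w : ℝ := 1 / (u - r) with hw
  set α : ℝ := 1 / (s - r) with hα
  set β : ℝ := 1 / (t - r) with hβ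
  have haα : IsAlgebraic ℚ α := by
    rw [hα, one_div]
    exact (has.sub har).inv
  have haβ : IsAlgebraic ℚ β := by
    rw [hβ, one_div]
    exact (hat.sub har).inv
  have hαβ : α ≠ β := by
    intro h
    rw [hα, hβ] at h
    have : s - r = t - r := by
      have h2 := congrArg (fun z => z⁻¹) h
      simpa using h2
    apply hts
    linarith
  have hr3 : Set.range (![w, 1 / (u - s), 1 / (u - t)] : Fin 3 → ℝ) =
      {w, 1 / (u - s), 1 / (u - t)} := by
    ext v
    simp only [Set.mem_range, Set.mem_insert_iff, Set.mem_singleton_iff]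
    constructor
    · rintro ⟨i, rfl⟩
      fin_cases i <;> simp
    · rintro (rfl | rfl | rfl)
      · exact ⟨0, rfl⟩
      · exact ⟨1, rfl⟩
      · exact ⟨2, rfl⟩
  have htw : Transcendental ℚ w := by
    intro h
    apply hu
    have e : u = r + w⁻¹ := by
      rw [hw, one_div, inv_inv]
      ring
    rw [e]
    exact har.add h.inv
  have hal' : IsAlgebraic (IntermediateField.adjoin ℚ {w}) ξ := by
    refine alg_change hal ?_
    have e : u = r + w⁻¹ := by
      rw [hw, one_div, inv_inv]
      ring
    rw [e]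
    have h1 : IsAlgebraic (IntermediateField.adjoin ℚ {w}) r := har.extendScalars
      (algebraMap ℚ (IntermediateField.adjoin ℚ {w})).injective
    have h2 : IsAlgebraic (IntermediateField.adjoin ℚ {w}) w :=
      isAlgebraic_algebraMap (⟨w, IntermediateField.mem_adjoin_simple_self ℚ w⟩ :
        IntermediateField.adjoin ℚ {w})
    exact h1.add h2.inv
  let f : Polynomial ℝ := (Polynomial.X - Polynomial.C α) * (Polynomial.X - Polynomial.C β)
  have hsq : Squarefree f := by
    apply Polynomial.Separable.squarefree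
    refine Polynomial.Separable.mul (Polynomial.separable_X_sub_C) (Polynomial.separable_X_sub_C) ?_
    exact Polynomial.isCoprime_X_sub_C_of_isUnit_sub (sub_ne_zero.2 hαβ).isUnit
  have hdeg : f.natDegree = 2 := by
    show ((Polynomial.X - Polynomial.C α) * (Polynomial.X - Polynomial.C β)).natDegree = 2
    rw [Polynomial.natDegree_mul (Polynomial.X_sub_C_ne_zero α) (Polynomial.X_sub_C_ne_zero β),
      Polynomial.natDegree_X_sub_C, Polynomial.natDegree_X_sub_C]
  have hexp : f = Polynomial.X ^ 2 - Polynomial.C (α + β) * Polynomial.X +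
      Polynomial.C (α * β) := by
    show (Polynomial.X - Polynomial.C α) * (Polynomial.X - Polynomial.C β) = _
    rw [Polynomial.C_add, Polynomial.C_mul]
    ring
  have hcoef : ∀ i, IsAlgebraic ℚ (f.coeff i) := by
    intro i
    rw [hexp]
    simp only [Polynomial.coeff_add, Polynomial.coeff_sub, Polynomial.coeff_X_pow,
      Polynomial.coeff_C_mul, Polynomial.coeff_X, Polynomial.coeff_C]
    refine IsAlgebraic.add (IsAlgebraic.sub ?_ (IsAlgebraic.mul (haα.add haβ) ?_)) ?_
    · split_ifs
      · exact isAlgebraic_one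
      · exact isAlgebraic_zero
    · split_ifs
      · exact isAlgebraic_one
      · exact isAlgebraic_zero
    · split_ifs
      · exact haα.mul haβ
      · exact isAlgebraic_zero
  have hev : f.eval w = (w - α) * (w - β) := by
    show ((Polynomial.X - Polynomial.C α) * (Polynomial.X - Polynomial.C β)).eval w = _
    simp
  have h1 : (w - α)⁻¹ = -(s - r) * (1 + (s - r) * (1 / (u - s))) := by
    have hus : s - u ≠ 0 := by
      intro h
      apply hs
      linarith
    have e : w - α = (s - u) / ((u - r) * (s - r)) := by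
      rw [hw, hα]
      field_simp
      ring
    rw [e, inv_div]
    field_simp
    ring
  have h2 : (w - β)⁻¹ = -(t - r) * (1 + (t - r) * (1 / (u - t))) := by
    have hut : t - u ≠ 0 := by
      intro h
      apply ht
      linarith
    have e : w - β = (t - u) / ((u - r) * (t - r)) := by
      rw [hw, hβ]
      field_simp
      ring
    rw [e, inv_div]
    field_simp
    ring
  have h3 := hTBV b 3 ξ w (fun _ => 1) ![w, 1 / (u - s), 1 / (u - t)] f hb (fun _ => le_refl 1)
    hξ htw hal' hsq hcoef (by
      rw [hr3]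
      exact Algebra.subset_adjoin (by simp)) (by
      left
      refine ⟨by rw [hdeg], ?_⟩
      rw [hr3, hev, mul_inv, h1, h2]
      set A := Algebra.adjoin (algebraicClosure ℚ ℝ) ({w, 1 / (u - s), 1 / (u - t)} : Set ℝ)
        with hA
      have m2 : 1 / (u - s) ∈ A := Algebra.subset_adjoin (by simp)
      have m3 : 1 / (u - t) ∈ A := Algebra.subset_adjoin (by simp)
      have a1 : s - r ∈ A := alg_mem A (has.sub har)
      have a2 : t - r ∈ A := alg_mem A (hat.sub har)
      exact A.mul_mem (A.mul_mem (A.neg_mem a1) (A.add_mem A.one_mem (A.mul_mem a1 m2)))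
        (A.mul_mem (A.neg_mem a2) (A.add_mem A.one_mem (A.mul_mem a2 m3)))) C
  obtain ⟨Λ, h5⟩ := h3
  refine ⟨Λ, ?_⟩
  filter_upwards [h5] with n h6
  rw [Fin.sum_univ_three, pow_one] at h6
  exact h6

end Pool.Agent.SGL
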