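import Pool.Agent.SGL.Main
import Pool.Agent.SGL.TBV
import Pool.Agent.SGL.TBX

/-!
# Squad SGL: assembly of the last modules (one base)
-/

set_option autoImplicit false

namespace Pool.Agent.SGL

theorem TBV_ : Stmt_TBV := tbv_proof MEM_ KWD_ LDK_ SGB_ TRK_ TRL_
theorem TBX_ : Stmt_TBX := tbx_proof TBV_

end Pool.Agent.SGL
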