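import Pool.Agent.SGL.Defs

/-!
# Squad SGL (MP_57632f_nt): exact statements of the modules.
# Recipes: /team-store/MP_57632f_SGL.md
-/

set_option autoImplicit false

namespace Pool.Agent.SGL

open Filter Pool.Agent.SBT

/-! ## A. Algebra -/

/-- RGE: elements of `Rg A B` and `A ⊔ B`. Uses nothing. -/
def Stmt_RGE : Prop :=
  ∀ (F : Type) [Field F] (K A B : Subfield F), K ≤ A → K ≤ B →
    (∀ x, x ∈ Rg A B ↔ ∃ (d : ℕ) (a b : Fin d → F), (∀ i, a i ∈ A) ∧ (∀ i, b i ∈ B) ∧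
      x = ∑ i, a i * b i) ∧
    (∀ (s : ℕ) (x : Fin s → F), (∀ i, x i ∈ Rg A B) →
      ∃ (d : ℕ) (b : Fin d → F) (α : Fin s → Fin d → F), (∀ j, b j ∈ B) ∧ Ind K b ∧
        (∀ i j, α i j ∈ A) ∧ ∀ i, x i = ∑ j, α i j * b j) ∧
    (∀ (s : ℕ) (x : Fin s → F), (∀ i, x i ∈ A ⊔ B) →
      ∃ q ∈ Rg A B, q ≠ 0 ∧ ∀ i, q * x i ∈ Rg A B) ∧
    ∀ x ∈ Rg A B, x ∈ A ⊔ B

/-- LDS: linear disjointness is symmetric. Uses nothing. -/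
def Stmt_LDS : Prop :=
  ∀ (F : Type) [Field F] (K A B : Subfield F), K ≤ A → K ≤ B → LDj K A B → LDj K B A

/-- TWR: towers. Uses RGE, LDS. -/
def Stmt_TWR : Prop :=
  ∀ (F : Type) [Field F] (K A₀ A B : Subfield F), K ≤ A₀ → A₀ ≤ A → K ≤ B → LDj K A B →
    LDj A₀ A (A₀ ⊔ B)

/-- DSJ: composita. Uses LDS, TWR. -/
def Stmt_DSJ : Prop :=
  ∀ (F : Type) [Field F] (K L M C D : Subfield F), K ≤ L → K ≤ C → K ≤ D → C ≤ M → D ≤ M →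
    LDj K L M → LDj K C D → LDj L (L ⊔ C) (L ⊔ D)

/-- FRE: elements which are algebraic over two linearly disjoint fields. Uses nothing. -/
def Stmt_FRE : Prop :=
  ∀ (F : Type) [Field F] (L A B : Subfield F), L ≤ A → L ≤ B → LDj L A B →
    ∀ x : F, IsAlgebraic A x → IsAlgebraic B x → IsAlgebraic L x

/-- EXC: exchange. Uses nothing. -/
def Stmt_EXC : Prop :=
  ∀ (F : Type) [Field F] [Algebra ℚ F] (a u : F), IsAlgebraic (IntermediateField.adjoin ℚ {a}) u →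
    Transcendental ℚ u → IsAlgebraic (IntermediateField.adjoin ℚ {u}) a

/-- UA1: the relative algebraic closure. Uses LDS, TWR. -/
def Stmt_UA1 : Prop :=
  ∀ (F : Type) [Field F] (K L M : Subfield F), K ≤ L → K ≤ M → LDj K L M →
    K ≤ ac K M ∧ ac K M ≤ M ∧ LDj (ac K M) (L ⊔ ac K M) M ∧
    (∀ x ∈ M, IsAlgebraic (ac K M) x → x ∈ ac K M) ∧
    ∀ x ∈ L ⊔ ac K M, IsAlgebraic L x

/-- UA2: specialization (Zariski's lemma). Uses nothing. -/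
def Stmt_UA2 : Prop :=
  ∀ (F : Type) [Field F] (K : Subfield F) (s : Set F) (h : F), s.Finite →
    h ∈ Algebra.adjoin K s → h ≠ 0 → h⁻¹ ∉ Algebra.adjoin K s →
    ∀ (Ω : Type) [Field Ω] [IsAlgClosed Ω] [Algebra K Ω],
      ∃ φ : Algebra.adjoin K s →ₐ[K] Ω, (∀ x, IsAlgebraic K (φ x)) ∧
        ∀ hh : h ∈ Algebra.adjoin K s, φ ⟨h, hh⟩ = 0

/-- UA3: algebraic elements are independent. Uses nothing. -/
def Stmt_UA3 : Prop :=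
  ∀ (K M Ω : Type) [Field K] [Field M] [Field Ω] [Algebra K M] [Algebra M Ω] [Algebra K Ω]
    [IsScalarTower K M Ω] [CharZero K], (∀ x : M, IsAlgebraic K x → ∃ y : K, algebraMap K M y = x) →
    ∀ (d : ℕ) (m : Fin d → M) (θ : Fin d → Ω), LinearIndependent K m →
      (∀ i, IsAlgebraic K (θ i)) → ∑ i, θ i * algebraMap M Ω (m i) = 0 → θ = 0

/-- UA4: a product of two sums. Uses LDS, UA2, UA3. -/
def Stmt_UA4 : Prop :=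
  ∀ (F : Type) [Field F] [CharZero F] (K L M : Subfield F), K ≤ L → K ≤ M → LDj K L M →
    (∀ x ∈ M, IsAlgebraic K x → x ∈ K) →
    ∀ (d e : ℕ) (l m : Fin d → F) (l' m' : Fin e → F) (h : F) (i₀ : Fin d) (j₀ : Fin e),
      (∀ i, l i ∈ L) → (∀ j, l' j ∈ L) → (∀ i, m i ∈ M) → (∀ j, m' j ∈ M) → Ind K m → Ind K m' →
      l i₀ = 1 → l' j₀ = 1 → h ∈ L → h ≠ 0 → (∑ i, l i * m i) * (∑ j, l' j * m' j) = h →
      h⁻¹ ∈ Algebra.adjoin K (Set.range l ∪ Set.range l' ∪ {h})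

/-- UA5: a finiteness criterion. Uses nothing. -/
def Stmt_UA5 : Prop :=
  ∀ (F : Type) [Field F] (K : Subfield F) (S : Finset F), (∀ f ∈ S, f ≠ 0) →
    (∀ f ∈ S, f ∈ Algebra.adjoin K ((fun g => g / f) '' (S : Set F) ∪ {f⁻¹})) →
    ∀ f ∈ S, IsAlgebraic K f

/-- UA6: the unit theorem. Uses RGE, UA4, UA5. -/
def Stmt_UA6 : Prop :=
  ∀ (F : Type) [Field F] [CharZero F] (K L M : Subfield F), K ≤ L → K ≤ M → LDj K L M →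
    (∀ x ∈ M, IsAlgebraic K x → x ∈ K) →
    ∀ x, x ≠ 0 → x ∈ Rg L M → x⁻¹ ∈ Rg L M → ∃ l ∈ L, ∃ m ∈ M ⊔ ac K L, x = l * m

/-- UA7: the three term relation. Uses nothing. -/
def Stmt_UA7 : Prop :=
  ∀ (F : Type) [Field F] (K L M : Subfield F), K ≤ L → K ≤ M → LDj K L M →
    ∀ l ∈ L, ∀ l' ∈ L, ∀ m ∈ M, ∀ m' ∈ M, l * m + l' * m' = 1 → l * m ∈ L ∨ l * m ∈ M

/-- UEQ: the unit equation. Uses LDS, TWR, UA1, UA6, UA7. -/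
def Stmt_UEQ : Prop :=
  ∀ (F : Type) [Field F] [CharZero F] (K L M : Subfield F), K ≤ L → K ≤ M → LDj K L M →
    ∀ x, x ≠ 0 → x ≠ 1 → x ∈ Rg L M → x⁻¹ ∈ Rg L M → (1 - x)⁻¹ ∈ Rg L M →
      IsAlgebraic L x ∨ IsAlgebraic M x

/-! ## B. The field of a scale -/

/-- CPL: completeness. Uses nothing. -/
def Stmt_CPL : Prop :=
  ∀ (σ : Sc) (x : ℕ → Om σ), (∀ k : ℕ, V (x (k + 1) - x k) (-(k : ℝ))) →
    ∃ y : Om σ, ∀ k : ℕ, V (y - x k) (-(k : ℝ))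

/-- GAU: the value of a polynomial in independent units. Uses S2T, UNI. -/
def Stmt_GAU : Prop :=
  ∀ (U : Ultrafilter ℕ) (S : Finset ℕ) (T : ℕ → ℝ) (r : ℕ) (g : Fin r → ℕ → ℚ), Gd U S T g →
    ∀ (P : MvPolynomial (Fin r) ℚ) (δ : ℝ), 0 < δ → ∀ e ∈ P.support,
      ∀ᶠ n in (U : Filter ℕ), av 0 (mon g e n) ≤ Real.exp (δ * T n) * |((ev g n P : ℚ) : ℝ)|

/-- KWD: units and the field `Kf`. Uses nothing. -/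
def Stmt_KWD : Prop :=
  ∀ (σ : Sc) (B : Finset ℕ), (∀ b ∈ B, 2 ≤ b) → Kf σ B ≤ Lf σ ∧
    (∀ g, Wd σ B g → (fun n => ((g n : ℚ) : ℝ)) ∈ OO σ ∧
      cl σ (fun n => ((g n : ℚ) : ℝ)) ∈ Kf σ B ∧ cl σ (fun n => ((g n : ℚ) : ℝ)) ≠ 0) ∧
    ∀ (r : ℕ) (g : Fin r → ℕ → ℚ) (P : MvPolynomial (Fin r) ℚ), (∀ i, Wd σ B (g i)) →
      (fun n => ((ev g n P : ℚ) : ℝ)) ∈ OO σ ∧ cl σ (fun n => ((ev g n P : ℚ) : ℝ)) ∈ Kf σ B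

/-- KQT: elements of `Kf` are quotients of polynomials in independent units.
Uses BAS, GAU, KWD. -/
def Stmt_KQT : Prop :=
  ∀ (σ : Sc) (B S : Finset ℕ) (d : ℕ) (κ : Fin d → Om σ), PS S → (∀ b ∈ B, 2 ≤ b) →
    (∀ p : ℕ, p.Prime → ∀ b ∈ B, p ∣ b → p ∈ S) → (∀ i, κ i ∈ Kf σ B) →
    ∃ (r : ℕ) (g : Fin r → ℕ → ℚ) (Q : MvPolynomial (Fin r) ℚ)
      (P : Fin d → MvPolynomial (Fin r) ℚ), Gd σ.U S σ.T g ∧ (∀ i, Wd σ B (g i)) ∧ Q ≠ 0 ∧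
      ∀ i, κ i * cl σ (fun n => ((ev g n Q : ℚ) : ℝ)) = cl σ (fun n => ((ev g n (P i) : ℚ) : ℝ))

/-- QLD: quantitative linear independence. Uses KQT, KWD, GAU, S2T. -/
def Stmt_QLD : Prop :=
  ∀ (σ : Sc) (B : Finset ℕ), (∀ b ∈ B, 2 ≤ b) → ∀ (d : ℕ) (z : Fin d → Om σ),
    (∀ i, z i ∈ Lf σ) → Ind (Kf σ B) z →
    ∃ c : ℝ, ∀ κ : Fin d → Om σ, (∀ i, κ i ∈ Kf σ B) → ∀ e, V (∑ i, κ i * z i) e →
      ∀ i, V (κ i) (e + c)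

/-- LDK: linear disjointness of `Lf` and the closure of `Kf`. Uses QLD. -/
def Stmt_LDK : Prop :=
  ∀ (σ : Sc) (B : Finset ℕ), (∀ b ∈ B, 2 ≤ b) → LDj (Kf σ B) (Lf σ) (clo (Kf σ B))

/-- SPN: limits of linear combinations. Uses QLD, CPL, RGE. -/
def Stmt_SPN : Prop :=
  ∀ (σ : Sc) (B : Finset ℕ), (∀ b ∈ B, 2 ≤ b) → Kf σ B ≤ Lf σ →
    ∀ (s : ℕ) (y : Fin s → Om σ) (x : Om σ),
    (∀ i, y i ∈ Lf σ) →
    (∀ c : ℝ, ∃ κ : Fin s → Om σ, (∀ i, κ i ∈ Kf σ B) ∧ V (x - ∑ i, κ i * y i) c) →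
    x ∈ Rg (Lf σ) (clo (Kf σ B))

/-- LDT: leading terms (one base). Uses KQT. -/
def Stmt_LDT : Prop :=
  ∀ (σ : Sc) (b : ℕ), 2 ≤ b → ∀ x ∈ clo (Kf σ {b}), x ≠ 0 →
    ∃ (q : ℚ) (z : ℕ → ℤ) (f : ℕ → ℝ), q ≠ 0 ∧ f ∈ OO σ ∧ cl σ f = x ∧
      Tendsto (fun n => f n / (b : ℝ) ^ z n) (σ.U : Filter ℕ) (nhds (q : ℝ))

/-- TRK: transcendental constants are transcendental over `clo (Kf σ {b})`. Uses LDT. -/
def Stmt_TRK : Prop :=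
  ∀ (σ : Sc) (b : ℕ), 2 ≤ b → ∀ ξ : ℝ, Transcendental ℚ ξ →
    ¬ IsAlgebraic (clo (Kf σ {b})) (cst σ ξ)

/-- TRL: numbers which are not `U`-numbers are transcendental over `Lf`. Uses nothing. -/
def Stmt_TRL : Prop :=
  ∀ (σ : Sc) (ξ : ℝ), NU ξ → ¬ IsAlgebraic (Lf σ) (cst σ ξ)

/-- ULB: a uniform lower bound on a finite dimensional space over `ℚ`. Uses nothing. -/
def Stmt_ULB : Prop :=
  ∀ (σ : Sc) (d : ℕ) (α : Fin d → Om σ), Ind (⊥ : Subfield (Om σ)) α →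
    ∃ c₀ : ℝ, ∀ q : Fin d → ℚ, q ≠ 0 → ∀ e, V (∑ i, (q i : Om σ) * α i) e → c₀ ≤ e

/-- LDB: the closures for two independent sets of bases. Uses KQT, KWD, GAU, ULB. -/
def Stmt_LDB : Prop :=
  ∀ (σ : Sc) (A B : Finset ℕ), (∀ a ∈ A, 2 ≤ a) → (∀ b ∈ B, 2 ≤ b) → TI A B →
    LDj (⊥ : Subfield (Om σ)) (clo (Kf σ A)) (clo (Kf σ B))

/-- LDE: the fields for two independent sets of bases. Uses LDS, TWR, DSJ, KWD, LDK, LDB. -/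
def Stmt_LDE : Prop :=
  ∀ (σ : Sc) (A B : Finset ℕ), (∀ a ∈ A, 2 ≤ a) → (∀ b ∈ B, 2 ≤ b) → TI A B →
    LDj (Lf σ) (Lf σ ⊔ clo (Kf σ A)) (Lf σ ⊔ clo (Kf σ B))

/-! ## C. Words -/

/-- STA: the structure theorem with the same integers for all windows.
Uses TYC, DTM, SPX, RTN, STV. -/
def Stmt_STA : Prop :=
  ∀ C : ℕ, ∃ (s B : ℕ) (N : ℕ → ℕ), ∀ (Λ a n : ℕ) (u : ℕ → ℕ) (P : ℕ → ℤ), 2 ≤ a → 8 ≤ n →
    (∀ i, u i < a) → (∀ i, P (i + 1) = a * P i + u i) → nbl u n (Λ * n) ≤ C * n →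
    ∃ (m : ℕ) (q : Fin s → ℕ) (y : Fin s → ℤ), n ≤ 2 * m ∧ m ≤ n ∧
      (∀ i, 1 ≤ q i ∧ q i ≤ n) ∧ (∀ i, |y i| ≤ (|P 0| + 1) * (a : ℤ) ^ (B * n)) ∧
      (∀ Λ' ≤ Λ, ∀ x < Λ' * n, Spe u m (Λ * n) x → ∃ F : Fin s → ℤ,
        (∀ i, Rep a (N Λ') (N Λ' * n) (F i)) ∧
        (∏ i, ((a : ℤ) ^ q i - 1)) * P (x + m) = ∑ i, F i * y i) ∧
      ∀ z, z + B * n < Λ * n →
        (∃ x, z ≤ x ∧ x ≤ z + B * n ∧ Spe u m (Λ * n) x) ∨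
        ∃ per, 1 ≤ per ∧ per ≤ B * n ∧
          ∀ i, z + B * n ≤ i → i + per < Λ * n → u i = u (i + per)

/-- STU: the structure theorem for all places, with the same integers for all windows.
Uses STA, RPA. -/
def Stmt_STU : Prop :=
  ∀ C : ℕ, ∃ (s B : ℕ) (N : ℕ → ℕ), ∀ (Λ a n : ℕ) (u : ℕ → ℕ) (P : ℕ → ℤ), 2 ≤ a → 8 ≤ n →
    (∀ i, u i < a) → (∀ i, P (i + 1) = a * P i + u i) → nbl u n (Λ * n) ≤ C * n →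
    ∃ (q : Fin s → ℕ) (y : Fin s → ℤ), (∀ i, 1 ≤ q i ∧ q i ≤ B * n) ∧
      (∀ i, |y i| ≤ (|P 0| + 1) * (a : ℤ) ^ (B * n)) ∧
      ∀ Λ' ≤ Λ, ∀ z, z + B * n < Λ' * n → ∃ L, z ≤ L ∧ L ≤ z + B * n ∧ ∃ F : Fin s → ℤ,
        (∀ i, Rep a (N Λ') (N Λ' * n) (F i)) ∧
        (∏ i, ((a : ℤ) ^ q i - 1)) * P L = ∑ i, F i * y i

/-- MEM: numbers of linear complexity. Uses STU, SPN, DGT, KWD. -/
def Stmt_MEM : Prop :=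
  ∀ (σ : Sc) (N Λ : ℕ → ℕ) (b C : ℕ) (x : ℝ), 2 ≤ b → (∀ n, σ.T n = N n) →
    Tendsto Λ (σ.U : Filter ℕ) atTop →
    (∀ᶠ n in (σ.U : Filter ℕ), cnt b x (N n) (Λ n * N n) ≤ C * N n) →
    cst σ x ∈ Rg (Lf σ) (clo (Kf σ {b}))

/-! ## D. The theorems -/

/-- TBB: one base. Uses MEM, KWD, LDK, UEQ, TRK, TRL. -/
def Stmt_TBB : Prop :=
  ∀ (b m : ℕ) (ξ u : ℝ) (k : Fin m → ℕ) (x : Fin m → ℝ), 2 ≤ b → (∀ i, 1 ≤ k i) → NU ξ →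
    Transcendental ℚ u → IsAlgebraic (IntermediateField.adjoin ℚ {u}) ξ →
    u ∈ Algebra.adjoin ℚ (Set.range x) → u⁻¹ ∈ Algebra.adjoin ℚ (Set.range x) →
    (1 - u)⁻¹ ∈ Algebra.adjoin ℚ (Set.range x) →
    ∀ C : ℕ, ∃ Λ : ℕ, ∀ᶠ n in atTop, C * n ≤ ∑ i, cnt (b ^ k i) (x i) n (Λ * n)

/-- TAA: two sets of bases. Uses MEM, KWD, LDE, FRE, TRL. -/
def Stmt_TAA : Prop :=
  ∀ (ξ : ℝ) (A B : Finset ℕ) (k l : ℕ) (a : Fin k → ℕ) (b : Fin l → ℕ) (x : Fin k → ℝ)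
    (y : Fin l → ℝ), NU ξ → (∀ c ∈ A, 2 ≤ c) → (∀ c ∈ B, 2 ≤ c) → TI A B → (∀ i, a i ∈ A) →
    (∀ j, b j ∈ B) → IsAlgebraic (IntermediateField.adjoin ℚ (Set.range x)) ξ →
    IsAlgebraic (IntermediateField.adjoin ℚ (Set.range y)) ξ →
    ∀ C : ℕ, ∃ Λ : ℕ, ∀ᶠ n in atTop,
      C * n ≤ ∑ i, cnt (a i) (x i) n (Λ * n) + ∑ j, cnt (b j) (y j) n (Λ * n)

/-- TBR: three rational points. Uses TBB. -/
def Stmt_TBR : Prop :=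
  ∀ (b : ℕ) (ξ u : ℝ), 2 ≤ b → NU ξ → Transcendental ℚ u →
    IsAlgebraic (IntermediateField.adjoin ℚ {u}) ξ →
    (∀ r s : ℚ, r ≠ s → ∀ C : ℕ, ∃ Λ : ℕ, ∀ᶠ n in atTop,
      C * n ≤ cnt b u n (Λ * n) + cnt b (1 / (u - r)) n (Λ * n) +
        cnt b (1 / (u - s)) n (Λ * n)) ∧
    ∀ r s t : ℚ, r ≠ s → r ≠ t → s ≠ t → ∀ C : ℕ, ∃ Λ : ℕ, ∀ᶠ n in atTop,
      C * n ≤ cnt b (1 / (u - r)) n (Λ * n) + cnt b (1 / (u - s)) n (Λ * n) +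
        cnt b (1 / (u - t)) n (Λ * n)

/-! ## P. The measure of transcendence of `π` -/

/-- HP1: partial fractions. Uses nothing. -/
def Stmt_HP1 : Prop :=
  ∀ (m : ℕ) (ν : ℕ → ℕ), (∀ h, 1 ≤ ν h) →
    (1 : Polynomial ℚ) = ∑ h ∈ Finset.range (m + 1), ∑ i ∈ Finset.range (ν h),
      Polynomial.C (cc m ν h i) * (Polynomial.X - Polynomial.C (h : ℚ)) ^ (ν h - 1 - i) *
        ∏ g ∈ (Finset.range (m + 1)).erase h, (Polynomial.X - Polynomial.C (g : ℚ)) ^ ν g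

/-- HP2: the moments. Uses HP1. -/
def Stmt_HP2 : Prop :=
  ∀ (m : ℕ) (ν : ℕ → ℕ), (∀ h, 1 ≤ ν h) → ∀ j : ℕ,
    (j + 1 < ∑ h ∈ Finset.range (m + 1), ν h →
      ∑ h ∈ Finset.range (m + 1), ∑ i ∈ Finset.range (ν h),
        cc m ν h i * (j.choose i : ℚ) * (h : ℚ) ^ (j - i) = 0) ∧
    |∑ h ∈ Finset.range (m + 1), ∑ i ∈ Finset.range (ν h),
        cc m ν h i * (j.choose i : ℚ) * (h : ℚ) ^ (j - i)| ≤
      (j.choose (∑ h ∈ Finset.range (m + 1), ν h - 1) : ℚ) *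
        (m : ℚ) ^ (j + 1 - ∑ h ∈ Finset.range (m + 1), ν h)

/-- HP3: the remainder. Uses HP2. -/
def Stmt_HP3 : Prop :=
  ∀ (m : ℕ) (ν : ℕ → ℕ), (∀ h, 1 ≤ ν h) → ∀ u : ℂ,
    ‖∑ h ∈ Finset.range (m + 1), Polynomial.aeval u (Ph m ν h) * Complex.exp (h * u)‖ ≤
      ‖u‖ ^ (∑ h ∈ Finset.range (m + 1), ν h - 1) /
        ((∑ h ∈ Finset.range (m + 1), ν h - 1).factorial : ℝ) * Real.exp (m * ‖u‖)

/-- HP4: integrality and size. Uses nothing. -/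
def Stmt_HP4 : Prop :=
  ∀ n m k : ℕ, 1 ≤ n → k ≤ m → ∀ h ≤ m, ∀ i < mult n k h, ∃ z : ℤ,
    (z : ℚ) = (m.factorial : ℚ) ^ n * (dl m : ℚ) ^ (n + 1) * n.factorial *
      (cc m (mult n k) h i / (i.factorial : ℚ)) ∧
    |(z : ℝ)| * (m + 1) ≤ Hh n m

/-- HP5: the determinant. Uses HP2. -/
def Stmt_HP5 : Prop :=
  ∀ n m : ℕ, 1 ≤ n → ∀ u : ℂ, u ≠ 0 →
    (Matrix.of fun k h : Fin (m + 1) => Polynomial.aeval u (Ph m (mult n k) h)).det ≠ 0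

/-- LIO: Liouville's inequality. Uses nothing. -/
def Stmt_LIO : Prop :=
  ∀ D n : ℕ, ∃ (C : ℝ) (e : ℕ), 0 < C ∧ ∀ (P G : Polynomial ℤ) (H E : ℝ) (θ : ℂ), P ≠ 0 →
    P.natDegree ≤ D → G.natDegree ≤ n → (∀ i, |(P.coeff i : ℝ)| ≤ H) →
    (∀ i, |(G.coeff i : ℝ)| ≤ E) → 1 ≤ H → 1 ≤ E → Polynomial.aeval θ P = 0 →
    Polynomial.aeval θ G ≠ 0 → C ≤ ‖Polynomial.aeval θ G‖ * (H ^ e * E ^ D)

/-- HP6: the choice of the parameters. Uses nothing. -/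
def Stmt_HP6 : Prop :=
  ∀ D : ℕ, ∃ n : ℕ, 1 ≤ n ∧ ∀ (e : ℕ) (C : ℝ), 0 < C → ∃ (μ : ℕ) (A : ℝ), ∀ H : ℝ, 1 ≤ H →
    ∃ m : ℕ, Rr n m * (H ^ e * Hh n m ^ D) ≤ C ∧ Hh n m ≤ A * H ^ μ

/-- HP7: approximation of `π i` by algebraic numbers. Uses HP3, HP4, HP5, LIO, HP6. -/
def Stmt_HP7 : Prop :=
  ∀ D : ℕ, ∃ (μ : ℕ) (c : ℝ), 0 < c ∧ ∀ (P : Polynomial ℤ) (H : ℝ) (θ : ℂ), P ≠ 0 →
    P.natDegree ≤ D → (∀ i, |(P.coeff i : ℝ)| ≤ H) → 1 ≤ H → Polynomial.aeval θ P = 0 →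
    c ≤ ‖θ - Real.pi * Complex.I‖ * H ^ μ

/-- NUP: `π` is not a `U`-number. Uses HP7. -/
def Stmt_NUP : Prop := NU Real.pi

end Pool.Agent.SGL
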