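import Pool.Agent.SGL.Stmts

/-!
# Squad SGL, part 2 (MP_57632f_nt): two numbers, one base.  Derivations and Gauss valuations.
# Recipes: /team-store/MP_57632f_SGL2.md
-/

set_option autoImplicit false

namespace Pool.Agent.SGL

open Filter Pool.Agent.SBT TensorProduct

/-! ## A2. Algebra -/

/-- DEV: derivations of fields. Uses nothing. -/
def Stmt_DEV : Prop :=
  ∀ (K M : Type) [Field K] [Field M] [Algebra K M] [CharZero K],
    (∀ x : M, IsAlgebraic K x → x ∈ Set.range (algebraMap K M)) →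
    ∀ m : M, m ∉ Set.range (algebraMap K M) → ∃ D : Derivation K M M, D m ≠ 0

/-- DRT: derivations of tensor products. Uses nothing. -/
def Stmt_DRT : Prop :=
  ∀ (K L M : Type) [Field K] [Field L] [Field M] [Algebra K L] [Algebra K M]
    (D : Derivation K M M),
    ∃ D' : Derivation K (L ⊗[K] M) (L ⊗[K] M), ∀ l m, D' (l ⊗ₜ[K] m) = l ⊗ₜ[K] D m

/-- DMT: the tensor product of two fields over an algebraically closed field is a domain.
Uses nothing. -/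
def Stmt_DMT : Prop :=
  ∀ (K A M : Type) [Field K] [IsAlgClosed K] [Field A] [Field M] [Algebra K A] [Algebra K M],
    IsDomain (A ⊗[K] M)

/-- VLR: a transcendental element has a pole. Uses nothing. -/
def Stmt_VLR : Prop :=
  ∀ (K L : Type) [Field K] [Field L] [Algebra K L] (l : L), Transcendental K l →
    ∃ V : ValuationSubring L, (∀ c : K, algebraMap K L c ∈ V) ∧ l ∉ V

/-- GSV: the Gauss valuation. Uses DMT. -/
def Stmt_GSV : Prop :=
  ∀ (K L M F : Type) [Field K] [IsAlgClosed K] [Field L] [Field M] [Algebra K L] [Algebra K M]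
    [Field F] [Algebra (L ⊗[K] M) F] [IsFractionRing (L ⊗[K] M) F] (V : ValuationSubring L),
    (∀ c : K, algebraMap K L c ∈ V) → ∃ W : ValuationSubring F,
      (∀ m : M, m ≠ 0 → W.valuation (algebraMap (L ⊗[K] M) F ((1 : L) ⊗ₜ[K] m)) = 1) ∧
      (∀ (d : ℕ) (l : Fin d → L) (m : Fin d → M), LinearIndependent K m →
        algebraMap (L ⊗[K] M) F (∑ i, l i ⊗ₜ[K] m i) ∈ W → ∀ i, l i ∈ V) ∧
      ∀ (D : Derivation K M M) (D' : Derivation K (L ⊗[K] M) (L ⊗[K] M)),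
        (∀ l m, D' (l ⊗ₜ[K] m) = l ⊗ₜ[K] D m) → ∀ z,
        W.valuation (algebraMap (L ⊗[K] M) F (D' z)) ≤ W.valuation (algebraMap (L ⊗[K] M) F z)

/-- PLC: the places of `L` as places of the tensor product. Uses VLR, GSV. -/
def Stmt_PLC : Prop :=
  ∀ (K L M F : Type) [Field K] [IsAlgClosed K] [Field L] [Field M] [Algebra K L] [Algebra K M]
    [Field F] [Algebra (L ⊗[K] M) F] [IsFractionRing (L ⊗[K] M) F],
    ∃ 𝒲 : Set (ValuationSubring F),
      (∀ W ∈ 𝒲, ∀ m : M, m ≠ 0 →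
        W.valuation (algebraMap (L ⊗[K] M) F ((1 : L) ⊗ₜ[K] m)) = 1) ∧
      (∀ z : L ⊗[K] M, (∀ W ∈ 𝒲, algebraMap (L ⊗[K] M) F z ∈ W) →
        ∃ m : M, z = (1 : L) ⊗ₜ[K] m) ∧
      ∀ (D : Derivation K M M) (D' : Derivation K (L ⊗[K] M) (L ⊗[K] M)),
        (∀ l m, D' (l ⊗ₜ[K] m) = l ⊗ₜ[K] D m) → ∀ W ∈ 𝒲, ∀ z,
        W.valuation (algebraMap (L ⊗[K] M) F (D' z)) ≤ W.valuation (algebraMap (L ⊗[K] M) F z)

/-- CST: elements which are killed by all derivations of `M`. Uses DEV, DRT. -/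
def Stmt_CST : Prop :=
  ∀ (K L M : Type) [Field K] [IsAlgClosed K] [CharZero K] [Field L] [Field M] [Algebra K L]
    [Algebra K M] (z : L ⊗[K] M),
    (∀ (D : Derivation K M M) (D' : Derivation K (L ⊗[K] M) (L ⊗[K] M)),
      (∀ l m, D' (l ⊗ₜ[K] m) = l ⊗ₜ[K] D m) → D' z = 0) → ∃ l : L, z = l ⊗ₜ[K] (1 : M)

/-- ST3: three points. Uses DRT, DMT, PLC, CST. -/
def Stmt_ST3 : Prop :=
  ∀ (K L M : Type) [Field K] [IsAlgClosed K] [CharZero K] [Field L] [Field M] [Algebra K L]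
    [Algebra K M] (z : L ⊗[K] M), IsUnit z → IsUnit (1 - z) →
    (∃ l : L, z = l ⊗ₜ[K] (1 : M)) ∨ ∃ m : M, z = (1 : L) ⊗ₜ[K] m

/-- STH: superelliptic curves. Uses DRT, DMT, PLC, CST. -/
def Stmt_STH : Prop :=
  ∀ (K L M : Type) [Field K] [IsAlgClosed K] [CharZero K] [Field L] [Field M] [Algebra K L]
    [Algebra K M] (x y : L ⊗[K] M) (f : Polynomial K) (e : ℕ), Squarefree f →
    e + f.natDegree < e * f.natDegree → y ^ e = Polynomial.aeval x f →
    (∃ l : L, x = l ⊗ₜ[K] (1 : M)) ∨ ∃ m : M, x = (1 : L) ⊗ₜ[K] m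

/-- LDF: linearly disjoint fields are free. Uses nothing. -/
def Stmt_LDF : Prop :=
  ∀ (F : Type) [Field F] (K L M : Subfield F), K ≤ L → K ≤ M → LDj K L M →
    ∀ (n : ℕ) (t : Fin n → F), (∀ i, IsAlgebraic L (t i)) → AlgebraicIndependent K t →
      AlgebraicIndependent M t

/-- LDR: free extensions of an algebraically closed field are linearly disjoint.
Uses nothing. -/
def Stmt_LDR : Prop :=
  ∀ (F : Type) [Field F] [CharZero F] [IsAlgClosed F] (K L M : Subfield F), K ≤ L → K ≤ M →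
    (∀ x : F, IsAlgebraic K x → x ∈ K) → (∀ x : F, IsAlgebraic M x → x ∈ M) →
    (∀ (n : ℕ) (t : Fin n → F), (∀ i, t i ∈ L) → AlgebraicIndependent K t →
      AlgebraicIndependent M t) → LDj K L M

/-- LDC: the algebraic closures of linearly disjoint fields. Uses LDF, LDR. -/
def Stmt_LDC : Prop :=
  ∀ (F : Type) [Field F] [CharZero F] [IsAlgClosed F] (K L M : Subfield F), K ≤ L → K ≤ M →
    LDj K L M → LDj (ac K ⊤) (ac L ⊤) (ac M ⊤)

/-- SGA: integral points. Uses ST3, STH, LDC. -/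
def Stmt_SGA : Prop :=
  ∀ (F : Type) [Field F] [CharZero F] (K L M : Subfield F), K ≤ L → K ≤ M → LDj K L M →
    ∀ (f : Polynomial ℚ) (x : F), Squarefree f → x ∈ Rg L M →
      (2 ≤ f.natDegree → Polynomial.aeval x f ≠ 0 → (Polynomial.aeval x f)⁻¹ ∈ Rg L M →
        IsAlgebraic L x ∨ IsAlgebraic M x) ∧
      ∀ (y : F) (e : ℕ), e + f.natDegree < e * f.natDegree → y ∈ Rg L M →
        y ^ e = Polynomial.aeval x f → IsAlgebraic L x ∨ IsAlgebraic M x

/-! ## D2. The theorems -/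

/-- TBS: one base, integral points on curves. Uses MEM, KWD, LDK, SGA, TRK, TRL. -/
def Stmt_TBS : Prop :=
  ∀ (b m : ℕ) (ξ u : ℝ) (k : Fin m → ℕ) (x : Fin m → ℝ) (f : Polynomial ℚ), 2 ≤ b →
    (∀ i, 1 ≤ k i) → NU ξ → Transcendental ℚ u →
    IsAlgebraic (IntermediateField.adjoin ℚ {u}) ξ → Squarefree f →
    u ∈ Algebra.adjoin ℚ (Set.range x) →
    ((2 ≤ f.natDegree ∧ (Polynomial.aeval u f)⁻¹ ∈ Algebra.adjoin ℚ (Set.range x)) ∨
      ∃ (e : ℕ) (v : ℝ), e + f.natDegree < e * f.natDegree ∧ v ^ e = Polynomial.aeval u f ∧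
        v ∈ Algebra.adjoin ℚ (Set.range x)) →
    ∀ C : ℕ, ∃ Λ : ℕ, ∀ᶠ n in atTop, C * n ≤ ∑ i, cnt (b ^ k i) (x i) n (Λ * n)

/-- TBT: one base, two numbers. Uses TBS. -/
def Stmt_TBT : Prop :=
  ∀ (b : ℕ) (ξ u : ℝ), 2 ≤ b → NU ξ → Transcendental ℚ u →
    IsAlgebraic (IntermediateField.adjoin ℚ {u}) ξ →
    (∀ P Q f : Polynomial ℚ, IsCoprime P Q → Q ≠ 0 → Squarefree f → 2 ≤ f.natDegree → f ∣ Q →
      ∀ C : ℕ, ∃ Λ : ℕ, ∀ᶠ n in atTop, C * n ≤ cnt b u n (Λ * n) +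
        cnt b (Polynomial.aeval u P / Polynomial.aeval u Q) n (Λ * n)) ∧
    ∀ (f : Polynomial ℚ) (e : ℕ) (v : ℝ), Squarefree f → e + f.natDegree < e * f.natDegree →
      v ^ e = Polynomial.aeval u f →
      ∀ C : ℕ, ∃ Λ : ℕ, ∀ᶠ n in atTop, C * n ≤ cnt b u n (Λ * n) + cnt b v n (Λ * n)

end Pool.Agent.SGL
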