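import Pool.Agent.SGL.Stmts2

/-!
# Squad SGL, part 3 (MP_57632f_nt): real algebraic coefficients
-/

set_option autoImplicit false

namespace Pool.Agent.SGL

open Filter Pool.Agent.SBT

/-- SGB: integral points, algebraic coefficients. Uses ST3, STH, LDC. -/
def Stmt_SGB : Prop :=
  ∀ (F : Type) [Field F] [CharZero F] (K L M : Subfield F), K ≤ L → K ≤ M → LDj K L M →
    ∀ (f : Polynomial F) (x : F), Squarefree f → (∀ i, IsAlgebraic K (f.coeff i)) →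
      x ∈ Rg (ac L ⊤) (ac M ⊤) →
      (2 ≤ f.natDegree → f.eval x ≠ 0 → (f.eval x)⁻¹ ∈ Rg (ac L ⊤) (ac M ⊤) →
        IsAlgebraic L x ∨ IsAlgebraic M x) ∧
      ∀ (y : F) (e : ℕ), e + f.natDegree < e * f.natDegree → y ∈ Rg (ac L ⊤) (ac M ⊤) →
        y ^ e = f.eval x → IsAlgebraic L x ∨ IsAlgebraic M x

/-- TBV: one base, integral points on curves over the real algebraic numbers.
Uses MEM, KWD, LDK, SGB, TRK, TRL. -/
def Stmt_TBV : Prop :=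
  ∀ (b m : ℕ) (ξ u : ℝ) (k : Fin m → ℕ) (x : Fin m → ℝ) (f : Polynomial ℝ), 2 ≤ b →
    (∀ i, 1 ≤ k i) → NU ξ → Transcendental ℚ u →
    IsAlgebraic (IntermediateField.adjoin ℚ {u}) ξ → Squarefree f →
    (∀ i, IsAlgebraic ℚ (f.coeff i)) →
    u ∈ Algebra.adjoin (algebraicClosure ℚ ℝ) (Set.range x) →
    ((2 ≤ f.natDegree ∧ (f.eval u)⁻¹ ∈ Algebra.adjoin (algebraicClosure ℚ ℝ) (Set.range x)) ∨
      ∃ (e : ℕ) (v : ℝ), e + f.natDegree < e * f.natDegree ∧ v ^ e = f.eval u ∧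
        v ∈ Algebra.adjoin (algebraicClosure ℚ ℝ) (Set.range x)) →
    ∀ C : ℕ, ∃ Λ : ℕ, ∀ᶠ n in atTop, C * n ≤ ∑ i, cnt (b ^ k i) (x i) n (Λ * n)

/-- TBX: three algebraic points. Uses TBV. -/
def Stmt_TBX : Prop :=
  ∀ (b : ℕ) (ξ u : ℝ), 2 ≤ b → NU ξ → Transcendental ℚ u →
    IsAlgebraic (IntermediateField.adjoin ℚ {u}) ξ →
    ∀ r s t : ℝ, IsAlgebraic ℚ r → IsAlgebraic ℚ s → IsAlgebraic ℚ t → r ≠ s → r ≠ t → s ≠ t →
      ∀ C : ℕ, ∃ Λ : ℕ, ∀ᶠ n in atTop,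
        C * n ≤ cnt b (1 / (u - r)) n (Λ * n) + cnt b (1 / (u - s)) n (Λ * n) +
          cnt b (1 / (u - t)) n (Λ * n)

end Pool.Agent.SGL
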