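import Pool.Agent.SGL.Stmts

/-!
# Squad SGL, module TBR: three rational points
-/

set_option autoImplicit false

namespace Pool.Agent.SGL

open Filter Pool.Agent.SBT

namespace TBR_

theorem tr_of_mem {u w : ℝ} (hu : Transcendental ℚ u)
    (h : u ∈ IntermediateField.adjoin ℚ {w}) : Transcendental ℚ w := by
  intro hw
  apply hu
  have h1 : IntermediateField.adjoin ℚ {w} ≤ algebraicClosure ℚ ℝ := by
    rw [IntermediateField.adjoin_le_iff]
    intro v hv
    rw [Set.mem_singleton_iff] at hv
    rw [hv]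
    exact mem_algebraicClosure_iff.2 hw
  exact mem_algebraicClosure_iff.1 (h1 h)

theorem adj_eq {u w : ℝ} (h : u ∈ IntermediateField.adjoin ℚ {w})
    (h' : w ∈ IntermediateField.adjoin ℚ {u}) :
    IntermediateField.adjoin ℚ {w} = IntermediateField.adjoin ℚ {u} := by
  apply le_antisymm
  · rw [IntermediateField.adjoin_le_iff]
    intro v hv
    rw [Set.mem_singleton_iff] at hv
    rw [hv]
    exact h'
  · rw [IntermediateField.adjoin_le_iff]
    intro v hv
    rw [Set.mem_singleton_iff] at hv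
    rw [hv]
    exact h

theorem rat_mem (K : IntermediateField ℚ ℝ) (r : ℚ) : (r : ℝ) ∈ K := by
  have := K.algebraMap_mem r
  rwa [eq_ratCast (algebraMap ℚ ℝ) r] at this

theorem rat_mem' (K : Subalgebra ℚ ℝ) (r : ℚ) : (r : ℝ) ∈ K := by
  have := K.algebraMap_mem r
  rwa [eq_ratCast (algebraMap ℚ ℝ) r] at this

theorem ne_rat {u : ℝ} (hu : Transcendental ℚ u) (r : ℚ) : u - r ≠ 0 := by
  intro h
  apply hu
  have : u = (r : ℝ) := by linarith
  rw [this, ← eq_ratCast (algebraMap ℚ ℝ) r]
  exact isAlgebraic_algebraMap r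

/-- the main step -/
theorem key (hTBB : Stmt_TBB) (b : ℕ) (ξ u w x y z : ℝ) (hb : 2 ≤ b) (hξ : NU ξ)
    (hu : Transcendental ℚ u) (hal : IsAlgebraic (IntermediateField.adjoin ℚ {u}) ξ)
    (h : u ∈ IntermediateField.adjoin ℚ {w}) (h' : w ∈ IntermediateField.adjoin ℚ {u})
    (h1 : w ∈ Algebra.adjoin ℚ ({x, y, z} : Set ℝ)) (h2 : w⁻¹ ∈ Algebra.adjoin ℚ ({x, y, z} : Set ℝ))
    (h3 : (1 - w)⁻¹ ∈ Algebra.adjoin ℚ ({x, y, z} : Set ℝ)) :
    ∀ C : ℕ, ∃ Λ : ℕ, ∀ᶠ n in atTop,
      C * n ≤ cnt b x n (Λ * n) + cnt b y n (Λ * n) + cnt b z n (Λ * n) := by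
  have hr : Set.range (![x, y, z] : Fin 3 → ℝ) = {x, y, z} := by
    ext v
    simp only [Set.mem_range, Set.mem_insert_iff, Set.mem_singleton_iff]
    constructor
    · rintro ⟨i, rfl⟩
      fin_cases i <;> simp
    · rintro (rfl | rfl | rfl)
      · exact ⟨0, rfl⟩
      · exact ⟨1, rfl⟩
      · exact ⟨2, rfl⟩
  have hal' : IsAlgebraic (IntermediateField.adjoin ℚ {w}) ξ := by
    rw [adj_eq h h']
    exact hal
  intro C
  have h4 := hTBB b 3 ξ w (fun _ => 1) ![x, y, z] hb (fun _ => le_refl 1) hξ (tr_of_mem hu h) hal'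
    (by rw [hr]; exact h1) (by rw [hr]; exact h2) (by rw [hr]; exact h3) C
  obtain ⟨Λ, h5⟩ := h4
  refine ⟨Λ, ?_⟩
  filter_upwards [h5] with n h6
  rw [Fin.sum_univ_three, pow_one] at h6
  exact h6

end TBR_

open TBR_

theorem tbr_proof (hTBB : Stmt_TBB) : Stmt_TBR := by
  intro b ξ u hb hξ hu hal
  constructor
  · intro r s hrs
    have hr := ne_rat hu r
    have hs := ne_rat hu s
    have hsr : (s : ℝ) - r ≠ 0 := by
      rw [sub_ne_zero]
      exact_mod_cast hrs.symm
    have hus : (s : ℝ) - u ≠ 0 := by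
      intro h
      apply hs
      linarith
    refine key hTBB b ξ u ((u - r) / (s - r)) u (1 / (u - r)) (1 / (u - s)) hb hξ hu hal ?_ ?_ ?_ ?_ ?_
    · set K := IntermediateField.adjoin ℚ {(u - r) / (s - r)} with hK
      have h1 : (u - r) / (s - r) ∈ K := IntermediateField.mem_adjoin_simple_self ℚ _
      have h2 : u = r + (s - r) * ((u - r) / (s - r)) := by
        field_simp
        ring
      rw [h2]
      exact K.add_mem (rat_mem K r) (K.mul_mem (K.sub_mem (rat_mem K s) (rat_mem K r)) h1)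
    · set K := IntermediateField.adjoin ℚ {u} with hK
      have h1 : u ∈ K := IntermediateField.mem_adjoin_simple_self ℚ _
      exact K.div_mem (K.sub_mem h1 (rat_mem K r)) (K.sub_mem (rat_mem K s) (rat_mem K r))
    · set A := Algebra.adjoin ℚ ({u, 1 / (u - r), 1 / (u - s)} : Set ℝ) with hA
      have h1 : u ∈ A := Algebra.subset_adjoin (by simp)
      have h2 : (u - r) / (s - r) = ((1 / (s - r) : ℚ) : ℝ) * (u - r) := by
        push_cast
        field_simp
      rw [h2]
      exact A.mul_mem (rat_mem' A _) (A.sub_mem h1 (rat_mem' A r))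
    · set A := Algebra.adjoin ℚ ({u, 1 / (u - r), 1 / (u - s)} : Set ℝ) with hA
      have h1 : 1 / (u - r) ∈ A := Algebra.subset_adjoin (by simp)
      have h2 : ((u - r) / (s - r))⁻¹ = (s - r) * (1 / (u - r)) := by
        field_simp
      rw [h2]
      exact A.mul_mem (A.sub_mem (rat_mem' A s) (rat_mem' A r)) h1
    · set A := Algebra.adjoin ℚ ({u, 1 / (u - r), 1 / (u - s)} : Set ℝ) with hA
      have h1 : 1 / (u - s) ∈ A := Algebra.subset_adjoin (by simp)
      have h2 : (1 - (u - r) / (s - r))⁻¹ = (r - s) * (1 / (u - s)) := by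
        have h3 : 1 - (u - r) / (s - r) = (s - u) / (s - r) := by
          field_simp
          ring
        rw [h3, inv_div]
        field_simp
        ring
      rw [h2]
      exact A.mul_mem (A.sub_mem (rat_mem' A r) (rat_mem' A s)) h1
  · intro r s t hrs hrt hst
    have hr := ne_rat hu r
    have hs := ne_rat hu s
    have ht := ne_rat hu t
    have hrs' : (r : ℝ) - s ≠ 0 := by
      rw [sub_ne_zero]
      exact_mod_cast hrs
    have htr' : (t : ℝ) - r ≠ 0 := by
      rw [sub_ne_zero]
      exact_mod_cast hrt.symm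
    have hts' : (t : ℝ) - s ≠ 0 := by
      rw [sub_ne_zero]
      exact_mod_cast hst.symm
    set w := (u - s) * (t - r) / ((u - r) * (t - s)) with hw
    have hw1 : w = ((t - r) / (t - s)) * (1 + (r - s) * (1 / (u - r))) := by
      rw [hw]
      field_simp
      ring
    have hw2 : w⁻¹ = ((t - s) / (t - r)) * (1 + (s - r) * (1 / (u - s))) := by
      rw [hw]
      field_simp
      ring
    have hw3 : (1 - w)⁻¹ = ((t - s) / (r - s)) * (1 + (t - r) * (1 / (u - t))) := by
      have h3 : 1 - w = (r - s) * (u - t) / ((u - r) * (t - s)) := by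
        rw [hw]
        field_simp
        ring
      rw [h3]
      field_simp
      ring
    have hw4 : u = r + (r - s) * (((t - s) / (t - r)) * w - 1)⁻¹ := by
      have h3 : ((t - s) / (t - r)) * w - 1 = (r - s) / (u - r) := by
        rw [hw]
        field_simp
        ring
      rw [h3]
      field_simp
      ring
    refine key hTBB b ξ u w (1 / (u - r)) (1 / (u - s)) (1 / (u - t)) hb hξ hu hal ?_ ?_ ?_ ?_ ?_
    · set K := IntermediateField.adjoin ℚ {w} with hK
      have h1 : w ∈ K := IntermediateField.mem_adjoin_simple_self ℚ _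
      rw [hw4]
      exact K.add_mem (rat_mem K r) (K.mul_mem (K.sub_mem (rat_mem K r) (rat_mem K s))
        (K.inv_mem (K.sub_mem (K.mul_mem (K.div_mem (K.sub_mem (rat_mem K t) (rat_mem K s))
          (K.sub_mem (rat_mem K t) (rat_mem K r))) h1) K.one_mem)))
    · set K := IntermediateField.adjoin ℚ {u} with hK
      have h1 : u ∈ K := IntermediateField.mem_adjoin_simple_self ℚ _
      rw [hw]
      exact K.div_mem (K.mul_mem (K.sub_mem h1 (rat_mem K s))
        (K.sub_mem (rat_mem K t) (rat_mem K r))) (K.mul_mem (K.sub_mem h1 (rat_mem K r))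
          (K.sub_mem (rat_mem K t) (rat_mem K s)))
    · set A := Algebra.adjoin ℚ ({1 / (u - r), 1 / (u - s), 1 / (u - t)} : Set ℝ) with hA
      have h1 : 1 / (u - r) ∈ A := Algebra.subset_adjoin (by simp)
      have h2 : ((t : ℝ) - r) / (t - s) = (((t - r) / (t - s) : ℚ) : ℝ) := by
        push_cast
        ring
      rw [hw1, h2]
      exact A.mul_mem (rat_mem' A _) (A.add_mem A.one_mem
        (A.mul_mem (A.sub_mem (rat_mem' A r) (rat_mem' A s)) h1))
    · set A := Algebra.adjoin ℚ ({1 / (u - r), 1 / (u - s), 1 / (u - t)} : Set ℝ) with hA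
      have h1 : 1 / (u - s) ∈ A := Algebra.subset_adjoin (by simp)
      have h2 : ((t : ℝ) - s) / (t - r) = (((t - s) / (t - r) : ℚ) : ℝ) := by
        push_cast
        ring
      rw [hw2, h2]
      exact A.mul_mem (rat_mem' A _) (A.add_mem A.one_mem
        (A.mul_mem (A.sub_mem (rat_mem' A s) (rat_mem' A r)) h1))
    · set A := Algebra.adjoin ℚ ({1 / (u - r), 1 / (u - s), 1 / (u - t)} : Set ℝ) with hA
      have h1 : 1 / (u - t) ∈ A := Algebra.subset_adjoin (by simp)
      have h2 : ((t : ℝ) - s) / (r - s) = (((t - s) / (r - s) : ℚ) : ℝ) := by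
        push_cast
        ring
      rw [hw3, h2]
      exact A.mul_mem (rat_mem' A _) (A.add_mem A.one_mem
        (A.mul_mem (A.sub_mem (rat_mem' A t) (rat_mem' A r)) h1))

end Pool.Agent.SGL
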