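import Pool.Agent.SGL.Stmts2
import Pool.Agent.SGL.TBB

/-!
# Squad SGL, module TBS: one base, integral points on curves
-/

set_option autoImplicit false

namespace Pool.Agent.SGL

open Filter Pool.Agent.SBT

namespace TBS_

variable {σ : Sc}

theorem cst_aeval (u : ℝ) (f : Polynomial ℚ) :
    Polynomial.aeval (cst σ u) f = cst σ (Polynomial.aeval u f) := by
  rw [Polynomial.aeval_def, Polynomial.aeval_def, Polynomial.hom_eval₂]
  congr 1
  exact Subsingleton.elim _ _

end TBS_

open TBB_ TBS_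

theorem tbs_proof (hMEM : Stmt_MEM) (hKWD : Stmt_KWD) (hLDK : Stmt_LDK) (hSGA : Stmt_SGA)
    (hTRK : Stmt_TRK) (hTRL : Stmt_TRL) : Stmt_TBS := by
  classical
  intro b m ξ u k x f hb hk hNU hu hξ hf hu1 hu2 C
  by_contra hcon
  push Not at hcon
  have h1 : ∀ j : ℕ, ∃ N : ℕ, j ≤ N ∧ ∑ i, cnt (b ^ k i) (x i) N (j * N) < C * N := by
    intro j
    obtain ⟨N, h2, h3⟩ := (hcon j).and_eventually (eventually_ge_atTop j) |>.exists
    exact ⟨N, h3, h2⟩
  choose N hN1 hN2 using h1
  let U : Ultrafilter ℕ := hyperfilter ℕ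
  have hU : (U : Filter ℕ) ≤ atTop := by
    rw [← Nat.cofinite_eq_atTop]
    exact hyperfilter_le_cofinite
  have hNt : Tendsto N atTop atTop := tendsto_atTop_mono hN1 tendsto_id
  let σ : Sc := ⟨U, fun n => (N n : ℝ), (tendsto_natCast_atTop_atTop.comp hNt).mono_left hU⟩
  have hB : ∀ c ∈ ({b} : Finset ℕ), 2 ≤ c := by
    intro c hc
    rw [Finset.mem_singleton] at hc
    omega
  have hx : ∀ i, cst σ (x i) ∈ Rg (Lf σ) (clo (Kf σ {b})) := by
    intro i
    have hbk : 2 ≤ b ^ k i := by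
      calc 2 ≤ b ^ 1 := by rw [pow_one]; exact hb
        _ ≤ b ^ k i := Nat.pow_le_pow_right (by omega) (hk i)
    have h2 := hMEM σ N (fun n => n) (b ^ k i) C (x i) hbk (fun _ => rfl)
      (tendsto_id.mono_left hU) (by
        apply Eventually.of_forall
        intro n
        have h3 := hN2 n
        have h4 : cnt (b ^ k i) (x i) (N n) (n * N n) ≤
            ∑ i, cnt (b ^ k i) (x i) (N n) (n * N n) :=
          Finset.single_le_sum (f := fun i => cnt (b ^ k i) (x i) (N n) (n * N n))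
            (fun _ _ => Nat.zero_le _) (Finset.mem_univ i)
        omega)
    refine Subring.closure_mono ?_ h2
    exact Set.union_subset_union_right _ (clo_mono (Kf_pow b (k i)))
  have hR := adjoin_mem x (clo (Kf σ {b})) hx
  have hKL := (hKWD σ {b} hB).1
  have hf0 : f ≠ 0 := hf.ne_zero
  have hfu : Polynomial.aeval u f ≠ 0 := fun h => hf0 (transcendental_iff.1 hu f h)
  have hS := hSGA (Om σ) (Kf σ {b}) (Lf σ) (clo (Kf σ {b})) hKL (le_clo _) (hLDK σ {b} hB) f
    (cst σ u) hf (hR u hu1)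
  have h3 : IsAlgebraic (Lf σ) (cst σ u) ∨ IsAlgebraic (clo (Kf σ {b})) (cst σ u) := by
    rcases hu2 with ⟨hd, hinv⟩ | ⟨e, v, he, hv, hvm⟩
    · refine hS.1 hd ?_ ?_
      · rw [cst_aeval]
        intro h
        rw [map_eq_zero] at h
        exact hfu h
      · rw [cst_aeval, ← map_inv₀]
        exact hR _ hinv
    · refine hS.2 (cst σ v) e he (hR v hvm) ?_
      rw [cst_aeval, ← map_pow, hv]
  rcases h3 with h3 | h3
  · exact hTRL σ ξ hNU (alg_trans u ξ hξ h3)
  · exact hTRK σ b hb u hu h3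

end Pool.Agent.SGL
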