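import Pool.Agent.SGL.Stmts2

/-!
# SGL TBT: one base, two numbers
-/

set_option autoImplicit false

namespace Pool.Agent.SGL

open Filter Pool.Agent.SBT TensorProduct

namespace TBT_

lemma aeval_mem {s : Set ℝ} {u : ℝ} (hu : u ∈ Algebra.adjoin ℚ s) (p : Polynomial ℚ) :
    Polynomial.aeval u p ∈ Algebra.adjoin ℚ s := by
  have h1 : Polynomial.aeval u p ∈ Algebra.adjoin ℚ {u} :=
    Polynomial.aeval_mem_adjoin_singleton ℚ u
  refine Algebra.adjoin_le ?_ h1
  intro z hz
  rw [Set.mem_singleton_iff.1 hz]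
  exact hu

end TBT_

open TBT_ in
theorem tbt_proof (hTBS : Stmt_TBS) : Stmt_TBT := by
  intro b ξ u hb hξ hu hξu
  constructor
  · intro P Q f hPQ hQ hf hf2 hfQ C
    have hQu : Polynomial.aeval u Q ≠ 0 := by
      intro h
      exact hu ⟨Q, hQ, h⟩
    obtain ⟨g, hg⟩ := hfQ
    obtain ⟨A, B, hAB⟩ := hPQ
    set x : Fin 2 → ℝ := ![u, Polynomial.aeval u P / Polynomial.aeval u Q] with hx
    have hx0 : u ∈ Algebra.adjoin ℚ (Set.range x) := Algebra.subset_adjoin ⟨0, rfl⟩
    have hx1 : Polynomial.aeval u P / Polynomial.aeval u Q ∈ Algebra.adjoin ℚ (Set.range x) :=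
      Algebra.subset_adjoin ⟨1, rfl⟩
    have hfinv : (Polynomial.aeval u f)⁻¹ ∈ Algebra.adjoin ℚ (Set.range x) := by
      have h1 : Polynomial.aeval u A * Polynomial.aeval u P +
          Polynomial.aeval u B * Polynomial.aeval u Q = 1 := by
        rw [← map_mul, ← map_mul, ← map_add, hAB, map_one]
      have h2 : Polynomial.aeval u Q = Polynomial.aeval u f * Polynomial.aeval u g := by
        rw [← map_mul, ← hg]
      have hfu : Polynomial.aeval u f ≠ 0 := by
        intro h
        rw [h, zero_mul] at h2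
        exact hQu h2
      have h3 : (Polynomial.aeval u f)⁻¹ = Polynomial.aeval u g *
          (Polynomial.aeval u A * (Polynomial.aeval u P / Polynomial.aeval u Q) +
            Polynomial.aeval u B) := by
        have h4 : Polynomial.aeval u A * (Polynomial.aeval u P / Polynomial.aeval u Q) +
            Polynomial.aeval u B = (Polynomial.aeval u Q)⁻¹ := by
          rw [mul_div_assoc', div_add' _ _ _ hQu, h1, one_div]
        rw [h4, eq_comm, ← div_eq_mul_inv, div_eq_iff hQu, h2]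
        field_simp
      rw [h3]
      exact Subalgebra.mul_mem _ (aeval_mem hx0 g) (Subalgebra.add_mem _
        (Subalgebra.mul_mem _ (aeval_mem hx0 A) hx1) (aeval_mem hx0 B))
    obtain ⟨Λ, hΛ⟩ := hTBS b 2 ξ u (fun _ => 1) x f hb (fun _ => le_rfl) hξ hu hξu hf hx0
      (Or.inl ⟨hf2, hfinv⟩) C
    refine ⟨Λ, ?_⟩
    filter_upwards [hΛ] with n hn
    rw [Fin.sum_univ_two] at hn
    simpa [hx] using hn
  · intro f e v hf he hv C
    set x : Fin 2 → ℝ := ![u, v] with hx
    have hx0 : u ∈ Algebra.adjoin ℚ (Set.range x) := Algebra.subset_adjoin ⟨0, rfl⟩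
    have hx1 : v ∈ Algebra.adjoin ℚ (Set.range x) := Algebra.subset_adjoin ⟨1, rfl⟩
    obtain ⟨Λ, hΛ⟩ := hTBS b 2 ξ u (fun _ => 1) x f hb (fun _ => le_rfl) hξ hu hξu hf hx0
      (Or.inr ⟨e, v, he, hv, hx1⟩) C
    refine ⟨Λ, ?_⟩
    filter_upwards [hΛ] with n hn
    rw [Fin.sum_univ_two] at hn
    simpa [hx] using hn

end Pool.Agent.SGL
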