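import Pool.Agent.SGL.Stmts

/-!
# SGL: TRL, numbers which are not `U`-numbers are transcendental over `Lf`.
-/

set_option autoImplicit false

namespace Pool.Agent.SGL

open Filter

namespace TRL_

theorem cl_sum {σ : Sc} (s : Finset ℕ) (f : ℕ → ℕ → ℝ) (hf : ∀ i ∈ s, f i ∈ OO σ) :
    (fun n => ∑ i ∈ s, f i n) ∈ OO σ ∧ cl σ (fun n => ∑ i ∈ s, f i n) = ∑ i ∈ s, cl σ (f i) := by
  classical
  induction s using Finset.induction_on with
  | empty =>
    simp only [Finset.sum_empty]
    exact ⟨const_mem 0, cl_zero⟩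
  | insert i s hi ih =>
    obtain ⟨h1, h2⟩ := ih (fun j hj => hf j (Finset.mem_insert_of_mem hj))
    have h3 := hf i (Finset.mem_insert_self i s)
    simp only [Finset.sum_insert hi]
    refine ⟨(OO σ).add_mem h3 h1, ?_⟩
    rw [cl_add h3 h1, h2]

/-- the integer polynomial with the coefficients `Z i`, `i ≤ D` -/
noncomputable def pol (D : ℕ) (Z : ℕ → ℤ) : Polynomial ℤ :=
  ∑ i ∈ Finset.range (D + 1), Polynomial.C (Z i) * Polynomial.X ^ i

theorem coeff_pol (D : ℕ) (Z : ℕ → ℤ) (k : ℕ) :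
    (pol D Z).coeff k = if k < D + 1 then Z k else 0 := by
  unfold pol
  rw [Polynomial.finsetSum_coeff]
  simp only [Polynomial.coeff_C_mul, Polynomial.coeff_X_pow, mul_ite, mul_one, mul_zero]
  rw [Finset.sum_ite_eq]
  simp

theorem natDegree_pol (D : ℕ) (Z : ℕ → ℤ) : (pol D Z).natDegree ≤ D := by
  rw [Polynomial.natDegree_le_iff_coeff_eq_zero]
  intro N hN
  rw [coeff_pol, if_neg (by omega)]

theorem aeval_pol (D : ℕ) (Z : ℕ → ℤ) (ξ : ℝ) :
    Polynomial.aeval ξ (pol D Z) = ∑ i ∈ Finset.range (D + 1), (Z i : ℝ) * ξ ^ i := by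
  unfold pol
  rw [map_sum]
  refine Finset.sum_congr rfl fun i _ => ?_
  simp

end TRL_

open TRL_ in
theorem trl_proof : Stmt_TRL := by
  classical
  intro σ ξ hξ halg
  obtain ⟨p, hp0, hp⟩ := halg
  set D := p.natDegree with hD
  have hex : ∀ i : ℕ, ∃ q : ℕ → ℚ, Hq σ q ∧ cl σ (fun n => (q n : ℝ)) = (p.coeff i : Om σ) :=
    fun i => (p.coeff i).2
  choose q hq hqc using hex
  -- the value
  have hsum : SS σ (fun n => ∑ i ∈ Finset.range (D + 1), (q i n : ℝ) * ξ ^ i) := by
    have hmem : ∀ i ∈ Finset.range (D + 1), (fun n => (q i n : ℝ) * ξ ^ i) ∈ OO σ := by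
      intro i _
      exact (OO σ).mul_mem (Hq_mem (hq i)) (const_mem (ξ ^ i))
    obtain ⟨h1, h2⟩ := cl_sum (σ := σ) (Finset.range (D + 1)) (fun i n => (q i n : ℝ) * ξ ^ i) hmem
    rw [← cl_zero_iff h1, h2]
    rw [Polynomial.aeval_eq_sum_range] at hp
    rw [← hp]
    refine Finset.sum_congr rfl fun i _ => ?_
    rw [cl_mul (Hq_mem (hq i)) (const_mem (ξ ^ i)), hqc i, ← cst_apply, map_pow]
    rfl
  -- the leading coefficient
  have hlead : ∀ᶠ n in (σ.U : Filter ℕ), (q D n : ℝ) ≠ 0 := by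
    apply ne_zero_of_not_SS
    rw [← cl_zero_iff (Hq_mem (hq D)), hqc D]
    intro h
    have h3 : p.coeff D = 0 := Subtype.ext h
    exact hp0 (Polynomial.leadingCoeff_eq_zero.1 h3)
  obtain ⟨μ, c, hc, hμ⟩ := hξ D
  -- heights
  choose C hC using hq
  obtain ⟨E, hE0, hE⟩ : ∃ E : ℝ, 0 ≤ E ∧ ∀ i ∈ Finset.range (D + 1), C i ≤ E := by
    refine ⟨∑ i ∈ Finset.range (D + 1), |C i|, Finset.sum_nonneg fun i _ => abs_nonneg _, ?_⟩
    intro i hi
    exact (le_abs_self _).trans
      (Finset.single_le_sum (f := fun i => |C i|) (fun i _ => abs_nonneg _) hi)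
  have hht : ∀ᶠ n in (σ.U : Filter ℕ), ∀ i ∈ Finset.range (D + 1),
      |((q i n).num : ℝ)| ≤ Real.exp (E * σ.T n) ∧ ((q i n).den : ℝ) ≤ Real.exp (E * σ.T n) := by
    rw [Filter.eventually_all_finset]
    intro i hi
    filter_upwards [hC i, σ.large 0] with n hn hT
    have hm : Real.exp (C i * σ.T n) ≤ Real.exp (E * σ.T n) :=
      Real.exp_le_exp.2 (mul_le_mul_of_nonneg_right (hE i hi) hT)
    exact ⟨hn.1.trans hm, hn.2.trans hm⟩
  set F : ℝ := (D + 1) * E with hF
  have hfin : ∀ᶠ n in (σ.U : Filter ℕ), c ≤ Real.exp (-σ.T n) := by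
    filter_upwards [hht, hlead, hsum (F + μ * F + 1), σ.large 0] with n h1 h2 h3 hT
    set x : ℝ := Real.exp (E * σ.T n) with hx
    have hx1 : (1 : ℝ) ≤ x := Real.one_le_exp (mul_nonneg hE0 hT)
    have hxF : x ^ (D + 1) = Real.exp (F * σ.T n) := by
      rw [hx, ← Real.exp_nat_mul, hF]
      congr 1
      push_cast
      ring
    let d : ℤ := ∏ j ∈ Finset.range (D + 1), ((q j n).den : ℤ)
    let Z : ℕ → ℤ := fun i => (q i n).num * ∏ j ∈ (Finset.range (D + 1)).erase i, ((q j n).den : ℤ)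
    have hd1 : |(d : ℝ)| ≤ x ^ (D + 1) := by
      have : (d : ℝ) = ∏ j ∈ Finset.range (D + 1), ((q j n).den : ℝ) := by
        simp [d]
      rw [this, Finset.abs_prod]
      calc ∏ j ∈ Finset.range (D + 1), |((q j n).den : ℝ)| ≤ ∏ j ∈ Finset.range (D + 1), x := by
            refine Finset.prod_le_prod (fun j _ => abs_nonneg _) ?_
            intro j hj
            rw [Nat.abs_cast]
            exact (h1 j hj).2
        _ = x ^ (D + 1) := by rw [Finset.prod_const, Finset.card_range]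
    have hd0 : (d : ℝ) ≠ 0 := by
      have : d ≠ 0 := Finset.prod_ne_zero_iff.2 fun j _ => by exact_mod_cast (q j n).den_nz
      exact_mod_cast this
    have hZ1 : ∀ i ∈ Finset.range (D + 1), |(Z i : ℝ)| ≤ x ^ (D + 1) := by
      intro i hi
      have : (Z i : ℝ) = ((q i n).num : ℝ) *
          ∏ j ∈ (Finset.range (D + 1)).erase i, ((q j n).den : ℝ) := by
        simp [Z]
      rw [this, abs_mul, Finset.abs_prod]
      calc |((q i n).num : ℝ)| * ∏ j ∈ (Finset.range (D + 1)).erase i, |((q j n).den : ℝ)|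
          ≤ x * ∏ j ∈ (Finset.range (D + 1)).erase i, x := by
            refine mul_le_mul (h1 i hi).1 ?_ (Finset.prod_nonneg fun _ _ => abs_nonneg _)
              (by linarith)
            refine Finset.prod_le_prod (fun j _ => abs_nonneg _) ?_
            intro j hj
            rw [Nat.abs_cast]
            exact (h1 j (Finset.mem_of_mem_erase hj)).2
        _ = x ^ (D + 1) := by
            rw [Finset.prod_const, Finset.card_erase_of_mem hi, Finset.card_range,
              Nat.add_sub_cancel, pow_succ, mul_comm]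
    have hZq : ∀ i ∈ Finset.range (D + 1), (Z i : ℝ) = (d : ℝ) * (q i n : ℝ) := by
      intro i hi
      have e1 : (d : ℝ) = ((q i n).den : ℝ) *
          ∏ j ∈ (Finset.range (D + 1)).erase i, ((q j n).den : ℝ) := by
        have : (d : ℝ) = ∏ j ∈ Finset.range (D + 1), ((q j n).den : ℝ) := by
          simp [d]
        rw [this, Finset.mul_prod_erase _ (fun j => ((q j n).den : ℝ)) hi]
      have e2 : (Z i : ℝ) = ((q i n).num : ℝ) *
          ∏ j ∈ (Finset.range (D + 1)).erase i, ((q j n).den : ℝ) := by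
        simp [Z]
      have e3 : (q i n : ℝ) = ((q i n).num : ℝ) / ((q i n).den : ℝ) := by
        exact_mod_cast (Rat.num_div_den (q i n)).symm
      have e4 : ((q i n).den : ℝ) ≠ 0 := by exact_mod_cast (q i n).den_nz
      rw [e1, e2, e3]
      field_simp
    have hval : Polynomial.aeval ξ (pol D Z) =
        (d : ℝ) * ∑ i ∈ Finset.range (D + 1), (q i n : ℝ) * ξ ^ i := by
      rw [aeval_pol, Finset.mul_sum]
      refine Finset.sum_congr rfl fun i hi => ?_
      rw [hZq i hi, mul_assoc]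
    have hne : pol D Z ≠ 0 := by
      intro h
      have h4 : (pol D Z).coeff D = 0 := by rw [h, Polynomial.coeff_zero]
      rw [coeff_pol, if_pos (Nat.lt_succ_self D)] at h4
      have h5 := hZq D (Finset.mem_range.2 (Nat.lt_succ_self D))
      rw [h4, Int.cast_zero] at h5
      exact (mul_ne_zero hd0 h2) h5.symm
    have hcoef : ∀ i, |((pol D Z).coeff i : ℝ)| ≤ x ^ (D + 1) := by
      intro i
      rw [coeff_pol]
      split_ifs with hi
      · exact hZ1 i (Finset.mem_range.2 hi)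
      · rw [Int.cast_zero, abs_zero]
        positivity
    have h6 := hμ (pol D Z) (x ^ (D + 1)) hne (natDegree_pol D Z) hcoef
    rw [hval, abs_mul, hxF] at h6
    rw [hxF] at hd1
    refine h6.trans ?_
    have h7 : Real.exp (F * σ.T n) * Real.exp (-((F + μ * F + 1) * σ.T n)) *
        Real.exp (F * σ.T n) ^ μ = Real.exp (-σ.T n) := by
      rw [← Real.exp_nat_mul, ← Real.exp_add, ← Real.exp_add]
      congr 1
      ring
    rw [← h7]
    have hpos := Real.exp_pos (F * σ.T n)
    refine mul_le_mul_of_nonneg_right ?_ (by positivity)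
    exact mul_le_mul hd1 h3 (abs_nonneg _) hpos.le
  obtain ⟨n, h1, h2⟩ := (hfin.and (σ.large (-(Real.log c) + 1))).exists
  have h3 : c ≤ Real.exp (Real.log c - 1) := h1.trans (Real.exp_le_exp.2 (by linarith))
  rw [Real.exp_sub, Real.exp_log hc] at h3
  have h4 : (1 : ℝ) < Real.exp 1 := by
    rw [Real.one_lt_exp_iff]
    norm_num
  rw [le_div_iff₀ (Real.exp_pos 1)] at h3
  nlinarith

end Pool.Agent.SGL
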