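import Pool.Agent.SGL.Stmts

set_option autoImplicit false
set_option linter.style.haveILetI false

namespace Pool.Agent.SGL

open Polynomial

namespace UA1_

variable {F : Type} [Field F]

/-- transitivity for subfields -/
theorem alg_trans {K E : Subfield F} (hKE : K ≤ E) (hE : ∀ y ∈ E, IsAlgebraic K y) {x : F}
    (hx : IsAlgebraic E x) : IsAlgebraic K x := by
  letI : Algebra K E := (Subfield.inclusion hKE).toAlgebra
  have : IsScalarTower K E F := IsScalarTower.of_algebraMap_eq (fun _ => rfl)
  have : Algebra.IsAlgebraic K E := by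
    refine ⟨fun y => ?_⟩
    have h1 : IsAlgebraic K (algebraMap E F y) := hE _ y.2
    exact (isAlgebraic_algebraMap_iff (algebraMap E F).injective).1 h1
  exact hx.restrictScalars K

/-- going up -/
theorem alg_mono {K E : Subfield F} (hKE : K ≤ E) {x : F}
    (hx : IsAlgebraic K x) : IsAlgebraic E x := by
  letI : Algebra K E := (Subfield.inclusion hKE).toAlgebra
  have : IsScalarTower K E F := IsScalarTower.of_algebraMap_eq (fun _ => rfl)
  exact hx.extendScalars (algebraMap K E).injective

end UA1_

open UA1_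

theorem ua1_proof (hLDS : Stmt_LDS) (hTWR : Stmt_TWR) : Stmt_UA1 := by
  intro F _ K L M hKL hKM hLD
  have h1 : K ≤ ac K M := by
    intro x hx
    rw [mem_ac]
    exact ⟨isAlgebraic_algebraMap (⟨x, hx⟩ : K), hKM hx⟩
  have h2 : ac K M ≤ M := fun x hx => (mem_ac.1 hx).2
  refine ⟨h1, h2, ?_, ?_, ?_⟩
  · have h3 : LDj K M L := hLDS F K L M hKL hKM hLD
    have h4 : LDj (ac K M) M (ac K M ⊔ L) := hTWR F K (ac K M) M L h1 h2 hKL h3
    have h5 : LDj (ac K M) (ac K M ⊔ L) M := hLDS F (ac K M) M (ac K M ⊔ L) h2 le_sup_left h4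
    rwa [sup_comm] at h5
  · intro x hx hxa
    rw [mem_ac]
    refine ⟨?_, hx⟩
    exact alg_trans h1 (fun y hy => (mem_ac.1 hy).1) hxa
  · intro x hx
    have h3 : L ⊔ ac K M ≤ (algebraicClosure L F).toSubfield := by
      apply sup_le
      · intro y hy
        show y ∈ algebraicClosure L F
        rw [mem_algebraicClosure_iff]
        exact isAlgebraic_algebraMap (⟨y, hy⟩ : L)
      · intro y hy
        show y ∈ algebraicClosure L F
        rw [mem_algebraicClosure_iff]
        exact alg_mono hKL (mem_ac.1 hy).1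
    have h4 : x ∈ algebraicClosure L F := h3 hx
    exact mem_algebraicClosure_iff.1 h4

end Pool.Agent.SGL
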