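import Pool.Agent.SGL.Stmts

set_option autoImplicit false

namespace Pool.Agent.SGL

open Filter Pool.Agent.SBT

theorem ua2_proof : Stmt_UA2 := by
  intro F _ K s h hs hmem h0 hinv Ω _ _ _
  let A := Algebra.adjoin K s
  let h' : A := ⟨h, hmem⟩
  have hnu : h' ∈ nonunits A := by
    intro hu
    obtain ⟨v, hv⟩ := hu.exists_right_inv
    apply hinv
    have h1 : h * (v : F) = 1 := by
      have := congrArg (Subtype.val) hv
      simpa using this
    have h2 : h⁻¹ = (v : F) := inv_eq_of_mul_eq_one_right h1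
    rw [h2]
    exact v.2
  obtain ⟨I, hI, hhI⟩ := exists_max_ideal_of_mem_nonunits hnu
  letI : Field (A ⧸ I) := Ideal.Quotient.field I
  haveI : Algebra.FiniteType K A := by
    rw [← Subalgebra.fg_iff_finiteType]
    exact ⟨hs.toFinset, by rw [Set.Finite.coe_toFinset]⟩
  haveI : Algebra.FiniteType K (A ⧸ I) :=
    Algebra.FiniteType.of_surjective (Ideal.Quotient.mkₐ K I) (Ideal.Quotient.mkₐ_surjective K I)
  haveI : Module.Finite K (A ⧸ I) := finite_of_finite_type_of_isJacobsonRing K (A ⧸ I)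
  haveI : Algebra.IsAlgebraic K (A ⧸ I) := Algebra.IsAlgebraic.of_finite K (A ⧸ I)
  let g : (A ⧸ I) →ₐ[K] Ω := IsAlgClosed.lift
  refine ⟨g.comp (Ideal.Quotient.mkₐ K I), fun x => ?_, fun hh => ?_⟩
  · rw [AlgHom.comp_apply]
    exact (Algebra.IsAlgebraic.isAlgebraic (R := K) (Ideal.Quotient.mkₐ K I x)).algHom g
  · rw [AlgHom.comp_apply, Ideal.Quotient.mkₐ_eq_mk, (Ideal.Quotient.eq_zero_iff_mem).mpr hhI, map_zero]

end Pool.Agent.SGL
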