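import Pool.Agent.SGL.Stmts

set_option autoImplicit false

namespace Pool.Agent.SGL

open Polynomial

namespace UA3_

variable {K M Ω : Type} [Field K] [Field M] [Field Ω] [Algebra K M] [Algebra M Ω] [Algebra K Ω]
    [IsScalarTower K M Ω]

/-- if `K` is algebraically closed in `M`, the degree of an algebraic element does not drop -/
theorem key (hK : ∀ x : M, IsAlgebraic K x → ∃ y : K, algebraMap K M y = x) (t : Ω)
    (ht : IsIntegral K t) (R : M[X]) (hR : R.degree < (minpoly K t).degree)
    (h : aeval t R = 0) : R = 0 := by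
  by_contra hne
  have htM : IsIntegral M t := ht.tower_top
  have hd : minpoly M t ∣ (minpoly K t).map (algebraMap K M) :=
    minpoly.dvd_map_of_isScalarTower K M t
  have hl : minpoly M t ∈ lifts (algebraMap (integralClosure K M) M) :=
    integralClosure.mem_lifts_of_monic_of_dvd_map M (minpoly.monic ht) (minpoly.monic htM) hd
  have hl2 : minpoly M t ∈ lifts (algebraMap K M) := by
    rw [lifts_iff_coeff_lifts] at hl ⊢
    intro n
    obtain ⟨c, hc⟩ := hl n
    have hc2 : IsIntegral K ((c : integralClosure K M) : M) := c.2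
    obtain ⟨y, hy⟩ := hK _ hc2.isAlgebraic
    refine ⟨y, ?_⟩
    rw [hy]
    exact hc
  obtain ⟨q, hq1, hq2, hq3⟩ := lifts_and_degree_eq_and_monic hl2 (minpoly.monic htM)
  have hq4 : aeval t q = 0 := by
    have h1 : aeval t (q.map (algebraMap K M)) = 0 := by
      rw [hq1]
      exact minpoly.aeval M t
    rwa [aeval_map_algebraMap] at h1
  have h2 : (minpoly K t).degree ≤ q.degree := minpoly.min K t hq3 hq4
  have h3 : (minpoly M t).degree ≤ R.degree := minpoly.degree_le_of_ne_zero M t hne h
  rw [← hq2] at h3
  exact absurd (lt_of_lt_of_le hR (h2.trans h3)) (lt_irrefl _)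

end UA3_

open UA3_

theorem ua3_proof : Stmt_UA3 := by
  intro K M Ω _ _ _ _ _ _ _ _ hK d m θ hm hθ hsum
  classical
  let E : IntermediateField K Ω := IntermediateField.adjoin K (Set.range θ)
  have hfin : FiniteDimensional K E := by
    apply IntermediateField.finiteDimensional_adjoin
    rintro x ⟨i, rfl⟩
    exact (hθ i).isIntegral
  obtain ⟨α, hα⟩ := Field.exists_primitive_element K E
  have hαint : IsIntegral K α := IsIntegral.of_finite K α
  have hrep : ∀ i, ∃ r : K[X], r.degree < (minpoly K (α : Ω)).degree ∧ aeval (α : Ω) r = θ i := by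
    intro i
    have hi : θ i ∈ E := IntermediateField.subset_adjoin K _ ⟨i, rfl⟩
    have h1 : (⟨θ i, hi⟩ : E) ∈ IntermediateField.adjoin K ({α} : Set E) := by
      rw [hα]; trivial
    have h2 : (⟨θ i, hi⟩ : E) ∈ Algebra.adjoin K ({α} : Set E) := by
      rw [← IntermediateField.adjoin_simple_toSubalgebra_of_isAlgebraic hαint.isAlgebraic]
      exact h1
    rw [Algebra.adjoin_singleton_eq_range_aeval] at h2
    obtain ⟨r, hr⟩ := h2
    have hr1 : aeval (α : Ω) r = θ i := by
      have h3 : (algebraMap E Ω) (aeval α r) = θ i := by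
        have h4 : (aeval α) r = (⟨θ i, hi⟩ : E) := hr
        rw [h4]
        rfl
      rw [← h3]
      exact aeval_algebraMap_apply Ω α r
    have hmon : (minpoly K (α : Ω)).Monic := by
      apply minpoly.monic
      exact hαint.map (IntermediateField.val E)
    refine ⟨r %ₘ minpoly K (α : Ω), degree_modByMonic_lt _ hmon, ?_⟩
    rw [← hr1]
    exact aeval_modByMonic_eq_self_of_root (minpoly.aeval K (α : Ω))
  choose r hr1 hr2 using hrep
  have hαΩ : IsIntegral K (α : Ω) := hαint.map (IntermediateField.val E)
  let R : M[X] := ∑ i, C (m i) * (r i).map (algebraMap K M)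
  have hR0 : R = 0 := by
    apply key hK (α : Ω) hαΩ
    · refine lt_of_le_of_lt (degree_sum_le _ _) ?_
      rw [Finset.sup_lt_iff]
      · intro i _
        have hC : (C (m i) * (r i).map (algebraMap K M)).degree
            ≤ ((r i).map (algebraMap K M)).degree := by
          refine (degree_mul_le _ _).trans ?_
          calc (C (m i)).degree + ((r i).map (algebraMap K M)).degree
              ≤ 0 + ((r i).map (algebraMap K M)).degree := by
                gcongr
                exact degree_C_le
            _ = _ := zero_add _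
        refine lt_of_le_of_lt hC ?_
        exact lt_of_le_of_lt degree_map_le (hr1 i)
      · exact bot_lt_iff_ne_bot.2 (by
          rw [Ne, degree_eq_bot]
          exact minpoly.ne_zero hαΩ)
    · simp only [R, map_sum, map_mul, aeval_C, aeval_map_algebraMap, hr2]
      rw [← hsum]
      exact Finset.sum_congr rfl (fun i _ => mul_comm _ _)
  have hcoef : ∀ n, ∀ i, (r i).coeff n = 0 := by
    intro n
    have h1 : ∑ i, ((r i).coeff n) • m i = 0 := by
      have h2 : R.coeff n = 0 := by rw [hR0]; simp
      simp only [R, finsetSum_coeff, coeff_C_mul, coeff_map] at h2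
      rw [← h2]
      refine Finset.sum_congr rfl (fun i _ => ?_)
      rw [Algebra.smul_def, mul_comm]
    exact Fintype.linearIndependent_iff.1 hm _ h1
  funext i
  have h3 : r i = 0 := by
    ext n
    rw [hcoef n i]
    simp
  rw [← hr2 i, h3]
  simp

end Pool.Agent.SGL
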