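import Pool.Agent.SGL.Stmts

/-!
# SGL, module UA4 (helper10): a product of two sums
-/

set_option autoImplicit false

namespace Pool.Agent.SGL

open Filter Pool.Agent.SBT

namespace UA4_

variable {F : Type} [Field F]

/-- a `K`-basis of the span of a finite family in `M` -/
theorem exists_basis (K M : Subfield F) (hKM : K ≤ M) {ι : Type} [Finite ι] (x : ι → F)
    (hx : ∀ i, x i ∈ M) :
    ∃ (r : ℕ) (e : Fin r → F) (κ : ι → Fin r → K), (∀ t, e t ∈ M) ∧ Ind K e ∧
      ∀ i, x i = ∑ t, (κ i t : F) * e t := by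
  classical
  set W : Submodule K F := Submodule.span K (Set.range x) with hW
  have : FiniteDimensional K W := FiniteDimensional.span_of_finite K (Set.finite_range x)
  let b := Module.finBasis K W
  have hWM : ∀ y ∈ W, y ∈ M := by
    intro y hy
    refine Submodule.span_induction ?_ ?_ ?_ ?_ hy
    · rintro _ ⟨i, rfl⟩; exact hx i
    · exact M.zero_mem
    · intro a b _ _ ha hb; exact M.add_mem ha hb
    · intro k a _ ha
      have : k • a = (k : F) * a := rfl
      rw [this]
      exact M.mul_mem (hKM k.2) ha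
  have hxW : ∀ i, x i ∈ W := fun i => Submodule.subset_span ⟨i, rfl⟩
  refine ⟨Module.finrank K W, fun t => (b t : F), fun i t => b.repr ⟨x i, hxW i⟩ t,
    fun t => hWM _ (b t).2, ?_, ?_⟩
  · intro κ hκ hsum
    have hli := b.linearIndependent
    rw [Fintype.linearIndependent_iff] at hli
    have h1 := hli (fun t => ⟨κ t, hκ t⟩) (by
      apply Subtype.ext
      rw [Submodule.coe_sum]
      exact hsum)
    funext t
    have := congrArg Subtype.val (h1 t)
    simpa using this
  · intro i
    have h1 := b.sum_repr ⟨x i, hxW i⟩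
    have h2 := congrArg Subtype.val h1
    rw [Submodule.coe_sum] at h2
    exact h2.symm

end UA4_

theorem ua4_proof (hLDS : Stmt_LDS) (hUA2 : Stmt_UA2) (hUA3 : Stmt_UA3) : Stmt_UA4 := by
  intro F _ _ K L M hKL hKM hdis halg d e l m l' m' h i₀ j₀ hl hl' hm hm' him him' hi₀ hj₀ hhL hh0
    hprod
  classical
  by_contra hcon
  set s : Set F := Set.range l ∪ Set.range l' ∪ {h} with hs
  have hsfin : s.Finite :=
    ((Set.finite_range l).union (Set.finite_range l')).union (Set.finite_singleton h)
  have hhs : h ∈ Algebra.adjoin K s := Algebra.subset_adjoin (Or.inr rfl)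
  have hls : ∀ i, l i ∈ Algebra.adjoin K s := fun i =>
    Algebra.subset_adjoin (Or.inl (Or.inl ⟨i, rfl⟩))
  have hls' : ∀ i, l' i ∈ Algebra.adjoin K s := fun i =>
    Algebra.subset_adjoin (Or.inl (Or.inr ⟨i, rfl⟩))
  let algKM : Algebra K M := (Subfield.inclusion hKM).toAlgebra
  have : IsScalarTower K M F := IsScalarTower.of_algebraMap_eq (fun x => rfl)
  have : CharZero K := ⟨fun a b hab => by
    have h1 := congrArg (Subtype.val : K → F) hab
    simpa using h1⟩
  obtain ⟨φ, hφalg, hφh⟩ := hUA2 F K s h hsfin hhs hh0 hcon (AlgebraicClosure M)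
  have hφh0 := hφh hhs
  -- the basis
  obtain ⟨r, ε, κ, hεM, hεind, hx⟩ := UA4_.exists_basis K M hKM
    (fun p : Option (Fin d × Fin e) => match p with | none => 1 | some q => m q.1 * m' q.2)
    (by
      rintro (_ | q)
      · exact M.one_mem
      · exact M.mul_mem (hm _) (hm' _))
  have hx1 : (1 : F) = ∑ t, (κ none t : F) * ε t := hx none
  have hx2 : ∀ i j, m i * m' j = ∑ t, (κ (some (i, j)) t : F) * ε t := fun i j => hx (some (i, j))
  -- coefficients
  have hcoef : (fun t => (∑ i, ∑ j, l i * l' j * (κ (some (i, j)) t : F)) - h * (κ none t : F)) =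
      0 := by
    refine hLDS F K L M hKL hKM hdis r ε _ hεM ?_ hεind ?_
    · intro t
      refine L.sub_mem (L.sum_mem fun i _ => L.sum_mem fun j _ => ?_) ?_
      · exact L.mul_mem (L.mul_mem (hl i) (hl' j)) (hKL (κ _ t).2)
      · exact L.mul_mem hhL (hKL (κ _ t).2)
    · have e1 : ∑ t, ε t * ((∑ i, ∑ j, l i * l' j * (κ (some (i, j)) t : F)) -
          h * (κ none t : F)) =
          (∑ i, ∑ j, l i * l' j * ∑ t, (κ (some (i, j)) t : F) * ε t) -
            h * ∑ t, (κ none t : F) * ε t := by
        simp only [mul_sub, Finset.sum_sub_distrib, Finset.mul_sum]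
        congr 1
        · rw [Finset.sum_comm]
          refine Finset.sum_congr rfl fun i _ => ?_
          rw [Finset.sum_comm]
          refine Finset.sum_congr rfl fun j _ => Finset.sum_congr rfl fun t _ => by ring
        · exact Finset.sum_congr rfl fun t _ => by ring
      rw [e1, ← hx1, mul_one, sub_eq_zero, ← hprod, Finset.sum_mul_sum]
      refine Finset.sum_congr rfl fun i _ => Finset.sum_congr rfl fun j _ => ?_
      rw [← hx2]; ring
  -- apply φ
  set θ : Fin d → AlgebraicClosure M := fun i => φ ⟨l i, hls i⟩ with hθ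
  set θ' : Fin e → AlgebraicClosure M := fun i => φ ⟨l' i, hls' i⟩ with hθ'
  have hcoefφ : ∀ t, ∑ i, ∑ j, θ i * θ' j *
      algebraMap K (AlgebraicClosure M) (κ (some (i, j)) t) = 0 := by
    intro t
    have h1 : (∑ i, ∑ j, (⟨l i, hls i⟩ : Algebra.adjoin K s) * ⟨l' j, hls' j⟩ *
        algebraMap K (Algebra.adjoin K s) (κ (some (i, j)) t)) - ⟨h, hhs⟩ * algebraMap K (Algebra.adjoin K s) (κ none t) = 0 := by
      apply Subtype.ext
      have h2 : (∑ i, ∑ j, l i * l' j * (κ (some (i, j)) t : F)) - h * (κ none t : F) = 0 :=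
        congrFun hcoef t
      push_cast
      exact h2
    have h3 := congrArg φ h1
    rw [map_sub, map_sum, map_mul, hφh0, zero_mul, sub_zero, map_zero] at h3
    rw [← h3]
    refine Finset.sum_congr rfl fun i _ => ?_
    rw [map_sum]
    refine Finset.sum_congr rfl fun j _ => ?_
    rw [map_mul, map_mul, AlgHom.commutes]
  set μ : Fin d → M := fun i => ⟨m i, hm i⟩ with hμ
  set μ' : Fin e → M := fun i => ⟨m' i, hm' i⟩ with hμ'
  have hmul : ∀ i j, algebraMap M (AlgebraicClosure M) (μ i) *
      algebraMap M (AlgebraicClosure M) (μ' j) =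
      ∑ t, algebraMap K (AlgebraicClosure M) (κ (some (i, j)) t) *
        algebraMap M (AlgebraicClosure M) ⟨ε t, hεM t⟩ := by
    intro i j
    rw [← map_mul]
    have h1 : μ i * μ' j = ∑ t, algebraMap K M (κ (some (i, j)) t) * ⟨ε t, hεM t⟩ := by
      apply Subtype.ext
      have h2 := hx2 i j
      push_cast
      exact h2
    rw [h1, map_sum]
    refine Finset.sum_congr rfl fun t _ => ?_
    rw [map_mul, ← IsScalarTower.algebraMap_apply K M (AlgebraicClosure M)]
  have hzero : (∑ i, θ i * algebraMap M (AlgebraicClosure M) (μ i)) *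
      (∑ j, θ' j * algebraMap M (AlgebraicClosure M) (μ' j)) = 0 := by
    have e1 : (∑ i, θ i * algebraMap M (AlgebraicClosure M) (μ i)) *
      (∑ j, θ' j * algebraMap M (AlgebraicClosure M) (μ' j)) =
        ∑ t, algebraMap M (AlgebraicClosure M) ⟨ε t, hεM t⟩ * ∑ i, ∑ j, θ i * θ' j *
      algebraMap K (AlgebraicClosure M) (κ (some (i, j)) t) := by
      have e2 : ∀ i j, (θ i * algebraMap M (AlgebraicClosure M) (μ i)) *
          (θ' j * algebraMap M (AlgebraicClosure M) (μ' j)) = ∑ t,
          algebraMap M (AlgebraicClosure M) ⟨ε t, hεM t⟩ * (θ i * θ' j *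
            algebraMap K (AlgebraicClosure M) (κ (some (i, j)) t)) := by
        intro i j
        have e3 : (θ i * algebraMap M (AlgebraicClosure M) (μ i)) *
          (θ' j * algebraMap M (AlgebraicClosure M) (μ' j)) = θ i * θ' j *
          (algebraMap M (AlgebraicClosure M) (μ i) * algebraMap M (AlgebraicClosure M) (μ' j)) := by
          ring
        rw [e3, hmul, Finset.mul_sum]
        exact Finset.sum_congr rfl fun t _ => by ring
      rw [Finset.sum_mul_sum]
      simp only [e2, Finset.mul_sum]
      rw [Finset.sum_comm (s := (Finset.univ : Finset (Fin r)))]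
      refine Finset.sum_congr rfl fun i _ => ?_
      rw [Finset.sum_comm]
    rw [e1]
    exact Finset.sum_eq_zero fun t _ => by rw [hcoefφ t, mul_zero]
  have hind : ∀ (n : ℕ) (a : Fin n → F) (ha : ∀ i, a i ∈ M), Ind K a →
      LinearIndependent K (fun i => (⟨a i, ha i⟩ : M)) := by
    intro n a ha hia
    rw [Fintype.linearIndependent_iff]
    intro g hg i
    have h1 := hia (fun i => (g i : F)) (fun i => (g i).2) (by
      have h2 := congrArg (Subtype.val : M → F) hg
      push_cast at h2
      exact h2)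
    exact Subtype.ext (congrFun h1 i)
  have halgM : ∀ x : M, IsAlgebraic K x → ∃ y : K, algebraMap K M y = x := by
    intro x hx
    have h1 : IsAlgebraic K (algebraMap M F x) := hx.algebraMap
    exact ⟨⟨x, halg x x.2 h1⟩, Subtype.ext rfl⟩
  rcases mul_eq_zero.mp hzero with h0 | h0
  · have h1 := hUA3 K M (AlgebraicClosure M) halgM d μ θ (hind d m hm him) (fun i => hφalg _) h0
    have h2 := congrFun h1 i₀
    have h3 : θ i₀ = 1 := by
      have : (⟨l i₀, hls i₀⟩ : Algebra.adjoin K s) = 1 := Subtype.ext hi₀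
      rw [hθ]; simp only [this, map_one]
    rw [h3] at h2
    exact one_ne_zero h2
  · have h1 := hUA3 K M (AlgebraicClosure M) halgM e μ' θ' (hind e m' hm' him') (fun i => hφalg _) h0
    have h2 := congrFun h1 j₀
    have h3 : θ' j₀ = 1 := by
      have : (⟨l' j₀, hls' j₀⟩ : Algebra.adjoin K s) = 1 := Subtype.ext hj₀
      rw [hθ']; simp only [this, map_one]
    rw [h3] at h2
    exact one_ne_zero h2

end Pool.Agent.SGL
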