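import Pool.Agent.SGL.Stmts

namespace Pool.Agent.SGL

namespace UA5_

/-- a monomial in the elements of S -/
noncomputable def mn {F : Type} [Field F] (S : Finset F) (e : S → ℕ) : F :=
  ∏ i : S, (i : F) ^ (e i)

/-- the span of the monomials of degree at most D -/
def W {F : Type} [Field F] (K : Subfield F) (S : Finset F) (D : ℕ) : Submodule K F :=
  Submodule.span K {x | ∃ e : S → ℕ, (∑ i, e i) ≤ D ∧ x = mn S e}

variable {F : Type} [Field F] (K : Subfield F) (S : Finset F)

theorem mn_mem (D : ℕ) (e : S → ℕ) (h : (∑ i, e i) ≤ D) : mn S e ∈ W K S D :=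
  Submodule.subset_span ⟨e, h, rfl⟩

theorem W_mono {D E : ℕ} (h : D ≤ E) : W K S D ≤ W K S E := by
  apply Submodule.span_mono
  rintro x ⟨e, he, rfl⟩
  exact ⟨e, he.trans h, rfl⟩

theorem mn_add (e e' : S → ℕ) : mn S (e + e') = mn S e * mn S e' := by
  unfold mn
  rw [← Finset.prod_mul_distrib]
  refine Finset.prod_congr rfl fun i _ => ?_
  rw [Pi.add_apply, pow_add]

theorem W_mul {D E : ℕ} {x y : F} (hx : x ∈ W K S D) (hy : y ∈ W K S E) :
    x * y ∈ W K S (D + E) := by
  unfold W at hx
  induction hx using Submodule.span_induction with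
  | mem x hx =>
    obtain ⟨e, he, rfl⟩ := hx
    unfold W at hy
    induction hy using Submodule.span_induction with
    | mem y hy =>
      obtain ⟨e', he', rfl⟩ := hy
      rw [← mn_add]
      apply mn_mem
      simp only [Pi.add_apply, Finset.sum_add_distrib]
      omega
    | zero => rw [mul_zero]; exact Submodule.zero_mem _
    | add y z _ _ hy hz => rw [mul_add]; exact Submodule.add_mem _ hy hz
    | smul a y _ hy => rw [mul_smul_comm]; exact Submodule.smul_mem _ a hy
  | zero => rw [zero_mul]; exact Submodule.zero_mem _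
  | add y z _ _ hy hz => rw [add_mul]; exact Submodule.add_mem _ hy hz
  | smul a y _ hy => rw [smul_mul_assoc]; exact Submodule.smul_mem _ a hy

theorem one_mem : (1 : F) ∈ W K S 0 := by
  have h := mn_mem K S 0 (fun _ => 0) (by simp)
  have h1 : mn S (fun _ => 0) = (1 : F) := by simp [mn]
  rwa [h1] at h

theorem el_mem {f : F} (hf : f ∈ S) : f ∈ W K S 1 := by
  classical
  have h := mn_mem K S 1 (Pi.single ⟨f, hf⟩ 1) (by simp)
  have h1 : mn S (Pi.single ⟨f, hf⟩ 1) = f := by
    unfold mn
    rw [Finset.prod_eq_single ⟨f, hf⟩]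
    · simp
    · intro b _ hb
      rw [Pi.single_eq_of_ne hb, pow_zero]
    · simp
  rwa [h1] at h

theorem pow_mem {f : F} (hf : f ∈ S) (n : ℕ) : f ^ n ∈ W K S n := by
  induction n with
  | zero => rw [pow_zero]; exact one_mem K S
  | succ n ih => rw [pow_succ]; exact W_mul K S ih (el_mem K S hf)

theorem adj {f : F} (hf : f ∈ S) (h0 : f ≠ 0) (x : F)
    (hx : x ∈ Algebra.adjoin K ((fun g => g / f) '' (S : Set F) ∪ {f⁻¹})) :
    ∃ N : ℕ, f ^ N * x ∈ W K S N := by
  induction hx using Algebra.adjoin_induction with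
  | mem x hx =>
    refine ⟨1, ?_⟩
    rcases hx with ⟨g, hg, rfl⟩ | hx
    · have h : f ^ 1 * (g / f) = g := by rw [pow_one]; field_simp
      show f ^ 1 * (g / f) ∈ W K S 1
      rw [h]
      exact el_mem K S hg
    · rw [Set.mem_singleton_iff] at hx
      have h : f ^ 1 * x = 1 := by rw [hx, pow_one]; field_simp
      rw [h]
      exact W_mono K S (Nat.zero_le 1) (one_mem K S)
  | algebraMap r =>
    refine ⟨0, ?_⟩
    rw [pow_zero, one_mul, Algebra.algebraMap_eq_smul_one]
    exact Submodule.smul_mem _ r (one_mem K S)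
  | add x y _ _ hx hy =>
    obtain ⟨N, hN⟩ := hx
    obtain ⟨M, hM⟩ := hy
    refine ⟨N + M, ?_⟩
    have h : f ^ (N + M) * (x + y) = f ^ M * (f ^ N * x) + f ^ N * (f ^ M * y) := by
      rw [pow_add]; ring
    rw [h]
    refine Submodule.add_mem _ ?_ ?_
    · have := W_mul K S (pow_mem K S hf M) hN
      rwa [add_comm M N] at this
    · exact W_mul K S (pow_mem K S hf N) hM
  | mul x y _ _ hx hy =>
    obtain ⟨N, hN⟩ := hx
    obtain ⟨M, hM⟩ := hy
    refine ⟨N + M, ?_⟩
    have h : f ^ (N + M) * (x * y) = (f ^ N * x) * (f ^ M * y) := by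
      rw [pow_add]; ring
    rw [h]
    exact W_mul K S hN hM

theorem key (N : ℕ) (hN : ∀ f ∈ S, f ^ (N + 1) ∈ W K S N) :
    ∀ D : ℕ, ∀ e : S → ℕ, (∑ i, e i) ≤ D → mn S e ∈ W K S (N * S.card) := by
  classical
  intro D
  induction D with
  | zero => intro e he; exact W_mono K S (Nat.zero_le _) (mn_mem K S 0 e he)
  | succ D ih =>
    intro e he
    have hW : W K S D ≤ W K S (N * S.card) := by
      unfold W
      rw [Submodule.span_le]
      rintro x ⟨e', he', rfl⟩
      exact ih e' he'
    by_cases hs : (∑ i, e i) ≤ N * S.card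
    · exact mn_mem K S _ e hs
    · have hex : ∃ i : S, N + 1 ≤ e i := by
        by_contra hcon
        push Not at hcon
        apply hs
        calc (∑ i, e i) ≤ ∑ _i : S, N := Finset.sum_le_sum fun i _ => by have := hcon i; omega
          _ = N * S.card := by simp [mul_comm]
      obtain ⟨i, hi⟩ := hex
      have hdec : e = Pi.single i (N + 1) + (e - Pi.single i (N + 1)) := by
        funext j
        by_cases hj : j = i
        · subst hj
          simp only [Pi.add_apply, Pi.sub_apply, Pi.single_eq_same]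
          omega
        · simp [Pi.single_eq_of_ne hj]
      have h1 : mn S (Pi.single i (N + 1)) = (i : F) ^ (N + 1) := by
        unfold mn
        rw [Finset.prod_eq_single i]
        · simp
        · intro b _ hb
          rw [Pi.single_eq_of_ne hb, pow_zero]
        · simp
      have hsum : (∑ j, e j) = (N + 1) + ∑ j, (e - Pi.single i (N + 1) : S → ℕ) j := by
        conv_lhs => rw [hdec]
        simp only [Pi.add_apply, Finset.sum_add_distrib]
        congr 1
        simp
      have h2 : mn S e ∈ W K S (N + ∑ j, (e - Pi.single i (N + 1) : S → ℕ) j) := by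
        have h3 : mn S e = (i : F) ^ (N + 1) * mn S (e - Pi.single i (N + 1)) := by
          conv_lhs => rw [hdec]
          rw [mn_add, h1]
        rw [h3]
        exact W_mul K S (hN i i.2) (mn_mem K S _ _ le_rfl)
      exact hW (W_mono K S (by omega) h2)

theorem fin (D : ℕ) : (W K S D).FG := by
  classical
  have hfin : {x : F | ∃ e : S → ℕ, (∑ i, e i) ≤ D ∧ x = mn S e}.Finite := by
    have h1 : {e : S → ℕ | (∑ i, e i) ≤ D}.Finite := by
      apply Set.Finite.subset (Set.finite_Iic (fun _ : S => D))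
      intro e he i
      exact (Finset.single_le_sum (f := e) (fun j _ => Nat.zero_le _) (Finset.mem_univ i)).trans he
    apply (h1.image (mn S)).subset
    rintro x ⟨e, he, rfl⟩
    exact ⟨e, he, rfl⟩
  exact Submodule.fg_span hfin

end UA5_

open UA5_ in
theorem ua5_proof : Stmt_UA5 := by
  classical
  intro F _ K S h0 hS f hf
  have h1 : ∀ f ∈ S, ∃ N : ℕ, f ^ (N + 1) ∈ W K S N := by
    intro f hf
    obtain ⟨N, hN⟩ := adj K S hf (h0 f hf) f (hS f hf)
    exact ⟨N, by rwa [pow_succ]⟩
  choose! n hn using h1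
  have h2 : ∃ N : ℕ, ∀ f ∈ S, f ^ (N + 1) ∈ W K S N := by
    refine ⟨S.sup n, fun f hf => ?_⟩
    have hle : n f ≤ S.sup n := Finset.le_sup hf
    obtain ⟨k, hk⟩ := Nat.exists_eq_add_of_le hle
    rw [hk, show n f + k + 1 = k + (n f + 1) by ring, pow_add]
    have := W_mul K S (pow_mem K S hf k) (hn f hf)
    rwa [add_comm k (n f)] at this
  obtain ⟨N, hN⟩ := h2
  have h3 : ∀ D, W K S D ≤ W K S (N * S.card) := by
    intro D
    unfold W
    rw [Submodule.span_le]
    rintro x ⟨e, he, rfl⟩
    exact key K S N hN D e he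
  have h4 : Subalgebra.toSubmodule (Algebra.adjoin K (S : Set F)) ≤ W K S (N * S.card) := by
    intro x hx
    rw [Subalgebra.mem_toSubmodule] at hx
    have : ∃ D, x ∈ W K S D := by
      induction hx using Algebra.adjoin_induction with
      | mem x hx => exact ⟨1, el_mem K S hx⟩
      | algebraMap r =>
        refine ⟨0, ?_⟩
        rw [Algebra.algebraMap_eq_smul_one]
        exact Submodule.smul_mem _ r (one_mem K S)
      | add x y _ _ hx hy =>
        obtain ⟨D, hD⟩ := hx
        obtain ⟨E, hE⟩ := hy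
        exact ⟨D + E, Submodule.add_mem _ (W_mono K S (by omega) hD) (W_mono K S (by omega) hE)⟩
      | mul x y _ _ hx hy =>
        obtain ⟨D, hD⟩ := hx
        obtain ⟨E, hE⟩ := hy
        exact ⟨D + E, W_mul K S hD hE⟩
    obtain ⟨D, hD⟩ := this
    exact h3 D hD
  have : Module.Finite K (W K S (N * S.card)) := Module.Finite.iff_fg.2 (fin K S _)
  have h5 : (Subalgebra.toSubmodule (Algebra.adjoin K (S : Set F))).FG := by
    rw [← Module.Finite.iff_fg]
    exact Submodule.finiteDimensional_of_le h4
  exact (IsIntegral.of_mem_of_fg (Algebra.adjoin K (S : Set F)) h5 f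
    (Algebra.subset_adjoin hf)).isAlgebraic

end Pool.Agent.SGL
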