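import Pool.Agent.SGL.Stmts

/-!
# SGL UA6: the unit theorem
-/

set_option autoImplicit false

namespace Pool.Agent.SGL

open Filter Pool.Agent.SBT

namespace UA6_

variable {F : Type} [Field F]

lemma mem_adj_of_mem {K : Subfield F} {s : Set F} {x : F} (h : x ∈ s) :
    x ∈ Algebra.adjoin K s := Algebra.subset_adjoin h

end UA6_

open UA6_ in
theorem ua6_proof (hRGE : Stmt_RGE) (hUA4 : Stmt_UA4) (hUA5 : Stmt_UA5) : Stmt_UA6 := by
  classical
  intro F _ _ K L M hKL hKM hLD hac x hx0 hx hx'
  obtain ⟨-, hR2, -, -⟩ := hRGE F K L M hKL hKM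
  obtain ⟨d, m, α, hm, him, hα, hxa⟩ := hR2 1 (fun _ => x) (fun _ => hx)
  obtain ⟨e, m', β, hm', him', hβ, hxb⟩ := hR2 1 (fun _ => x⁻¹) (fun _ => hx')
  set l : Fin d → F := α 0 with hl
  set l' : Fin e → F := β 0 with hl'
  have hlL : ∀ i, l i ∈ L := hα 0
  have hlL' : ∀ j, l' j ∈ L := hβ 0
  have hx1 : x = ∑ i, l i * m i := hxa 0
  have hx2 : x⁻¹ = ∑ j, l' j * m' j := hxb 0
  obtain ⟨i₀, hi₀⟩ : ∃ i, l i ≠ 0 := by
    by_contra h
    push Not at h
    apply hx0
    rw [hx1]
    exact Finset.sum_eq_zero fun i _ => by rw [h i, zero_mul]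
  obtain ⟨j₀, hj₀⟩ : ∃ j, l' j ≠ 0 := by
    by_contra h
    push Not at h
    apply inv_ne_zero hx0
    rw [hx2]
    exact Finset.sum_eq_zero fun i _ => by rw [h i, zero_mul]
  set S : Finset F := (Finset.image (fun p : Fin d × Fin e => l p.1 * l' p.2)
    Finset.univ).filter (fun f => f ≠ 0) with hS
  have hmemS : ∀ i j, l i ≠ 0 → l' j ≠ 0 → l i * l' j ∈ S := by
    intro i j hi hj
    rw [hS, Finset.mem_filter, Finset.mem_image]
    exact ⟨⟨(i, j), Finset.mem_univ _, rfl⟩, mul_ne_zero hi hj⟩
  have hSalg : ∀ f ∈ S, IsAlgebraic K f := by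
    apply hUA5 F K S
    · intro f hf
      rw [hS, Finset.mem_filter] at hf
      exact hf.2
    · intro f hf
      rw [hS, Finset.mem_filter, Finset.mem_image] at hf
      obtain ⟨⟨⟨i, j⟩, -, hfe⟩, hf0⟩ := hf
      simp only at hfe
      have hi : l i ≠ 0 := by
        intro h
        apply hf0
        rw [← hfe, h, zero_mul]
      have hj : l' j ≠ 0 := by
        intro h
        apply hf0
        rw [← hfe, h, mul_zero]
      have key := hUA4 F K L M hKL hKM hLD hac d e (fun t => l t / l i) m
        (fun t => l' t / l' j) m' (f⁻¹) i j (fun t => L.div_mem (hlL t) (hlL i))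
        (fun t => L.div_mem (hlL' t) (hlL' j)) hm hm' him him' (div_self hi) (div_self hj)
        (by
          rw [← hfe]
          exact L.inv_mem (L.mul_mem (hlL i) (hlL' j))) (inv_ne_zero hf0) (by
          have h1 : ∑ t, l t / l i * m t = x / l i := by
            rw [hx1, Finset.sum_div]
            exact Finset.sum_congr rfl fun t _ => by ring
          have h2 : ∑ t, l' t / l' j * m' t = x⁻¹ / l' j := by
            rw [hx2, Finset.sum_div]
            exact Finset.sum_congr rfl fun t _ => by ring
          rw [h1, h2, ← hfe]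
          field_simp)
      rw [inv_inv] at key
      refine (Algebra.adjoin_le (S := Algebra.adjoin K
        ((fun g => g / f) '' (S : Set F) ∪ {f⁻¹})) ?_) key
      rintro y ((⟨t, rfl⟩ | ⟨t, rfl⟩) | hy)
      · by_cases ht : l t = 0
        · simp only [ht, zero_div]
          exact Subalgebra.zero_mem _
        · apply Algebra.subset_adjoin
          left
          refine ⟨l t * l' j, hmemS t j ht hj, ?_⟩
          simp only [← hfe]
          field_simp
      · by_cases ht : l' t = 0
        · simp only [ht, zero_div]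
          exact Subalgebra.zero_mem _
        · apply Algebra.subset_adjoin
          left
          refine ⟨l i * l' t, hmemS i t hi ht, ?_⟩
          simp only [← hfe]
          field_simp
      · apply Algebra.subset_adjoin
        right
        exact hy
  refine ⟨l i₀, hlL i₀, ∑ i, (l i / l i₀) * m i, ?_, ?_⟩
  · apply Subfield.sum_mem
    intro i _
    apply Subfield.mul_mem
    · apply (le_sup_right : ac K L ≤ M ⊔ ac K L)
      rw [mem_ac]
      refine ⟨?_, L.div_mem (hlL i) (hlL i₀)⟩
      by_cases hi : l i = 0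
      · rw [hi, zero_div]
        exact isAlgebraic_zero
      · have h1 := hSalg _ (hmemS i j₀ hi hj₀)
        have h2 := hSalg _ (hmemS i₀ j₀ hi₀ hj₀)
        have h3 : l i / l i₀ = (l i * l' j₀) * (l i₀ * l' j₀)⁻¹ := by
          field_simp
        rw [h3]
        exact h1.mul h2.inv
    · exact (le_sup_left : M ≤ M ⊔ ac K L) (hm i)
  · rw [hx1, Finset.mul_sum]
    apply Finset.sum_congr rfl
    intro i _
    field_simp

end Pool.Agent.SGL
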