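import Pool.Agent.SGL.Stmts

/-!
# Squad SGL, module UA7: the three term relation
-/

set_option autoImplicit false

namespace Pool.Agent.SGL

theorem ua7_proof : Stmt_UA7 := by
  classical
  intro F _ K L M hKL hKM h l hl l' hl' m hm m' hm' hrel
  by_cases hlK : l ∈ K
  · exact Or.inr (M.mul_mem (hKM hlK) hm)
  -- `1, l` are independent
  have h1 : Ind K ![(1 : F), l] := by
    intro κ hκ hs
    rw [Fin.sum_univ_two] at hs
    simp only [Matrix.cons_val_zero, Matrix.cons_val_one, mul_one] at hs
    have h2 : κ 1 = 0 := by
      by_contra h3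
      apply hlK
      have h4 : l = -κ 0 * (κ 1)⁻¹ := by
        field_simp
        linear_combination hs
      rw [h4]
      exact K.mul_mem (K.neg_mem (hκ 0)) (K.inv_mem (hκ 1))
    have h3 : κ 0 = 0 := by
      rw [h2, zero_mul, add_zero] at hs
      exact hs
    funext i
    fin_cases i
    · exact h3
    · exact h2
  by_cases h2 : ∃ α ∈ K, ∃ β ∈ K, l' = α + β * l
  · obtain ⟨α, hα, β, hβ, rfl⟩ := h2
    have h3 := h 2 ![(1 : F), l] ![α * m' - 1, m + β * m'] (by
      intro i
      fin_cases i
      · exact L.one_mem
      · exact hl) (by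
      intro i
      fin_cases i
      · exact M.sub_mem (M.mul_mem (hKM hα) hm') M.one_mem
      · exact M.add_mem hm (M.mul_mem (hKM hβ) hm')) h1 (by
      rw [Fin.sum_univ_two]
      simp only [Matrix.cons_val_zero, Matrix.cons_val_one]
      linear_combination hrel)
    have h4 : α * m' - 1 = 0 := congrFun h3 0
    have h5 : α ≠ 0 := by
      rintro rfl
      rw [zero_mul, zero_sub, neg_eq_zero] at h4
      exact one_ne_zero h4
    have h6 : m' = α⁻¹ := by
      field_simp
      linear_combination h4
    left
    have h7 : l * m = 1 - (α + β * l) * m' := by linear_combination hrel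
    rw [h7, h6]
    exact L.sub_mem L.one_mem (L.mul_mem hl' (L.inv_mem (hKL hα)))
  · exfalso
    have h3 : Ind K ![(1 : F), l, l'] := by
      intro κ hκ hs
      rw [Fin.sum_univ_three] at hs
      have e0 : ![(1 : F), l, l'] 0 = 1 := rfl
      have e1 : ![(1 : F), l, l'] 1 = l := rfl
      have e2 : ![(1 : F), l, l'] 2 = l' := rfl
      rw [e0, e1, e2, mul_one] at hs
      have h4 : κ 2 = 0 := by
        by_contra h5
        apply h2
        refine ⟨-κ 0 * (κ 2)⁻¹, K.mul_mem (K.neg_mem (hκ 0)) (K.inv_mem (hκ 2)),
          -κ 1 * (κ 2)⁻¹, K.mul_mem (K.neg_mem (hκ 1)) (K.inv_mem (hκ 2)), ?_⟩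
        field_simp
        linear_combination hs
      rw [h4, zero_mul, add_zero] at hs
      have h5 := h1 ![κ 0, κ 1] (by
        intro i
        fin_cases i
        · exact hκ 0
        · exact hκ 1) (by
        rw [Fin.sum_univ_two]
        simp only [Matrix.cons_val_zero, Matrix.cons_val_one, mul_one]
        exact hs)
      funext i
      fin_cases i
      · exact congrFun h5 0
      · exact congrFun h5 1
      · exact h4
    have h4 := h 3 ![(1 : F), l, l'] ![-1, m, m'] (by
      intro i
      fin_cases i
      · exact L.one_mem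
      · exact hl
      · exact hl') (by
      intro i
      fin_cases i
      · exact M.neg_mem M.one_mem
      · exact hm
      · exact hm') h3 (by
      rw [Fin.sum_univ_three]
      show (1 : F) * (-1) + l * m + l' * m' = 0
      linear_combination hrel)
    have h5 : (-1 : F) = 0 := congrFun h4 0
    rw [neg_eq_zero] at h5
    exact one_ne_zero h5

end Pool.Agent.SGL
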