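import Pool.Agent.SGL.Stmts

/-!
# Squad SGL, module UEQ: the unit equation
-/

set_option autoImplicit false

namespace Pool.Agent.SGL

namespace UEQ_

variable {F : Type} [Field F]

theorem alg_mono {K E : Subfield F} (hKE : K ≤ E) {x : F}
    (hx : IsAlgebraic K x) : IsAlgebraic E x := by
  let _ : Algebra K E := (Subfield.inclusion hKE).toAlgebra
  have : IsScalarTower K E F := IsScalarTower.of_algebraMap_eq (fun _ => rfl)
  exact hx.extendScalars (algebraMap K E).injective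

theorem le_ac {K B : Subfield F} (h : K ≤ B) : K ≤ ac K B := by
  intro x hx
  rw [mem_ac]
  exact ⟨isAlgebraic_algebraMap (⟨x, hx⟩ : K), h hx⟩

theorem Rg_mono {A A' B : Subfield F} (h : A ≤ A') : Rg A B ≤ Rg A' B := by
  apply Subring.closure_mono
  apply Set.union_subset_union_left
  exact h

theorem mem_right {A B : Subfield F} {x : F} (h : x ∈ B) : x ∈ Rg A B :=
  Subring.subset_closure (Or.inr h)

end UEQ_

open UEQ_ in
theorem ueq_proof (_hLDS : Stmt_LDS) (hTWR : Stmt_TWR) (hUA1 : Stmt_UA1) (hUA6 : Stmt_UA6)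
    (hUA7 : Stmt_UA7) : Stmt_UEQ := by
  intro F _ _ K L M hKL hKM hLD x hx0 hx1 hx hxi hxi'
  obtain ⟨a1, a2, a3, a4, a5⟩ := hUA1 F K L M hKL hKM hLD
  set K₁ := ac K M with hK₁
  set L₁ := L ⊔ K₁ with hL₁
  have b1 : K₁ ≤ L₁ := le_sup_right
  have b2 : Rg L M ≤ Rg L₁ M := Rg_mono le_sup_left
  obtain ⟨l, hl, m, hm, e1⟩ := hUA6 F K₁ L₁ M b1 a2 a3 a4 x hx0 (b2 hx) (b2 hxi)
  have hx1' : 1 - x ≠ 0 := fun h => hx1 (sub_eq_zero.1 h).symm
  obtain ⟨l', hl', m', hm', e2⟩ := hUA6 F K₁ L₁ M b1 a2 a3 a4 (1 - x) hx1'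
    ((Rg L₁ M).sub_mem (Rg L₁ M).one_mem (b2 hx)) (b2 hxi')
  set K₂ := ac K₁ L₁ with hK₂
  have c1 : K₁ ≤ K₂ := le_ac b1
  have c2 : K₂ ≤ L₁ := fun y hy => (mem_ac.1 hy).2
  have c3 : LDj K₂ L₁ (K₂ ⊔ M) := hTWR F K₁ K₂ L₁ M c1 c2 a2 a3
  rw [sup_comm] at hm hm'
  have h1 : l * m + l' * m' = 1 := by
    rw [← e1, ← e2]
    ring
  rcases hUA7 F K₂ L₁ (K₂ ⊔ M) c2 le_sup_left c3 l hl l' hl' m hm m' hm' h1 with h | h
  · left
    rw [← e1] at h
    exact a5 x h
  · right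
    rw [← e1] at h
    have h3 : K₂ ⊔ M ≤ (algebraicClosure M F).toSubfield := by
      apply sup_le
      · intro y hy
        show y ∈ algebraicClosure M F
        rw [mem_algebraicClosure_iff]
        exact alg_mono a2 (mem_ac.1 hy).1
      · intro y hy
        show y ∈ algebraicClosure M F
        rw [mem_algebraicClosure_iff]
        exact isAlgebraic_algebraMap (⟨y, hy⟩ : M)
    have h4 : x ∈ algebraicClosure M F := h3 h
    exact mem_algebraicClosure_iff.1 h4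

end Pool.Agent.SGL
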